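import Pool.Agent.H2.MR.Defs
import Pool.Agent.H43.ZS.WB
import Pool.Agent.H43.ZS.Shift

/-!
# [H2 MR ZP] Sums of `m^(-it)` with a power saving

PROOF. `t → -t` is complex conjugation, so `t > 0`. For `N < 8` the bound is trivial (`C` large). Let `κ = log t/log N ∈ [1/2, K]`, `k = ⌈3κ⌉₊`, `2 ≤ k ≤ 3K+1`,
`N^((k-1)/3) < t ≤ N^(k/3)`, `N ≤ t²`. `ni t m = exp(-(t log m) I)`. `H43.ZS.shift` with `β = 0`, `A = ⌊N^(1/3)⌋₊` (`2A² ≤ N` for `N ≥ 8`) and `H43.ZS.wb`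
(for `m ∈ (N, 2N]`, `W ≤ A² exp(C k³)(1 + log N) N^(-c/k²)`): the sum is at most
`N exp(C k³)(1 + log N) N^(-c/k²) + 2 N^(2/3) + N t (A²/N)^(k+1)`, and `t (A²/N)^(k+1) ≤ N^(k/3) N^(-(k+1)/3) = N^(-1/3)`. With `k ≤ 3K+1`:
`exp(C k³) ≤ exp(C (3K+1)³)`, `N^(-c/k²) ≤ N^(-c')`, `c' = c/(3K+1)²`, `1 + log N ≤ (3/c') N^(c'/2)`. Take `c = min(c'/2, 1/3, 1/8)`.
-/

namespace Pool.H2.MR

open Finset

private theorem zp_ev (X c0 : ℝ) (hc0 : 0 < c0) : ∃ N1 : ℕ, ∀ N : ℕ, N1 ≤ N →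
    X * (1 + Real.log N) * (N : ℝ) ^ (-c0) + 3 * (N : ℝ) ^ (-(1 / 3 : ℝ)) ≤
      (N : ℝ) ^ (-(min (c0 / 2) (1 / 8))) := by
  have h1 : Filter.Tendsto (fun N : ℕ => X * ((N : ℝ) ^ (-(c0 / 2)) +
      Real.log N * (N : ℝ) ^ (-(c0 / 2)))) Filter.atTop (nhds (X * (0 + 0))) := by
    apply Filter.Tendsto.const_mul
    apply Filter.Tendsto.add
    · exact (tendsto_rpow_neg_atTop (by positivity)).comp tendsto_natCast_atTop_atTop
    · have h2 : Filter.Tendsto (fun x : ℝ => Real.log x * x ^ (-(c0 / 2))) Filter.atTop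
          (nhds 0) := by
        have h3 := (isLittleO_log_rpow_atTop (show 0 < c0 / 2 by positivity)).tendsto_div_nhds_zero
        refine h3.congr' ?_
        filter_upwards [Filter.eventually_gt_atTop 0] with x hx
        rw [Real.rpow_neg hx.le, div_eq_mul_inv]
      exact h2.comp tendsto_natCast_atTop_atTop
  have h2 : Filter.Tendsto (fun N : ℕ => 3 * (N : ℝ) ^ (-(5 / 24 : ℝ))) Filter.atTop
      (nhds (3 * 0)) := by
    apply Filter.Tendsto.const_mul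
    exact (tendsto_rpow_neg_atTop (by norm_num)).comp tendsto_natCast_atTop_atTop
  have h3 := h1.eventually (ge_mem_nhds (show X * (0 + 0) < 1 / 2 by norm_num))
  have h4 := h2.eventually (ge_mem_nhds (show (3 : ℝ) * 0 < 1 / 2 by norm_num))
  obtain ⟨N1, hN1⟩ := Filter.eventually_atTop.1 (h3.and h4)
  refine ⟨max N1 1, fun N hN => ?_⟩
  obtain ⟨h5, h6⟩ := hN1 N ((le_max_left _ _).trans hN)
  have hN0 : 1 ≤ N := (le_max_right _ _).trans hN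
  have hN1' : (1 : ℝ) ≤ N := by exact_mod_cast hN0
  have hNp : (0 : ℝ) < N := by linarith
  have e1 : (N : ℝ) ^ (-c0) = (N : ℝ) ^ (-(c0 / 2)) * (N : ℝ) ^ (-(c0 / 2)) := by
    rw [← Real.rpow_add hNp]
    congr 1
    ring
  have e2 : (N : ℝ) ^ (-(1 / 3 : ℝ)) = (N : ℝ) ^ (-(5 / 24 : ℝ)) * (N : ℝ) ^ (-(1 / 8 : ℝ)) := by
    rw [← Real.rpow_add hNp]
    congr 1
    norm_num
  have a1 : (N : ℝ) ^ (-(c0 / 2)) ≤ (N : ℝ) ^ (-(min (c0 / 2) (1 / 8))) :=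
    Real.rpow_le_rpow_of_exponent_le hN1' (neg_le_neg (min_le_left _ _))
  have a2 : (N : ℝ) ^ (-(1 / 8 : ℝ)) ≤ (N : ℝ) ^ (-(min (c0 / 2) (1 / 8))) :=
    Real.rpow_le_rpow_of_exponent_le hN1' (neg_le_neg (min_le_right _ _))
  have p1 : 0 ≤ (N : ℝ) ^ (-(c0 / 2)) := by positivity
  have p2 : 0 ≤ (N : ℝ) ^ (-(1 / 8 : ℝ)) := by positivity
  rw [e1, e2]
  have b1 : X * (1 + Real.log N) * ((N : ℝ) ^ (-(c0 / 2)) * (N : ℝ) ^ (-(c0 / 2))) ≤
      1 / 2 * (N : ℝ) ^ (-(c0 / 2)) := by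
    have := mul_le_mul_of_nonneg_right h5 p1
    linarith
  have b2 : 3 * ((N : ℝ) ^ (-(5 / 24 : ℝ)) * (N : ℝ) ^ (-(1 / 8 : ℝ))) ≤
      1 / 2 * (N : ℝ) ^ (-(1 / 8 : ℝ)) := by
    have := mul_le_mul_of_nonneg_right h6 p2
    linarith
  linarith

private theorem zp_b (K : ℕ) : ∃ c' : ℝ, 0 < c' ∧ c' ≤ 1 / 8 ∧ ∃ N1 : ℕ, ∀ N : ℕ, N1 ≤ N →
    ∀ (N' : ℕ) (s : ℝ), N' ≤ 2 * N → (N : ℝ) ^ ((1 : ℝ) / 2) ≤ s → s ≤ (N : ℝ) ^ K →
    ‖∑ n ∈ Ioc N N', Complex.exp (-(s * Real.log (n : ℝ) : ℝ) * Complex.I)‖ ≤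
      N * (N : ℝ) ^ (-c') := by
  obtain ⟨C, c, hC, hc, hwb⟩ := Pool.Agent.H43.ZS.wb
  set k1 : ℕ := 3 * K + 1 with hk1
  have hk1p : (0 : ℝ) < k1 := by
    rw [hk1]
    positivity
  obtain ⟨N1, hN1⟩ := zp_ev (Real.exp (C * (k1 : ℝ) ^ 3)) (c / (k1 : ℝ) ^ 2) (by positivity)
  refine ⟨min (c / (k1 : ℝ) ^ 2 / 2) (1 / 8), lt_min (by positivity) (by norm_num),
    min_le_right _ _, max N1 8, fun N hN N' s hN' hs1 hs2 => ?_⟩
  have hev := hN1 N ((le_max_left _ _).trans hN)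
  have hN8 : 8 ≤ N := (le_max_right _ _).trans hN
  have hN8' : (8 : ℝ) ≤ N := by exact_mod_cast hN8
  have hNp : (0 : ℝ) < N := by linarith
  have hN1' : (1 : ℝ) < N := by linarith
  have hlN : 0 < Real.log N := Real.log_pos hN1'
  have hs0 : 0 < s := lt_of_lt_of_le (by positivity) hs1
  have hls : 1 / 2 * Real.log N ≤ Real.log s := by
    rw [← Real.log_rpow hNp]
    exact Real.log_le_log (by positivity) hs1
  set k : ℕ := ⌈3 * Real.log s / Real.log N⌉₊ with hk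
  have hq3 : 3 / 2 ≤ 3 * Real.log s / Real.log N := by
    rw [le_div_iff₀ hlN]
    linarith
  have hkle : 3 * Real.log s / Real.log N ≤ k := Nat.le_ceil _
  have hklt : (k : ℝ) < 3 * Real.log s / Real.log N + 1 := Nat.ceil_lt_add_one (by linarith)
  have hk4 : 2 ≤ k := by
    have : (1 : ℝ) < k := by linarith
    have : 1 < k := by exact_mod_cast this
    omega
  have hkk1 : k ≤ k1 := by
    have h1 : 3 * Real.log s / Real.log N ≤ ((3 * K : ℕ) : ℝ) := by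
      rw [div_le_iff₀ hlN]
      have h2 : Real.log s ≤ K * Real.log N := by
        rw [← Real.log_pow]
        exact Real.log_le_log hs0 hs2
      push_cast
      linarith
    have h2 : k ≤ 3 * K := Nat.ceil_le.2 h1
    omega
  have hkk1' : (k : ℝ) ≤ k1 := by exact_mod_cast hkk1
  have hk0 : (0 : ℝ) < k := by
    have : 0 < k := by omega
    exact_mod_cast this
  have hsk1 : (N : ℝ) ^ (((k : ℝ) - 1) / 3) < s := by
    rw [← Real.log_lt_log_iff (by positivity) hs0, Real.log_rpow hNp]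
    have h1 : (k : ℝ) - 1 < 3 * Real.log s / Real.log N := by linarith
    rw [lt_div_iff₀ hlN] at h1
    linarith
  have hsk2 : s ≤ (N : ℝ) ^ ((k : ℝ) / 3) := by
    rw [← Real.log_le_log_iff hs0 (by positivity), Real.log_rpow hNp]
    rw [div_le_iff₀ hlN] at hkle
    linarith
  have hNs : (N : ℝ) ≤ s ^ 2 := by
    have h1 : ((N : ℝ) ^ ((1 : ℝ) / 2)) ^ 2 = (N : ℝ) := by
      rw [← Real.rpow_natCast, ← Real.rpow_mul hNp.le]
      norm_num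
    rw [← h1]
    exact pow_le_pow_left₀ (by positivity) hs1 2
  set A : ℕ := ⌊(N : ℝ) ^ ((1 : ℝ) / 3)⌋₊ with hA
  have hAx : (A : ℝ) ≤ (N : ℝ) ^ ((1 : ℝ) / 3) := Nat.floor_le (by positivity)
  have hA1 : 1 ≤ A := by
    rw [hA, Nat.one_le_floor_iff]
    exact Real.one_le_rpow hN1'.le (by norm_num)
  have hA1' : (1 : ℝ) ≤ A := by exact_mod_cast hA1
  have hA2 : (A : ℝ) ^ 2 ≤ (N : ℝ) ^ ((2 : ℝ) / 3) := by
    have h1 : ((N : ℝ) ^ ((1 : ℝ) / 3)) ^ 2 = (N : ℝ) ^ ((2 : ℝ) / 3) := by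
      rw [← Real.rpow_natCast, ← Real.rpow_mul hNp.le]
      norm_num
    rw [← h1]
    exact pow_le_pow_left₀ (by positivity) hAx 2
  have hN23 : (N : ℝ) ^ ((2 : ℝ) / 3) * (N : ℝ) ^ ((1 : ℝ) / 3) = N := by
    rw [← Real.rpow_add hNp]
    norm_num
  have hN13 : 2 ≤ (N : ℝ) ^ ((1 : ℝ) / 3) := by
    have h1 : (8 : ℝ) ^ ((1 : ℝ) / 3) = 2 := by
      rw [show (8 : ℝ) = 2 ^ (3 : ℝ) by norm_num, ← Real.rpow_mul (by norm_num)]
      norm_num
    rw [← h1]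
    exact Real.rpow_le_rpow (by norm_num) hN8' (by norm_num)
  have h2A : 2 * A ^ 2 ≤ N := by
    have h1 : 2 * (A : ℝ) ^ 2 ≤ N := by
      have h3 : 0 < (N : ℝ) ^ ((2 : ℝ) / 3) := by positivity
      nlinarith
    exact_mod_cast h1
  have hsh := Pool.Agent.H43.ZS.shift s 0 hs0.le le_rfl N N' A k (by omega) hA1 h2A hN'
  simp only [add_zero] at hsh
  refine hsh.trans ?_
  -- the main term
  have hW : ∀ m ∈ Ioc N N', ‖Pool.Agent.H43.ZS.W k A (Pool.Agent.H43.ZS.al k s 0 m)‖ ≤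
      (A : ℝ) ^ 2 * (Real.exp (C * (k1 : ℝ) ^ 3) * (1 + Real.log N) *
        (N : ℝ) ^ (-(c / (k1 : ℝ) ^ 2))) := by
    intro m hm
    rw [mem_Ioc] at hm
    have h1 := hwb k N s 0 m (by omega) (by omega) hsk1 hsk2 hNs hm.1 (hm.2.trans hN') le_rfl
      zero_le_one
    rw [← hA] at h1
    refine h1.trans ?_
    rw [mul_assoc, mul_assoc]
    refine mul_le_mul_of_nonneg_left ?_ (by positivity)
    rw [mul_assoc]
    have h2 : Real.exp (C * (k : ℝ) ^ 3) ≤ Real.exp (C * (k1 : ℝ) ^ 3) := by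
      apply Real.exp_le_exp.2
      exact mul_le_mul_of_nonneg_left (pow_le_pow_left₀ hk0.le hkk1' 3) hC.le
    have h3 : (N : ℝ) ^ (-(c / (k : ℝ) ^ 2)) ≤ (N : ℝ) ^ (-(c / (k1 : ℝ) ^ 2)) := by
      apply Real.rpow_le_rpow_of_exponent_le hN1'.le
      apply neg_le_neg
      exact div_le_div_of_nonneg_left hc.le (by positivity) (pow_le_pow_left₀ hk0.le hkk1' 2)
    exact mul_le_mul h2 (mul_le_mul_of_nonneg_left h3 (by linarith)) (by positivity)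
      (by positivity)
  have hS1 : (1 / (A : ℝ) ^ 2) * ∑ m ∈ Ioc N N',
      ‖Pool.Agent.H43.ZS.W k A (Pool.Agent.H43.ZS.al k s 0 m)‖ ≤
      N * (Real.exp (C * (k1 : ℝ) ^ 3) * (1 + Real.log N) *
        (N : ℝ) ^ (-(c / (k1 : ℝ) ^ 2))) := by
    have h1 := Finset.sum_le_sum hW
    rw [Finset.sum_const, Nat.card_Ioc, nsmul_eq_mul] at h1
    have h2 : ((N' - N : ℕ) : ℝ) ≤ N := by
      have : N' - N ≤ N := by omega
      exact_mod_cast this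
    have h3 : 0 ≤ (A : ℝ) ^ 2 * (Real.exp (C * (k1 : ℝ) ^ 3) * (1 + Real.log N) *
        (N : ℝ) ^ (-(c / (k1 : ℝ) ^ 2))) := by positivity
    have h4 := h1.trans (mul_le_mul_of_nonneg_right h2 h3)
    refine (mul_le_mul_of_nonneg_left h4 (by positivity)).trans (le_of_eq ?_)
    field_simp
  have hS2 : 2 * (A : ℝ) ^ 2 ≤ N * (2 * (N : ℝ) ^ (-(1 / 3 : ℝ))) := by
    have h1 : (N : ℝ) * (N : ℝ) ^ (-(1 / 3 : ℝ)) = (N : ℝ) ^ ((2 : ℝ) / 3) := by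
      nth_rewrite 1 [← Real.rpow_one (N : ℝ)]
      rw [← Real.rpow_add hNp]
      norm_num
    linarith
  have hS3 : N * s * ((A : ℝ) ^ 2 / N) ^ (k + 1) ≤ N * (N : ℝ) ^ (-(1 / 3 : ℝ)) := by
    have h1 : (A : ℝ) ^ 2 / N ≤ (N : ℝ) ^ (-(1 / 3 : ℝ)) := by
      rw [div_le_iff₀ hNp]
      refine hA2.trans (le_of_eq ?_)
      nth_rewrite 3 [← Real.rpow_one (N : ℝ)]
      rw [← Real.rpow_add hNp]
      norm_num
    have h2 : ((A : ℝ) ^ 2 / N) ^ (k + 1) ≤ (N : ℝ) ^ (-(((k : ℝ) + 1) / 3)) := by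
      refine (pow_le_pow_left₀ (by positivity) h1 (k + 1)).trans (le_of_eq ?_)
      rw [← Real.rpow_natCast, ← Real.rpow_mul hNp.le]
      congr 1
      push_cast
      ring
    rw [mul_assoc]
    refine mul_le_mul_of_nonneg_left ?_ hNp.le
    refine (mul_le_mul hsk2 h2 (by positivity) (by positivity)).trans (le_of_eq ?_)
    rw [← Real.rpow_add hNp]
    congr 1
    ring
  have h9 := mul_le_mul_of_nonneg_left hev hNp.le
  linarith

private theorem zp_ni (t : ℝ) (n : ℕ) (hn : 0 < n) :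
    ni t n = Complex.exp (-(t * Real.log (n : ℝ) : ℝ) * Complex.I) := by
  unfold ni
  have hn0 : (n : ℂ) ≠ 0 := by exact_mod_cast hn.ne'
  rw [Complex.cpow_def_of_ne_zero hn0, ← Complex.ofReal_natCast, ← Complex.ofReal_log (by positivity)]
  congr 1
  push_cast
  ring

private theorem zp_norm (N N' : ℕ) (t : ℝ) :
    ‖∑ m ∈ Ioc N N', ni t m‖ =
      ‖∑ n ∈ Ioc N N', Complex.exp (-(|t| * Real.log (n : ℝ) : ℝ) * Complex.I)‖ := by
  have h1 : ∑ m ∈ Ioc N N', ni t m =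
      ∑ n ∈ Ioc N N', Complex.exp (-(t * Real.log (n : ℝ) : ℝ) * Complex.I) := by
    apply Finset.sum_congr rfl
    intro n hn
    rw [mem_Ioc] at hn
    exact zp_ni t n (by omega)
  rw [h1]
  rcases le_total 0 t with h | h
  · rw [abs_of_nonneg h]
  · rw [abs_of_nonpos h, ← Complex.norm_conj, map_sum]
    congr 1
    apply Finset.sum_congr rfl
    intro n _
    rw [← Complex.exp_conj]
    congr 1
    rw [map_mul, Complex.conj_I]
    simp only [map_neg, Complex.conj_ofReal]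
    push_cast
    ring

theorem zp (K : ℕ) (hK : 1 ≤ K) : ∃ c C : ℝ, 0 < c ∧ c ≤ 1 / 8 ∧ 0 < C ∧ ∀ (N N' : ℕ) (t : ℝ), 1 ≤ N → N' ≤ 2 * N →
    (N : ℝ) ^ ((1 : ℝ) / 2) ≤ |t| → |t| ≤ (N : ℝ) ^ K →
    ‖∑ m ∈ Ioc N N', ni t m‖ ≤ C * (N : ℝ) ^ (1 - c) := by
  obtain ⟨c, hc0, hc8, N1, hN1⟩ := zp_b K
  refine ⟨c, N1 + 1, hc0, hc8, by positivity, fun N N' t hN hN' ht1 ht2 => ?_⟩
  have hN1' : (1 : ℝ) ≤ N := by exact_mod_cast hN
  have hNp : (0 : ℝ) < N := by linarith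
  have hp : 0 < (N : ℝ) ^ (1 - c) := by positivity
  have h1p : 1 ≤ (N : ℝ) ^ (1 - c) := Real.one_le_rpow hN1' (by linarith)
  have hN1c : (0 : ℝ) ≤ N1 := Nat.cast_nonneg _
  rcases le_or_gt N1 N with h | h
  · rw [zp_norm]
    have h1 := hN1 N h N' |t| hN' ht1 ht2
    have h2 : (N : ℝ) * (N : ℝ) ^ (-c) = (N : ℝ) ^ (1 - c) := by
      nth_rewrite 1 [← Real.rpow_one (N : ℝ)]
      rw [← Real.rpow_add hNp]
      congr 1
    rw [h2] at h1
    nlinarith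
  · have h1 : ‖∑ m ∈ Ioc N N', ni t m‖ ≤ N := by
      have h2 : ‖∑ m ∈ Ioc N N', ni t m‖ ≤ ∑ m ∈ Ioc N N', (1 : ℝ) := by
        apply norm_sum_le_of_le
        intro n hn
        rw [mem_Ioc] at hn
        rw [zp_ni t n (by omega)]
        have h3 : (-((t * Real.log (n : ℝ) : ℝ) : ℂ)) * Complex.I =
            ((-(t * Real.log (n : ℝ)) : ℝ) : ℂ) * Complex.I := by push_cast; ring
        rw [h3, Complex.norm_exp_ofReal_mul_I]
      rw [Finset.sum_const, Nat.card_Ioc, nsmul_eq_mul, mul_one] at h2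
      refine h2.trans ?_
      have : N' - N ≤ N := by omega
      exact_mod_cast this
    have h2 : (N : ℝ) ≤ N1 := by exact_mod_cast h.le
    nlinarith

end Pool.H2.MR
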