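import Pool.Agent.H2.MR.Add

/-!
# [H2 MR MRT] The qualitative theorem of Matomäki-Radziwiłł-Tao

PROOF. `add` with `ε/4`. For `N ≥ 1` let `S(N) = ∑_{n≤N} ‖∑_{j<H} f(n+j)‖ ≤ H N`. `S(N) ≤ S(⌊N/2⌋) + ∑_{X<n≤2X} + H` with `X = ⌊N/2⌋` (`N ≤ 2X+1`), so by strong induction `S(N) ≤ (ε/2) H N + H(X₀+1)·... + H (log₂ N + 1)`;
precisely `S(N) ≤ H X₀ + (ε/4) H (N/2 + N/4 + ...) + H (Nat.log 2 N + 1)`. For `N ≥ N₀` this is `≤ ε H N`. For `ε > 1` use `ε = 1`.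
-/

namespace Pool.H2.MR

open Finset

theorem mrt_log (N : ℕ) (hN : 1 ≤ N) : (Nat.log 2 N) ^ 2 ≤ 4 * N := by
  have h1 : 2 ^ Nat.log 2 N ≤ N := Nat.pow_log_le_self 2 (by omega)
  obtain ⟨l, hl⟩ : ∃ l, l = Nat.log 2 N := ⟨_, rfl⟩
  rw [← hl] at h1 ⊢
  have h2 : l / 2 < 2 ^ (l / 2) := Nat.lt_two_pow_self
  have h3 : l ≤ 2 * 2 ^ (l / 2) := by omega
  have h4 : l ^ 2 ≤ (2 * 2 ^ (l / 2)) ^ 2 := Nat.pow_le_pow_left h3 2
  have h5 : (2 * 2 ^ (l / 2)) ^ 2 = 4 * 2 ^ (2 * (l / 2)) := by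
    rw [mul_pow, ← pow_mul, mul_comm (l / 2) 2]
    norm_num
  have h6 : 2 ^ (2 * (l / 2)) ≤ 2 ^ l := Nat.pow_le_pow_right (by norm_num) (by omega)
  calc l ^ 2 ≤ 4 * 2 ^ (2 * (l / 2)) := by rw [← h5]; exact h4
    _ ≤ 4 * 2 ^ l := Nat.mul_le_mul_left _ h6
    _ ≤ 4 * N := Nat.mul_le_mul_left _ h1

theorem mrt_dy (g : ℕ → ℝ) (K e : ℝ) (X0 : ℕ) (hK : 0 ≤ K) (he : 0 ≤ e) (hg : ∀ n, g n ≤ K)
    (h : ∀ X : ℕ, X0 ≤ X → ∑ n ∈ Ioc X (2 * X), g n ≤ e * X) (N : ℕ) :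
    ∑ n ∈ Icc 1 N, g n ≤ K * (2 * X0 + 2) + e * N + K * Nat.log 2 N := by
  induction N using Nat.strong_induction_on with
  | _ N ih =>
    rcases Nat.lt_or_ge N (2 * X0 + 2) with hN | hN
    · have h1 : ∑ n ∈ Icc 1 N, g n ≤ ∑ n ∈ Icc 1 N, K := Finset.sum_le_sum fun n _ => hg n
      rw [Finset.sum_const, Nat.card_Icc, nsmul_eq_mul, Nat.add_sub_cancel] at h1
      have h2 : (N : ℝ) ≤ 2 * X0 + 2 := by exact_mod_cast hN.le
      have h3 : (N : ℝ) * K ≤ (2 * X0 + 2) * K := mul_le_mul_of_nonneg_right h2 hK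
      have h4 : 0 ≤ e * N := by positivity
      have h5 : 0 ≤ K * Nat.log 2 N := by positivity
      linarith
    · obtain ⟨X, hX⟩ : ∃ X, X = N / 2 := ⟨_, rfl⟩
      have hXN : X < N := by omega
      have h1 := ih X hXN
      have h2 := h X (by omega)
      have h3 : ∑ n ∈ Icc 1 N, g n ≤ ∑ n ∈ Icc 1 X, g n + ∑ n ∈ Ioc X (2 * X), g n + K := by
        have e1 : ∑ n ∈ Icc 1 (2 * X), g n = ∑ n ∈ Icc 1 X, g n + ∑ n ∈ Ioc X (2 * X), g n := by
          rw [← Finset.sum_union]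
          · apply Finset.sum_congr _ (fun _ _ => rfl)
            ext n
            simp only [Finset.mem_union, Finset.mem_Icc, Finset.mem_Ioc]
            omega
          · rw [Finset.disjoint_left]
            intro n hn hn'
            rw [Finset.mem_Icc] at hn
            rw [Finset.mem_Ioc] at hn'
            omega
        rcases Nat.even_or_odd' N with ⟨c, hc | hc⟩
        · have e2 : N = 2 * X := by omega
          rw [← e1, ← e2]
          linarith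
        · have e2 : N = 2 * X + 1 := by omega
          rw [← e1, e2, Finset.sum_Icc_succ_top (by omega)]
          have := hg (2 * X + 1)
          linarith
      have h4 : Nat.log 2 N = Nat.log 2 X + 1 := by
        rw [hX, Nat.log_div_base, Nat.sub_add_cancel]
        exact Nat.log_pos (by norm_num) (by omega)
      rw [h4]
      have h5 : (2 : ℝ) * X ≤ N := by
        have : 2 * X ≤ N := by omega
        exact_mod_cast this
      have h6 : e * (2 * X) ≤ e * N := mul_le_mul_of_nonneg_left h5 he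
      push_cast
      linarith

theorem mrt (ε : ℝ) (hε : 0 < ε) : ∃ H₀ : ℕ, ∀ H : ℕ, H₀ ≤ H → ∀ f : ℕ → ℂ, OB f → CondN1 f → ∃ N₀ : ℕ, ∀ N : ℕ, N₀ ≤ N →
    ∑ n ∈ Icc 1 N, ‖∑ j ∈ range H, f (n + j)‖ ≤ ε * H * N := by
  obtain ⟨e, he⟩ : ∃ e : ℝ, e = min 1 ε / 4 := ⟨_, rfl⟩
  have hm : 0 < min 1 ε := lt_min one_pos hε
  have he0 : 0 < e := by rw [he]; linarith
  have he1 : e ≤ 1 := by
    have := min_le_left 1 ε
    rw [he]; linarith
  have heε : 4 * e ≤ ε := by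
    have := min_le_right 1 ε
    rw [he]; linarith
  obtain ⟨H₀, hH₀⟩ := add e he0 he1
  refine ⟨H₀, ?_⟩
  intro H hH f hf hN
  obtain ⟨X₀, hX₀⟩ := hH₀ H hH f hf hN
  obtain ⟨N1, hN1⟩ := exists_nat_ge ((2 * (X₀ : ℝ) + 2) / e)
  obtain ⟨N2, hN2⟩ := exists_nat_ge (4 / e ^ 2)
  refine ⟨max (max N1 N2) 1, ?_⟩
  intro N hNN
  have n1 : (N1 : ℝ) ≤ N := by exact_mod_cast le_trans (le_trans (le_max_left _ _) (le_max_left _ _)) hNN
  have n2 : (N2 : ℝ) ≤ N := by exact_mod_cast le_trans (le_trans (le_max_right _ _) (le_max_left _ _)) hNN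
  have n3 : 1 ≤ N := le_trans (le_max_right _ _) hNN
  have n3r : (1 : ℝ) ≤ N := by exact_mod_cast n3
  have hg : ∀ n, ‖∑ j ∈ range H, f (n + j)‖ ≤ (H : ℝ) := by
    intro n
    refine (norm_sum_le _ _).trans ?_
    refine (Finset.sum_le_sum fun j _ => hf.bd (n + j)).trans ?_
    rw [Finset.sum_const, Finset.card_range, nsmul_eq_mul, mul_one]
  have hdy := mrt_dy (fun n => ‖∑ j ∈ range H, f (n + j)‖) H (e * H) X₀ (Nat.cast_nonneg _) (by positivity) hg hX₀ N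
  refine hdy.trans ?_
  have c1 : 2 * (X₀ : ℝ) + 2 ≤ e * N := by
    have h1 := (div_le_iff₀ he0).1 (hN1.trans n1)
    linarith
  have c2 : (Nat.log 2 N : ℝ) ≤ e * N := by
    by_contra hc
    push Not at hc
    have h1 : (Nat.log 2 N : ℝ) ^ 2 ≤ 4 * N := by exact_mod_cast mrt_log N n3
    have h2 : (e * N) ^ 2 < (Nat.log 2 N : ℝ) ^ 2 := pow_lt_pow_left₀ hc (by positivity) (by norm_num)
    have h3 : 4 ≤ N * e ^ 2 := (div_le_iff₀ (by positivity)).1 (hN2.trans n2)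
    have h4 : 4 * (N : ℝ) ≤ (N * e ^ 2) * N := mul_le_mul_of_nonneg_right h3 (by linarith)
    have h5 : (N * e ^ 2) * N = (e * N) ^ 2 := by ring
    linarith
  have hH0 : (0 : ℝ) ≤ H := Nat.cast_nonneg _
  have c3 : (H : ℝ) * (2 * X₀ + 2) ≤ H * (e * N) := mul_le_mul_of_nonneg_left c1 hH0
  have c4 : (H : ℝ) * Nat.log 2 N ≤ H * (e * N) := mul_le_mul_of_nonneg_left c2 hH0
  have c5 : 3 * e * (H * N) ≤ ε * (H * N) := mul_le_mul_of_nonneg_right (by linarith) (by positivity)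
  calc (H : ℝ) * (2 * X₀ + 2) + e * H * N + H * Nat.log 2 N ≤ H * (e * N) + e * H * N + H * (e * N) := by linarith
    _ = 3 * e * (H * N) := by ring
    _ ≤ ε * (H * N) := c5
    _ = ε * H * N := by ring

end Pool.H2.MR
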