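import Pool.Agent.H2.MR.Win

/-!
# [H2 MR ADD] Short additive windows

PROOF. `win` with `ε' = min(1, ε²/16)` gives `h₀`; `h = max h₀ 1`, `H₀` with `(9h + 9)/H₀ ≤ ε/4`. Let `H ≥ H₀`, `X` large (`X ≥ H²`...), `δ = h/X`. For an integer `m` the set `{y : y < log m ≤ y + δ} = [log m - δ, log m)` has length
`δ`. Let `X < n ≤ 2X - H`. For `n + 3h ≤ m < n + H`: `m e^(-δ) ≥ m - mδ ≥ m - 3h ≥ n` (`m ≤ 3X`), so this set lies in `[log n, log(n+H))`. Therefore
`‖∑_{n+3h≤m<n+H} f m δ - ∫_{log n}^{log(n+H)} Sd f δ y dy‖ ≤ δ (3h + 3h + 2)`: other `m` which contribute to the integral satisfy `n ≤ m < n+3h` or `n + H ≤ m ≤ (n+H) e^δ ≤ n + H + 4h`. Hence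
`δ ‖∑_{j<H} f(n+j)‖ ≤ ∫_{log n}^{log(n+H)} ‖Sd f δ y‖ dy + δ(10h + 2)`. Sum over `n`: for each `y` the number of `n` with `log n ≤ y < log(n+H)` is at most `H`, and `y ∈ [log X, log 2X]`:
`δ ∑_n ‖∑_{j<H} f(n+j)‖ ≤ H ∫_{log X}^{log 2X} ‖Sd f δ y‖ dy + δ X(10h+2) ≤ H (ε' h²)^(1/2) + δX(10h+2)` (Cauchy-Schwarz, `log 2 ≤ 1`). Divide by `δ = h/X`:
`≤ H X ε/4 + X(10h+2)`. The last `H` values of `n` contribute at most `H² ≤ ε H X/4`. (`H43.SI.Sd f (6X)` counts `n ≤ 6X` only, all relevant `m` are `≤ 3X`.)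
-/

namespace Pool.H2.MR

open Finset MeasureTheory

/-! ### the indicator of `y < c <= y + δ` -/

noncomputable def adI (c δ y : ℝ) : ℝ := if y < c ∧ c ≤ y + δ then 1 else 0

lemma adI_eq (c δ : ℝ) :
    adI c δ = Set.indicator (Set.Ico (c - δ) c) (1 : ℝ → ℝ) := by
  funext y
  unfold adI
  by_cases h : y ∈ Set.Ico (c - δ) c
  · rw [Set.indicator_of_mem h, if_pos ⟨h.2, by linarith [h.1]⟩, Pi.one_apply]
  · rw [Set.indicator_of_notMem h, if_neg]
    rintro ⟨h1, h2⟩
    exact h ⟨by linarith, h1⟩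

lemma adI_nonneg (c δ y : ℝ) : 0 ≤ adI c δ y := by
  unfold adI
  split_ifs <;> norm_num

lemma adI_le (c δ y : ℝ) : adI c δ y ≤ 1 := by
  unfold adI
  split_ifs <;> norm_num

lemma adI_meas (c δ : ℝ) : Measurable (adI c δ) := by
  rw [adI_eq]
  exact measurable_one.indicator measurableSet_Ico

lemma adI_integral (c δ : ℝ) (hδ : 0 < δ) : ∫ y, adI c δ y = δ := by
  rw [adI_eq, integral_indicator_one measurableSet_Ico,
    Real.volume_real_Ico_of_le (by linarith)]
  ring

lemma adI_int (c δ : ℝ) : Integrable (adI c δ) := by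
  rw [adI_eq, integrable_indicator_iff measurableSet_Ico]
  have h : IntegrableOn (fun _ : ℝ => (1 : ℝ)) (Set.Ico (c - δ) c) :=
    integrableOn_const (by simp)
  exact h

lemma adI_full (c δ : ℝ) (hδ : 0 < δ) : ∫ y in (c - δ)..c, adI c δ y = δ := by
  rw [intervalIntegral.integral_of_le (by linarith), integral_Ioc_eq_integral_Ioo]
  have h1 : ∀ y ∈ Set.Ioo (c - δ) c, adI c δ y = (fun _ : ℝ => (1 : ℝ)) y := by
    intro y hy
    unfold adI
    rw [if_pos ⟨hy.2, by linarith [hy.1]⟩]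
  rw [setIntegral_congr_fun measurableSet_Ioo h1]
  simp [hδ.le]

lemma adI_ge (c δ u v : ℝ) (hδ : 0 < δ) (h1 : u ≤ c - δ) (h2 : c ≤ v) :
    δ ≤ ∫ y in u..v, adI c δ y := by
  have h3 := intervalIntegral.integral_mono_interval (μ := volume) (f := adI c δ) h1
    (show c - δ ≤ c by linarith) h2 (Filter.Eventually.of_forall (adI_nonneg c δ))
    (adI_int c δ).intervalIntegrable
  rwa [adI_full c δ hδ] at h3

lemma adI_up (c δ u v : ℝ) (hδ : 0 < δ) (huv : u ≤ v) :
    ∫ y in u..v, adI c δ y ≤ δ := by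
  rw [intervalIntegral.integral_of_le huv]
  have h := setIntegral_le_integral (s := Set.Ioc u v) (adI_int c δ)
    (Filter.Eventually.of_forall (adI_nonneg c δ))
  rw [adI_integral c δ hδ] at h
  exact h

lemma adI_zero (c δ u v : ℝ) (huv : u ≤ v) (h : c ≤ u ∨ v < c - δ) :
    ∫ y in u..v, adI c δ y = 0 := by
  rw [intervalIntegral.integral_of_le huv]
  apply setIntegral_eq_zero_of_forall_eq_zero
  intro y hy
  unfold adI
  rw [if_neg]
  rintro ⟨h1, h2⟩
  rcases h with h | h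
  · linarith [hy.1]
  · linarith [hy.2]

lemma adI_pos_int (c δ u v : ℝ) (huv : u ≤ v) : 0 ≤ ∫ y in u..v, adI c δ y :=
  intervalIntegral.integral_nonneg huv fun y _ => adI_nonneg c δ y

lemma ad_Sd (f : ℕ → ℂ) (Nm : ℕ) (δ y : ℝ) :
    Pool.Agent.H43.SI.Sd f Nm δ y = ∑ m ∈ Icc 1 Nm, f m * ((adI (Real.log m) δ y : ℝ) : ℂ) := by
  unfold Pool.Agent.H43.SI.Sd adI
  rw [sum_filter]
  refine sum_congr rfl fun m _ => ?_
  split_ifs <;> simp

lemma ad_Sd_meas (f : ℕ → ℂ) (Nm : ℕ) (δ : ℝ) :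
    Measurable (Pool.Agent.H43.SI.Sd f Nm δ) := by
  have h : Pool.Agent.H43.SI.Sd f Nm δ =
      fun y => ∑ m ∈ Icc 1 Nm, f m * ((adI (Real.log m) δ y : ℝ) : ℂ) := by
    funext y
    exact ad_Sd f Nm δ y
  rw [h]
  exact Finset.measurable_sum _ fun m _ =>
    (Complex.measurable_ofReal.comp (adI_meas _ _)).const_mul _

lemma ad_Sd_int (f : ℕ → ℂ) (Nm : ℕ) (δ : ℝ) :
    Integrable (Pool.Agent.H43.SI.Sd f Nm δ) := by
  have h : Pool.Agent.H43.SI.Sd f Nm δ =
      fun y => ∑ m ∈ Icc 1 Nm, f m * ((adI (Real.log m) δ y : ℝ) : ℂ) := by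
    funext y
    exact ad_Sd f Nm δ y
  rw [h]
  exact integrable_finsetSum _ fun m _ => ((adI_int _ _).ofReal).const_mul _

lemma ad_Sd_norm (f : ℕ → ℂ) (Nm : ℕ) (δ y : ℝ) :
    ‖Pool.Agent.H43.SI.Sd f Nm δ y‖ ≤ ∑ m ∈ Icc 1 Nm, ‖f m‖ := by
  rw [ad_Sd]
  refine (norm_sum_le _ _).trans (sum_le_sum fun m _ => ?_)
  rw [norm_mul, Complex.norm_real, Real.norm_eq_abs, abs_of_nonneg (adI_nonneg _ _ _)]
  exact mul_le_of_le_one_right (norm_nonneg _) (adI_le _ _ _)

lemma ad_Sd_integral (f : ℕ → ℂ) (Nm : ℕ) (δ u v : ℝ) :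
    ∫ y in u..v, Pool.Agent.H43.SI.Sd f Nm δ y =
      ∑ m ∈ Icc 1 Nm, f m * ((∫ y in u..v, adI (Real.log m) δ y : ℝ) : ℂ) := by
  have h : Pool.Agent.H43.SI.Sd f Nm δ =
      fun y => ∑ m ∈ Icc 1 Nm, f m * ((adI (Real.log m) δ y : ℝ) : ℂ) := by
    funext y
    exact ad_Sd f Nm δ y
  rw [h, intervalIntegral.integral_finsetSum]
  · refine sum_congr rfl fun m _ => ?_
    rw [intervalIntegral.integral_const_mul, intervalIntegral.integral_ofReal]
  · intro m _
    exact (((adI_int _ _).ofReal).const_mul _).intervalIntegrable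

/-- one window -/
lemma ad_point (f : ℕ → ℂ) (hf : ∀ n, ‖f n‖ ≤ 1) (X h H n : ℕ) (hX : 1 ≤ X) (hh : 1 ≤ h)
    (hhX : h ≤ X) (hn : X < n) (hn2 : n + H ≤ 2 * X) :
    (h : ℝ) / X * ‖∑ j ∈ range H, f (n + j)‖ ≤
      (∫ y in (Real.log n)..(Real.log ((n + H : ℕ) : ℝ)),
        ‖Pool.Agent.H43.SI.Sd f (6 * X) ((h : ℝ) / X) y‖) + (h : ℝ) / X * (7 * h + 1) := by
  have hX0 : (0 : ℝ) < X := by exact_mod_cast hX
  have hh0 : (0 : ℝ) < h := by exact_mod_cast hh
  have hn0 : (0 : ℝ) < n := by exact_mod_cast (by omega : 0 < n)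
  set δ : ℝ := (h : ℝ) / X with hδ
  have hδ0 : 0 < δ := by positivity
  have hδ1 : δ ≤ 1 := by
    rw [hδ, div_le_one hX0]; exact_mod_cast hhX
  have hδX : δ * X = h := by rw [hδ]; field_simp
  set u := Real.log n with hu
  set v := Real.log ((n + H : ℕ) : ℝ) with hv
  have huv : u ≤ v := Real.log_le_log hn0 (by exact_mod_cast Nat.le_add_right n H)
  set w : ℕ → ℝ := fun m => ∫ y in u..v, adI (Real.log m) δ y with hw
  set z : ℕ → ℝ := fun m => if m ∈ Ico n (n + H) then δ else 0 with hz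
  have hw0 : ∀ m, 0 ≤ w m := fun m => adI_pos_int _ _ _ _ huv
  have hw1 : ∀ m, w m ≤ δ := fun m => adI_up _ _ _ _ hδ0 huv
  have hz0 : ∀ m, 0 ≤ z m := by
    intro m; simp only [hz]; split_ifs <;> linarith
  have hz1 : ∀ m, z m ≤ δ := by
    intro m; simp only [hz]; split_ifs <;> linarith
  have hsum : (δ : ℂ) * ∑ j ∈ range H, f (n + j) = ∑ m ∈ Icc 1 (6 * X), f m * ((z m : ℝ) : ℂ) := by
    have e1 : ∑ j ∈ range H, f (n + j) = ∑ m ∈ Ico n (n + H), f m := by
      rw [Finset.sum_Ico_eq_sum_range, Nat.add_sub_cancel_left]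
    rw [e1, mul_sum]
    have hsub : Ico n (n + H) ⊆ Icc 1 (6 * X) := by
      intro m hm
      rw [mem_Ico] at hm
      rw [mem_Icc]
      omega
    rw [← sum_subset hsub]
    · refine sum_congr rfl fun m hm => ?_
      simp only [hz]
      rw [if_pos hm, mul_comm]
    · intro m _ hm
      simp only [hz]
      rw [if_neg hm]
      simp
  set E : Finset ℕ := Ico n (n + 3 * h) ∪ Icc (n + H) (n + H + 4 * h) with hE
  have hEc : (E.card : ℝ) ≤ 7 * h + 1 := by
    have h1 : E.card ≤ 3 * h + (4 * h + 1) := by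
      refine (card_union_le _ _).trans ?_
      rw [Nat.card_Ico, Nat.card_Icc]
      omega
    have h2 : (E.card : ℝ) ≤ ((3 * h + (4 * h + 1) : ℕ) : ℝ) := by exact_mod_cast h1
    push_cast at h2
    linarith
  have hdiff : ∀ m ∈ Icc 1 (6 * X), |z m - w m| ≤ if m ∈ E then δ else 0 := by
    intro m hm
    rw [mem_Icc] at hm
    have hm0 : (0 : ℝ) < m := by exact_mod_cast (by omega : 0 < m)
    split_ifs with hmE
    · rw [abs_le]
      have := hw0 m
      have := hw1 m
      have := hz0 m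
      have := hz1 m
      constructor <;> linarith
    · have hmE' : ¬ (n ≤ m ∧ m < n + 3 * h) ∧ ¬ (n + H ≤ m ∧ m ≤ n + H + 4 * h) := by
        simpa only [hE, mem_union, mem_Ico, mem_Icc, not_or] using hmE
      obtain ⟨c1, c2⟩ := hmE'
      have hcase : m < n ∨ (n + 3 * h ≤ m ∧ m < n + H) ∨ n + H + 4 * h < m := by omega
      rcases hcase with hc | hc | hc
      · have e1 : z m = 0 := by
          simp only [hz]
          rw [if_neg]
          rw [mem_Ico]
          omega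
        have e2 : w m = 0 := by
          apply adI_zero _ _ _ _ huv
          left
          exact Real.log_le_log hm0 (by exact_mod_cast hc.le)
        rw [e1, e2]
        simp
      · have e1 : z m = δ := by
          simp only [hz]
          rw [if_pos]
          rw [mem_Ico]
          omega
        have e2 : w m = δ := by
          apply le_antisymm (hw1 m)
          apply adI_ge _ _ _ _ hδ0
          · have h1 : (n : ℝ) ≤ m * Real.exp (-δ) := by
              have h2 := Real.add_one_le_exp (-δ)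
              have h3 : (m : ℝ) * (1 - δ) ≤ m * Real.exp (-δ) :=
                mul_le_mul_of_nonneg_left (by linarith) hm0.le
              have h4 : (m : ℝ) ≤ 2 * X := by exact_mod_cast (by omega : m ≤ 2 * X)
              have h5 : δ * m ≤ δ * (2 * X) := mul_le_mul_of_nonneg_left h4 hδ0.le
              have h6 : ((n + 3 * h : ℕ) : ℝ) ≤ m := by exact_mod_cast hc.1
              push_cast at h6
              nlinarith
            have h2 := Real.log_le_log hn0 h1
            rw [Real.log_mul hm0.ne' (Real.exp_pos _).ne', Real.log_exp] at h2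
            linarith
          · exact Real.log_le_log hm0 (by exact_mod_cast hc.2.le)
        rw [e1, e2]
        simp
      · have e1 : z m = 0 := by
          simp only [hz]
          rw [if_neg]
          rw [mem_Ico]
          omega
        have e2 : w m = 0 := by
          apply adI_zero _ _ _ _ huv
          right
          have hN0 : (0 : ℝ) < ((n + H : ℕ) : ℝ) := by exact_mod_cast (by omega : 0 < n + H)
          have h1 : ((n + H : ℕ) : ℝ) * Real.exp δ < m := by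
            have h2 : Real.exp δ - 1 ≤ 2 * δ := by
              have h7 := Real.abs_exp_sub_one_le (x := δ) (by rw [abs_of_pos hδ0]; exact hδ1)
              rw [abs_of_pos hδ0] at h7
              exact (le_abs_self _).trans h7
            have h3 : ((n + H : ℕ) : ℝ) * Real.exp δ ≤ ((n + H : ℕ) : ℝ) * (1 + 2 * δ) :=
              mul_le_mul_of_nonneg_left (by linarith) hN0.le
            have h4 : ((n + H : ℕ) : ℝ) ≤ 2 * X := by exact_mod_cast hn2
            have h5 : δ * ((n + H : ℕ) : ℝ) ≤ δ * (2 * X) := mul_le_mul_of_nonneg_left h4 hδ0.le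
            have h6 : ((n + H + 4 * h : ℕ) : ℝ) < m := by exact_mod_cast hc
            have h7 : ((n + H + 4 * h : ℕ) : ℝ) = ((n + H : ℕ) : ℝ) + 4 * h := by push_cast; ring
            rw [h7] at h6
            nlinarith
          have h2 := Real.log_lt_log (by positivity) h1
          rw [Real.log_mul hN0.ne' (Real.exp_pos _).ne', Real.log_exp] at h2
          linarith
        rw [e1, e2]
        simp
  have hD : ‖(δ : ℂ) * ∑ j ∈ range H, f (n + j) -
      ∫ y in u..v, Pool.Agent.H43.SI.Sd f (6 * X) δ y‖ ≤ δ * (7 * h + 1) := by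
    rw [hsum, ad_Sd_integral, ← sum_sub_distrib]
    refine (norm_sum_le _ _).trans ?_
    calc ∑ m ∈ Icc 1 (6 * X), ‖f m * ((z m : ℝ) : ℂ) - f m * ((w m : ℝ) : ℂ)‖
        ≤ ∑ m ∈ Icc 1 (6 * X), (if m ∈ E then δ else 0) := by
          refine sum_le_sum fun m hm => ?_
          rw [← mul_sub, ← Complex.ofReal_sub, norm_mul, Complex.norm_real, Real.norm_eq_abs]
          calc ‖f m‖ * |z m - w m| ≤ 1 * |z m - w m| :=
                mul_le_mul_of_nonneg_right (hf m) (abs_nonneg _)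
            _ ≤ _ := by rw [one_mul]; exact hdiff m hm
      _ = ∑ m ∈ (Icc 1 (6 * X)).filter (fun m => m ∈ E), δ := by rw [sum_filter]
      _ ≤ ∑ m ∈ E, δ := by
          apply sum_le_sum_of_subset_of_nonneg
          · intro m hm
            exact (mem_filter.1 hm).2
          · intro _ _ _
            exact hδ0.le
      _ = E.card * δ := by rw [sum_const, nsmul_eq_mul]
      _ ≤ (7 * h + 1) * δ := mul_le_mul_of_nonneg_right hEc hδ0.le
      _ = δ * (7 * h + 1) := mul_comm _ _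
  have hnorm : δ * ‖∑ j ∈ range H, f (n + j)‖ = ‖(δ : ℂ) * ∑ j ∈ range H, f (n + j)‖ := by
    rw [norm_mul, Complex.norm_real, Real.norm_eq_abs, abs_of_pos hδ0]
  rw [hnorm]
  have h1 : ‖∫ y in u..v, Pool.Agent.H43.SI.Sd f (6 * X) δ y‖ ≤
      ∫ y in u..v, ‖Pool.Agent.H43.SI.Sd f (6 * X) δ y‖ :=
    intervalIntegral.norm_integral_le_integral_norm huv
  have h2 := norm_le_norm_sub_add ((δ : ℂ) * ∑ j ∈ range H, f (n + j))
    (∫ y in u..v, Pool.Agent.H43.SI.Sd f (6 * X) δ y)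
  linarith

/-- Cauchy-Schwarz -/
lemma ad_cs (f : ℝ → ℝ) (u v : ℝ) (huv : u < v) (hf : IntervalIntegrable f volume u v)
    (hf2 : IntervalIntegrable (fun y => f y ^ 2) volume u v) :
    (∫ y in u..v, f y) ^ 2 ≤ (v - u) * ∫ y in u..v, f y ^ 2 := by
  set I := ∫ y in u..v, f y with hI
  set K := ∫ y in u..v, f y ^ 2 with hK
  have hl : 0 < v - u := by linarith
  set t := I / (v - u) with ht
  have h1 : 0 ≤ ∫ y in u..v, (f y - t) ^ 2 :=
    intervalIntegral.integral_nonneg huv.le fun y _ => sq_nonneg _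
  have h2 : ∫ y in u..v, (f y - t) ^ 2 = K - 2 * t * I + t ^ 2 * (v - u) := by
    have e : (fun y => (f y - t) ^ 2) = fun y => (f y ^ 2 - (2 * t) * f y) + t ^ 2 := by
      funext y
      ring
    rw [e, intervalIntegral.integral_add (hf2.sub (hf.const_mul _)) intervalIntegrable_const,
      intervalIntegral.integral_sub hf2 (hf.const_mul _), intervalIntegral.integral_const_mul,
      intervalIntegral.integral_const, smul_eq_mul]
    ring
  rw [h2] at h1
  have h3 : t * (v - u) = I := div_mul_cancel₀ _ hl.ne'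
  have h4 : (v - u) * (K - 2 * t * I + t ^ 2 * (v - u)) = (v - u) * K - I ^ 2 := by
    have e : (v - u) * (K - 2 * t * I + t ^ 2 * (v - u)) =
        (v - u) * K - 2 * (t * (v - u)) * I + (t * (v - u)) ^ 2 := by ring
    rw [e, h3]
    ring
  have h5 := mul_nonneg hl.le h1
  rw [h4] at h5
  linarith

/-- the windows cover every point at most `H` times -/
lemma ad_cover (g : ℝ → ℝ) (hg0 : ∀ y, 0 ≤ g y) (hgi : Integrable g) (X H : ℕ) (hX : 1 ≤ X)
    (hH : H ≤ X) :
    ∑ n ∈ Ioc X (2 * X - H), ∫ y in (Real.log n)..(Real.log ((n + H : ℕ) : ℝ)), g y ≤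
      H * ∫ y in (Real.log X)..(Real.log (2 * X)), g y := by
  have hii : ∀ a b : ℝ, IntervalIntegrable g volume a b := fun a b => hgi.intervalIntegrable
  have hX0 : (0 : ℝ) < X := by exact_mod_cast hX
  have h1 : ∀ n : ℕ, ∫ y in (Real.log n)..(Real.log ((n + H : ℕ) : ℝ)), g y =
      ∑ j ∈ range H, ∫ y in (Real.log ((n + j : ℕ) : ℝ))..(Real.log ((n + (j + 1) : ℕ) : ℝ)), g y := by
    intro n
    have := intervalIntegral.sum_integral_adjacent_intervals (μ := volume) (f := g)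
      (a := fun j => Real.log ((n + j : ℕ) : ℝ)) (n := H) (fun k _ => hii _ _)
    rw [this]
    simp
  have h2 : ∀ j ∈ range H, ∑ n ∈ Ioc X (2 * X - H),
      ∫ y in (Real.log ((n + j : ℕ) : ℝ))..(Real.log ((n + (j + 1) : ℕ) : ℝ)), g y ≤
      ∫ y in (Real.log X)..(Real.log (2 * X)), g y := by
    intro j hj
    rw [mem_range] at hj
    have e1 : Ioc X (2 * X - H) = Ico (X + 1) (2 * X - H + 1) := by
      ext n
      simp only [mem_Ioc, mem_Ico]
      omega
    rw [e1, Finset.sum_Ico_eq_sum_range]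
    have e2 : ∀ k : ℕ, ∫ y in (Real.log ((X + 1 + k + j : ℕ) : ℝ))..(Real.log ((X + 1 + k + (j + 1) : ℕ) : ℝ)), g y =
        ∫ y in (fun k : ℕ => Real.log ((X + 1 + k + j : ℕ) : ℝ)) k..(fun k : ℕ => Real.log ((X + 1 + k + j : ℕ) : ℝ)) (k + 1), g y := by
      intro k
      have : X + 1 + k + (j + 1) = X + 1 + (k + 1) + j := by ring
      rw [this]
    rw [sum_congr rfl fun k _ => e2 k]
    rw [intervalIntegral.sum_integral_adjacent_intervals (fun k _ => hii _ _)]
    apply intervalIntegral.integral_mono_interval (μ := volume)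
    · exact Real.log_le_log hX0 (by exact_mod_cast (by omega : X ≤ X + 1 + 0 + j))
    · refine Real.log_le_log (by exact_mod_cast (by omega : 0 < X + 1 + 0 + j)) ?_
      exact_mod_cast (by omega : X + 1 + 0 + j ≤ X + 1 + (2 * X - H + 1 - (X + 1)) + j)
    · refine Real.log_le_log (by exact_mod_cast (by omega : 0 < X + 1 + (2 * X - H + 1 - (X + 1)) + j)) ?_
      exact_mod_cast (by omega : X + 1 + (2 * X - H + 1 - (X + 1)) + j ≤ 2 * X)
    · exact Filter.Eventually.of_forall hg0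
    · exact hii _ _
  rw [sum_congr rfl fun n _ => h1 n, sum_comm]
  refine (sum_le_sum h2).trans ?_
  rw [sum_const, card_range, nsmul_eq_mul]

theorem add (ε : ℝ) (hε : 0 < ε) (hε1 : ε ≤ 1) : ∃ H₀ : ℕ, ∀ H : ℕ, H₀ ≤ H → ∀ f : ℕ → ℂ, OB f → CondN1 f → ∃ X₀ : ℕ, ∀ X : ℕ, X₀ ≤ X →
    ∑ n ∈ Ioc X (2 * X), ‖∑ j ∈ range H, f (n + j)‖ ≤ ε * H * X := by
  obtain ⟨h₀, hwin⟩ := win (ε ^ 2 / 16) (by positivity) (by nlinarith)
  set h : ℕ := max h₀ 1 with hh
  have hh1 : 1 ≤ h := le_max_right _ _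
  have hh0 : (0 : ℝ) < h := by exact_mod_cast hh1
  refine ⟨⌈32 * (h : ℝ) / ε⌉₊ + 1, ?_⟩
  intro H hH f hf hfN
  obtain ⟨X₀, hX₀⟩ := hwin h (le_max_left _ _) f hf hfN
  refine ⟨max X₀ (max h (max ⌈4 * (H : ℝ) / ε⌉₊ (max H 1))), ?_⟩
  intro X hX
  have hX1 : X₀ ≤ X := (le_max_left _ _).trans hX
  have hX2 : h ≤ X := ((le_max_left _ _).trans (le_max_right _ _)).trans hX
  have hX3 : ⌈4 * (H : ℝ) / ε⌉₊ ≤ X :=
    ((le_max_left _ _).trans ((le_max_right _ _).trans (le_max_right _ _))).trans hX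
  have hX4 : H ≤ X :=
    ((le_max_left _ _).trans ((le_max_right _ _).trans ((le_max_right _ _).trans (le_max_right _ _)))).trans hX
  have hX5 : 1 ≤ X :=
    ((le_max_right _ _).trans ((le_max_right _ _).trans ((le_max_right _ _).trans (le_max_right _ _)))).trans hX
  have hX0 : (0 : ℝ) < X := by exact_mod_cast hX5
  have hH1 : 1 ≤ H := by omega
  have hH0 : (0 : ℝ) < H := by exact_mod_cast hH1
  have hHh : 32 * (h : ℝ) ≤ ε * H := by
    have h1 : 32 * (h : ℝ) / ε ≤ H := (Nat.le_ceil _).trans (by exact_mod_cast (by omega : ⌈32 * (h : ℝ) / ε⌉₊ ≤ H))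
    rw [div_le_iff₀ hε] at h1
    linarith
  have hXH : 4 * (H : ℝ) ≤ ε * X := by
    have h1 : 4 * (H : ℝ) / ε ≤ X := (Nat.le_ceil _).trans (by exact_mod_cast hX3)
    rw [div_le_iff₀ hε] at h1
    linarith
  have hw := hX₀ X hX1
  set δ : ℝ := (h : ℝ) / X with hδ
  have hδ0 : 0 < δ := by positivity
  set g : ℝ → ℝ := fun y => ‖Pool.Agent.H43.SI.Sd f (6 * X) δ y‖ with hg
  have hgi : Integrable g := (ad_Sd_int f (6 * X) δ).norm
  have hg0 : ∀ y, 0 ≤ g y := fun y => norm_nonneg _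
  -- Cauchy-Schwarz
  have hlog : Real.log X < Real.log (2 * X) := Real.log_lt_log hX0 (by linarith)
  have hlog2 : Real.log (2 * X) - Real.log X ≤ 1 := by
    rw [Real.log_mul (by norm_num) hX0.ne']
    have := Real.log_two_lt_d9
    linarith
  set I := ∫ y in (Real.log X)..(Real.log (2 * X)), g y with hI
  have hI0 : 0 ≤ I := intervalIntegral.integral_nonneg hlog.le fun y _ => hg0 y
  have hIle : I ≤ ε / 4 * h := by
    have hg2 : IntervalIntegrable (fun y => g y ^ 2) volume (Real.log X) (Real.log (2 * X)) := by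
      rw [intervalIntegrable_iff_integrableOn_Ioc_of_le hlog.le]
      have hb : ∀ᵐ y ∂(volume.restrict (Set.Ioc (Real.log X) (Real.log (2 * X)))), ‖g y ^ 2‖ ≤
          (∑ m ∈ Icc 1 (6 * X), ‖f m‖) ^ 2 := by
        refine Filter.Eventually.of_forall fun y => ?_
        rw [norm_pow, Real.norm_of_nonneg (hg0 y)]
        exact pow_le_pow_left₀ (hg0 y) (ad_Sd_norm f (6 * X) δ y) 2
      exact Measure.integrableOn_of_bounded (by simp)
        (((ad_Sd_meas f (6 * X) δ).norm).pow_const 2).aestronglyMeasurable hb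
    have h1 := ad_cs g _ _ hlog hgi.intervalIntegrable hg2
    have hK0 : 0 ≤ ∫ y in (Real.log X)..(Real.log (2 * X)), g y ^ 2 :=
      intervalIntegral.integral_nonneg hlog.le fun y _ => sq_nonneg _
    have h2 : I ^ 2 ≤ (ε / 4 * h) ^ 2 := by
      calc I ^ 2 ≤ (Real.log (2 * X) - Real.log X) * ∫ y in (Real.log X)..(Real.log (2 * X)), g y ^ 2 := h1
        _ ≤ 1 * (ε ^ 2 / 16 * (h : ℝ) ^ 2) := mul_le_mul hlog2 hw hK0 (by norm_num)
        _ = (ε / 4 * h) ^ 2 := by ring
    exact le_of_sq_le_sq h2 (by positivity)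
  -- the sum over the good `n`
  have hgood : ∑ n ∈ Ioc X (2 * X - H), ‖∑ j ∈ range H, f (n + j)‖ ≤
      ε / 4 * H * X + 8 * h * X := by
    have h1 : δ * ∑ n ∈ Ioc X (2 * X - H), ‖∑ j ∈ range H, f (n + j)‖ ≤
        H * I + X * (δ * (7 * h + 1)) := by
      rw [mul_sum]
      have h2 : ∀ n ∈ Ioc X (2 * X - H), δ * ‖∑ j ∈ range H, f (n + j)‖ ≤
          (∫ y in (Real.log n)..(Real.log ((n + H : ℕ) : ℝ)), g y) + δ * (7 * h + 1) := by
        intro n hn
        rw [mem_Ioc] at hn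
        exact ad_point f hf.bd X h H n hX5 hh1 hX2 hn.1 (by omega)
      refine (sum_le_sum h2).trans ?_
      rw [sum_add_distrib]
      apply add_le_add (ad_cover g hg0 hgi X H hX5 hX4)
      rw [sum_const, nsmul_eq_mul, Nat.card_Ioc]
      apply mul_le_mul_of_nonneg_right _ (by positivity)
      exact_mod_cast (by omega : 2 * X - H - X ≤ X)
    have h3 : H * I + X * (δ * (7 * h + 1)) ≤ δ * (ε / 4 * H * X + 8 * h * X) := by
      have h4 : (1 : ℝ) ≤ h := by exact_mod_cast hh1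
      have h5 : δ * X = h := by rw [hδ]; field_simp
      have h6 : H * I ≤ H * (ε / 4 * h) := mul_le_mul_of_nonneg_left hIle hH0.le
      have h7 : δ * (ε / 4 * H * X + 8 * h * X) = (δ * X) * (ε / 4 * H + 8 * h) := by ring
      have h8 : X * (δ * (7 * h + 1)) = (δ * X) * (7 * h + 1) := by ring
      rw [h7, h8, h5]
      nlinarith
    exact le_of_mul_le_mul_left (h1.trans h3) hδ0
  -- the last `H` values
  have hbad : ∑ n ∈ Ioc (2 * X - H) (2 * X), ‖∑ j ∈ range H, f (n + j)‖ ≤ (H : ℝ) * H := by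
    have h1 : ∀ n ∈ Ioc (2 * X - H) (2 * X), ‖∑ j ∈ range H, f (n + j)‖ ≤ (H : ℝ) := by
      intro n _
      refine (norm_sum_le _ _).trans ?_
      refine (sum_le_sum fun j _ => hf.bd (n + j)).trans ?_
      simp
    refine (sum_le_sum h1).trans ?_
    rw [sum_const, nsmul_eq_mul, Nat.card_Ioc]
    apply mul_le_mul_of_nonneg_right _ hH0.le
    exact_mod_cast (by omega : 2 * X - (2 * X - H) ≤ H)
  have hsplit : ∑ n ∈ Ioc X (2 * X), ‖∑ j ∈ range H, f (n + j)‖ =
      (∑ n ∈ Ioc X (2 * X - H), ‖∑ j ∈ range H, f (n + j)‖) +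
      ∑ n ∈ Ioc (2 * X - H) (2 * X), ‖∑ j ∈ range H, f (n + j)‖ := by
    rw [Finset.sum_Ioc_consecutive _ (by omega) (by omega)]
  rw [hsplit]
  have h1 : 8 * (h : ℝ) * X ≤ ε / 4 * H * X := by
    apply mul_le_mul_of_nonneg_right _ hX0.le
    linarith
  have h2 : (H : ℝ) * H ≤ ε / 4 * H * X := by
    have := mul_le_mul_of_nonneg_left hXH hH0.le
    linarith
  have h3 : 0 ≤ ε * H * X := by positivity
  linarith

end Pool.H2.MR
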