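import Pool.Agent.H2.MR.Mvl

/-!
# [H2 MR COE] Coefficients of `P^ℓ M`

PROOF. `P^ℓ` is the sum over the functions `x : Fin ℓ → 𝒫` of `∏ c(x i) nj t (x i)` (`Finset.sum_pow'`/`Finset.prod_univ_sum`,
`Fintype.piFinset`), and `∏ nj t (x i) = nj t (∏ x i)` (`nj_mul`). Put `u n = ∑_{x, m ∈ Ms, (∏ x i) m = n} (∏ c(x i)) b m`.
`‖u n‖ ≤ ∑_{k ∣ n} #{x : ∏ x i = k}`. For fixed `k` the number of `x : Fin ℓ → 𝒫` with `∏ x i = k` is at most `ℓ!`: by unique factorisation all such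
`x` are rearrangements of one list (`List.Perm`, `Nat.primeFactorsList_unique`; the number of permutations of a list of length `ℓ` is
at most `ℓ!`, e.g. `x' = x ∘ σ` for some `σ : Equiv.Perm (Fin ℓ)`, so the set is contained in the image of `Equiv.Perm (Fin ℓ)`).
So `‖u n‖ ≤ ℓ! #{k ∈ K : k ∣ n}`, `K` the set of products of `ℓ` elements of `𝒫` (image of `piFinset`).
`∑_{n≤N} (#{k ∈ K : k ∣ n})² = ∑_{k,k'∈K} ⌊N/lcm(k,k')⌋ ≤ N ∑_{k,k'} gcd(k,k')/(k k')`. Let `K_i` be the set of products of `i` elements. With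
`g = gcd(k,k')`, `k = g x`, `k' = g y`: `g ∈ K_i`, `x, y ∈ K_{ℓ-i}` for one `i ≤ ℓ` (a divisor of a product of `ℓ` primes of `𝒫` is a product of
`i` of them, the complementary divisor is a product of `ℓ - i`; `i` = number of prime factors of `g`), and `(k,k') ↦ (g,x,y)` is injective, so
the sum is `≤ ∑_{i≤ℓ} ∑_{g∈K_i} ∑_{x,y∈K_{ℓ-i}} 1/(g x y) ≤ ∑_i σ^i σ^(2(ℓ-i)) ≤ ℓ + 1`, since `∑_{g∈K_i} 1/g ≤ ∑_{x : Fin i → 𝒫} ∏ 1/x_j = σ^i`,
`σ = ∑_{p∈𝒫} 1/p ≤ 1`.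
-/

namespace Pool.H2.MR

open Finset

private lemma prime_prod {l : ℕ} (P : Finset ℕ) (hP : ∀ p ∈ P, p.Prime) (x : Fin l → ℕ) (hx : ∀ i, x i ∈ P) :
    1 ≤ ∏ i, x i := by
  refine Finset.one_le_prod' (fun i _ => (hP _ (hx i)).one_lt.le)

private lemma fact_perm {l : ℕ} (P : Finset ℕ) (hP : ∀ p ∈ P, p.Prime) (x : Fin l → ℕ) (hx : ∀ i, x i ∈ P) :
    (List.ofFn x).Perm (Nat.primeFactorsList (∏ i, x i)) := by
  apply Nat.primeFactorsList_unique
  · rw [List.prod_ofFn]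
  · intro p hp
    rw [List.mem_ofFn] at hp
    obtain ⟨i, rfl⟩ := hp
    exact hP _ (hx i)

/-- products of `i` elements of `P` -/
private noncomputable def KK (P : Finset ℕ) (l : ℕ) : Finset ℕ :=
  (Fintype.piFinset (fun _ : Fin l => P)).image (fun x => ∏ i, x i)

private lemma mem_KK (P : Finset ℕ) (l n : ℕ) : n ∈ KK P l ↔ ∃ x : Fin l → ℕ, (∀ i, x i ∈ P) ∧ ∏ i, x i = n := by
  simp [KK, Fintype.mem_piFinset]

private lemma mem_KK_iff (P : Finset ℕ) (hP : ∀ p ∈ P, p.Prime) (l n : ℕ) :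
    n ∈ KK P l ↔ n ≠ 0 ∧ (∀ p ∈ n.primeFactorsList, p ∈ P) ∧ n.primeFactorsList.length = l := by
  rw [mem_KK]
  constructor
  · rintro ⟨x, hx, rfl⟩
    have hperm := fact_perm P hP x hx
    refine ⟨by have := prime_prod P hP x hx; omega, ?_, ?_⟩
    · intro p hp
      rw [← hperm.mem_iff, List.mem_ofFn] at hp
      obtain ⟨i, rfl⟩ := hp
      exact hx i
    · rw [← hperm.length_eq, List.length_ofFn]
  · rintro ⟨h0, hmem, hlen⟩
    subst hlen
    refine ⟨n.primeFactorsList.get, fun i => hmem _ (List.get_mem _ _), ?_⟩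
    rw [← List.prod_ofFn, List.ofFn_get]
    exact Nat.prod_primeFactorsList h0

private lemma KK_pos (P : Finset ℕ) (hP : ∀ p ∈ P, p.Prime) (l n : ℕ) (hn : n ∈ KK P l) : 1 ≤ n := by
  rw [mem_KK_iff P hP] at hn
  have := hn.1
  omega

private lemma KK_mul_split (P : Finset ℕ) (hP : ∀ p ∈ P, p.Prime) (l k g : ℕ) (hk : k ∈ KK P l) (hg : g ∣ k) :
    g ∈ KK P g.primeFactorsList.length ∧ g.primeFactorsList.length ≤ l ∧
      k / g ∈ KK P (l - g.primeFactorsList.length) := by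
  rw [mem_KK_iff P hP] at hk
  obtain ⟨y, rfl⟩ := hg
  obtain ⟨h0, hmem, hlen⟩ := hk
  have hg0 : g ≠ 0 := left_ne_zero_of_mul h0
  have hy0 : y ≠ 0 := right_ne_zero_of_mul h0
  have hperm := Nat.perm_primeFactorsList_mul hg0 hy0
  have hl : g.primeFactorsList.length + y.primeFactorsList.length = l := by
    rw [← hlen, hperm.length_eq, List.length_append]
  have hgy : g * y / g = y := Nat.mul_div_cancel_left _ (Nat.pos_of_ne_zero hg0)
  rw [hgy]
  refine ⟨?_, by omega, ?_⟩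
  · rw [mem_KK_iff P hP]
    refine ⟨hg0, fun p hp => hmem p ?_, rfl⟩
    rw [hperm.mem_iff]
    exact List.mem_append_left _ hp
  · rw [mem_KK_iff P hP]
    refine ⟨hy0, fun p hp => hmem p ?_, by omega⟩
    rw [hperm.mem_iff]
    exact List.mem_append_right _ hp

private lemma sum_KK (P : Finset ℕ) (l : ℕ) :
    ∑ n ∈ KK P l, 1 / (n : ℝ) ≤ (∑ p ∈ P, 1 / (p : ℝ)) ^ l := by
  have h1 : (∑ p ∈ P, 1 / (p : ℝ)) ^ l = ∑ x ∈ Fintype.piFinset (fun _ : Fin l => P), 1 / ((∏ i, x i : ℕ) : ℝ) := by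
    have : (∑ p ∈ P, 1 / (p : ℝ)) ^ l = ∏ _i : Fin l, ∑ p ∈ P, 1 / (p : ℝ) := by simp
    rw [this, Finset.prod_univ_sum]
    refine Finset.sum_congr rfl fun x _ => ?_
    rw [Nat.cast_prod, one_div, ← Finset.prod_inv_distrib]
    refine Finset.prod_congr rfl fun i _ => ?_
    rw [one_div]
  rw [h1]
  have h2 := Finset.sum_fiberwise_of_maps_to (s := Fintype.piFinset (fun _ : Fin l => P)) (t := KK P l)
    (g := fun x => ∏ i, x i) (fun x hx => Finset.mem_image_of_mem _ hx) (fun x => 1 / ((∏ i, x i : ℕ) : ℝ))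
  rw [← h2]
  refine Finset.sum_le_sum fun n hn => ?_
  obtain ⟨x, hx, hxn⟩ := Finset.mem_image.1 hn
  have h3 : 1 / (n : ℝ) = 1 / ((∏ i, x i : ℕ) : ℝ) := by rw [← hxn]
  rw [h3]
  refine Finset.single_le_sum (f := fun x : Fin l → ℕ => 1 / ((∏ i, x i : ℕ) : ℝ)) (fun y _ => by positivity) ?_
  rw [Finset.mem_filter]
  exact ⟨hx, hxn⟩

private lemma gcd_sum (P : Finset ℕ) (hP : ∀ p ∈ P, p.Prime) (hσ : ∑ p ∈ P, 1 / (p : ℝ) ≤ 1) (l : ℕ) :
    ∑ q ∈ KK P l ×ˢ KK P l, (Nat.gcd q.1 q.2 : ℝ) / ((q.1 : ℝ) * q.2) ≤ (l : ℝ) + 1 := by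
  classical
  have hσ0 : 0 ≤ ∑ p ∈ P, 1 / (p : ℝ) := Finset.sum_nonneg fun p _ => by positivity
  set T : Finset (Σ _ : ℕ, ℕ × ℕ × ℕ) :=
    (range (l + 1)).sigma (fun i => KK P i ×ˢ (KK P (l - i) ×ˢ KK P (l - i))) with hT
  set φ : ℕ × ℕ → (Σ _ : ℕ, ℕ × ℕ × ℕ) := fun q =>
    ⟨(Nat.gcd q.1 q.2).primeFactorsList.length, (Nat.gcd q.1 q.2, q.1 / Nat.gcd q.1 q.2, q.2 / Nat.gcd q.1 q.2)⟩ with hφ
  set F : (Σ _ : ℕ, ℕ × ℕ × ℕ) → ℝ := fun z => 1 / ((z.2.1 : ℝ) * z.2.2.1 * z.2.2.2) with hF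
  have hmaps : ∀ q ∈ KK P l ×ˢ KK P l, φ q ∈ T := by
    intro q hq
    rw [Finset.mem_product] at hq
    have h1 := KK_mul_split P hP l q.1 _ hq.1 (Nat.gcd_dvd_left q.1 q.2)
    have h2 := KK_mul_split P hP l q.2 _ hq.2 (Nat.gcd_dvd_right q.1 q.2)
    rw [hT, Finset.mem_sigma]
    refine ⟨?_, ?_⟩
    · rw [hφ, Finset.mem_range]
      simp only
      omega
    · simp only [hφ, Finset.mem_product]
      exact ⟨h1.1, h1.2.2, h2.2.2⟩
  have hinj : Set.InjOn φ (KK P l ×ˢ KK P l : Finset (ℕ × ℕ)) := by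
    intro q hq q' hq' h
    have e : (φ q).2 = (φ q').2 := by rw [h]
    simp only [hφ, Prod.mk.injEq] at e
    obtain ⟨e1, e2, e3⟩ := e
    have a1 : q.1 = Nat.gcd q.1 q.2 * (q.1 / Nat.gcd q.1 q.2) := (Nat.mul_div_cancel' (Nat.gcd_dvd_left _ _)).symm
    have a2 : q.2 = Nat.gcd q.1 q.2 * (q.2 / Nat.gcd q.1 q.2) := (Nat.mul_div_cancel' (Nat.gcd_dvd_right _ _)).symm
    have b1 : q'.1 = Nat.gcd q'.1 q'.2 * (q'.1 / Nat.gcd q'.1 q'.2) := (Nat.mul_div_cancel' (Nat.gcd_dvd_left _ _)).symm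
    have b2 : q'.2 = Nat.gcd q'.1 q'.2 * (q'.2 / Nat.gcd q'.1 q'.2) := (Nat.mul_div_cancel' (Nat.gcd_dvd_right _ _)).symm
    have c1 : q.1 = q'.1 := by rw [a1, b1, e2, e1]
    have c2 : q.2 = q'.2 := by rw [a2, b2, e3, e1]
    exact Prod.ext c1 c2
  have hval : ∀ q ∈ KK P l ×ˢ KK P l, (Nat.gcd q.1 q.2 : ℝ) / ((q.1 : ℝ) * q.2) = F (φ q) := by
    intro q hq
    rw [Finset.mem_product] at hq
    have hq1 := KK_pos P hP l _ hq.1
    have hq2 := KK_pos P hP l _ hq.2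
    have hg : 0 < Nat.gcd q.1 q.2 := Nat.gcd_pos_of_pos_left _ hq1
    have a1 : (q.1 : ℝ) = (Nat.gcd q.1 q.2 : ℝ) * ((q.1 / Nat.gcd q.1 q.2 : ℕ) : ℝ) := by
      exact_mod_cast (Nat.mul_div_cancel' (Nat.gcd_dvd_left q.1 q.2)).symm
    have a2 : (q.2 : ℝ) = (Nat.gcd q.1 q.2 : ℝ) * ((q.2 / Nat.gcd q.1 q.2 : ℕ) : ℝ) := by
      exact_mod_cast (Nat.mul_div_cancel' (Nat.gcd_dvd_right q.1 q.2)).symm
    have hg' : (0 : ℝ) < (Nat.gcd q.1 q.2 : ℝ) := by exact_mod_cast hg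
    have hx' : (0 : ℝ) < ((q.1 / Nat.gcd q.1 q.2 : ℕ) : ℝ) := by
      have : 0 < q.1 / Nat.gcd q.1 q.2 := Nat.div_pos (Nat.le_of_dvd hq1 (Nat.gcd_dvd_left _ _)) hg
      exact_mod_cast this
    have hy' : (0 : ℝ) < ((q.2 / Nat.gcd q.1 q.2 : ℕ) : ℝ) := by
      have : 0 < q.2 / Nat.gcd q.1 q.2 := Nat.div_pos (Nat.le_of_dvd hq2 (Nat.gcd_dvd_right _ _)) hg
      exact_mod_cast this
    simp only [hF, hφ]
    generalize ((q.1 / Nat.gcd q.1 q.2 : ℕ) : ℝ) = X at *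
    generalize ((q.2 / Nat.gcd q.1 q.2 : ℕ) : ℝ) = Y at *
    generalize (Nat.gcd q.1 q.2 : ℝ) = G at *
    rw [a1, a2]
    field_simp
  rw [Finset.sum_congr rfl hval, ← Finset.sum_image (f := F) hinj]
  have hsub : (KK P l ×ˢ KK P l).image φ ⊆ T := by
    intro z hz
    obtain ⟨q, hq, rfl⟩ := Finset.mem_image.1 hz
    exact hmaps q hq
  refine (Finset.sum_le_sum_of_subset_of_nonneg hsub (fun z _ _ => by rw [hF]; positivity)).trans ?_
  rw [hT, Finset.sum_sigma]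
  have hterm : ∀ i ∈ range (l + 1),
      ∑ s ∈ KK P i ×ˢ (KK P (l - i) ×ˢ KK P (l - i)), F ⟨i, s⟩ ≤ 1 := by
    intro i _
    have e : ∑ s ∈ KK P i ×ˢ (KK P (l - i) ×ˢ KK P (l - i)), F ⟨i, s⟩ =
        (∑ g ∈ KK P i, 1 / (g : ℝ)) * ((∑ x ∈ KK P (l - i), 1 / (x : ℝ)) * (∑ y ∈ KK P (l - i), 1 / (y : ℝ))) := by
      rw [Finset.sum_product, Finset.sum_mul]
      refine Finset.sum_congr rfl fun g _ => ?_
      rw [Finset.sum_product, Finset.sum_mul, Finset.mul_sum]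
      refine Finset.sum_congr rfl fun x _ => ?_
      rw [Finset.mul_sum, Finset.mul_sum]
      refine Finset.sum_congr rfl fun y _ => ?_
      simp only [hF]
      rw [one_div, one_div, one_div, one_div, mul_inv, mul_inv, mul_assoc]
    rw [e]
    have h1 : ∀ j, ∑ g ∈ KK P j, 1 / (g : ℝ) ≤ 1 := fun j =>
      (sum_KK P j).trans (pow_le_one₀ hσ0 hσ)
    have h0 : ∀ j, 0 ≤ ∑ g ∈ KK P j, 1 / (g : ℝ) := fun j => Finset.sum_nonneg fun g _ => by positivity
    exact mul_le_one₀ (h1 _) (mul_nonneg (h0 _) (h0 _)) (mul_le_one₀ (h1 _) (h0 _) (h1 _))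
  calc ∑ i ∈ range (l + 1), ∑ s ∈ KK P i ×ˢ (KK P (l - i) ×ˢ KK P (l - i)), F ⟨i, s⟩
      ≤ ∑ _i ∈ range (l + 1), (1 : ℝ) := Finset.sum_le_sum hterm
    _ = (l : ℝ) + 1 := by simp

theorem coe_l2 (P : Finset ℕ) (hP : ∀ p ∈ P, p.Prime) (hσ : ∑ p ∈ P, 1 / (p : ℝ) ≤ 1) (l N : ℕ) :
    ∑ n ∈ Icc 1 N, ((((Fintype.piFinset (fun _ : Fin l => P)).image (fun x => ∏ i, x i)).filter (fun k => k ∣ n)).card : ℝ) ^ 2 ≤
      ((l : ℝ) + 1) * N := by
  classical
  change ∑ n ∈ Icc 1 N, (((KK P l).filter (fun k => k ∣ n)).card : ℝ) ^ 2 ≤ ((l : ℝ) + 1) * N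
  have h1 : ∀ n ∈ Icc 1 N, (((KK P l).filter (fun k => k ∣ n)).card : ℝ) ^ 2 =
      ∑ q ∈ KK P l ×ˢ KK P l, if Nat.lcm q.1 q.2 ∣ n then (1 : ℝ) else 0 := by
    intro n _
    rw [Finset.sum_product, sq, Finset.card_filter]
    push_cast
    rw [Finset.sum_mul_sum]
    refine Finset.sum_congr rfl fun k _ => Finset.sum_congr rfl fun k' _ => ?_
    by_cases hk : k ∣ n
    · by_cases hk' : k' ∣ n
      · simp [hk, hk', Nat.lcm_dvd hk hk']
      · have : ¬ Nat.lcm k k' ∣ n := fun h => hk' ((Nat.dvd_lcm_right k k').trans h)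
        simp [hk, hk', this]
    · have : ¬ Nat.lcm k k' ∣ n := fun h => hk ((Nat.dvd_lcm_left k k').trans h)
      simp [hk, this]
  rw [Finset.sum_congr rfl h1, Finset.sum_comm]
  have h2 : ∀ q ∈ KK P l ×ˢ KK P l, ∑ n ∈ Icc 1 N, (if Nat.lcm q.1 q.2 ∣ n then (1 : ℝ) else 0) ≤
      (N : ℝ) * ((Nat.gcd q.1 q.2 : ℝ) / ((q.1 : ℝ) * q.2)) := by
    intro q hq
    rw [Finset.mem_product] at hq
    have hq1 := KK_pos P hP l _ hq.1
    have hq2 := KK_pos P hP l _ hq.2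
    have hg : 0 < Nat.gcd q.1 q.2 := Nat.gcd_pos_of_pos_left _ hq1
    have hL : 0 < Nat.lcm q.1 q.2 := Nat.lcm_pos hq1 hq2
    have e1 : ∑ n ∈ Icc 1 N, (if Nat.lcm q.1 q.2 ∣ n then (1 : ℝ) else 0) =
        (((Icc 1 N).filter (fun n => Nat.lcm q.1 q.2 ∣ n)).card : ℝ) := by
      rw [Finset.card_filter]
      push_cast
      rfl
    have e2 : ((Icc 1 N).filter (fun n => Nat.lcm q.1 q.2 ∣ n)).card = N / Nat.lcm q.1 q.2 := by
      rw [← Nat.Ioc_filter_dvd_card_eq_div]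
      rfl
    rw [e1, e2]
    have e3 : (Nat.gcd q.1 q.2 : ℝ) / ((q.1 : ℝ) * q.2) = 1 / (Nat.lcm q.1 q.2 : ℝ) := by
      have e4 : (Nat.gcd q.1 q.2 : ℝ) * (Nat.lcm q.1 q.2 : ℝ) = (q.1 : ℝ) * q.2 := by
        exact_mod_cast Nat.gcd_mul_lcm q.1 q.2
      rw [← e4]
      have hg' : (Nat.gcd q.1 q.2 : ℝ) ≠ 0 := by exact_mod_cast hg.ne'
      have hL' : (Nat.lcm q.1 q.2 : ℝ) ≠ 0 := by exact_mod_cast hL.ne'
      generalize (Nat.lcm q.1 q.2 : ℝ) = L at *
      generalize (Nat.gcd q.1 q.2 : ℝ) = G at *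
      field_simp
    rw [e3, mul_one_div]
    exact Nat.cast_div_le
  refine (Finset.sum_le_sum h2).trans ?_
  rw [← Finset.mul_sum, mul_comm]
  exact mul_le_mul_of_nonneg_right (gcd_sum P hP hσ l) (Nat.cast_nonneg _)

private lemma fiber_le (P : Finset ℕ) (hP : ∀ p ∈ P, p.Prime) (l k : ℕ) :
    ((Fintype.piFinset (fun _ : Fin l => P)).filter (fun x => ∏ i, x i = k)).card ≤ l.factorial := by
  classical
  rcases Finset.eq_empty_or_nonempty ((Fintype.piFinset (fun _ : Fin l => P)).filter (fun x => ∏ i, x i = k)) with h | h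
  · rw [h]; simp
  obtain ⟨x0, hx0⟩ := h
  have hmem : ∀ x ∈ (Fintype.piFinset (fun _ : Fin l => P)).filter (fun x => ∏ i, x i = k),
      List.ofFn x ∈ (List.permutations (Nat.primeFactorsList k)).toFinset := by
    intro x hx
    rw [Finset.mem_filter, Fintype.mem_piFinset] at hx
    rw [List.mem_toFinset, List.mem_permutations, ← hx.2]
    exact fact_perm P hP x hx.1
  have hlen : (Nat.primeFactorsList k).length = l := by
    rw [Finset.mem_filter, Fintype.mem_piFinset] at hx0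
    have := (fact_perm P hP x0 hx0.1).length_eq
    rw [hx0.2, List.length_ofFn] at this
    exact this.symm
  calc ((Fintype.piFinset (fun _ : Fin l => P)).filter (fun x => ∏ i, x i = k)).card
      ≤ (List.permutations (Nat.primeFactorsList k)).toFinset.card :=
        Finset.card_le_card_of_injOn (fun x => List.ofFn x) hmem (fun a _ b _ hab => List.ofFn_injective hab)
    _ ≤ (List.permutations (Nat.primeFactorsList k)).length := List.toFinset_card_le _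
    _ = l.factorial := by rw [List.length_permutations, hlen]

private lemma nj_one (t : ℝ) : nj t 1 = 1 := by
  simp [nj]

private lemma nj_prod (t : ℝ) {ι : Type*} (s : Finset ι) (x : ι → ℕ) (hx : ∀ i ∈ s, 1 ≤ x i) :
    nj t (∏ i ∈ s, x i) = ∏ i ∈ s, nj t (x i) := by
  classical
  induction s using Finset.induction_on with
  | empty => simp [nj_one]
  | insert a s ha ih =>
    rw [Finset.prod_insert ha, Finset.prod_insert ha,
      nj_mul t _ _ (hx a (Finset.mem_insert_self _ _))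
        (Finset.one_le_prod' fun i hi => hx i (Finset.mem_insert_of_mem hi)),
      ih fun i hi => hx i (Finset.mem_insert_of_mem hi)]

theorem coe (P : Finset ℕ) (hP : ∀ p ∈ P, p.Prime) (hσ : ∑ p ∈ P, 1 / (p : ℝ) ≤ 1) (c b : ℕ → ℂ) (hc : ∀ n, ‖c n‖ ≤ 1)
    (hb : ∀ n, ‖b n‖ ≤ 1) (Ms : Finset ℕ) (hM : ∀ m ∈ Ms, 1 ≤ m) (l N : ℕ)
    (hN : ∀ x : Fin l → ℕ, (∀ i, x i ∈ P) → ∀ m ∈ Ms, (∏ i, x i) * m ≤ N) :
    ∃ u : ℕ → ℂ, (∀ t : ℝ, (∑ p ∈ P, c p * nj t p) ^ l * (∑ m ∈ Ms, b m * nj t m) = ∑ n ∈ Icc 1 N, u n * nj t n) ∧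
      (∀ n, u n ≠ 0 → ∃ x : Fin l → ℕ, (∀ i, x i ∈ P) ∧ ∃ m ∈ Ms, n = (∏ i, x i) * m) ∧
      ∑ n ∈ Icc 1 N, ‖u n‖ ^ 2 ≤ (l.factorial : ℝ) ^ 2 * (l + 1) * N := by
  classical
  set X := Fintype.piFinset (fun _ : Fin l => P) with hX
  set u : ℕ → ℂ := fun n => ∑ x ∈ X, ∑ m ∈ Ms, if (∏ i, x i) * m = n then (∏ i, c (x i)) * b m else 0 with hu
  have hXm : ∀ x ∈ X, ∀ i, x i ∈ P := fun x hx => Fintype.mem_piFinset.1 hx
  refine ⟨u, ?_, ?_, ?_⟩
  · intro t
    have e1 : (∑ p ∈ P, c p * nj t p) ^ l = ∑ x ∈ X, (∏ i, c (x i)) * nj t (∏ i, x i) := by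
      have : (∑ p ∈ P, c p * nj t p) ^ l = ∏ _i : Fin l, ∑ p ∈ P, c p * nj t p := by simp
      rw [this, Finset.prod_univ_sum]
      refine Finset.sum_congr rfl fun x hx => ?_
      rw [Finset.prod_mul_distrib, nj_prod t univ x fun i _ => (hP _ (hXm x hx i)).one_lt.le]
    have e2 : ∑ n ∈ Icc 1 N, u n * nj t n =
        ∑ x ∈ X, ∑ m ∈ Ms, ∑ n ∈ Icc 1 N,
          (if (∏ i, x i) * m = n then (∏ i, c (x i)) * b m else 0) * nj t n := by
      simp only [hu, Finset.sum_mul]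
      rw [Finset.sum_comm]
      refine Finset.sum_congr rfl fun x _ => ?_
      rw [Finset.sum_comm]
    rw [e1, Finset.sum_mul_sum, e2]
    refine Finset.sum_congr rfl fun x hx => ?_
    refine Finset.sum_congr rfl fun m hm => ?_
    have hx1 := prime_prod P hP x (hXm x hx)
    have hm1 := hM m hm
    have hmem : (∏ i, x i) * m ∈ Icc 1 N := by
      rw [Finset.mem_Icc]
      exact ⟨Nat.mul_pos hx1 hm1, hN x (hXm x hx) m hm⟩
    rw [Finset.sum_eq_single_of_mem _ hmem]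
    · rw [if_pos rfl, nj_mul t _ _ hx1 hm1]
      ring
    · intro n _ hn
      rw [if_neg (Ne.symm hn), zero_mul]
  · intro n hn
    simp only [hu] at hn
    obtain ⟨x, hx, h1⟩ := Finset.exists_ne_zero_of_sum_ne_zero hn
    obtain ⟨m, hm, h2⟩ := Finset.exists_ne_zero_of_sum_ne_zero h1
    refine ⟨x, hXm x hx, m, hm, ?_⟩
    by_contra h3
    exact h2 (if_neg fun h => h3 h.symm)
  · have hbound : ∀ n ∈ Icc 1 N, ‖u n‖ ≤ (l.factorial : ℝ) *
        ((((Fintype.piFinset (fun _ : Fin l => P)).image (fun x => ∏ i, x i)).filter (fun k => k ∣ n)).card : ℝ) := by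
      intro n hn
      rw [Finset.mem_Icc] at hn
      have s1 : ‖u n‖ ≤ ∑ x ∈ X, if (∏ i, x i) ∣ n then (1 : ℝ) else 0 := by
        simp only [hu]
        refine (norm_sum_le _ _).trans (Finset.sum_le_sum fun x hx => ?_)
        have hx1 := prime_prod P hP x (hXm x hx)
        have hcx : ‖∏ i, c (x i)‖ ≤ 1 := by
          rw [norm_prod]
          exact Finset.prod_le_one (fun i _ => norm_nonneg _) (fun i _ => hc _)
        by_cases hd : (∏ i, x i) ∣ n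
        · rw [if_pos hd]
          obtain ⟨m0, hm0⟩ := hd
          have e : ∑ m ∈ Ms, (if (∏ i, x i) * m = n then (∏ i, c (x i)) * b m else 0) =
              if m0 ∈ Ms then (∏ i, c (x i)) * b m0 else 0 := by
            have : ∀ m ∈ Ms, (if (∏ i, x i) * m = n then (∏ i, c (x i)) * b m else 0) =
                if m = m0 then (∏ i, c (x i)) * b m else 0 := by
              intro m _
              by_cases h : m = m0
              · subst h; rw [if_pos hm0.symm, if_pos rfl]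
              · rw [if_neg h, if_neg]
                intro h'
                apply h
                rw [hm0] at h'
                exact Nat.eq_of_mul_eq_mul_left hx1 h'
            rw [Finset.sum_congr rfl this, Finset.sum_ite_eq' Ms m0]
          rw [e]
          split_ifs
          · rw [norm_mul]
            exact mul_le_one₀ hcx (norm_nonneg _) (hb _)
          · simp
        · rw [if_neg hd]
          have : ∀ m ∈ Ms, (if (∏ i, x i) * m = n then (∏ i, c (x i)) * b m else 0) = 0 := by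
            intro m _
            rw [if_neg]
            rintro rfl
            exact hd (Dvd.intro _ rfl)
          rw [Finset.sum_congr rfl this]
          simp
      have s2 : ∑ x ∈ X, (if (∏ i, x i) ∣ n then (1 : ℝ) else 0) ≤ (l.factorial : ℝ) *
        (((X.image (fun x => ∏ i, x i)).filter (fun k => k ∣ n)).card : ℝ) := by
        rw [← Finset.sum_fiberwise_of_maps_to (s := X) (t := X.image (fun x => ∏ i, x i))
          (g := fun x => ∏ i, x i) (fun x hx => Finset.mem_image_of_mem _ hx)]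
        rw [Finset.card_filter]
        push_cast
        rw [Finset.mul_sum]
        refine Finset.sum_le_sum fun k hk => ?_
        have : ∀ x ∈ X.filter (fun x => ∏ i, x i = k), (if (∏ i, x i) ∣ n then (1 : ℝ) else 0) =
            if k ∣ n then (1 : ℝ) else 0 := by
          intro x hx
          rw [(Finset.mem_filter.1 hx).2]
        rw [Finset.sum_congr rfl this, Finset.sum_const, nsmul_eq_mul]
        refine mul_le_mul_of_nonneg_right ?_ (by split_ifs <;> norm_num)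
        exact_mod_cast fiber_le P hP l k
      exact s1.trans s2
    calc ∑ n ∈ Icc 1 N, ‖u n‖ ^ 2
        ≤ ∑ n ∈ Icc 1 N, ((l.factorial : ℝ) *
        ((((Fintype.piFinset (fun _ : Fin l => P)).image (fun x => ∏ i, x i)).filter (fun k => k ∣ n)).card : ℝ)) ^ 2 :=
          Finset.sum_le_sum fun n hn => pow_le_pow_left₀ (norm_nonneg _) (hbound n hn) 2
      _ = (l.factorial : ℝ) ^ 2 * ∑ n ∈ Icc 1 N,
        ((((Fintype.piFinset (fun _ : Fin l => P)).image (fun x => ∏ i, x i)).filter (fun k => k ∣ n)).card : ℝ) ^ 2 := by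
          rw [Finset.mul_sum]
          refine Finset.sum_congr rfl fun n _ => ?_
          rw [mul_pow]
      _ ≤ (l.factorial : ℝ) ^ 2 * (((l : ℝ) + 1) * N) := by
          exact mul_le_mul_of_nonneg_left (coe_l2 P hP hσ l N) (by positivity)
      _ = (l.factorial : ℝ) ^ 2 * (l + 1) * N := by ring

end Pool.H2.MR
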