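import Pool.Agent.H2.MR.Mvl

/-!
# [H2 MR LV1] The first level

PROOF. For `t ∈ S`: `‖∑_v pv mv‖² ≤ (b-a) ∑_v ‖pv‖²‖mv‖² ≤ (b-a) ∑_v exp(-2αv/H) ‖mv‖²` (Cauchy-Schwarz, `Finset.inner_mul_le_norm_mul_norm` or
`sq_sum_le_card_mul_sum_sq`) and `exp(-2αv/H) ≤ exp(-2αa/H)`. `∫_S ‖mv‖² ≤ ∫_{-T}^T ‖mv‖²` (`MeasureTheory.setIntegral_mono_set`; all functions are
continuous in `t`, `ds` is a finite sum of `nj`). `mvl_ds` with `M1 = lo H X v`, `M2 = hi H X v`, `N1 = X exp(-(v+1)/H) ≤ M1 + 1`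
(`Nat.lt_floor_add_one`), `‖mco‖ ≤ 1`: `∫_{-T}^T ‖mv‖² ≤ C (T + M2) M2/N1² ≤ C (T + 6X exp(-v/H)) 6X exp(-v/H) exp(2(v+1)/H)/X²
= 6 C exp(2/H) (T exp(v/H)/X + 6) ≤ 42 e² C`, because `exp(v/H) ≤ exp(b/H)` and `T exp(b/H) ≤ X`.
-/

namespace Pool.H2.MR

open Finset MeasureTheory

private theorem lv1_pv_cont (f : ℕ → ℂ) (H v : ℕ) : Continuous fun t : ℝ => pv f H v t := by
  unfold pv
  refine continuous_finsetSum _ fun p hp => ?_
  have hp' : 1 ≤ p := by
    have := (Finset.mem_filter.1 hp).2.one_lt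
    omega
  exact continuous_const.mul (continuous_nj p hp')

private theorem lv1_ds_cont (c : ℕ → ℂ) (N N' : ℕ) : Continuous fun t : ℝ => ds c N N' t := by
  unfold ds
  refine continuous_finsetSum _ fun n hn => ?_
  have hn' : 1 ≤ n := by
    have := (Finset.mem_Ioc.1 hn).1
    omega
  exact continuous_const.mul (continuous_nj n hn')

theorem lv1 : ∃ C : ℝ, 0 < C ∧ ∀ (f : ℕ → ℂ) (H a b X : ℕ) (α T : ℝ) (S : Set ℝ), OB f → 1 ≤ H → a < b → 1 ≤ X →
    0 ≤ α → 1 ≤ T → T * Real.exp ((b : ℝ) / H) ≤ X → MeasurableSet S → S ⊆ Set.Icc (-T) T → (∀ t ∈ S, Gd f H a b α t) →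
    ∫ t in S, ‖∑ v ∈ Ico a b, pv f H v t * mv f H a b X v t‖ ^ 2 ≤
      C * ((b : ℝ) - a) ^ 2 * Real.exp (-(2 * α * ((a : ℝ) / H))) := by
  obtain ⟨C, hC, hmv⟩ := mvl_ds
  refine ⟨42 * Real.exp 2 * C, by positivity, ?_⟩
  intro f H a b X α T S hf hH hab hX hα hT hTX hSm hST hG
  have hH0 : (0 : ℝ) < H := by exact_mod_cast hH
  have hX1 : (1 : ℝ) ≤ X := by exact_mod_cast hX
  have hX0 : (0 : ℝ) < X := by linarith
  have hT0 : -T ≤ T := by linarith
  set Q : ℝ := Real.exp (-(2 * α * ((a : ℝ) / H))) with hQ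
  have hone : ∀ v ∈ Ico a b, ∫ t in (-T)..T, ‖mv f H a b X v t‖ ^ 2 ≤ 42 * Real.exp 2 * C := by
    intro v hv
    rw [Finset.mem_Ico] at hv
    have hadd : ((v : ℝ) + 1) / H = (v : ℝ) / H + 1 / H := by ring
    have hI := hmv (lo H X v) (hi H X v) T ((X : ℝ) * Real.exp (-(((v : ℝ) + 1) / H)))
      (mco f H a b) hT (by positivity) (Nat.lt_floor_add_one _).le ?_
    swap
    · intro n
      unfold mco
      have h1 : ‖((om H a b n : ℂ) + 1)‖ = (om H a b n : ℝ) + 1 := by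
        have : ((om H a b n : ℂ) + 1) = (((om H a b n : ℝ) + 1 : ℝ) : ℂ) := by push_cast; rfl
        rw [this, Complex.norm_real, Real.norm_eq_abs, abs_of_nonneg (by positivity)]
      rw [norm_div, h1, div_le_one (by positivity)]
      have := hf.bd n
      have h2 : (0 : ℝ) ≤ (om H a b n : ℝ) := Nat.cast_nonneg _
      linarith
    refine hI.trans ?_
    set Y : ℝ := (X : ℝ) * Real.exp (-((v : ℝ) / H)) with hY
    have hY0 : 0 < Y := by positivity
    have hM2 : ((hi H X v : ℕ) : ℝ) ≤ 6 * Y := by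
      have : ((hi H X v : ℕ) : ℝ) ≤ 6 * (X : ℝ) * Real.exp (-((v : ℝ) / H)) :=
        Nat.floor_le (by positivity)
      rw [hY, ← mul_assoc]
      exact this
    have hTY : T ≤ Y := by
      have h1 : T * Real.exp ((v : ℝ) / H) ≤ X := by
        refine le_trans (mul_le_mul_of_nonneg_left (Real.exp_le_exp.mpr ?_) (by linarith)) hTX
        apply div_le_div_of_nonneg_right _ hH0.le
        exact_mod_cast hv.2.le
      have h2 := mul_le_mul_of_nonneg_right h1 (Real.exp_pos (-((v : ℝ) / H))).le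
      rw [mul_assoc, ← Real.exp_add, add_neg_cancel, Real.exp_zero, mul_one] at h2
      exact h2
    have hN1 : Y * Real.exp (-1) ≤ (X : ℝ) * Real.exp (-(((v : ℝ) + 1) / H)) := by
      rw [hY, mul_assoc, ← Real.exp_add, hadd]
      apply mul_le_mul_of_nonneg_left _ hX0.le
      apply Real.exp_le_exp.mpr
      have : 1 / (H : ℝ) ≤ 1 := by
        rw [div_le_one hH0]; exact_mod_cast hH
      linarith
    have hM0 : (0 : ℝ) ≤ ((hi H X v : ℕ) : ℝ) := Nat.cast_nonneg _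
    have hTM : T + ((hi H X v : ℕ) : ℝ) ≤ 7 * Y := by linarith
    calc C * (T + ((hi H X v : ℕ) : ℝ)) / ((X : ℝ) * Real.exp (-(((v : ℝ) + 1) / H))) ^ 2 * ((hi H X v : ℕ) : ℝ)
        ≤ C * (7 * Y) / (Y * Real.exp (-1)) ^ 2 * (6 * Y) := by
          apply mul_le_mul _ hM2 hM0 (by positivity)
          exact div_le_div₀ (by positivity) (mul_le_mul_of_nonneg_left hTM hC.le) (by positivity)
            (pow_le_pow_left₀ (by positivity) hN1 2)
      _ = 42 * Real.exp 2 * C := by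
          have e2 : Real.exp 2 * Real.exp (-1) ^ 2 = 1 := by
            rw [← Real.exp_nat_mul, ← Real.exp_add]; norm_num
          rw [div_mul_eq_mul_div, div_eq_iff (by positivity)]
          linear_combination (-(42 * C * Y ^ 2)) * e2
  -- pointwise bound
  set B : ℝ → ℝ := fun t => ((b : ℝ) - a) * Q * ∑ v ∈ Ico a b, ‖mv f H a b X v t‖ ^ 2 with hB
  have hba : (0 : ℝ) ≤ (b : ℝ) - a := by
    have : (a : ℝ) ≤ b := by exact_mod_cast hab.le
    linarith
  have hcard : ((Ico a b).card : ℝ) = (b : ℝ) - a := by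
    rw [Nat.card_Ico, Nat.cast_sub hab.le]
  have hQ0 : 0 < Q := Real.exp_pos _
  have hmc : ∀ v, Continuous fun t => ‖mv f H a b X v t‖ ^ 2 := fun v => ((lv1_ds_cont _ _ _).norm).pow 2
  have hBc : Continuous B := continuous_const.mul (continuous_finsetSum _ fun v _ => hmc v)
  have hB0 : ∀ t, 0 ≤ B t := fun t =>
    mul_nonneg (mul_nonneg hba hQ0.le) (Finset.sum_nonneg fun v _ => by positivity)
  have hpt : ∀ t ∈ S, ‖∑ v ∈ Ico a b, pv f H v t * mv f H a b X v t‖ ^ 2 ≤ B t := by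
    intro t ht
    have hgd := hG t ht
    have h1 : ‖∑ v ∈ Ico a b, pv f H v t * mv f H a b X v t‖ ^ 2 ≤
        ((b : ℝ) - a) * ∑ v ∈ Ico a b, ‖pv f H v t * mv f H a b X v t‖ ^ 2 := by
      rw [← hcard]
      refine (pow_le_pow_left₀ (norm_nonneg _) (norm_sum_le _ _) 2).trans ?_
      exact sq_sum_le_card_mul_sum_sq
    refine h1.trans ?_
    simp only [hB]
    rw [mul_assoc]
    refine mul_le_mul_of_nonneg_left ?_ hba
    rw [Finset.mul_sum]
    apply Finset.sum_le_sum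
    intro v hv
    have h2 := hgd v hv
    rw [Finset.mem_Ico] at hv
    rw [norm_mul, mul_pow]
    apply mul_le_mul_of_nonneg_right _ (by positivity)
    refine (pow_le_pow_left₀ (norm_nonneg _) h2 2).trans ?_
    rw [← Real.exp_nat_mul, hQ]
    apply Real.exp_le_exp.mpr
    have h3 : (a : ℝ) / H ≤ (v : ℝ) / H := by
      apply div_le_div_of_nonneg_right _ hH0.le
      exact_mod_cast hv.1
    have h4 := mul_le_mul_of_nonneg_left h3 hα
    push_cast
    linarith
  have hLc : Continuous fun t => ‖∑ v ∈ Ico a b, pv f H v t * mv f H a b X v t‖ ^ 2 := by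
    refine (Continuous.norm ?_).pow 2
    exact continuous_finsetSum _ fun v _ => (lv1_pv_cont f H v).mul (lv1_ds_cont _ _ _)
  have hBi : IntegrableOn B (Set.Icc (-T) T) := hBc.integrableOn_Icc
  calc ∫ t in S, ‖∑ v ∈ Ico a b, pv f H v t * mv f H a b X v t‖ ^ 2
      ≤ ∫ t in S, B t :=
        setIntegral_mono_on (hLc.integrableOn_Icc.mono_set hST) (hBi.mono_set hST) hSm hpt
    _ ≤ ∫ t in Set.Icc (-T) T, B t :=
        setIntegral_mono_set hBi (ae_of_all _ hB0) hST.eventuallyLE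
    _ = ∫ t in (-T)..T, B t := by
        rw [intervalIntegral.integral_of_le hT0, integral_Icc_eq_integral_Ioc]
    _ = ((b : ℝ) - a) * Q * ∑ v ∈ Ico a b, ∫ t in (-T)..T, ‖mv f H a b X v t‖ ^ 2 := by
        simp only [hB]
        rw [intervalIntegral.integral_const_mul, intervalIntegral.integral_finsetSum]
        intro v _
        exact (hmc v).intervalIntegrable _ _
    _ ≤ ((b : ℝ) - a) * Q * ∑ _v ∈ Ico a b, 42 * Real.exp 2 * C := by
        apply mul_le_mul_of_nonneg_left _ (mul_nonneg hba hQ0.le)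
        exact Finset.sum_le_sum hone
    _ = 42 * Real.exp 2 * C * ((b : ℝ) - a) ^ 2 * Q := by
        rw [Finset.sum_const, nsmul_eq_mul, hcard]
        ring

end Pool.H2.MR
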