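import Pool.Agent.H2.MR.Pow

/-!
# [H2 MR LVJ] The level after a level whose polynomials are not all small

PROOF. `t ∈ S`: some `r ∈ Ico a' b'` has `‖pv f H' r t‖ > exp(-α' r/H')`; let `S_r` be the set of these `t` (measurable: `pv` is continuous). By Cauchy-Schwarz
`‖∑_v pv mv‖² ≤ (b-a) ∑_v ‖pv‖²‖mv‖²`, so it suffices to bound, for `v ∈ Ico a b` and `r ∈ Ico a' b'`, `∫_{S_r} ‖pv_v‖²‖mv_v‖²`.
Put `l = ⌈(v/H)/(r/H')⌉₊`, so `v/H ≤ l r/H' ≤ v/H + r/H'`. On `S_r` `1 ≤ (‖pv_r‖ exp(α' r/H'))^(2l)`, hence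
`‖pv_v‖²‖mv_v‖² ≤ exp(-2αv/H) exp(2α' l r/H') ‖pv_r^l mv_v‖²`. `pow` with `M1 = lo H X v`, `M2 = hi H X v`, `x1 = X exp(-(v+1)/H)`:
`N2 = exp(l(r+1)/H') M2 ≤ 6X exp(r/H' + l/H')`, `N1 = exp(l r/H') x1 ≥ X exp(-1)`, `T ≤ X`, so
`∫_{-T}^T ‖pv_r^l mv_v‖² ≤ 42 e² C exp(2r/H' + 2l/H') (l!)² (l+1)`. Exponents (`2α' ≤ 1`, `H' ≥ 2`): `-2αv/H + 2α'(v/H + r/H') + 2r/H' + 2l/H'
≤ -2(α-α')a/H + 3b'/H' + l`. `l ≤ ℓ = (b/H)/(a'/H') + 1` and `(l!)²(l+1) ≤ (l+1)^(2l+1) = exp((2l+1) log(l+1)) ≤ exp((2ℓ+1) log(ℓ+1))`.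
There are `(b-a)(b'-a')` pairs `(v,r)`.
-/

namespace Pool.H2.MR

open Finset MeasureTheory

private theorem lvj_pv_cont (f : ℕ → ℂ) (H v : ℕ) : Continuous fun t : ℝ => pv f H v t := by
  unfold pv
  refine continuous_finsetSum _ fun p hp => ?_
  have hp' : 1 ≤ p := by
    have := (Finset.mem_filter.1 hp).2.one_lt
    omega
  exact continuous_const.mul (continuous_nj p hp')

private theorem lvj_ds_cont (c : ℕ → ℂ) (N N' : ℕ) : Continuous fun t : ℝ => ds c N N' t := by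
  unfold ds
  refine continuous_finsetSum _ fun n hn => ?_
  have hn' : 1 ≤ n := by
    have := (Finset.mem_Ioc.1 hn).1
    omega
  exact continuous_const.mul (continuous_nj n hn')

private theorem lvj_fact (l : ℕ) (ℓ : ℝ) (hl : (l : ℝ) ≤ ℓ) :
    (l.factorial : ℝ) ^ 2 * (l + 1) ≤ Real.exp ((2 * ℓ + 1) * Real.log (ℓ + 1)) := by
  have h0 : (0 : ℝ) ≤ l := Nat.cast_nonneg l
  have h1 : (l.factorial : ℝ) ≤ ((l : ℝ) + 1) ^ l := by
    have h2 : l.factorial ≤ l ^ l := Nat.factorial_le_pow l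
    have h3 : (l.factorial : ℝ) ≤ (l : ℝ) ^ l := by exact_mod_cast h2
    exact h3.trans (pow_le_pow_left₀ h0 (by linarith) l)
  have h4 : (l.factorial : ℝ) ^ 2 * (l + 1) ≤ ((l : ℝ) + 1) ^ (2 * l + 1) := by
    calc (l.factorial : ℝ) ^ 2 * (l + 1) ≤ (((l : ℝ) + 1) ^ l) ^ 2 * (l + 1) :=
          mul_le_mul_of_nonneg_right (pow_le_pow_left₀ (by positivity) h1 2) (by positivity)
      _ = ((l : ℝ) + 1) ^ (2 * l + 1) := by ring
  refine h4.trans ?_
  have h5 : ((l : ℝ) + 1) ^ (2 * l + 1) = Real.exp (((2 * l + 1 : ℕ) : ℝ) * Real.log ((l : ℝ) + 1)) := by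
    rw [Real.exp_nat_mul, Real.exp_log (by positivity)]
  rw [h5]
  apply Real.exp_le_exp.mpr
  have h6 : Real.log ((l : ℝ) + 1) ≤ Real.log (ℓ + 1) := Real.log_le_log (by positivity) (by linarith)
  have h7 : 0 ≤ Real.log ((l : ℝ) + 1) := Real.log_nonneg (by linarith)
  push_cast
  exact mul_le_mul (by linarith) h6 h7 (by linarith)

private theorem lvj_pair {C : ℝ} (hC : 0 < C) (A R X T α' α A0 B0 ℓ x1 M2 h' hh : ℝ) (l : ℕ) (I : ℝ)
    (hR : 0 < R) (h1 : A ≤ l * R) (h2 : l * R ≤ A + R) (hl : (l : ℝ) ≤ ℓ) (hh' : 0 < h') (hh1 : h' ≤ 1 / 2)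
    (hhh : hh ≤ 1) (hX : 1 ≤ X) (hT : 1 ≤ T) (hTX : T ≤ X) (hα' : 0 ≤ α') (hαα : α' ≤ α) (hα : α ≤ 1 / 2)
    (hA : A0 ≤ A) (hB : R ≤ B0) (hx1 : x1 = X * Real.exp (-(A + hh))) (hM0 : 0 ≤ M2)
    (hM2 : M2 ≤ 6 * X * Real.exp (-A))
    (hI : I ≤ C * (T + Real.exp (l * (R + h')) * M2) * (Real.exp (l * (R + h')) * M2) /
        (Real.exp (l * R) * x1) ^ 2 * ((l.factorial : ℝ) ^ 2 * (l + 1))) :
    Real.exp (-(2 * α * A) + 2 * α' * (l * R)) * I ≤
      42 * Real.exp 2 * C * Real.exp (-(2 * (α - α') * A0) + 3 * B0 + 2 * ℓ + (2 * ℓ + 1) * Real.log (ℓ + 1)) := by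
  have hX0 : 0 < X := by linarith
  have hl0 : (0 : ℝ) ≤ l := Nat.cast_nonneg l
  set Q : ℝ := Real.exp (R + l / 2) with hQ
  have hQ1 : 1 ≤ Q := Real.one_le_exp (by positivity)
  have hQ0 : 0 < Q := by linarith
  have hN2 : Real.exp (l * (R + h')) * M2 ≤ 6 * X * Q := by
    have e1 : Real.exp (l * (R + h')) ≤ Real.exp (A + (R + l / 2)) := by
      apply Real.exp_le_exp.mpr
      nlinarith
    calc Real.exp (l * (R + h')) * M2 ≤ Real.exp (A + (R + l / 2)) * (6 * X * Real.exp (-A)) :=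
          mul_le_mul e1 hM2 hM0 (Real.exp_pos _).le
      _ = 6 * X * Q * (Real.exp A * Real.exp (-A)) := by rw [Real.exp_add, ← hQ]; ring
      _ = 6 * X * Q := by rw [← Real.exp_add, add_neg_cancel, Real.exp_zero, mul_one]
  have hN20 : 0 ≤ Real.exp (l * (R + h')) * M2 := by positivity
  have hTN : T + Real.exp (l * (R + h')) * M2 ≤ 7 * X * Q := by
    have : X ≤ X * Q := le_mul_of_one_le_right hX0.le hQ1
    linarith
  have hN1 : X * Real.exp (-1) ≤ Real.exp (l * R) * x1 := by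
    rw [hx1]
    have e1 : Real.exp (l * R) * (X * Real.exp (-(A + hh))) = X * Real.exp (l * R - (A + hh)) := by
      rw [sub_eq_add_neg, Real.exp_add]; ring
    rw [e1]
    apply mul_le_mul_of_nonneg_left _ hX0.le
    apply Real.exp_le_exp.mpr
    linarith
  set K : ℝ := (l.factorial : ℝ) ^ 2 * (l + 1) with hK
  have hK0 : 0 ≤ K := by positivity
  have hKle := lvj_fact l ℓ hl
  rw [← hK] at hKle
  have hI2 : I ≤ 42 * Real.exp 2 * C * Q ^ 2 * K := by
    refine hI.trans ?_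
    apply mul_le_mul_of_nonneg_right _ hK0
    have hden : 0 < (X * Real.exp (-1)) ^ 2 := by positivity
    calc C * (T + Real.exp (l * (R + h')) * M2) * (Real.exp (l * (R + h')) * M2) / (Real.exp (l * R) * x1) ^ 2
        ≤ C * (7 * X * Q) * (6 * X * Q) / (X * Real.exp (-1)) ^ 2 := by
          apply div_le_div₀ (by positivity) _ hden (pow_le_pow_left₀ (by positivity) hN1 2)
          apply mul_le_mul (mul_le_mul_of_nonneg_left hTN hC.le) hN2 hN20 (by positivity)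
      _ = 42 * Real.exp 2 * C * Q ^ 2 := by
          have e2 : Real.exp 2 * Real.exp (-1) ^ 2 = 1 := by
            rw [← Real.exp_nat_mul, ← Real.exp_add]; norm_num
          have e3 : Real.exp (-1) ≠ 0 := (Real.exp_pos _).ne'
          rw [div_eq_iff (by positivity)]
          linear_combination (-(42 * C * Q ^ 2 * X ^ 2)) * e2
  have hE0 : 0 < Real.exp (-(2 * α * A) + 2 * α' * (l * R)) := Real.exp_pos _
  calc Real.exp (-(2 * α * A) + 2 * α' * (l * R)) * I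
      ≤ Real.exp (-(2 * α * A) + 2 * α' * (l * R)) * (42 * Real.exp 2 * C * Q ^ 2 * K) :=
        mul_le_mul_of_nonneg_left hI2 hE0.le
    _ = 42 * Real.exp 2 * C * (Real.exp (-(2 * α * A) + 2 * α' * (l * R)) * Q ^ 2) * K := by ring
    _ = 42 * Real.exp 2 * C * Real.exp (-(2 * α * A) + 2 * α' * (l * R) + 2 * (R + l / 2)) * K := by
        rw [hQ, ← Real.exp_nat_mul, ← Real.exp_add]; norm_num
    _ ≤ 42 * Real.exp 2 * C * Real.exp (-(2 * (α - α') * A0) + 3 * B0 + 2 * ℓ) *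
          Real.exp ((2 * ℓ + 1) * Real.log (ℓ + 1)) := by
        apply mul_le_mul _ hKle hK0 (by positivity)
        apply mul_le_mul_of_nonneg_left _ (by positivity)
        apply Real.exp_le_exp.mpr
        have g1 : α' * (l * R) ≤ α' * (A + R) := mul_le_mul_of_nonneg_left h2 hα'
        have g2 : α' * R ≤ 1 / 2 * R := mul_le_mul_of_nonneg_right (hαα.trans hα) hR.le
        have g3 : (α - α') * A0 ≤ (α - α') * A := mul_le_mul_of_nonneg_left hA (by linarith)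
        nlinarith
    _ = _ := by rw [mul_assoc (42 * Real.exp 2 * C), ← Real.exp_add]

theorem lvj : ∃ C : ℝ, 0 < C ∧ ∀ (f : ℕ → ℂ) (H' a' b' H a b X : ℕ) (α' α T : ℝ) (S : Set ℝ), OB f → 2 ≤ H' →
    2 * H' ≤ a' → a' < b' → 1 ≤ H → a < b → 0 ≤ α' → α' ≤ α → α ≤ 1 / 2 → 1 ≤ X → 1 ≤ T → T ≤ X →
    MeasurableSet S → S ⊆ Set.Icc (-T) T → (∀ t ∈ S, Gd f H a b α t ∧ ¬ Gd f H' a' b' α' t) →
    ∀ ℓ : ℝ, ℓ = ((b : ℝ) / H) / ((a' : ℝ) / H') + 1 →
    ∫ t in S, ‖∑ v ∈ Ico a b, pv f H v t * mv f H a b X v t‖ ^ 2 ≤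
      C * ((b : ℝ) - a) ^ 2 * ((b' : ℝ) - a') *
        Real.exp (-(2 * (α - α') * ((a : ℝ) / H)) + 3 * ((b' : ℝ) / H') + 2 * ℓ + (2 * ℓ + 1) * Real.log (ℓ + 1)) := by
  obtain ⟨C, hC, hpow⟩ := pow
  refine ⟨42 * Real.exp 2 * C, by positivity, ?_⟩
  intro f H' a' b' H a b X α' α T S hf hH' ha' hab' hH hab hα' hαα hα hX hT hTX hSm hST hG ℓ hℓ
  have hH0 : (0 : ℝ) < H := by exact_mod_cast hH
  have hH'0 : (0 : ℝ) < H' := by exact_mod_cast (by omega : 0 < H')
  have hH'2 : (2 : ℝ) ≤ H' := by exact_mod_cast hH'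
  have hX1 : (1 : ℝ) ≤ X := by exact_mod_cast hX
  have hT0 : -T ≤ T := by linarith
  set L : ℕ → ℕ → ℕ := fun v r => ⌈((v : ℝ) / H) / ((r : ℝ) / H')⌉₊ with hL
  set Q : ℝ := Real.exp (-(2 * (α - α') * ((a : ℝ) / H)) + 3 * ((b' : ℝ) / H') + 2 * ℓ +
    (2 * ℓ + 1) * Real.log (ℓ + 1)) with hQ
  set g : ℕ → ℕ → ℝ → ℝ := fun v r t => ‖pv f H' r t ^ L v r * mv f H a b X v t‖ ^ 2 with hg
  set c : ℕ → ℕ → ℝ := fun v r =>
    Real.exp (-(2 * α * ((v : ℝ) / H)) + 2 * α' * ((L v r : ℕ) * ((r : ℝ) / H'))) with hc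
  have hgc : ∀ v r, Continuous (g v r) := by
    intro v r
    exact ((((lvj_pv_cont f H' r).pow _).mul (lvj_ds_cont _ _ _)).norm).pow 2
  have hg0 : ∀ v r t, 0 ≤ g v r t := fun v r t => by positivity
  have hc0 : ∀ v r, 0 < c v r := fun v r => Real.exp_pos _
  -- facts about `L`
  have hrpos : ∀ r ∈ Ico a' b', 0 < (r : ℝ) / H' := by
    intro r hr
    have h1 := (Finset.mem_Ico.1 hr).1
    have : 0 < r := by omega
    have : (0 : ℝ) < r := by exact_mod_cast this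
    positivity
  -- one pair
  have hpair : ∀ v ∈ Ico a b, ∀ r ∈ Ico a' b',
      c v r * ∫ t in (-T)..T, g v r t ≤ 42 * Real.exp 2 * C * Q := by
    intro v hv r hr
    have hR := hrpos r hr
    rw [Finset.mem_Ico] at hv hr
    have hA0 : (0 : ℝ) ≤ (v : ℝ) / H := by positivity
    have hL1 : (v : ℝ) / H ≤ (L v r : ℕ) * ((r : ℝ) / H') := by
      rw [← div_le_iff₀ hR]
      exact Nat.le_ceil _
    have hL2 : ((L v r : ℕ) : ℝ) < ((v : ℝ) / H) / ((r : ℝ) / H') + 1 :=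
      Nat.ceil_lt_add_one (by positivity)
    have hL3 : (L v r : ℕ) * ((r : ℝ) / H') ≤ (v : ℝ) / H + (r : ℝ) / H' := by
      have := mul_le_mul_of_nonneg_right hL2.le hR.le
      rw [add_mul, one_mul, div_mul_cancel₀ _ hR.ne'] at this
      exact this
    have ha'0 : 0 < (a' : ℝ) / H' := by
      have : 0 < a' := by omega
      have : (0 : ℝ) < a' := by exact_mod_cast this
      positivity
    have hL4 : ((L v r : ℕ) : ℝ) ≤ ℓ := by
      rw [hℓ]
      refine hL2.le.trans ?_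
      have h1 : (v : ℝ) / H ≤ (b : ℝ) / H := by
        apply div_le_div_of_nonneg_right _ hH0.le
        exact_mod_cast hv.2.le
      have h2 : (a' : ℝ) / H' ≤ (r : ℝ) / H' := by
        apply div_le_div_of_nonneg_right _ hH'0.le
        exact_mod_cast hr.1
      have h3 : ((v : ℝ) / H) / ((r : ℝ) / H') ≤ ((b : ℝ) / H) / ((a' : ℝ) / H') :=
        div_le_div₀ (by positivity) h1 ha'0 h2
      linarith
    have hI := hpow f (mco f H a b) H' r (L v r) (lo H X v) (hi H X v)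
      ((X : ℝ) * Real.exp (-(((v : ℝ) + 1) / H))) T hf ?_ hH' (by omega) (by positivity)
      (Nat.lt_floor_add_one _).le hT
    swap
    · intro n
      unfold mco
      have h1 : ‖((om H a b n : ℂ) + 1)‖ = (om H a b n : ℝ) + 1 := by
        have : ((om H a b n : ℂ) + 1) = (((om H a b n : ℝ) + 1 : ℝ) : ℂ) := by push_cast; rfl
        rw [this, Complex.norm_real, Real.norm_eq_abs, abs_of_nonneg (by positivity)]
      rw [norm_div, h1, div_le_one (by positivity)]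
      have := hf.bd n
      have h2 : (0 : ℝ) ≤ (om H a b n : ℝ) := Nat.cast_nonneg _
      linarith
    have hadd : ∀ y : ℕ, ∀ z : ℝ, ((y : ℝ) + 1) / z = (y : ℝ) / z + 1 / z := fun y z => by ring
    rw [hadd r (H' : ℝ), hadd v (H : ℝ)] at hI
    refine lvj_pair hC ((v : ℝ) / H) ((r : ℝ) / H') X T α' α ((a : ℝ) / H) ((b' : ℝ) / H') ℓ
      ((X : ℝ) * Real.exp (-((v : ℝ) / H + 1 / H))) (hi H X v) (1 / H') (1 / H) (L v r) _
      hR hL1 hL3 hL4 (by positivity) ?_ ?_ hX1 hT hTX hα' hαα hα ?_ ?_ rfl (Nat.cast_nonneg _) ?_ hI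
    · rw [div_le_div_iff₀ hH'0 two_pos]; linarith
    · rw [div_le_one hH0]; exact_mod_cast hH
    · apply div_le_div_of_nonneg_right _ hH0.le
      exact_mod_cast hv.1
    · apply div_le_div_of_nonneg_right _ hH'0.le
      exact_mod_cast hr.2.le
    · exact Nat.floor_le (by positivity)
  -- pointwise bound
  set B : ℝ → ℝ := fun t => ((b : ℝ) - a) * ∑ v ∈ Ico a b, ∑ r ∈ Ico a' b', c v r * g v r t with hB
  have hba : (0 : ℝ) ≤ (b : ℝ) - a := by
    have : (a : ℝ) ≤ b := by exact_mod_cast hab.le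
    linarith
  have hcard : ((Ico a b).card : ℝ) = (b : ℝ) - a := by
    rw [Nat.card_Ico, Nat.cast_sub hab.le]
  have hBc : Continuous B := by
    apply continuous_const.mul
    refine continuous_finsetSum _ fun v _ => continuous_finsetSum _ fun r _ => ?_
    exact continuous_const.mul (hgc v r)
  have hB0 : ∀ t, 0 ≤ B t := by
    intro t
    apply mul_nonneg hba
    exact Finset.sum_nonneg fun v _ => Finset.sum_nonneg fun r _ => mul_nonneg (hc0 v r).le (hg0 v r t)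
  have hpt : ∀ t ∈ S, ‖∑ v ∈ Ico a b, pv f H v t * mv f H a b X v t‖ ^ 2 ≤ B t := by
    intro t ht
    obtain ⟨hgd, hbad⟩ := hG t ht
    unfold Gd at hbad
    push Not at hbad
    obtain ⟨r, hr, hrlt⟩ := hbad
    have hR := hrpos r hr
    have h1 : ‖∑ v ∈ Ico a b, pv f H v t * mv f H a b X v t‖ ^ 2 ≤
        ((b : ℝ) - a) * ∑ v ∈ Ico a b, ‖pv f H v t * mv f H a b X v t‖ ^ 2 := by
      rw [← hcard]
      refine (pow_le_pow_left₀ (norm_nonneg _) (norm_sum_le _ _) 2).trans ?_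
      exact sq_sum_le_card_mul_sum_sq
    refine h1.trans (mul_le_mul_of_nonneg_left ?_ hba)
    apply Finset.sum_le_sum
    intro v hv
    refine le_trans ?_ (Finset.single_le_sum (f := fun r => c v r * g v r t)
      (fun r _ => mul_nonneg (hc0 v r).le (hg0 v r t)) hr)
    have h2 := hgd v hv
    have h3 : 1 ≤ (Real.exp (α' * ((r : ℝ) / H')) * ‖pv f H' r t‖) := by
      have : Real.exp (α' * ((r : ℝ) / H')) * Real.exp (-(α' * ((r : ℝ) / H'))) = 1 := by
        rw [← Real.exp_add, add_neg_cancel, Real.exp_zero]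
      rw [← this]
      exact mul_le_mul_of_nonneg_left hrlt.le (Real.exp_pos _).le
    have h4 : 1 ≤ (Real.exp (α' * ((r : ℝ) / H')) * ‖pv f H' r t‖) ^ (2 * L v r) := one_le_pow₀ h3
    have h5 : ‖pv f H v t‖ ^ 2 ≤ Real.exp (-(2 * α * ((v : ℝ) / H))) := by
      refine (pow_le_pow_left₀ (norm_nonneg _) h2 2).trans (le_of_eq ?_)
      rw [← Real.exp_nat_mul]
      congr 1
      push_cast
      ring
    calc ‖pv f H v t * mv f H a b X v t‖ ^ 2 = ‖pv f H v t‖ ^ 2 * ‖mv f H a b X v t‖ ^ 2 := by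
          rw [norm_mul, mul_pow]
      _ ≤ Real.exp (-(2 * α * ((v : ℝ) / H))) * ‖mv f H a b X v t‖ ^ 2 :=
          mul_le_mul_of_nonneg_right h5 (by positivity)
      _ ≤ Real.exp (-(2 * α * ((v : ℝ) / H))) * ‖mv f H a b X v t‖ ^ 2 *
          (Real.exp (α' * ((r : ℝ) / H')) * ‖pv f H' r t‖) ^ (2 * L v r) :=
          le_mul_of_one_le_right (by positivity) h4
      _ = c v r * g v r t := by
          simp only [hc, hg]
          rw [norm_mul, norm_pow, mul_pow, mul_pow, Real.exp_add, ← Real.exp_nat_mul]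
          have e1 : ((2 * L v r : ℕ) : ℝ) * (α' * ((r : ℝ) / H')) =
              2 * α' * ((L v r : ℕ) * ((r : ℝ) / H')) := by push_cast; ring
          rw [e1, ← pow_mul, mul_comm (L v r) 2]
          ring
  have hLc : Continuous fun t => ‖∑ v ∈ Ico a b, pv f H v t * mv f H a b X v t‖ ^ 2 := by
    refine (Continuous.norm ?_).pow 2
    exact continuous_finsetSum _ fun v _ => (lvj_pv_cont f H v).mul (lvj_ds_cont _ _ _)
  have hBi : IntegrableOn B (Set.Icc (-T) T) := hBc.integrableOn_Icc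
  calc ∫ t in S, ‖∑ v ∈ Ico a b, pv f H v t * mv f H a b X v t‖ ^ 2
      ≤ ∫ t in S, B t :=
        setIntegral_mono_on (hLc.integrableOn_Icc.mono_set hST) (hBi.mono_set hST) hSm hpt
    _ ≤ ∫ t in Set.Icc (-T) T, B t :=
        setIntegral_mono_set hBi (ae_of_all _ hB0) hST.eventuallyLE
    _ = ∫ t in (-T)..T, B t := by
        rw [intervalIntegral.integral_of_le hT0, integral_Icc_eq_integral_Ioc]
    _ = ((b : ℝ) - a) * ∑ v ∈ Ico a b, ∑ r ∈ Ico a' b', c v r * ∫ t in (-T)..T, g v r t := by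
        simp only [hB]
        rw [intervalIntegral.integral_const_mul, intervalIntegral.integral_finsetSum]
        · congr 1
          refine Finset.sum_congr rfl fun v _ => ?_
          rw [intervalIntegral.integral_finsetSum]
          · refine Finset.sum_congr rfl fun r _ => ?_
            rw [intervalIntegral.integral_const_mul]
          · intro r _
            exact (continuous_const.mul (hgc v r)).intervalIntegrable _ _
        · intro v _
          exact (continuous_finsetSum _ fun r _ => continuous_const.mul (hgc v r)).intervalIntegrable _ _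
    _ ≤ ((b : ℝ) - a) * ∑ _v ∈ Ico a b, ∑ _r ∈ Ico a' b', 42 * Real.exp 2 * C * Q := by
        apply mul_le_mul_of_nonneg_left _ hba
        exact Finset.sum_le_sum fun v hv => Finset.sum_le_sum fun r hr => hpair v hv r hr
    _ = 42 * Real.exp 2 * C * ((b : ℝ) - a) ^ 2 * ((b' : ℝ) - a') * Q := by
        rw [Finset.sum_const, Finset.sum_const, nsmul_eq_mul, nsmul_eq_mul, hcard]
        rw [Nat.card_Ico, Nat.cast_sub hab'.le]
        ring

end Pool.H2.MR
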