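import Pool.Agent.H2.MR.Pow

/-!
# [H2 MR UM] Measure of the set where a block is large

PROOF. For `r ∈ Ico a b` let `A_r = {t ∈ [-T,T] : ‖pv f H r t‖ > exp(-α r/H)}`; the set in question is their union. `l = ⌈log X/(r/H)⌉₊`:
`log X ≤ l r/H ≤ log X + r/H`. `pow_one'`: with `N1 = exp(l r/H) ≥ X ≥ T`, `N2 = N1 exp(l/H) ≥ N1`:
`∫_{-T}^T ‖pv‖^(2l) ≤ 2 C N2²/N1² (l!)² (l+1) = 2 C exp(2l/H) (l!)² (l+1) ≤ 2 C exp(l) (l+1)^(2l+1)`. Chebyshev's inequality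
(`MeasureTheory.mul_meas_ge_le_integral_of_nonneg` or `meas_ge_le_lintegral_div`): `vol A_r ≤ exp(2α l r/H) ∫ ‖pv‖^(2l)`, and
`2α l r/H ≤ 2α log X + r/H ≤ 2α log X + b/H` (`2α ≤ 1`); `l ≤ ℓ`, `(l+1)^(2l+1) ≤ exp((2ℓ+1) log(ℓ+1))`. Sum over the `b - a` values of `r`.
-/

namespace Pool.H2.MR

open Finset MeasureTheory

private lemma fac_le (l : ℕ) (ℓ : ℝ) (h : (l : ℝ) ≤ ℓ) :
    (l.factorial : ℝ) ^ 2 * (l + 1) ≤ Real.exp ((2 * ℓ + 1) * Real.log (ℓ + 1)) := by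
  have h1 : (l.factorial : ℝ) ≤ ((l : ℝ) + 1) ^ l := by
    have h2 : l.factorial ≤ (l + 1) ^ l := (Nat.factorial_le_pow l).trans (Nat.pow_le_pow_left (by omega) l)
    exact_mod_cast h2
  have h0 : (0 : ℝ) ≤ (l : ℝ) := Nat.cast_nonneg _
  have h3 : (l.factorial : ℝ) ^ 2 * (l + 1) ≤ ((l : ℝ) + 1) ^ (2 * l + 1) := by
    calc (l.factorial : ℝ) ^ 2 * (l + 1) ≤ (((l : ℝ) + 1) ^ l) ^ 2 * (l + 1) := by gcongr
      _ = ((l : ℝ) + 1) ^ (2 * l + 1) := by ring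
  refine h3.trans ?_
  have h4 : ((l : ℝ) + 1) ^ (2 * l + 1) = Real.exp ((2 * (l : ℝ) + 1) * Real.log ((l : ℝ) + 1)) := by
    rw [← Real.rpow_natCast, Real.rpow_def_of_pos (by linarith)]
    push_cast
    rw [mul_comm]
  rw [h4]
  refine Real.exp_le_exp.2 ?_
  have h5 : Real.log ((l : ℝ) + 1) ≤ Real.log (ℓ + 1) := Real.log_le_log (by linarith) (by linarith)
  have h6 : 0 ≤ Real.log ((l : ℝ) + 1) := Real.log_nonneg (by linarith)
  exact mul_le_mul (by linarith) h5 h6 (by linarith)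

private lemma cont_pv (f : ℕ → ℂ) (H r : ℕ) : Continuous (fun t : ℝ => pv f H r t) := by
  unfold pv
  refine continuous_finsetSum _ fun p hp => ?_
  refine continuous_const.mul (continuous_nj p ?_)
  unfold Bl at hp
  rw [Finset.mem_filter] at hp
  exact hp.2.one_lt.le

private lemma one_block {C : ℝ} (hC : 0 < C) (hp : ∀ (f : ℕ → ℂ) (H r l : ℕ) (T : ℝ), OB f → 2 ≤ H → 2 * H ≤ r → 1 ≤ T →
    ∫ t in (-T)..T, ‖pv f H r t‖ ^ (2 * l) ≤
      C * (T + Real.exp (l * (((r : ℝ) + 1) / H))) * Real.exp (l * (((r : ℝ) + 1) / H)) /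
        (Real.exp (l * ((r : ℝ) / H))) ^ 2 * ((l.factorial : ℝ) ^ 2 * (l + 1)))
    (f : ℕ → ℂ) (H a b X r : ℕ) (α T : ℝ) (hf : OB f) (hH : 2 ≤ H) (ha : 2 * H ≤ a) (hα : 0 ≤ α)
    (hα2 : α ≤ 1 / 2) (hX : 3 ≤ X) (hT : 1 ≤ T) (hTX : T ≤ X) (ℓ : ℝ) (hℓ : ℓ = Real.log X / ((a : ℝ) / H) + 1)
    (hr : r ∈ Ico a b) :
    volume {t : ℝ | t ∈ Set.Icc (-T) T ∧ Real.exp (-(α * ((r : ℝ) / H))) < ‖pv f H r t‖} ≤
      ENNReal.ofReal (2 * C *
        Real.exp (2 * α * Real.log X + (b : ℝ) / H + 2 * ℓ + (2 * ℓ + 1) * Real.log (ℓ + 1))) := by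
  rw [Finset.mem_Ico] at hr
  have hH0 : (2 : ℝ) ≤ (H : ℝ) := by exact_mod_cast hH
  have hX0 : (3 : ℝ) ≤ (X : ℝ) := by exact_mod_cast hX
  have hHpos : (0 : ℝ) < (H : ℝ) := by linarith
  have ha2 : 2 * (H : ℝ) ≤ (a : ℝ) := by exact_mod_cast ha
  have har : (a : ℝ) ≤ (r : ℝ) := by exact_mod_cast hr.1
  have hrb : (r : ℝ) ≤ (b : ℝ) := by exact_mod_cast hr.2.le
  set x := Real.log X with hx
  have hx0 : 0 < x := Real.log_pos (by linarith)
  set y := (r : ℝ) / H with hy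
  have hay : (a : ℝ) / H ≤ y := by rw [hy]; gcongr
  have hapos : 0 < (a : ℝ) / H := by
    have : 0 < (a : ℝ) := by linarith
    positivity
  have hypos : 0 < y := lt_of_lt_of_le hapos hay
  set l := ⌈x / y⌉₊ with hl
  have hl1 : x ≤ l * y := by
    have := Nat.le_ceil (x / y)
    rwa [div_le_iff₀ hypos] at this
  have hl2 : (l : ℝ) < x / y + 1 := Nat.ceil_lt_add_one (by positivity)
  have hl3 : (l : ℝ) * y ≤ x + y := by
    have := mul_le_mul_of_nonneg_right hl2.le hypos.le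
    have e : (x / y + 1) * y = x + y := by field_simp
    linarith
  have hl4 : (l : ℝ) ≤ ℓ := by
    rw [hℓ]
    have : x / y ≤ x / ((a : ℝ) / H) := by gcongr
    linarith
  set N1 := Real.exp (l * y) with hN1
  set N2 := Real.exp (l * (((r : ℝ) + 1) / H)) with hN2
  have hN12 : N2 = N1 * Real.exp (l / H) := by
    rw [hN1, hN2, ← Real.exp_add]
    congr 1
    rw [hy]
    ring
  have hN1X : (X : ℝ) ≤ N1 := by
    have : Real.exp x = X := Real.exp_log (by linarith)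
    rw [← this]
    exact Real.exp_le_exp.2 hl1
  have hN1pos : 0 < N1 := Real.exp_pos _
  have hN2pos : 0 < N2 := Real.exp_pos _
  have hN12' : N1 ≤ N2 := by
    rw [hN12]
    exact le_mul_of_one_le_right hN1pos.le (Real.one_le_exp (by positivity))
  have h1 := hp f H r l T hf hH (by omega) hT
  have h2 : C * (T + N2) * N2 / N1 ^ 2 * ((l.factorial : ℝ) ^ 2 * (l + 1)) ≤
      2 * C * Real.exp ℓ * Real.exp ((2 * ℓ + 1) * Real.log (ℓ + 1)) := by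
    refine mul_le_mul ?_ (fac_le l ℓ hl4) (by positivity) (by positivity)
    have h3 : C * (T + N2) * N2 ≤ C * (2 * N2) * N2 := by gcongr; linarith
    have h4 : C * (2 * N2) * N2 / N1 ^ 2 = 2 * C * Real.exp (l / H) ^ 2 := by
      rw [hN12]
      field_simp
    have h5 : Real.exp ((l : ℝ) / H) ^ 2 ≤ Real.exp ℓ := by
      rw [← Real.exp_nat_mul]
      refine Real.exp_le_exp.2 ?_
      push_cast
      have : (l : ℝ) / H ≤ l / 2 := by gcongr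
      linarith
    calc C * (T + N2) * N2 / N1 ^ 2 ≤ C * (2 * N2) * N2 / N1 ^ 2 := by gcongr
      _ = 2 * C * Real.exp (l / H) ^ 2 := h4
      _ ≤ 2 * C * Real.exp ℓ := by gcongr
  have h3 := h1.trans h2
  -- Chebyshev
  set ε := Real.exp (-(α * y)) ^ (2 * l) with hε
  have hεpos : 0 < ε := by positivity
  set μ := volume.restrict (Set.Icc (-T) T) with hμ
  have hcont : Continuous (fun t : ℝ => ‖pv f H r t‖ ^ (2 * l)) := ((cont_pv f H r).norm).pow _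
  have hint : Integrable (fun t : ℝ => ‖pv f H r t‖ ^ (2 * l)) μ := hcont.integrableOn_Icc
  have h4 := mul_meas_ge_le_integral_of_nonneg (μ := μ) (f := fun t : ℝ => ‖pv f H r t‖ ^ (2 * l))
    (Filter.Eventually.of_forall fun t => by positivity) hint ε
  have h5 : ∫ t, ‖pv f H r t‖ ^ (2 * l) ∂μ = ∫ t in (-T)..T, ‖pv f H r t‖ ^ (2 * l) := by
    rw [intervalIntegral.integral_of_le (by linarith), hμ, integral_Icc_eq_integral_Ioc]
  rw [h5] at h4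
  have h6 : μ.real {t | ε ≤ ‖pv f H r t‖ ^ (2 * l)} ≤
      2 * C * Real.exp (2 * α * x + (b : ℝ) / H + 2 * ℓ + (2 * ℓ + 1) * Real.log (ℓ + 1)) := by
    have h7 : μ.real {t | ε ≤ ‖pv f H r t‖ ^ (2 * l)} ≤
        (2 * C * Real.exp ℓ * Real.exp ((2 * ℓ + 1) * Real.log (ℓ + 1))) / ε := by
      rw [le_div_iff₀ hεpos, mul_comm]
      exact h4.trans h3
    refine h7.trans ?_
    have h8 : ε⁻¹ = Real.exp (2 * α * (l * y)) := by
      rw [hε, ← Real.exp_nat_mul, ← Real.exp_neg]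
      congr 1
      push_cast
      ring
    have h9 : 2 * α * (l * y) ≤ 2 * α * x + (b : ℝ) / H := by
      have h10 : 2 * α * (l * y) ≤ 2 * α * (x + y) := by gcongr
      have h11 : 2 * α * y ≤ y := by nlinarith
      have h12 : y ≤ (b : ℝ) / H := by rw [hy]; gcongr
      nlinarith
    have hℓ0 : 0 ≤ ℓ := by
      have : (0 : ℝ) ≤ l := Nat.cast_nonneg _
      linarith
    rw [div_eq_mul_inv, h8, mul_assoc, mul_assoc (2 * C), ← Real.exp_add, ← Real.exp_add]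
    refine mul_le_mul_of_nonneg_left (Real.exp_le_exp.2 ?_) (by positivity)
    linarith
  have h7 : volume {t : ℝ | t ∈ Set.Icc (-T) T ∧ Real.exp (-(α * y)) < ‖pv f H r t‖} ≤
      μ {t | ε ≤ ‖pv f H r t‖ ^ (2 * l)} := by
    rw [hμ, Measure.restrict_apply' measurableSet_Icc]
    refine measure_mono ?_
    rintro t ⟨ht1, ht2⟩
    refine ⟨?_, ht1⟩
    change ε ≤ ‖pv f H r t‖ ^ (2 * l)
    exact pow_le_pow_left₀ (Real.exp_pos _).le ht2.le _
  refine h7.trans ?_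
  have h8 : μ {t | ε ≤ ‖pv f H r t‖ ^ (2 * l)} = ENNReal.ofReal (μ.real {t | ε ≤ ‖pv f H r t‖ ^ (2 * l)}) := by
    rw [ofReal_measureReal]
  rw [h8]
  exact ENNReal.ofReal_le_ofReal h6

theorem um : ∃ C : ℝ, 0 < C ∧ ∀ (f : ℕ → ℂ) (H a b X : ℕ) (α T : ℝ), OB f → 2 ≤ H → 2 * H ≤ a → a < b → 0 ≤ α →
    α ≤ 1 / 2 → 3 ≤ X → 1 ≤ T → T ≤ X → ∀ ℓ : ℝ, ℓ = Real.log X / ((a : ℝ) / H) + 1 →
    volume {t : ℝ | t ∈ Set.Icc (-T) T ∧ ¬ Gd f H a b α t} ≤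
      ENNReal.ofReal (C * ((b : ℝ) - a) *
        Real.exp (2 * α * Real.log X + (b : ℝ) / H + 2 * ℓ + (2 * ℓ + 1) * Real.log (ℓ + 1))) := by
  obtain ⟨C, hC, hp⟩ := pow_one'
  refine ⟨2 * C, by positivity, ?_⟩
  intro f H a b X α T hf hH ha hab hα hα2 hX hT hTX ℓ hℓ
  set D := 2 * C * Real.exp (2 * α * Real.log X + (b : ℝ) / H + 2 * ℓ + (2 * ℓ + 1) * Real.log (ℓ + 1)) with hD
  have hsub : {t : ℝ | t ∈ Set.Icc (-T) T ∧ ¬ Gd f H a b α t} ⊆
      ⋃ r ∈ Ico a b, {t : ℝ | t ∈ Set.Icc (-T) T ∧ Real.exp (-(α * ((r : ℝ) / H))) < ‖pv f H r t‖} := by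
    rintro t ⟨ht1, ht2⟩
    unfold Gd at ht2
    rw [not_forall] at ht2
    obtain ⟨v, hv⟩ := ht2
    rw [Classical.not_imp, not_le] at hv
    exact Set.mem_biUnion (x := v) (by exact hv.1) ⟨ht1, hv.2⟩
  refine (measure_mono hsub).trans ((measure_biUnion_finset_le _ _).trans ?_)
  calc ∑ r ∈ Ico a b, volume {t : ℝ | t ∈ Set.Icc (-T) T ∧ Real.exp (-(α * ((r : ℝ) / H))) < ‖pv f H r t‖}
      ≤ ∑ _r ∈ Ico a b, ENNReal.ofReal D :=
        Finset.sum_le_sum fun r hr => one_block hC hp f H a b X r α T hf hH ha hα hα2 hX hT hTX ℓ hℓ hr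
    _ = ENNReal.ofReal (2 * C * ((b : ℝ) - a) *
        Real.exp (2 * α * Real.log X + (b : ℝ) / H + 2 * ℓ + (2 * ℓ + 1) * Real.log (ℓ + 1))) := by
        rw [Finset.sum_const, Nat.card_Ico, nsmul_eq_mul, ← ENNReal.ofReal_natCast,
          ← ENNReal.ofReal_mul (Nat.cast_nonneg _), Nat.cast_sub hab.le]
        congr 1
        rw [hD]
        ring

end Pool.H2.MR
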