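import Pool.Agent.H2.MR.Pin
import Pool.Agent.H2.MR.Um

/-!
# [H2 MR STP] The last level

PROOF of `stp`. Let `J ≥ 1` be the least index with `C1 log log X ≤ pj B J` (exists: `pj B j ≥ 2^j`... tends to infinity, `B ≥ 2`). `B0 = A^8`. If `J = 1`:
`qj A B 1 = A² B ≤ (log log X)^4` for `X ≥ X0(A,B)`. If `J ≥ 2`: `p = pj B (J-1) < C1 log log X`, `qj A B J = A^(2^J) p²` and
`A^(2^J) = (A^4)^(2^(J-2))`, `(A^4)^2 ≤ B`, so `(A^(2^J))² ≤ B^(2^(J-2)) = p`; hence `qj J ≤ p³ ≤ (C1 log log X)³ ≤ (log log X)^4` for `log log X ≥ C1³`.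

PROOF of `umj`. `α = δ/16`, `C1 = 32/δ`. `um` with `H = hj Hs J`, `a = aj`, `b = bj`: `a/H = pj J`, `b/H = qj J`, `b - a ≤ hj qj ≤ Hs (qj J)²`
(`two_pow_le_qj`), `ℓ = log X/pj J + 1 ≤ log X/(C1 log log X) + 1`, `log(ℓ+1) ≤ log log X` for large `X` (`C1 log log X ≥ 2`, `log X ≥ 4`). Put `x = log X`,
`y = log x`. The exponent is `≤ 2αx + y^4 + 2x/(C1 y) + 2 + (2x/(C1 y) + 3) y ≤ (δ/8) x + (δ/16) x + y^4 + 2x/(C1 y) + 2 + 3y`, and
`log(C Hs y^8)` is added: in all `≤ δ x` for `X ≥ X0(δ, Hs)`. (`Gd f H a b α' t` with `0 ≤ α' ≤ α`: `um` for `α'`.)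
-/

namespace Pool.H2.MR

open Finset MeasureTheory

private theorem stp_X (M : ℝ) : ∃ X0 : ℕ, ∀ X : ℕ, X0 ≤ X →
    3 ≤ X ∧ Real.exp M ≤ Real.log X ∧ M ≤ Real.log (Real.log X) := by
  refine ⟨⌈Real.exp (Real.exp M)⌉₊ + 3, fun X hX => ?_⟩
  have h1 : Real.exp (Real.exp M) ≤ X := by
    refine (Nat.le_ceil _).trans ?_
    exact_mod_cast (by omega : ⌈Real.exp (Real.exp M)⌉₊ ≤ X)
  have hX0 : (0 : ℝ) < X := lt_of_lt_of_le (Real.exp_pos _) h1
  have h2 : Real.exp M ≤ Real.log X := by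
    rw [Real.le_log_iff_exp_le hX0]
    exact h1
  refine ⟨by omega, h2, ?_⟩
  rw [Real.le_log_iff_exp_le (lt_of_lt_of_le (Real.exp_pos _) h2)]
  exact h2

theorem stp (A : ℕ) (C1 : ℝ) (hA : 2 ≤ A) (hC : 0 < C1) : ∃ B0 : ℕ, ∀ B : ℕ, B0 ≤ B → ∃ X0 : ℕ, ∀ X : ℕ, X0 ≤ X →
    ∃ J : ℕ, 1 ≤ J ∧ C1 * Real.log (Real.log X) ≤ pj B J ∧ (qj A B J : ℝ) ≤ (Real.log (Real.log X)) ^ 4 := by
  refine ⟨A ^ 8, fun B hB => ?_⟩
  have hA8 : 2 ≤ A ^ 8 := by
    calc 2 ≤ A := hA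
      _ = A ^ 1 := (pow_one A).symm
      _ ≤ A ^ 8 := Nat.pow_le_pow_right (by omega) (by norm_num)
  have hB2 : 2 ≤ B := hA8.trans hB
  obtain ⟨X0, hX0⟩ := stp_X (1 + C1 ^ 3 + (A : ℝ) ^ 2 * B)
  refine ⟨X0, fun X hX => ?_⟩
  obtain ⟨-, -, hL⟩ := hX0 X hX
  obtain ⟨L, hLdef⟩ : ∃ L : ℝ, L = Real.log (Real.log X) := ⟨_, rfl⟩
  rw [← hLdef] at hL ⊢
  have hAB : (0 : ℝ) ≤ (A : ℝ) ^ 2 * B := by positivity
  have hC3 : 0 < C1 ^ 3 := by positivity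
  have hL1 : 1 ≤ L := by linarith
  have hex : ∃ j : ℕ, C1 * L ≤ pj B (j + 1) := by
    obtain ⟨n, hn⟩ := pow_unbounded_of_one_lt (C1 * L) (by norm_num : (1 : ℝ) < 2)
    refine ⟨n, hn.le.trans ?_⟩
    have h1 : 2 ^ n ≤ pj B (n + 1) := by
      unfold pj
      rw [Nat.add_sub_cancel]
      calc 2 ^ n ≤ B ^ n := Nat.pow_le_pow_left hB2 n
        _ ≤ B ^ (2 ^ n) := Nat.pow_le_pow_right (by omega) Nat.lt_two_pow_self.le
    exact_mod_cast h1
  classical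
  obtain ⟨k, hk, hmin⟩ : ∃ k : ℕ, C1 * L ≤ pj B (k + 1) ∧ ∀ i < k, ¬ C1 * L ≤ pj B (i + 1) :=
    ⟨Nat.find hex, Nat.find_spec hex, fun i hi => Nat.find_min hex hi⟩
  refine ⟨k + 1, by omega, hk, ?_⟩
  cases k with
  | zero =>
    have h1 : qj A B (0 + 1) = A ^ 2 * B := by
      unfold qj
      simp
    rw [h1]
    push_cast
    calc (A : ℝ) ^ 2 * B ≤ L := by linarith
      _ = L ^ 1 := (pow_one L).symm
      _ ≤ L ^ 4 := pow_le_pow_right₀ hL1 (by norm_num)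
  | succ k =>
    have h1 := hmin k (by omega)
    rw [not_le] at h1
    have h2 : qj A B (k + 1 + 1) ≤ pj B (k + 1) ^ 3 := by
      unfold qj pj
      rw [Nat.add_sub_cancel, Nat.add_sub_cancel]
      have h3 : (A ^ 2 ^ (k + 1 + 1)) ^ 2 ≤ B ^ 2 ^ k := by
        have h4 : (A ^ 2 ^ (k + 1 + 1)) ^ 2 = (A ^ 8) ^ 2 ^ k := by
          rw [← pow_mul, ← pow_mul]
          congr 1
          rw [pow_succ, pow_succ]
          ring
        rw [h4]
        exact Nat.pow_le_pow_left hB _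
      have h5 : A ^ 2 ^ (k + 1 + 1) ≤ B ^ 2 ^ k := by
        refine le_trans ?_ h3
        exact Nat.le_self_pow (by norm_num) _
      have h6 : B ^ 2 ^ (k + 1) = (B ^ 2 ^ k) ^ 2 := by
        rw [← pow_mul, pow_succ]
      rw [h6]
      calc A ^ 2 ^ (k + 1 + 1) * (B ^ 2 ^ k) ^ 2 ≤ B ^ 2 ^ k * (B ^ 2 ^ k) ^ 2 :=
            Nat.mul_le_mul_right _ h5
        _ = (B ^ 2 ^ k) ^ 3 := by ring
    have h3 : (qj A B (k + 1 + 1) : ℝ) ≤ (pj B (k + 1) : ℝ) ^ 3 := by exact_mod_cast h2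
    have h4 : (pj B (k + 1) : ℝ) ^ 3 ≤ (C1 * L) ^ 3 :=
      pow_le_pow_left₀ (by positivity) h1.le 3
    calc (qj A B (k + 1 + 1) : ℝ) ≤ (C1 * L) ^ 3 := h3.trans h4
      _ = C1 ^ 3 * L ^ 3 := by ring
      _ ≤ L * L ^ 3 := mul_le_mul_of_nonneg_right (by linarith) (by positivity)
      _ = L ^ 4 := by ring

private theorem umj_real (δ K x y : ℝ) (hδ : 0 < δ) (hK : 0 ≤ K) (hy1 : 1 ≤ y) (hx : x = Real.exp y)
    (hy : 240 * (K + 14) / δ ≤ y) : K + 11 * y + 2 + y ^ 4 ≤ δ / 2 * x := by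
  have h1 : y ^ 5 / 120 ≤ x := by
    have := Real.pow_div_factorial_le_exp y (by linarith) 5
    rw [hx]
    have e : ((5 : ℕ).factorial : ℝ) = 120 := by norm_num [Nat.factorial]
    rw [e] at this
    exact this
  rw [div_le_iff₀ hδ] at hy
  have hy4 : 1 ≤ y ^ 4 := one_le_pow₀ hy1
  have hyy : y ≤ y ^ 4 := le_self_pow₀ hy1 (by norm_num)
  have h2 : K + 11 * y + 2 + y ^ 4 ≤ (K + 14) * y ^ 4 := by nlinarith
  have h3 : 240 * (K + 14) * y ^ 4 ≤ y * δ * y ^ 4 := mul_le_mul_of_nonneg_right hy (by positivity)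
  have h4 : y * δ * y ^ 4 = δ * y ^ 5 := by ring
  have h5 : δ * y ^ 5 ≤ δ * (120 * x) := mul_le_mul_of_nonneg_left (by linarith) hδ.le
  linarith

theorem umj (δ : ℝ) (hδ : 0 < δ) (hδ1 : δ ≤ 1) : ∃ α C1 : ℝ, 0 < α ∧ α ≤ 1 / 2 ∧ 0 < C1 ∧ ∀ (Hs A : ℕ), 1 ≤ Hs → 2 ≤ A →
    ∃ X0 : ℕ, ∀ (f : ℕ → ℂ) (B J X : ℕ) (α' T : ℝ), OB f → 2 ≤ B → 1 ≤ J → X0 ≤ X → 0 ≤ α' → α' ≤ α → 1 ≤ T → T ≤ X →
    C1 * Real.log (Real.log X) ≤ pj B J → (qj A B J : ℝ) ≤ (Real.log (Real.log X)) ^ 4 →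
    volume {t : ℝ | t ∈ Set.Icc (-T) T ∧ ¬ Gd f (hj Hs J) (aj Hs B J) (bj Hs A B J) α' t} ≤ ENNReal.ofReal ((X : ℝ) ^ δ) := by
  obtain ⟨C, hC, hum⟩ := um
  refine ⟨δ / 16, 32 / δ, by positivity, by linarith, by positivity, fun Hs A hHs hA => ?_⟩
  obtain ⟨K, hKdef⟩ : ∃ K : ℝ, K = Real.log (max 1 (C * Hs)) := ⟨_, rfl⟩
  have hm : 0 < max 1 (C * (Hs : ℝ)) := lt_of_lt_of_le one_pos (le_max_left _ _)
  have hK0 : 0 ≤ K := by
    rw [hKdef]
    exact Real.log_nonneg (le_max_left _ _)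
  have hKe : C * (Hs : ℝ) ≤ Real.exp K := by
    rw [hKdef, Real.exp_log hm]
    exact le_max_right _ _
  obtain ⟨X0, hX0⟩ := stp_X (2 + 240 * (K + 14) / δ)
  refine ⟨X0, fun f B J X α' T hf hB hJ hX hα0 hα1 hT1 hTX hp hq => ?_⟩
  obtain ⟨hX3, hex, hyM⟩ := hX0 X hX
  obtain ⟨x, hx⟩ : ∃ x : ℝ, x = Real.log X := ⟨_, rfl⟩
  obtain ⟨y, hy⟩ : ∃ y : ℝ, y = Real.log (Real.log X) := ⟨_, rfl⟩
  rw [← hy] at hp hq hyM
  have hq0 : (0 : ℝ) ≤ 240 * (K + 14) / δ := by positivity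
  have hy2 : 2 ≤ y := by linarith
  have hx0 : 0 < x := by
    rw [hx]
    exact lt_of_lt_of_le (Real.exp_pos _) hex
  have hxy : x = Real.exp y := by
    rw [hy, ← hx, Real.exp_log hx0]
  have hx4 : 4 ≤ x := by
    have h1 : y ^ 2 / 2 + y + 1 ≤ Real.exp y := by
      have := Real.quadratic_le_exp_of_nonneg (by linarith : (0 : ℝ) ≤ y)
      linarith
    rw [hxy]
    nlinarith
  have hreal := umj_real δ K x y hδ hK0 (by linarith) hxy (by linarith)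
  -- the parameters
  have hH0 : 2 ≤ hj Hs J := by
    unfold hj
    calc 2 = 2 ^ 1 * 1 := by norm_num
      _ ≤ 2 ^ J * Hs := Nat.mul_le_mul (Nat.pow_le_pow_right (by norm_num) hJ) hHs
  have hpB : 2 ≤ pj B J := by
    unfold pj
    calc 2 ≤ B := hB
      _ = B ^ 1 := (pow_one B).symm
      _ ≤ B ^ (2 ^ (J - 1)) := Nat.pow_le_pow_right (by omega) Nat.one_le_two_pow
  have hpq := pj_lt_qj A B J hA (by omega)
  have ha : 2 * hj Hs J ≤ aj Hs B J := by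
    unfold aj
    rw [mul_comm]
    exact Nat.mul_le_mul_left _ hpB
  have hab : aj Hs B J < bj Hs A B J := by
    unfold aj bj
    exact Nat.mul_lt_mul_of_pos_left hpq (by omega)
  have hHR : (0 : ℝ) < (hj Hs J : ℝ) := by exact_mod_cast (by omega : 0 < hj Hs J)
  have haH : ((aj Hs B J : ℕ) : ℝ) / (hj Hs J : ℝ) = (pj B J : ℝ) := by
    unfold aj
    push_cast
    field_simp
  have hbH : ((bj Hs A B J : ℕ) : ℝ) / (hj Hs J : ℝ) = (qj A B J : ℝ) := by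
    unfold bj
    push_cast
    field_simp
  have hmain := hum f (hj Hs J) (aj Hs B J) (bj Hs A B J) X α' T hf hH0 ha hab hα0
    (hα1.trans (by linarith)) hX3 hT1 hTX _ rfl
  refine hmain.trans (ENNReal.ofReal_le_ofReal ?_)
  rw [haH, hbH, ← hx]
  obtain ⟨l, hl⟩ : ∃ l : ℝ, l = x / (pj B J : ℝ) + 1 := ⟨_, rfl⟩
  rw [← hl]
  have hC1y : 64 ≤ 32 / δ * y := by
    have h1 : 32 ≤ 32 / δ := by
      rw [le_div_iff₀ hδ]
      linarith
    nlinarith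
  have hpR : (0 : ℝ) < pj B J := by linarith
  have hl1 : l ≤ x / (32 / δ * y) + 1 := by
    rw [hl]
    have : x / (pj B J : ℝ) ≤ x / (32 / δ * y) :=
      div_le_div_of_nonneg_left hx0.le (by linarith) hp
    linarith
  have hl0 : 1 ≤ l := by
    rw [hl]
    have : 0 ≤ x / (pj B J : ℝ) := by positivity
    linarith
  have hl2 : x / (32 / δ * y) = δ * x / (32 * y) := by
    field_simp
  have hy0 : 0 < y := by linarith
  have hl3 : x / (32 / δ * y) ≤ x / 64 := div_le_div_of_nonneg_left hx0.le (by norm_num) hC1y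
  have hlog : Real.log (l + 1) ≤ y := by
    have h1 : l + 1 ≤ x := by linarith
    have h2 := Real.log_le_log (by linarith) h1
    rwa [hx, ← hy] at h2
  have hlog0 : 0 ≤ Real.log (l + 1) := Real.log_nonneg (by linarith)
  -- the exponent
  have e1 : 2 * l ≤ δ / 16 * x + 2 := by
    have h1 : δ * x / (32 * y) ≤ δ * x / 32 := by
      refine div_le_div_of_nonneg_left (by positivity) (by norm_num) (by linarith)
    rw [hl2] at hl1
    linarith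
  have e2 : (2 * l + 1) * Real.log (l + 1) ≤ δ / 16 * x + 3 * y := by
    have h1 : (2 * l + 1) * Real.log (l + 1) ≤ (2 * l + 1) * y :=
      mul_le_mul_of_nonneg_left hlog (by linarith)
    have h2 : (2 * l + 1) * y ≤ (2 * (δ * x / (32 * y)) + 3) * y := by
      rw [hl2] at hl1
      exact mul_le_mul_of_nonneg_right (by linarith) hy0.le
    have h3 : (2 * (δ * x / (32 * y)) + 3) * y = δ / 16 * x + 3 * y := by
      field_simp
      ring
    linarith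
  have e3 : 2 * α' * x ≤ δ / 8 * x := mul_le_mul_of_nonneg_right (by linarith) hx0.le
  have hE : 2 * α' * x + (qj A B J : ℝ) + 2 * l + (2 * l + 1) * Real.log (l + 1) ≤
      δ * x - K - 8 * y := by
    have h1 : 0 < δ * x := by positivity
    linarith
  have hba : ((bj Hs A B J : ℕ) : ℝ) - (aj Hs B J : ℕ) ≤ Hs * Real.exp (8 * y) := by
    have h1 : ((bj Hs A B J : ℕ) : ℝ) ≤ Hs * (qj A B J : ℝ) ^ 2 := by
      have h2 : bj Hs A B J ≤ Hs * qj A B J ^ 2 := by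
        unfold bj hj
        have h3 := two_pow_le_qj A B J hA (by omega)
        calc 2 ^ J * Hs * qj A B J ≤ qj A B J * Hs * qj A B J :=
              Nat.mul_le_mul_right _ (Nat.mul_le_mul_right _ h3)
          _ = Hs * qj A B J ^ 2 := by ring
      exact_mod_cast h2
    have h4 : (qj A B J : ℝ) ^ 2 ≤ (y ^ 4) ^ 2 := pow_le_pow_left₀ (by positivity) hq 2
    have h5 : (y ^ 4) ^ 2 ≤ Real.exp (8 * y) := by
      have h6 : y ≤ Real.exp y := by linarith [Real.add_one_le_exp y]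
      have h7 : y ^ 8 ≤ Real.exp y ^ 8 := pow_le_pow_left₀ hy0.le h6 8
      have h8 : Real.exp y ^ 8 = Real.exp (8 * y) := by
        rw [← Real.exp_nat_mul]
        norm_num
      calc (y ^ 4) ^ 2 = y ^ 8 := by ring
        _ ≤ Real.exp (8 * y) := h8 ▸ h7
    have h9 : (0 : ℝ) ≤ (aj Hs B J : ℕ) := Nat.cast_nonneg _
    have h10 : (0 : ℝ) ≤ Hs := Nat.cast_nonneg _
    have h11 := mul_le_mul_of_nonneg_left (h4.trans h5) h10
    linarith
  have hba0 : 0 ≤ ((bj Hs A B J : ℕ) : ℝ) - (aj Hs B J : ℕ) := by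
    have : ((aj Hs B J : ℕ) : ℝ) ≤ (bj Hs A B J : ℕ) := by exact_mod_cast hab.le
    linarith
  have hXp : (0 : ℝ) < X := by exact_mod_cast (by omega : 0 < X)
  have hXd : (X : ℝ) ^ δ = Real.exp (δ * x) := by
    rw [Real.rpow_def_of_pos hXp, ← hx, mul_comm]
  rw [hXd]
  calc C * (((bj Hs A B J : ℕ) : ℝ) - (aj Hs B J : ℕ)) *
        Real.exp (2 * α' * x + (qj A B J : ℝ) + 2 * l + (2 * l + 1) * Real.log (l + 1)) ≤
      C * (Hs * Real.exp (8 * y)) * Real.exp (δ * x - K - 8 * y) := by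
        refine mul_le_mul (mul_le_mul_of_nonneg_left hba hC.le) (Real.exp_le_exp.2 hE)
          (Real.exp_pos _).le (by positivity)
    _ = (C * Hs) * (Real.exp (8 * y) * Real.exp (δ * x - K - 8 * y)) := by ring
    _ ≤ Real.exp K * (Real.exp (8 * y) * Real.exp (δ * x - K - 8 * y)) :=
        mul_le_mul_of_nonneg_right hKe (by positivity)
    _ = Real.exp (δ * x) := by
        rw [← Real.exp_add, ← Real.exp_add]
        congr 1
        ring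

end Pool.H2.MR
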