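import Pool.Agent.H2.MR.Fin
import Pool.Agent.H2.MR.Lv1
import Pool.Agent.H2.MR.Lvj
import Pool.Agent.H2.MR.Stp

/-!
# [H2 MR CORE] The mean square of the polynomial over `|t| ≤ L X/h`

PROOF. Constants `Ce` (`err`), `C0` (`prl`), `Cv1` (`lv1`), `Cvj` (`lvj`). `δ` from `fin (ε/4)`, `α, C1` from `umj δ`. `Hs = ⌈64 Ce/ε⌉₊ + 2`. `A ≥ 2` with `log A - C0 ≥ 64 Ce/ε` (so for all
`j ≥ 1` `∑_{PR j} 1/p ≥ 2^j log A - C0 ≥ 2^j 64 Ce/ε`; `bj/aj = A^(2^j)`, `prl`). `B0` = maximum of the `B0` of `pin α (ε/(64 Cvj))`, `pin1 α (ε/(64 Cv1))`, `stp A C1`, and `3`, `A`, and large enough that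
`Ce exp(-pj B j) ≤ (ε/64) 2^(-j)` (`pj B j ≥ B j`). For `h ≥ h₀` put `B = ⌊log(h/L)/A²⌋₊ ≥ B0` (`h₀ = L exp(A²(B0+1))`); then `exp(qj A B 1) = exp(A² B) ≤ h/L`.
Let `X ≥ X₀`, `T = LX/h` (`1 ≤ T ≤ X/2` as `h ≥ 2L`, `X ≥ h`; if `L X/h` is as in the statement). `J` from `stp`. Notation: level `j` is `H = hj Hs j`, `a = aj Hs B j`, `b = bj Hs A B j`, `α_j = alj α j`;
`a/H = pj B j`, `b/H = qj A B j`, `H ≥ 2`, `a ≥ 3H ≥ 2H`, `a < b`, `EE H b ≤ exp(qj J) ≤ X` for `j ≤ J`, `0 ≤ α_j ≤ α_(j+1) ≤ α ≤ 1/2`.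
For `t ∈ [-T,T]`: `Gd` at level 1, or for some `1 ≤ j < J` `Gd` at level `j+1` and not at level `j`, or not `Gd` at level `J`. So with
`S_1 = {Gd_1}`, `S_(j+1) = {Gd_(j+1), not Gd_j}`, `U = {not Gd_J}` (intersected with `[-T,T]`; measurable, `pv` is continuous):
`∫_{-T}^T ‖F‖² ≤ ∑_{j=1}^J ∫_{S_j} ‖F‖² + ∫_U ‖F‖²`. `∫_{S_j} ‖F‖² ≤ 2 ∫ ‖F - ∑ pv mv‖² + 2 ∫_{S_j} ‖∑ pv mv‖²`. `err`: `2Ce(ε2^(-j)/(64Ce) + ε2^(-j)/(64 Ce) + 1/(2^j Hs) + 1/X) ≤ (3ε/32) 2^(-j) + 2Ce/X`.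
`lv1` (`T exp(qj 1) ≤ X`) and `pin1`: `2 ∫_{S_1} ≤ ε/32`; `lvj` and `pin`: `2∫_{S_(j+1)} ≤ (ε/32) 2^(-j)` (`ℓ = qj(j+1)/pj(j) + 1`). Sum: `≤ 3ε/32·... + ε/32 + ε/32 + 2Ce J/X ≤ ε/2` (`J ≤ 2^J ≤ qj J ≤ (log log X)^4`).
`∫_U ‖F‖² ≤ ε/4` by `fin` and `umj` (`T ≤ X/2`).
-/

namespace Pool.H2.MR

open Finset MeasureTheory

theorem core_nj_cont (n : ℕ) (hn : 1 ≤ n) : Continuous fun t : ℝ => nj t n := by
  have h0 : (n : ℂ) ≠ 0 := by
    have : n ≠ 0 := by omega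
    exact_mod_cast this
  unfold nj
  refine Continuous.const_cpow ?_ (Or.inl h0)
  fun_prop

theorem core_ds_cont (c : ℕ → ℂ) (N N' : ℕ) : Continuous fun t : ℝ => ds c N N' t := by
  unfold ds
  refine continuous_finsetSum _ fun n hn => continuous_const.mul (core_nj_cont n ?_)
  rw [mem_Ioc] at hn
  omega

theorem core_pv_cont (f : ℕ → ℂ) (H v : ℕ) : Continuous fun t : ℝ => pv f H v t := by
  unfold pv
  refine continuous_finsetSum _ fun n hn => continuous_const.mul (core_nj_cont n ?_)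
  unfold Bl at hn
  rw [mem_filter, mem_Ioc] at hn
  omega

theorem core_gd_meas (f : ℕ → ℂ) (H a b : ℕ) (α : ℝ) : MeasurableSet {t : ℝ | Gd f H a b α t} := by
  have h : {t : ℝ | Gd f H a b α t} =
      ⋂ v ∈ Ico a b, {t : ℝ | ‖pv f H v t‖ ≤ Real.exp (-(α * ((v : ℝ) / H)))} := by
    ext t
    simp [Gd]
  rw [h]
  exact Finset.measurableSet_biInter _ fun v _ =>
    (isClosed_le (core_pv_cont f H v).norm continuous_const).measurableSet

theorem core_split (g : ℝ → ℝ) (hg : Continuous g) (h0 : ∀ t, 0 ≤ g t) (G : ℕ → Set ℝ)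
    (hG : ∀ j, MeasurableSet (G j)) (T : ℝ) (n : ℕ) :
    ∫ t in Set.Icc (-T) T, g t ≤ (∫ t in Set.Icc (-T) T ∩ G 1, g t) +
      ∑ j ∈ Finset.Icc 1 n, (∫ t in (Set.Icc (-T) T \ G j) ∩ G (j + 1), g t) +
      ∫ t in Set.Icc (-T) T \ G (n + 1), g t := by
  have hI : IntegrableOn g (Set.Icc (-T) T) := hg.integrableOn_Icc
  induction n with
  | zero =>
    simp only [Finset.Icc_eq_empty_of_lt (Nat.zero_lt_one), Finset.sum_empty, add_zero, zero_add]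
    rw [integral_inter_add_sdiff (hG 1) hI]
  | succ n ih =>
    rw [Finset.sum_Icc_succ_top (by omega)]
    have h1 : ∫ t in Set.Icc (-T) T \ G (n + 1), g t =
        (∫ t in (Set.Icc (-T) T \ G (n + 1)) ∩ G (n + 1 + 1), g t) +
          ∫ t in (Set.Icc (-T) T \ G (n + 1)) \ G (n + 1 + 1), g t :=
      (integral_inter_add_sdiff (hG (n + 1 + 1)) (hI.mono_set Set.sdiff_subset)).symm
    have h2 : ∫ t in (Set.Icc (-T) T \ G (n + 1)) \ G (n + 1 + 1), g t ≤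
        ∫ t in Set.Icc (-T) T \ G (n + 1 + 1), g t :=
      setIntegral_mono_set (hI.mono_set Set.sdiff_subset) (Filter.Eventually.of_forall h0)
        (LE.le.eventuallyLE (Set.sdiff_subset_sdiff_left Set.sdiff_subset))
    linarith

theorem core_meas (F : ℝ → ℂ) (P : ℕ → ℝ → ℂ) (G : ℕ → Set ℝ) (T u : ℝ) (e s : ℕ → ℝ) (n : ℕ)
    (hT : 0 ≤ T) (hF : Continuous F) (hP : ∀ j, Continuous (P j)) (hG : ∀ j, MeasurableSet (G j))
    (he : ∀ j ∈ Finset.Icc 1 (n + 1), ∫ t in (-T)..T, ‖F t - P j t‖ ^ 2 ≤ e j)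
    (h1 : ∫ t in Set.Icc (-T) T ∩ G 1, ‖P 1 t‖ ^ 2 ≤ s 0)
    (h2 : ∀ j ∈ Finset.Icc 1 n, ∫ t in (Set.Icc (-T) T \ G j) ∩ G (j + 1), ‖P (j + 1) t‖ ^ 2 ≤ s j)
    (h3 : ∫ t in Set.Icc (-T) T \ G (n + 1), ‖F t‖ ^ 2 ≤ u) :
    ∫ t in (-T)..T, ‖F t‖ ^ 2 ≤ (2 * e 1 + 2 * s 0) + ∑ j ∈ Finset.Icc 1 n, (2 * e (j + 1) + 2 * s j) + u := by
  have hF2 : Continuous fun t => ‖F t‖ ^ 2 := hF.norm.pow 2
  have key : ∀ j ∈ Finset.Icc 1 (n + 1), ∀ S : Set ℝ, MeasurableSet S → S ⊆ Set.Icc (-T) T → ∀ σ : ℝ,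
      ∫ t in S, ‖P j t‖ ^ 2 ≤ σ → ∫ t in S, ‖F t‖ ^ 2 ≤ 2 * e j + 2 * σ := by
    intro j hj1 S hS hST σ hσ
    have hD : Continuous fun t => ‖F t - P j t‖ ^ 2 := (hF.sub (hP j)).norm.pow 2
    have hP2 : Continuous fun t => ‖P j t‖ ^ 2 := (hP j).norm.pow 2
    have hint : ∀ g : ℝ → ℝ, Continuous g → IntegrableOn g S := fun g hg =>
      (hg.integrableOn_Icc (a := -T) (b := T)).mono_set hST
    have hA : Continuous fun t => 2 * ‖F t - P j t‖ ^ 2 := continuous_const.mul hD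
    have hB : Continuous fun t => 2 * ‖P j t‖ ^ 2 := continuous_const.mul hP2
    have hpt : ∀ t ∈ S, ‖F t‖ ^ 2 ≤ 2 * ‖F t - P j t‖ ^ 2 + 2 * ‖P j t‖ ^ 2 := by
      intro t _
      have e3 : ‖F t‖ ≤ ‖F t - P j t‖ + ‖P j t‖ := by
        have := norm_add_le (F t - P j t) (P j t)
        rwa [sub_add_cancel] at this
      have e4 : ‖F t‖ ^ 2 ≤ (‖F t - P j t‖ + ‖P j t‖) ^ 2 := pow_le_pow_left₀ (norm_nonneg _) e3 2
      nlinarith [sq_nonneg (‖F t - P j t‖ - ‖P j t‖)]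
    have hAB : Continuous fun t => 2 * ‖F t - P j t‖ ^ 2 + 2 * ‖P j t‖ ^ 2 := hA.add hB
    have hmono := setIntegral_mono_on (hint _ hF2) (hint _ hAB) hS hpt
    rw [integral_add (hint _ hA) (hint _ hB), integral_const_mul, integral_const_mul] at hmono
    have g1 : ∫ t in S, ‖F t - P j t‖ ^ 2 ≤ e j := by
      refine le_trans ?_ (he j hj1)
      rw [intervalIntegral.integral_of_le (by linarith), ← integral_Icc_eq_integral_Ioc]
      exact setIntegral_mono_set hD.integrableOn_Icc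
        (Filter.Eventually.of_forall fun t => by positivity) (LE.le.eventuallyLE hST)
    linarith
  have hsp := core_split (fun t => ‖F t‖ ^ 2) hF2 (fun t => by positivity) G hG T n
  rw [intervalIntegral.integral_of_le (by linarith), ← integral_Icc_eq_integral_Ioc]
  refine hsp.trans ?_
  have g1 := key 1 (by rw [Finset.mem_Icc]; omega) _ (measurableSet_Icc.inter (hG 1)) Set.inter_subset_left (s 0) h1
  have g2 : ∑ j ∈ Finset.Icc 1 n, (∫ t in (Set.Icc (-T) T \ G j) ∩ G (j + 1), ‖F t‖ ^ 2) ≤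
      ∑ j ∈ Finset.Icc 1 n, (2 * e (j + 1) + 2 * s j) := by
    refine Finset.sum_le_sum fun j hj1 => ?_
    have hj2 := Finset.mem_Icc.1 hj1
    exact key (j + 1) (by rw [Finset.mem_Icc]; omega) _ ((measurableSet_Icc.diff (hG j)).inter (hG (j + 1)))
      (Set.inter_subset_left.trans Set.sdiff_subset) (s j) (h2 j hj1)
  linarith

/-- the sizes of the levels -/
theorem core_lev (Hs A B j : ℕ) (hH : 1 ≤ Hs) (hA : 2 ≤ A) (hB : 2 ≤ B) (hj1 : 1 ≤ j) :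
    2 ≤ hj Hs j ∧ 2 * hj Hs j ≤ aj Hs B j ∧ aj Hs B j < bj Hs A B j ∧
      (aj Hs B j : ℝ) / hj Hs j = pj B j ∧ (bj Hs A B j : ℝ) / hj Hs j = qj A B j ∧
      (bj Hs A B j : ℝ) / aj Hs B j = (A : ℝ) ^ (2 ^ j) := by
  have h1 : 2 ≤ hj Hs j := by
    unfold hj
    have : 2 ^ 1 ≤ 2 ^ j := Nat.pow_le_pow_right (by norm_num) hj1
    nlinarith
  have h2 : 2 ≤ pj B j := by
    unfold pj
    calc 2 ≤ B := hB
      _ = B ^ 1 := (pow_one B).symm
      _ ≤ B ^ (2 ^ (j - 1)) := Nat.pow_le_pow_right (by omega) (Nat.one_le_two_pow)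
  have h3 : pj B j < qj A B j := pj_lt_qj A B j hA (by omega)
  have hh0 : (hj Hs j : ℝ) ≠ 0 := by
    have : hj Hs j ≠ 0 := by omega
    exact_mod_cast this
  have hp0 : (pj B j : ℝ) ≠ 0 := by
    have : pj B j ≠ 0 := by omega
    exact_mod_cast this
  refine ⟨h1, ?_, ?_, ?_, ?_, ?_⟩
  · unfold aj
    calc 2 * hj Hs j ≤ pj B j * hj Hs j := Nat.mul_le_mul_right _ h2
      _ = hj Hs j * pj B j := Nat.mul_comm _ _
  · unfold aj bj
    exact Nat.mul_lt_mul_of_pos_left h3 (by omega)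
  · unfold aj
    push_cast
    field_simp
  · unfold bj
    push_cast
    field_simp
  · unfold aj bj
    push_cast
    rw [mul_div_mul_left _ _ hh0]
    unfold qj pj at *
    push_cast at *
    field_simp

theorem core_two_pow (B K j : ℕ) (hK : 1 ≤ K) (hB : 2 * K ≤ B) (hj1 : 1 ≤ j) : K * 2 ^ j ≤ pj B j := by
  unfold pj
  have h1 : j ≤ 2 ^ (j - 1) := by
    obtain ⟨i, rfl⟩ : ∃ i, j = i + 1 := ⟨j - 1, by omega⟩
    simpa using Nat.lt_two_pow_self (n := i)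
  calc K * 2 ^ j ≤ K ^ j * 2 ^ j := Nat.mul_le_mul_right _ (Nat.le_self_pow (by omega) K)
    _ = (2 * K) ^ j := by rw [mul_pow, mul_comm]
    _ ≤ B ^ j := Nat.pow_le_pow_left hB j
    _ ≤ B ^ (2 ^ (j - 1)) := Nat.pow_le_pow_right (by omega) h1

theorem core_half_sum (n : ℕ) : ∑ j ∈ Finset.Icc 1 n, ((1 : ℝ) / 2) ^ j ≤ 1 := by
  have h : ∑ j ∈ Finset.Icc 1 n, ((1 : ℝ) / 2) ^ j = 1 - (1 / 2) ^ n := by
    induction n with
    | zero => simp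
    | succ n ih =>
      rw [Finset.sum_Icc_succ_top (by omega), ih]
      ring
  rw [h]
  have : (0 : ℝ) ≤ (1 / 2) ^ n := by positivity
  linarith

theorem core (ε : ℝ) (hε : 0 < ε) (hε1 : ε ≤ 1) (L : ℕ) (hL : 1 ≤ L) : ∃ h₀ : ℕ, ∀ h : ℕ, h₀ ≤ h → ∀ f : ℕ → ℂ, OB f → CondN1 f →
    ∃ X₀ : ℕ, ∀ X : ℕ, X₀ ≤ X →
    ∫ t in (-((L : ℝ) * X / h))..((L : ℝ) * X / h), ‖ds f X (6 * X) t‖ ^ 2 ≤ ε := by
  obtain ⟨Ce, hCe, herr⟩ := err
  obtain ⟨C0, hC0, hprl⟩ := prl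
  obtain ⟨Cv, hCv, hlv1⟩ := lv1
  obtain ⟨Cj, hCj, hlvj⟩ := lvj
  obtain ⟨δ, hδ, hδ1, hfin⟩ := fin (ε / 4) (by positivity) (by linarith)
  obtain ⟨α, C1, hα, hα2, hC1, hum⟩ := umj δ hδ hδ1
  obtain ⟨D, hDd⟩ : ∃ D : ℝ, D = 64 * Ce / ε := ⟨_, rfl⟩
  have hD0 : 0 < D := by rw [hDd]; positivity
  have hCD : Ce = ε / 64 * D := by rw [hDd]; field_simp
  obtain ⟨Hs, hHs⟩ : ∃ Hs : ℕ, Hs = ⌈D⌉₊ + 2 := ⟨_, rfl⟩
  have hHs1 : 1 ≤ Hs := by omega
  have hHsD : D ≤ Hs := by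
    rw [hHs]
    push_cast
    linarith [Nat.le_ceil D]
  obtain ⟨A, hAd⟩ : ∃ A : ℕ, A = ⌈Real.exp (D + C0)⌉₊ + 2 := ⟨_, rfl⟩
  have hA2 : 2 ≤ A := by omega
  have hA0 : (0 : ℝ) < A := by
    have : 0 < A := by omega
    exact_mod_cast this
  have hAD : D + C0 ≤ Real.log A := by
    rw [Real.le_log_iff_exp_le hA0, hAd]
    push_cast
    linarith [Nat.le_ceil (Real.exp (D + C0))]
  obtain ⟨B1, hB1⟩ := pin α (ε / (64 * Cj)) Hs A hα (by positivity) hHs1 hA2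
  obtain ⟨B2, hB2⟩ := pin1 α (ε / (64 * Cv)) Hs A hα (by positivity) hHs1 hA2
  obtain ⟨B3, hB3⟩ := stp A C1 hA2 hC1
  obtain ⟨B0, hB0⟩ : ∃ B0 : ℕ, B0 = B1 + B2 + B3 + 3 + 2 * Hs := ⟨_, rfl⟩
  have hL0 : (0 : ℝ) < L := by
    have : 0 < L := by omega
    exact_mod_cast this
  refine ⟨⌈L * Real.exp ((A : ℝ) ^ 2 * (B0 + 1))⌉₊ + 2 * L + 1, fun h hh f hf hN => ?_⟩
  have hhR : (L : ℝ) * Real.exp ((A : ℝ) ^ 2 * (B0 + 1)) ≤ h := by
    refine (Nat.le_ceil _).trans ?_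
    exact_mod_cast (by omega : ⌈L * Real.exp ((A : ℝ) ^ 2 * (B0 + 1))⌉₊ ≤ h)
  have hh2 : 2 * (L : ℝ) ≤ h := by exact_mod_cast (by omega : 2 * L ≤ h)
  have hh0 : (0 : ℝ) < h := by linarith
  obtain ⟨B, hBd⟩ : ∃ B : ℕ, B = ⌊Real.log (h / L) / (A : ℝ) ^ 2⌋₊ := ⟨_, rfl⟩
  have hA20 : (0 : ℝ) < (A : ℝ) ^ 2 := by positivity
  have hhl : (A : ℝ) ^ 2 * (B0 + 1) ≤ Real.log (h / L) := by
    rw [Real.le_log_iff_exp_le (by positivity), le_div_iff₀ hL0]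
    linarith
  have hhl0 : 0 ≤ Real.log (h / L) := by
    refine le_trans ?_ hhl
    positivity
  have hBB : B0 ≤ B := by
    rw [hBd]
    apply Nat.le_floor
    rw [le_div_iff₀ hA20]
    nlinarith
  have hB3' : 3 ≤ B := by omega
  have hAB : (qj A B 1 : ℝ) ≤ Real.log (h / L) := by
    have h1 : (B : ℝ) ≤ Real.log (h / L) / (A : ℝ) ^ 2 := by
      rw [hBd]
      exact Nat.floor_le (by positivity)
    rw [le_div_iff₀ hA20] at h1
    unfold qj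
    push_cast
    norm_num
    linarith
  obtain ⟨X1, hX1⟩ := hfin f hf hN
  obtain ⟨X2, hX2⟩ := hum Hs A hHs1 hA2
  obtain ⟨X3, hX3⟩ := hB3 B (by omega)
  have hlim1 : ∀ᶠ X : ℕ in Filter.atTop, (Real.log (Real.log X)) ^ 4 ≤ Real.log X := by
    have h1 : (fun y : ℝ => (Real.log y) ^ 4) =o[Filter.atTop] fun y => y := by
      exact Real.isLittleO_pow_log_id_atTop
    have h2 := h1.bound (show (0 : ℝ) < 1 by norm_num)
    have h3 : ∀ᶠ y : ℝ in Filter.atTop, (Real.log y) ^ 4 ≤ y := by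
      filter_upwards [h2, Filter.eventually_ge_atTop 0] with y hy hy0
      rw [Real.norm_eq_abs, Real.norm_eq_abs, abs_of_nonneg hy0, one_mul] at hy
      exact (le_abs_self _).trans hy
    exact (Real.tendsto_log_atTop.comp tendsto_natCast_atTop_atTop).eventually h3
  have hlim2 : ∀ᶠ X : ℕ in Filter.atTop, 2 * Ce * Real.log X ≤ ε / 2 * X := by
    have h1 : (fun y : ℝ => Real.log y) =o[Filter.atTop] fun y => y := Real.isLittleO_log_id_atTop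
    have h2 := h1.bound (show (0 : ℝ) < ε / 2 / (2 * Ce) by positivity)
    have h3 : ∀ᶠ y : ℝ in Filter.atTop, 2 * Ce * Real.log y ≤ ε / 2 * y := by
      filter_upwards [h2, Filter.eventually_ge_atTop 0] with y hy hy0
      rw [Real.norm_eq_abs, Real.norm_eq_abs, abs_of_nonneg hy0] at hy
      have h4 := (le_abs_self _).trans hy
      calc 2 * Ce * Real.log y ≤ 2 * Ce * (ε / 2 / (2 * Ce) * y) :=
            mul_le_mul_of_nonneg_left h4 (by positivity)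
        _ = ε / 2 * y := by field_simp
    exact tendsto_natCast_atTop_atTop.eventually h3
  obtain ⟨X4, hX4⟩ := Filter.eventually_atTop.1 (hlim1.and hlim2)
  refine ⟨X1 + X2 + X3 + X4 + h + 1, fun X hX => ?_⟩
  obtain ⟨J, hJ1, hJ2, hJ3⟩ := hX3 X (by omega)
  obtain ⟨hY1, hY2⟩ := hX4 X (by omega)
  have hXh : (h : ℝ) ≤ X := by exact_mod_cast (by omega : h ≤ X)
  have hX0 : (0 : ℝ) < X := by linarith
  have hXn : 1 ≤ X := by omega
  obtain ⟨T, hTd⟩ : ∃ T : ℝ, T = (L : ℝ) * X / h := ⟨_, rfl⟩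
  have hL1 : (1 : ℝ) ≤ L := by exact_mod_cast hL
  have hT1 : 1 ≤ T := by
    rw [hTd, le_div_iff₀ hh0]
    nlinarith
  have hT2 : T ≤ X / 2 := by
    rw [hTd, div_le_div_iff₀ hh0 (by norm_num)]
    nlinarith
  have hTX : T ≤ X := by linarith
  have hTq : T * Real.exp (qj A B 1) ≤ X := by
    have h1 : Real.exp (qj A B 1) ≤ h / L := by
      rw [← Real.le_log_iff_exp_le (by positivity)]
      exact hAB
    calc T * Real.exp (qj A B 1) ≤ T * (h / L) := mul_le_mul_of_nonneg_left h1 (by linarith)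
      _ = X := by rw [hTd]; field_simp
  have hqX : ∀ j, j ≤ J → Real.exp (qj A B j) ≤ X := by
    intro j hj1
    have h1 : (qj A B j : ℝ) ≤ qj A B J := by exact_mod_cast qj_mono A B hA2 (by omega) hj1
    rw [← Real.le_log_iff_exp_le hX0]
    linarith
  have hJX : (J : ℝ) ≤ Real.log X := by
    have h1 : (J : ℝ) ≤ 2 ^ J := by exact_mod_cast (Nat.lt_two_pow_self (n := J)).le
    have h2 : ((2 ^ J : ℕ) : ℝ) ≤ qj A B J := by exact_mod_cast two_pow_le_qj A B J hA2 (by omega)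
    push_cast at h2
    linarith
  rw [← hTd]
  obtain ⟨n, rfl⟩ : ∃ n, J = n + 1 := ⟨J - 1, by omega⟩
  have hlev := fun j (hj1 : 1 ≤ j) => core_lev Hs A B j hHs1 hA2 (by omega) hj1
  have halj0 : ∀ j, 0 ≤ alj α j := by
    intro j
    unfold alj
    have : ((1 : ℝ) / 2) ^ j ≤ 1 := pow_le_one₀ (by norm_num) (by norm_num)
    nlinarith
  have halj1 : ∀ j, alj α j ≤ α := by
    intro j
    unfold alj
    have : (0 : ℝ) ≤ ((1 : ℝ) / 2) ^ j := by positivity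
    nlinarith
  have halj2 : ∀ j, alj α j ≤ alj α (j + 1) := by
    intro j
    unfold alj
    have h1 : (0 : ℝ) ≤ ((1 : ℝ) / 2) ^ j := by positivity
    rw [pow_succ]
    nlinarith
  have hmain := core_meas (fun t => ds f X (6 * X) t)
    (fun j t => ∑ v ∈ Ico (aj Hs B j) (bj Hs A B j), pv f (hj Hs j) v t * mv f (hj Hs j) (aj Hs B j) (bj Hs A B j) X v t)
    (fun j => {t : ℝ | Gd f (hj Hs j) (aj Hs B j) (bj Hs A B j) (alj α j) t}) T (ε / 4)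
    (fun j => 3 * ε / 64 * (1 / 2) ^ j + Ce / X) (fun j => ε / 64 * (1 / 2) ^ j) n (by linarith)
    (core_ds_cont f X (6 * X))
    (fun j => continuous_finsetSum _ fun v _ => (core_pv_cont f _ v).mul (core_ds_cont _ _ _))
    (fun j => core_gd_meas _ _ _ _ _) ?_ ?_ ?_ ?_
  · refine hmain.trans ?_
    have h1 : ∑ j ∈ Finset.Icc 1 n, (2 * (3 * ε / 64 * (1 / 2 : ℝ) ^ (j + 1) + Ce / X) + 2 * (ε / 64 * (1 / 2) ^ j)) =
        5 * ε / 64 * ∑ j ∈ Finset.Icc 1 n, (1 / 2 : ℝ) ^ j + n * (2 * (Ce / X)) := by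
      rw [Finset.mul_sum]
      have h2 : (n : ℝ) * (2 * (Ce / X)) = ∑ j ∈ Finset.Icc 1 n, 2 * (Ce / X) := by
        rw [Finset.sum_const, Nat.card_Icc, nsmul_eq_mul]
        simp
      rw [h2, ← Finset.sum_add_distrib]
      refine Finset.sum_congr rfl fun j _ => ?_
      rw [pow_succ]
      ring
    rw [h1]
    have h3 := core_half_sum n
    have h4 : 5 * ε / 64 * ∑ j ∈ Finset.Icc 1 n, (1 / 2 : ℝ) ^ j ≤ 5 * ε / 64 * 1 :=
      mul_le_mul_of_nonneg_left h3 (by positivity)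
    have h5 : ((n : ℝ) + 1) * (2 * (Ce / X)) ≤ ε / 2 := by
      push_cast at hJX
      have h6 : ((n : ℝ) + 1) * (2 * Ce) ≤ ε / 2 * X := by
        calc ((n : ℝ) + 1) * (2 * Ce) ≤ Real.log X * (2 * Ce) :=
              mul_le_mul_of_nonneg_right hJX (by positivity)
          _ = 2 * Ce * Real.log X := by ring
          _ ≤ ε / 2 * X := hY2
      calc ((n : ℝ) + 1) * (2 * (Ce / X)) = ((n : ℝ) + 1) * (2 * Ce) / X := by ring
        _ ≤ ε / 2 := by rw [div_le_iff₀ hX0]; exact h6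
    have h7 : ((n : ℝ) + 1) * (2 * (Ce / X)) = n * (2 * (Ce / X)) + 2 * (Ce / X) := by ring
    rw [h7] at h5
    norm_num
    linarith
  · intro j hj1
    obtain ⟨hj2, hj3⟩ := Finset.mem_Icc.1 hj1
    obtain ⟨q1, q2, q3, q4, q5, q6⟩ := hlev j hj2
    have hE : EE (hj Hs j) (bj Hs A B j) ≤ X := by
      have h1 : (EE (hj Hs j) (bj Hs A B j) : ℝ) ≤ X := by
        unfold EE
        rw [q5]
        exact (Nat.floor_le (Real.exp_pos _).le).trans (hqX j hj3)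
      exact_mod_cast h1
    have hjp : (1 : ℝ) ≤ 2 ^ j := one_le_pow₀ (by norm_num)
    have hhalf : ((1 : ℝ) / 2) ^ j * 2 ^ j = 1 := by
      rw [← mul_pow]
      norm_num
    have hsum : D * 2 ^ j ≤ ∑ p ∈ PR (hj Hs j) (aj Hs B j) (bj Hs A B j), 1 / (p : ℝ) := by
      refine le_trans ?_ (hprl (hj Hs j) (aj Hs B j) (bj Hs A B j) (by omega) q2 q3)
      rw [q6, Real.log_pow]
      push_cast
      have h1 : (2 : ℝ) ^ j * (D + C0) ≤ 2 ^ j * Real.log A := mul_le_mul_of_nonneg_left hAD (by positivity)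
      have h2 : C0 ≤ 2 ^ j * C0 := by nlinarith
      linarith
    have hs0 : 0 < ∑ p ∈ PR (hj Hs j) (aj Hs B j) (bj Hs A B j), 1 / (p : ℝ) :=
      lt_of_lt_of_le (by positivity) hsum
    refine (herr f (hj Hs j) (aj Hs B j) (bj Hs A B j) X T hf (by omega) (by omega) q3 hXn hE hT1 hTX hs0).trans ?_
    rw [q4]
    have key : ∀ y : ℝ, 0 < y → D * 2 ^ j ≤ y → Ce * (1 / y) ≤ ε / 64 * (1 / 2) ^ j := by
      intro y hy hDy
      rw [mul_one_div, div_le_iff₀ hy, hCD]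
      calc ε / 64 * D = ε / 64 * (1 / 2) ^ j * (D * 2 ^ j) := by
            calc ε / 64 * D = ε / 64 * D * ((1 / 2) ^ j * 2 ^ j) := by rw [hhalf, mul_one]
              _ = _ := by ring
        _ ≤ ε / 64 * (1 / 2) ^ j * y := mul_le_mul_of_nonneg_left hDy (by positivity)
    have r1 := key _ hs0 hsum
    have hp2 : Hs * 2 ^ j ≤ pj B j := core_two_pow B Hs j hHs1 (by omega) hj2
    have hp3 : (Hs : ℝ) * 2 ^ j ≤ pj B j := by exact_mod_cast hp2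
    have hDH : D * 2 ^ j ≤ Hs * 2 ^ j := mul_le_mul_of_nonneg_right hHsD (by positivity)
    have r2 : Ce * Real.exp (-(pj B j : ℝ)) ≤ ε / 64 * (1 / 2) ^ j := by
      have h1 : D * 2 ^ j ≤ Real.exp (pj B j : ℝ) := by
        linarith [Real.add_one_le_exp (pj B j : ℝ)]
      have h2 := key _ (Real.exp_pos _) h1
      rwa [Real.exp_neg, ← one_div]
    have r3 : Ce * (1 / (hj Hs j : ℝ)) ≤ ε / 64 * (1 / 2) ^ j := by
      refine key _ ?_ ?_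
      · have : 0 < hj Hs j := by omega
        exact_mod_cast this
      · unfold hj
        push_cast
        linarith
    have r4 : Ce * (1 / (X : ℝ)) = Ce / X := mul_one_div _ _
    calc Ce * (1 / (∑ p ∈ PR (hj Hs j) (aj Hs B j) (bj Hs A B j), 1 / (p : ℝ)) + Real.exp (-(pj B j : ℝ)) +
          1 / (hj Hs j : ℝ) + 1 / (X : ℝ))
        = Ce * (1 / (∑ p ∈ PR (hj Hs j) (aj Hs B j) (bj Hs A B j), 1 / (p : ℝ))) +
          Ce * Real.exp (-(pj B j : ℝ)) + Ce * (1 / (hj Hs j : ℝ)) + Ce * (1 / (X : ℝ)) := by ring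
      _ ≤ 3 * ε / 64 * (1 / 2) ^ j + Ce / X := by rw [r4]; linarith
  · obtain ⟨q1, q2, q3, q4, q5, q6⟩ := hlev 1 le_rfl
    refine (hlv1 f (hj Hs 1) (aj Hs B 1) (bj Hs A B 1) X (alj α 1) T _ hf (by omega) q3 hXn (halj0 1) hT1
      (by rw [q5]; exact hTq) (measurableSet_Icc.inter (core_gd_meas _ _ _ _ _)) Set.inter_subset_left
      (fun t ht => ht.2)).trans ?_
    rw [q4]
    have h1 := hB2 B (by omega)
    calc Cv * ((bj Hs A B 1 : ℝ) - aj Hs B 1) ^ 2 * Real.exp (-(2 * alj α 1 * (pj B 1 : ℝ)))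
        = Cv * (((bj Hs A B 1 : ℝ) - aj Hs B 1) ^ 2 * Real.exp (-(2 * alj α 1 * (pj B 1 : ℝ)))) := by ring
      _ ≤ Cv * (ε / (64 * Cv)) := mul_le_mul_of_nonneg_left h1 hCv.le
      _ = ε / 64 * (1 / 2) ^ 0 := by field_simp
  · intro j hj1
    obtain ⟨hj2, hj3⟩ := Finset.mem_Icc.1 hj1
    obtain ⟨q1, q2, q3, q4, q5, q6⟩ := hlev j hj2
    obtain ⟨p1, p2, p3, p4, p5, p6⟩ := hlev (j + 1) (by omega)
    refine (hlvj f (hj Hs j) (aj Hs B j) (bj Hs A B j) (hj Hs (j + 1)) (aj Hs B (j + 1)) (bj Hs A B (j + 1)) X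
      (alj α j) (alj α (j + 1)) T _ hf q1 q2 q3 (by omega) p3 (halj0 j) (halj2 j) ((halj1 _).trans hα2) hXn hT1 hTX
      ((measurableSet_Icc.diff (core_gd_meas _ _ _ _ _)).inter (core_gd_meas _ _ _ _ _))
      (Set.inter_subset_left.trans Set.sdiff_subset) (fun t ht => ⟨ht.2, ht.1.2⟩) _ rfl).trans ?_
    rw [p5, q4, p4, q5]
    have h1 := hB1 B (by omega) j hj2 _ rfl
    calc Cj * ((bj Hs A B (j + 1) : ℝ) - aj Hs B (j + 1)) ^ 2 * ((bj Hs A B j : ℝ) - aj Hs B j) *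
          Real.exp (-(2 * (alj α (j + 1) - alj α j) * (pj B (j + 1) : ℝ)) + 3 * (qj A B j : ℝ) +
            2 * ((qj A B (j + 1) : ℝ) / pj B j + 1) +
            (2 * ((qj A B (j + 1) : ℝ) / pj B j + 1) + 1) * Real.log ((qj A B (j + 1) : ℝ) / pj B j + 1 + 1))
        = Cj * (((bj Hs A B (j + 1) : ℝ) - aj Hs B (j + 1)) ^ 2 * ((bj Hs A B j : ℝ) - aj Hs B j) *
          Real.exp (-(2 * (alj α (j + 1) - alj α j) * (pj B (j + 1) : ℝ)) + 3 * (qj A B j : ℝ) +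
            2 * ((qj A B (j + 1) : ℝ) / pj B j + 1) +
            (2 * ((qj A B (j + 1) : ℝ) / pj B j + 1) + 1) * Real.log ((qj A B (j + 1) : ℝ) / pj B j + 1 + 1))) := by
          ring
      _ ≤ Cj * (ε / (64 * Cj) * (1 / 2) ^ j) := mul_le_mul_of_nonneg_left h1 hCj.le
      _ = ε / 64 * (1 / 2) ^ j := by field_simp
  · refine hX1 X (by omega) _ (measurableSet_Icc.diff (core_gd_meas _ _ _ _ _)) ?_ ?_
    · refine Set.sdiff_subset.trans (Set.Icc_subset_Icc (by linarith) (by linarith))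
    · exact hX2 f B (n + 1) X (alj α (n + 1)) T hf (by omega) hJ1 (by omega) (halj0 _) (halj1 _) hT1 hTX hJ2 hJ3

end Pool.H2.MR
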