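import Mathlib

/-!
# Qualitative Matomaki-Radziwill theorem (H2/MR): definitions and plan

Final theorem (`Mrt.lean`): for every `ε > 0` there is `H₀` such that for `H ≥ H₀` and every 1-bounded multiplicative `f` whose
distance to `n^(it)` tends to infinity uniformly in `|t| ≤ X`: `∑_{n≤N} |∑_{j<H} f(n+j)| ≤ ε H N` for large `N`.

* Halász's theorem: `Ha1` ... `Ha7`, `Hal`; `Pt` (the polynomial `∑_{X<n≤6X} f(n) n^(-1-it)` is `o(1)` for `|t| ≤ X/2`).
* `Mvl`: mean value theorem on the line 1; `Tk`: integers without prime factor in a set; `Ram`: Ramaré's identity; `Err`: error terms;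
  `Lv1`: first level; `Coe`, `Pow`: coefficients and mean values of `P^ℓ M`; `Lvj`: level `j`; `Um`: measure of the last set;
  `Prl`: sums of `1/p`; `Pin`: the parameter inequality; `Stp`: the last level.
* `Zp`: sums of `n^(-it)` with a power saving; `Wt`, `Kn`: smooth weight and kernel; `Du`: duality; `Hs`: Halász-Montgomery for integers;
  `Kp`, `Hp`: Halász-Montgomery for primes; `Fin`: sets of measure `≤ X^δ`.
* `Core`, `Tl`, `Win`, `Add`, `Dya`, `Mrt`: assembly.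
-/

namespace Pool.H2.MR

open Finset

/-- 1-bounded multiplicative function -/
structure OB (f : ℕ → ℂ) : Prop where
  one : f 1 = 1
  mul : ∀ m n : ℕ, m.Coprime n → f (m * n) = f m * f n
  bd : ∀ n, ‖f n‖ ≤ 1

/-- `n^(-it)` -/
noncomputable def ni (t : ℝ) (n : ℕ) : ℂ := (n : ℂ) ^ (-((t : ℂ) * Complex.I))

/-- the square of the distance of `f` and `n^(it)` on the primes up to `N` -/
noncomputable def DD (f : ℕ → ℂ) (t : ℝ) (N : ℕ) : ℝ :=
  ∑ p ∈ (Icc 1 N).filter Nat.Prime, (1 - (f p * ni t p).re) / (p : ℝ)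

/-- condition (N) for the trivial character -/
def CondN1 (f : ℕ → ℂ) : Prop :=
  ∀ M : ℝ, ∃ X₀ : ℕ, ∀ X : ℕ, X₀ ≤ X → ∀ t : ℝ, |t| ≤ X → M ≤ DD f t X

/-- `n^(-(1+it))` -/
noncomputable def nj (t : ℝ) (n : ℕ) : ℂ := (n : ℂ) ^ (-(1 + (t : ℂ) * Complex.I))

/-- `Σ_{N<n<=N'} c(n) n^(-1-it)` -/
noncomputable def ds (c : ℕ → ℂ) (N N' : ℕ) (t : ℝ) : ℂ := ∑ n ∈ Ioc N N', c n * nj t n

/-- end points of the blocks -/
noncomputable def EE (H v : ℕ) : ℕ := ⌊Real.exp ((v : ℝ) / H)⌋₊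

/-- the primes of block `v` -/
noncomputable def Bl (H v : ℕ) : Finset ℕ := (Ioc (EE H v) (EE H (v + 1))).filter Nat.Prime

/-- the primes of the blocks `a ≤ v < b` -/
noncomputable def PR (H a b : ℕ) : Finset ℕ := (Ioc (EE H a) (EE H b)).filter Nat.Prime

/-- number of prime divisors in the blocks `a ≤ v < b` -/
noncomputable def om (H a b n : ℕ) : ℕ := ((PR H a b).filter (fun p => p ∣ n)).card

/-- the polynomial of the primes of block `v` -/
noncomputable def pv (f : ℕ → ℂ) (H v : ℕ) (t : ℝ) : ℂ := ∑ p ∈ Bl H v, f p * nj t p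

/-- Ramaré's weight -/
noncomputable def mco (f : ℕ → ℂ) (H a b m : ℕ) : ℂ := f m / ((om H a b m : ℂ) + 1)

/-- lower end of the cofactors of block `v` -/
noncomputable def lo (H X v : ℕ) : ℕ := ⌊(X : ℝ) * Real.exp (-(((v : ℝ) + 1) / H))⌋₊

/-- upper end of the cofactors of block `v` -/
noncomputable def hi (H X v : ℕ) : ℕ := ⌊6 * (X : ℝ) * Real.exp (-((v : ℝ) / H))⌋₊

/-- the polynomial of the cofactors of block `v` -/
noncomputable def mv (f : ℕ → ℂ) (H a b X v : ℕ) (t : ℝ) : ℂ := ds (mco f H a b) (lo H X v) (hi H X v) t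

/-- all blocks are small at `t` -/
def Gd (f : ℕ → ℂ) (H a b : ℕ) (α t : ℝ) : Prop :=
  ∀ v ∈ Ico a b, ‖pv f H v t‖ ≤ Real.exp (-(α * ((v : ℝ) / H)))

end Pool.H2.MR
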