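import Pool.Agent.H2.MR.Defs

/-!
# [H2 MR DU] Duality on a measurable set (Halász-Montgomery, abstract form)

PROOF (as in `H43/TP/Hm.lean`). `F(t) = ∑_{n∈I} a n ni t n`, bounded and continuous; `J = ∫_E ‖F‖²`. `J = ∑_n a n ∫_E ni t n conj(F t) dt`, so by Cauchy-Schwarz
`J ≤ (∑ ‖a n‖²/w n)^(1/2) (∑ w n ‖∫_E ni t n conj(F t) dt‖²)^(1/2)` (terms with `w n = 0` have `a n = 0`; Lean's `x/0 = 0` is fine).
`∑_n w n ‖∫_E ni t n conj(F t)‖² = ∫_E ∫_E conj(F t) F s (∑ w n ni (t-s) n) ds dt ≤ ∫_E∫_E (‖F t‖²+‖F s‖²)/2 ‖G(t-s)‖ = ∫_E ‖F t‖² (∫_E ‖G(t-s)‖ ds) dt ≤ B J`,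
where `G(u) = ∑ w n ni u n` satisfies `‖G(-u)‖ = ‖G(u)‖` (real weights). So `J ≤ (A B J)^(1/2)` and `J ≤ A B`.
(The hypothesis `0 ≤ B` is needed only when `E` is empty.)
-/

namespace Pool.H2.MR

open Finset MeasureTheory ComplexConjugate

private noncomputable def duE (n : ℕ) (t : ℝ) : ℂ :=
  Complex.exp (((-(t * Real.log n) : ℝ) : ℂ) * Complex.I)

private theorem duE_eq {n : ℕ} (hn : 1 ≤ n) (t : ℝ) : ni t n = duE n t := by
  have h0 : (n : ℂ) ≠ 0 := by exact_mod_cast (by omega : n ≠ 0)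
  rw [ni, duE, Complex.cpow_def_of_ne_zero h0, ← Complex.natCast_log]
  congr 1
  push_cast
  ring

private theorem duE_norm (n : ℕ) (t : ℝ) : ‖duE n t‖ = 1 := by
  rw [duE, Complex.norm_exp_ofReal_mul_I]

private theorem duE_mul (n : ℕ) (t s : ℝ) : duE n t * conj (duE n s) = duE n (t - s) := by
  rw [duE, duE, duE, ← Complex.exp_conj, ← Complex.exp_add]
  congr 1
  rw [map_mul, Complex.conj_ofReal, Complex.conj_I]
  push_cast
  ring

private theorem duE_neg (n : ℕ) (t : ℝ) : duE n (-t) = conj (duE n t) := by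
  rw [duE, duE, ← Complex.exp_conj]
  congr 1
  rw [map_mul, Complex.conj_ofReal, Complex.conj_I]
  push_cast
  ring

private theorem duE_cont (n : ℕ) : Continuous (duE n) := by
  unfold duE
  fun_prop

private noncomputable def duF (I : Finset ℕ) (a : ℕ → ℂ) (t : ℝ) : ℂ := ∑ n ∈ I, a n * duE n t

private theorem duF_cont (I : Finset ℕ) (a : ℕ → ℂ) : Continuous (duF I a) := by
  unfold duF
  exact continuous_finsetSum _ fun n _ => continuous_const.mul (duE_cont n)

private theorem duF_norm (I : Finset ℕ) (a : ℕ → ℂ) (t : ℝ) : ‖duF I a t‖ ≤ ∑ n ∈ I, ‖a n‖ := by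
  unfold duF
  refine (norm_sum_le _ _).trans (Finset.sum_le_sum fun n _ => ?_)
  rw [norm_mul, duE_norm, mul_one]

private theorem duF_neg (I : Finset ℕ) (w : ℕ → ℝ) (t : ℝ) :
    ‖duF I (fun n => (w n : ℂ)) (-t)‖ = ‖duF I (fun n => (w n : ℂ)) t‖ := by
  have : duF I (fun n => (w n : ℂ)) (-t) = conj (duF I (fun n => (w n : ℂ)) t) := by
    unfold duF
    rw [map_sum]
    exact Finset.sum_congr rfl fun n _ => by rw [duE_neg, map_mul, Complex.conj_ofReal]
  rw [this, Complex.norm_conj]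

private theorem du_core (I : Finset ℕ) (a : ℕ → ℂ) (w : ℕ → ℝ) (hw : ∀ n ∈ I, 0 ≤ w n)
    (haw : ∀ n ∈ I, w n = 0 → a n = 0) (E : Set ℝ) (hE : MeasurableSet E)
    (hfin : volume E ≠ ⊤) (Z : ℝ) (hZ0 : 0 ≤ Z)
    (hZ : ∀ t ∈ E, ∫ s in E, ‖duF I (fun n => (w n : ℂ)) (t - s)‖ ≤ Z) :
    ∫ t in E, ‖duF I a t‖ ^ 2 ≤ Z * ∑ n ∈ I, ‖a n‖ ^ 2 / w n := by
  set ν : Measure ℝ := volume.restrict E with hν
  have : IsFiniteMeasure ν := ⟨by rw [hν, Measure.restrict_apply_univ]; exact hfin.lt_top⟩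
  set M : ℝ := ∑ n ∈ I, ‖a n‖ with hM
  have hM0 : 0 ≤ M := Finset.sum_nonneg fun n _ => norm_nonneg _
  have hFc := duF_cont I a
  set K : ℝ → ℂ := duF I (fun n => (w n : ℂ)) with hK
  have hKc : Continuous K := duF_cont I _
  set N : ℝ := ∑ n ∈ I, ‖(w n : ℂ)‖ with hN
  have hN0 : 0 ≤ N := Finset.sum_nonneg fun n _ => norm_nonneg _
  set J : ℝ := ∫ t, ‖duF I a t‖ ^ 2 ∂ν with hJ
  have hJ0 : 0 ≤ J := integral_nonneg fun t => by positivity
  -- the coefficients
  set b : ℕ → ℂ := fun n => ∫ t, duE n t * conj (duF I a t) ∂ν with hb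
  have hint1 : ∀ n, Integrable (fun t => duE n t * conj (duF I a t)) ν := by
    intro n
    refine Integrable.of_bound (C := M) ?_ ?_
    · exact ((duE_cont n).mul (Complex.continuous_conj.comp hFc)).aestronglyMeasurable
    · refine Filter.Eventually.of_forall fun t => ?_
      rw [norm_mul, duE_norm, one_mul, Complex.norm_conj]
      exact duF_norm I a t
  have h1 : (J : ℂ) = ∑ n ∈ I, a n * b n := by
    have e1 : ∑ n ∈ I, a n * b n
        = ∫ t, ∑ n ∈ I, a n * (duE n t * conj (duF I a t)) ∂ν := by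
      rw [integral_finsetSum _ fun n _ => (hint1 n).const_mul (a n)]
      refine Finset.sum_congr rfl fun n _ => ?_
      rw [integral_const_mul]
    rw [e1, hJ, ← integral_complex_ofReal]
    refine integral_congr_ae (Filter.Eventually.of_forall fun t => ?_)
    simp only
    have e2 : ∑ n ∈ I, a n * (duE n t * conj (duF I a t)) = duF I a t * conj (duF I a t) := by
      conv_rhs => rw [duF, Finset.sum_mul]
      exact Finset.sum_congr rfl fun n _ => by rw [duF]; ring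
    rw [e2, Complex.mul_conj, Complex.normSq_eq_norm_sq]
  have h2 : J ^ 2 ≤ (∑ n ∈ I, ‖a n‖ ^ 2 / w n) * ∑ n ∈ I, w n * ‖b n‖ ^ 2 := by
    have e1 : J ≤ ∑ n ∈ I, (‖a n‖ / Real.sqrt (w n)) * (Real.sqrt (w n) * ‖b n‖) := by
      have : ‖(J : ℂ)‖ ≤ ∑ n ∈ I, (‖a n‖ / Real.sqrt (w n)) * (Real.sqrt (w n) * ‖b n‖) := by
        rw [h1]
        refine (norm_sum_le _ _).trans (le_of_eq ?_)
        refine Finset.sum_congr rfl fun n hn => ?_
        rw [norm_mul]
        rcases (hw n hn).eq_or_lt with h | h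
        · rw [haw n hn h.symm]
          simp
        · have hs : 0 < Real.sqrt (w n) := Real.sqrt_pos.2 h
          field_simp
      rwa [Complex.norm_real, Real.norm_of_nonneg hJ0] at this
    calc J ^ 2 ≤ (∑ n ∈ I, (‖a n‖ / Real.sqrt (w n)) * (Real.sqrt (w n) * ‖b n‖)) ^ 2 :=
          pow_le_pow_left₀ hJ0 e1 2
      _ ≤ (∑ n ∈ I, (‖a n‖ / Real.sqrt (w n)) ^ 2) * ∑ n ∈ I, (Real.sqrt (w n) * ‖b n‖) ^ 2 :=
          Finset.sum_mul_sq_le_sq_mul_sq _ _ _
      _ = _ := by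
          congr 1
          · refine Finset.sum_congr rfl fun n hn => ?_
            rw [div_pow, Real.sq_sqrt (hw n hn)]
          · refine Finset.sum_congr rfl fun n hn => ?_
            rw [mul_pow, Real.sq_sqrt (hw n hn)]
  -- the double integral
  have h3 : ((∑ n ∈ I, w n * ‖b n‖ ^ 2 : ℝ) : ℂ)
      = ∫ z, conj (duF I a z.1) * duF I a z.2 * K (z.1 - z.2) ∂(ν.prod ν) := by
    have e1 : ∀ n, ((w n * ‖b n‖ ^ 2 : ℝ) : ℂ)
        = ∫ z, (w n : ℂ) * ((duE n z.1 * conj (duF I a z.1)) *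
            conj (duE n z.2 * conj (duF I a z.2))) ∂(ν.prod ν) := by
      intro n
      rw [integral_const_mul, integral_prod_mul (f := fun t => duE n t * conj (duF I a t))
        (g := fun t => conj (duE n t * conj (duF I a t))), integral_conj]
      rw [Complex.mul_conj, Complex.normSq_eq_norm_sq]
      push_cast
      rfl
    have e2 : ∀ n ∈ I, Integrable (fun z : ℝ × ℝ => (w n : ℂ) * ((duE n z.1 *
        conj (duF I a z.1)) * conj (duE n z.2 * conj (duF I a z.2)))) (ν.prod ν) := by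
      intro n _
      refine Integrable.const_mul ?_ _
      refine Integrable.of_bound (C := M * M) ?_ ?_
      · refine Continuous.aestronglyMeasurable ?_
        have c1 := duE_cont n
        have c2 := Complex.continuous_conj
        fun_prop
      · refine Filter.Eventually.of_forall fun z => ?_
        rw [norm_mul, norm_mul, Complex.norm_conj, Complex.norm_conj, norm_mul, Complex.norm_conj,
          duE_norm, duE_norm, one_mul, one_mul]
        exact mul_le_mul (duF_norm I a _) (duF_norm I a _) (norm_nonneg _) hM0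
    rw [Complex.ofReal_sum, Finset.sum_congr rfl fun n _ => e1 n, ← integral_finsetSum _ e2]
    refine integral_congr_ae (Filter.Eventually.of_forall fun z => ?_)
    simp only
    rw [hK]
    conv_rhs => rw [duF.eq_def I (fun n => (w n : ℂ)), Finset.mul_sum]
    refine Finset.sum_congr rfl fun n _ => ?_
    rw [← duE_mul, map_mul, Complex.conj_conj]
    ring
  have hKcc : Continuous fun z : ℝ × ℝ => K (z.1 - z.2) :=
    hKc.comp (continuous_fst.sub continuous_snd)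
  have hintA : Integrable (fun z : ℝ × ℝ => ‖duF I a z.1‖ ^ 2 * ‖K (z.1 - z.2)‖)
      (ν.prod ν) := by
    refine Integrable.of_bound (C := M ^ 2 * N) ?_ ?_
    · exact (((hFc.comp continuous_fst).norm.pow 2).mul hKcc.norm).aestronglyMeasurable
    · refine Filter.Eventually.of_forall fun z => ?_
      rw [Real.norm_of_nonneg (by positivity)]
      exact mul_le_mul (pow_le_pow_left₀ (norm_nonneg _) (duF_norm I a _) 2) (duF_norm I _ _)
        (norm_nonneg _) (by positivity)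
  have hintB : Integrable (fun z : ℝ × ℝ => ‖duF I a z.2‖ ^ 2 * ‖K (z.2 - z.1)‖)
      (ν.prod ν) := hintA.swap
  have hAB : ∫ z, ‖duF I a z.2‖ ^ 2 * ‖K (z.2 - z.1)‖ ∂(ν.prod ν)
      = ∫ z, ‖duF I a z.1‖ ^ 2 * ‖K (z.1 - z.2)‖ ∂(ν.prod ν) :=
    integral_prod_swap (fun z : ℝ × ℝ => ‖duF I a z.1‖ ^ 2 * ‖K (z.1 - z.2)‖)
  have hA : ∫ z, ‖duF I a z.1‖ ^ 2 * ‖K (z.1 - z.2)‖ ∂(ν.prod ν) ≤ Z * J := by
    rw [integral_prod _ hintA, hJ, ← integral_const_mul]
    refine integral_mono_ae hintA.integral_prod_left ?_ ?_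
    · refine Integrable.const_mul ?_ _
      refine Integrable.of_bound (C := M ^ 2) (hFc.norm.pow 2).aestronglyMeasurable ?_
      refine Filter.Eventually.of_forall fun t => ?_
      rw [Real.norm_of_nonneg (by positivity)]
      exact pow_le_pow_left₀ (norm_nonneg _) (duF_norm I a _) 2
    · rw [hν]
      refine (ae_restrict_iff' hE).mpr (Filter.Eventually.of_forall fun t ht => ?_)
      simp only
      rw [integral_const_mul, mul_comm Z]
      exact mul_le_mul_of_nonneg_left (hZ t ht) (by positivity)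
  have h4 : ∑ n ∈ I, w n * ‖b n‖ ^ 2 ≤ Z * J := by
    have e0 : 0 ≤ ∑ n ∈ I, w n * ‖b n‖ ^ 2 :=
      Finset.sum_nonneg fun n hn => mul_nonneg (hw n hn) (by positivity)
    have e1 : ∑ n ∈ I, w n * ‖b n‖ ^ 2
        ≤ ∫ z, ‖conj (duF I a z.1) * duF I a z.2 * K (z.1 - z.2)‖ ∂(ν.prod ν) := by
      rw [← Real.norm_of_nonneg e0, ← Complex.norm_real, h3]
      exact norm_integral_le_integral_norm _
    refine e1.trans ?_
    have e2 : ∫ z, ‖conj (duF I a z.1) * duF I a z.2 * K (z.1 - z.2)‖ ∂(ν.prod ν)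
        ≤ ∫ z, (1 / 2 * (‖duF I a z.1‖ ^ 2 * ‖K (z.1 - z.2)‖)
          + 1 / 2 * (‖duF I a z.2‖ ^ 2 * ‖K (z.2 - z.1)‖)) ∂(ν.prod ν) := by
      refine integral_mono_of_nonneg (Filter.Eventually.of_forall fun z => norm_nonneg _)
        ((hintA.const_mul _).add (hintB.const_mul _)) (Filter.Eventually.of_forall fun z => ?_)
      simp only
      rw [norm_mul, norm_mul, Complex.norm_conj]
      have e3 : ‖K (z.2 - z.1)‖ = ‖K (z.1 - z.2)‖ := by
        rw [hK, ← duF_neg, neg_sub]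
      rw [e3]
      have e4 := two_mul_le_add_sq ‖duF I a z.1‖ ‖duF I a z.2‖
      have e5 := norm_nonneg (K (z.1 - z.2))
      nlinarith
    refine e2.trans ?_
    rw [integral_add (hintA.const_mul _) (hintB.const_mul _), integral_const_mul,
      integral_const_mul, hAB]
    linarith
  have hS0 : 0 ≤ ∑ n ∈ I, ‖a n‖ ^ 2 / w n :=
    Finset.sum_nonneg fun n hn => div_nonneg (by positivity) (hw n hn)
  have h5 : J ^ 2 ≤ (∑ n ∈ I, ‖a n‖ ^ 2 / w n) * (Z * J) :=
    h2.trans (mul_le_mul_of_nonneg_left h4 hS0)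
  rcases hJ0.eq_or_lt with h | h
  · rw [← h]
    positivity
  · have h6 : J * J ≤ (Z * ∑ n ∈ I, ‖a n‖ ^ 2 / w n) * J := by nlinarith
    exact le_of_mul_le_mul_right h6 h

theorem du (I : Finset ℕ) (hI : ∀ n ∈ I, 1 ≤ n) (a : ℕ → ℂ) (w : ℕ → ℝ) (hw : ∀ n ∈ I, 0 ≤ w n)
    (haw : ∀ n ∈ I, w n = 0 → a n = 0) (E : Set ℝ) (T B : ℝ) (hE : MeasurableSet E) (hET : E ⊆ Set.Icc (-T) T)
    (hB0 : 0 ≤ B) (hB : ∀ t ∈ E, ∫ s in E, ‖∑ n ∈ I, (w n : ℂ) * ni (t - s) n‖ ≤ B) :
    ∫ t in E, ‖∑ n ∈ I, a n * ni t n‖ ^ 2 ≤ B * ∑ n ∈ I, ‖a n‖ ^ 2 / w n := by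
  have hfin : volume E ≠ ⊤ := by
    refine ((measure_mono hET).trans_lt ?_).ne
    rw [Real.volume_Icc]
    exact ENNReal.ofReal_lt_top
  have e : ∀ (c : ℕ → ℂ) (t : ℝ), ∑ n ∈ I, c n * ni t n = duF I c t := by
    intro c t
    rw [duF]
    exact Finset.sum_congr rfl fun n hn => by rw [duE_eq (hI n hn)]
  simp only [e] at hB ⊢
  exact du_core I a w hw haw E hE hfin B hB0 (fun t ht => by simpa only [e] using hB t ht)

end Pool.H2.MR
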