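import Mathlib

/-!
# [H2 MR TK] Integers without prime factor in a set (Turán-Kubilius)

PROOF. `L = ∑_{p∈P} 1/p`, `ω(n) = #{p ∈ P : p ∣ n}`. `#{n ≤ Y : d ∣ n} = Y / d` (natural division, `Nat.card_multiples` or
`Nat.Ioc_filter_dvd_card_eq_div`), between `Y/d - 1` and `Y/d` (real division). `∑_{n≤Y} ω(n) = ∑_{p∈P} ⌊Y/p⌋ ≥ Y L - #P`.
`ω(n)^2 = ∑_{p,q∈P} 1[p∣n] 1[q∣n]`, so `∑_{n≤Y} ω(n)^2 = ∑_{p≠q} ⌊Y/(pq)⌋ + ∑_p ⌊Y/p⌋ ≤ Y L^2 + Y L` (distinct primes `p, q` divide `n`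
iff `p q` does). Hence `∑_{n≤Y} (ω(n) - L)^2 ≤ Y L^2 + Y L - 2L(Y L - #P) + Y L^2 = Y L + 2 L #P ≤ 3 Y L`. The `n` without prime factor in
`P` contribute `L^2` each, so `# L^2 ≤ 3 Y L`; if `L > 0` divide by `L`, if `L = 0` the claim is trivial.
-/

namespace Pool.H2.MR

open Finset

/-- number of multiples of `d` in `[1, Y]` -/
theorem tk_card (d Y : ℕ) : ((Icc 1 Y).filter (fun n => d ∣ n)).card = Y / d := by
  have h := Nat.Ioc_filter_dvd_card_eq_div Y d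
  rw [← h]
  congr 1

theorem tk_sum_eq (P : Finset ℕ) (n : ℕ) :
    ((P.filter (fun p => p ∣ n)).card : ℝ) = ∑ p ∈ P, if p ∣ n then (1 : ℝ) else 0 := by
  rw [Finset.sum_boole]

theorem tk_first (P : Finset ℕ) (hP : ∀ p ∈ P, p.Prime) (Y : ℕ) :
    (Y : ℝ) * ∑ p ∈ P, 1 / (p : ℝ) - P.card ≤ ∑ n ∈ Icc 1 Y, ((P.filter (fun p => p ∣ n)).card : ℝ) := by
  have h1 : ∑ n ∈ Icc 1 Y, ((P.filter (fun p => p ∣ n)).card : ℝ) = ∑ p ∈ P, ((Y / p : ℕ) : ℝ) := by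
    rw [Finset.sum_congr rfl (fun n _ => tk_sum_eq P n), Finset.sum_comm]
    refine Finset.sum_congr rfl fun p _ => ?_
    rw [Finset.sum_boole, tk_card]
  have h2 : (Y : ℝ) * ∑ p ∈ P, 1 / (p : ℝ) - P.card = ∑ p ∈ P, ((Y : ℝ) / p - 1) := by
    rw [Finset.sum_sub_distrib, Finset.mul_sum, Finset.sum_const, nsmul_eq_mul, mul_one]
    congr 1
    refine Finset.sum_congr rfl fun p _ => ?_
    ring
  rw [h1, h2]
  refine Finset.sum_le_sum fun p hp => ?_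
  have hp0 : 0 < p := (hP p hp).pos
  have h3 : (Y : ℝ) / p < ((Y / p : ℕ) : ℝ) + 1 := by
    have h4 := Nat.lt_floor_add_one ((Y : ℝ) / p)
    rwa [Nat.floor_div_natCast, Nat.floor_natCast] at h4
  linarith

theorem tk_second (P : Finset ℕ) (hP : ∀ p ∈ P, p.Prime) (Y : ℕ) :
    ∑ n ∈ Icc 1 Y, ((P.filter (fun p => p ∣ n)).card : ℝ) ^ 2 ≤
      (Y : ℝ) * (∑ p ∈ P, 1 / (p : ℝ)) ^ 2 + Y * ∑ p ∈ P, 1 / (p : ℝ) := by
  have h1 : ∑ n ∈ Icc 1 Y, ((P.filter (fun p => p ∣ n)).card : ℝ) ^ 2 =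
      ∑ p ∈ P, ∑ q ∈ P, ((((Icc 1 Y).filter (fun n => p ∣ n ∧ q ∣ n)).card : ℕ) : ℝ) := by
    have h2 : ∀ n ∈ Icc 1 Y, ((P.filter (fun p => p ∣ n)).card : ℝ) ^ 2 =
        ∑ p ∈ P, ∑ q ∈ P, if p ∣ n ∧ q ∣ n then (1 : ℝ) else 0 := by
      intro n _
      rw [tk_sum_eq, sq, Finset.sum_mul_sum]
      refine Finset.sum_congr rfl fun p _ => Finset.sum_congr rfl fun q _ => ?_
      by_cases h3 : p ∣ n <;> by_cases h4 : q ∣ n <;> simp [h3, h4]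
    rw [Finset.sum_congr rfl h2, Finset.sum_comm]
    refine Finset.sum_congr rfl fun p _ => ?_
    rw [Finset.sum_comm]
    refine Finset.sum_congr rfl fun q _ => ?_
    rw [Finset.sum_boole]
  have h3 : (Y : ℝ) * (∑ p ∈ P, 1 / (p : ℝ)) ^ 2 + Y * ∑ p ∈ P, 1 / (p : ℝ) =
      ∑ p ∈ P, ∑ q ∈ P, ((Y : ℝ) / (p * q) + if p = q then (Y : ℝ) / p else 0) := by
    rw [sq, Finset.sum_mul_sum, Finset.mul_sum, Finset.mul_sum, ← Finset.sum_add_distrib]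
    refine Finset.sum_congr rfl fun p hp => ?_
    rw [Finset.sum_add_distrib, Finset.sum_ite_eq, if_pos hp, Finset.mul_sum]
    congr 1
    · refine Finset.sum_congr rfl fun q _ => ?_
      rw [div_mul_div_comm, one_mul, mul_one_div]
    · rw [mul_one_div]
  rw [h1, h3]
  refine Finset.sum_le_sum fun p hp => Finset.sum_le_sum fun q hq => ?_
  by_cases hpq : p = q
  · subst hpq
    rw [if_pos rfl]
    have h4 : (Icc 1 Y).filter (fun n => p ∣ n ∧ p ∣ n) = (Icc 1 Y).filter (fun n => p ∣ n) := by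
      simp
    rw [h4, tk_card]
    have h5 : ((Y / p : ℕ) : ℝ) ≤ (Y : ℝ) / p := Nat.cast_div_le
    have h6 : 0 ≤ (Y : ℝ) / (p * p) := by positivity
    linarith
  · rw [if_neg hpq, add_zero]
    have hc : Nat.Coprime p q := (Nat.coprime_primes (hP p hp) (hP q hq)).2 hpq
    have h4 : (Icc 1 Y).filter (fun n => p ∣ n ∧ q ∣ n) = (Icc 1 Y).filter (fun n => p * q ∣ n) := by
      refine Finset.filter_congr fun n _ => ?_
      exact ⟨fun h => hc.mul_dvd_of_dvd_of_dvd h.1 h.2,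
        fun h => ⟨(Dvd.intro q rfl).trans h, (Dvd.intro_left p rfl).trans h⟩⟩
    rw [h4, tk_card]
    have h5 : ((Y / (p * q) : ℕ) : ℝ) ≤ (Y : ℝ) / ((p * q : ℕ) : ℝ) := Nat.cast_div_le
    rwa [Nat.cast_mul] at h5

theorem tk (P : Finset ℕ) (hP : ∀ p ∈ P, p.Prime) (Y : ℕ) (hc : P.card ≤ Y) :
    (((Icc 1 Y).filter (fun n => ∀ p ∈ P, ¬ p ∣ n)).card : ℝ) * ∑ p ∈ P, 1 / (p : ℝ) ≤ 3 * Y := by
  have h1 := tk_first P hP Y
  have h2 := tk_second P hP Y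
  have hL : 0 ≤ ∑ p ∈ P, 1 / (p : ℝ) := Finset.sum_nonneg fun p _ => by positivity
  have hcR : (P.card : ℝ) ≤ Y := by exact_mod_cast hc
  generalize hLe : ∑ p ∈ P, 1 / (p : ℝ) = L at h1 h2 hL ⊢
  have h3 : ∑ n ∈ Icc 1 Y, (((P.filter (fun p => p ∣ n)).card : ℝ) - L) ^ 2 ≤ 3 * Y * L := by
    have h4 : ∑ n ∈ Icc 1 Y, (((P.filter (fun p => p ∣ n)).card : ℝ) - L) ^ 2 =
        ∑ n ∈ Icc 1 Y, ((P.filter (fun p => p ∣ n)).card : ℝ) ^ 2 -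
          2 * L * ∑ n ∈ Icc 1 Y, ((P.filter (fun p => p ∣ n)).card : ℝ) + Y * L ^ 2 := by
      rw [Finset.mul_sum, ← Finset.sum_sub_distrib]
      have h5 : (Y : ℝ) * L ^ 2 = ∑ _n ∈ Icc 1 Y, L ^ 2 := by
        rw [Finset.sum_const, nsmul_eq_mul, Nat.card_Icc]
        simp
      rw [h5, ← Finset.sum_add_distrib]
      refine Finset.sum_congr rfl fun n _ => ?_
      ring
    rw [h4]
    nlinarith [mul_le_mul_of_nonneg_left h1 hL, mul_le_mul_of_nonneg_left hcR hL]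
  have h4 : (((Icc 1 Y).filter (fun n => ∀ p ∈ P, ¬ p ∣ n)).card : ℝ) * L ^ 2 ≤ 3 * Y * L := by
    refine le_trans ?_ h3
    refine le_trans ?_ (Finset.sum_le_sum_of_subset_of_nonneg
      (Finset.filter_subset (fun n => ∀ p ∈ P, ¬ p ∣ n) (Icc 1 Y)) fun n _ _ => sq_nonneg _)
    rw [← nsmul_eq_mul, ← Finset.sum_const]
    refine Finset.sum_le_sum fun n hn => ?_
    have h5 : P.filter (fun p => p ∣ n) = ∅ := by
      rw [Finset.filter_eq_empty_iff]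
      exact fun p hp => (Finset.mem_filter.1 hn).2 p hp
    rw [h5]
    simp
  rcases hL.eq_or_lt with h5 | h5
  · rw [← h5, mul_zero]
    positivity
  · have h6 : L * ((((Icc 1 Y).filter (fun n => ∀ p ∈ P, ¬ p ∣ n)).card : ℝ) * L) ≤ L * (3 * Y) := by
      nlinarith [h4]
    exact le_of_mul_le_mul_left h6 h5

end Pool.H2.MR
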