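import Pool.Agent.H2.MR.Ram
import Pool.Agent.H2.MR.Tk

/-!
# [H2 MR ERR] Mean square of the error in Ramaré's identity

PROOF. `r` from `ram`; the integrand is `‖∑_{n≤17X} r n nj t n‖²`. `mvl` with `N = 17X`, `N1 = X/3`: the integral is at most
`C (T+17X) 9/X² ∑‖r n‖² ≤ (162 C/X) 4 #{n ≤ 17X : r n ≠ 0}` (`T ≤ X`). The number of `n` with `r n ≠ 0`:
* `n ≤ 6X` without prime factor in `PR`: at most `18X/L` (`tk` with `Y = 6X`, `#PR ≤ EE H b ≤ X`);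
* `n ≤ 17X` divisible by `p²`, `p ∈ PR`: at most `∑_{p > E} 17X/p² ≤ 17X/E`, `E = EE H a` (`∑_{n>E} 1/n² ≤ 1/E`, telescoping
  `1/n² ≤ 1/(n-1) - 1/n`), and `E ≥ exp(a/H) - 1 ≥ exp(a/H)/2` as `exp(a/H) ≥ e`;
* `X exp(-1/H) < n ≤ X`: at most `X(1 - exp(-1/H)) + 1 ≤ X/H + 1`;
* `6X < n ≤ 6X exp(1/H)`: at most `6X(exp(1/H) - 1) + 1 ≤ 12X/H + 1` (`exp(x) - 1 ≤ 2x` for `0 ≤ x ≤ 1`: `Real.exp_bound_div_one_sub_of_interval`
  or convexity, `e - 1 ≤ 2`).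
(An interval `(u, v]` of reals contains at most `v - u + 1` integers.)
-/

namespace Pool.H2.MR

open Finset

private lemma card_int (s : Finset ℕ) (u v : ℝ) (hu : 0 ≤ u) (huv : u ≤ v) :
    ((s.filter (fun n : ℕ => u < n ∧ (n : ℝ) ≤ v)).card : ℝ) ≤ v - u + 1 := by
  have h1 : s.filter (fun n : ℕ => u < n ∧ (n : ℝ) ≤ v) ⊆ Ioc ⌊u⌋₊ ⌊v⌋₊ := by
    intro n hn
    rw [Finset.mem_filter] at hn
    rw [Finset.mem_Ioc]
    exact ⟨(Nat.floor_lt hu).2 hn.2.1, Nat.le_floor hn.2.2⟩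
  have h2 := Finset.card_le_card h1
  rw [Nat.card_Ioc] at h2
  have h3 : ((⌊v⌋₊ - ⌊u⌋₊ : ℕ) : ℝ) = (⌊v⌋₊ : ℝ) - ⌊u⌋₊ := Nat.cast_sub (Nat.floor_le_floor huv)
  have h4 : ((s.filter (fun n : ℕ => u < n ∧ (n : ℝ) ≤ v)).card : ℝ) ≤ ((⌊v⌋₊ - ⌊u⌋₊ : ℕ) : ℝ) := by
    exact_mod_cast h2
  have h5 := Nat.floor_le (hu.trans huv)
  have h6 := Nat.lt_floor_add_one u
  linarith

private lemma exp_le_two (x : ℝ) (h0 : 0 ≤ x) (h1 : x ≤ 1) : Real.exp x - 1 ≤ 2 * x := by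
  have hc := convexOn_exp.2 (Set.mem_univ (0 : ℝ)) (Set.mem_univ (1 : ℝ)) (by linarith : (0 : ℝ) ≤ 1 - x) h0 (by ring)
  simp only [smul_eq_mul, Real.exp_zero, mul_one, mul_zero, zero_add] at hc
  have h3 := Real.exp_one_lt_d9
  nlinarith

theorem err : ∃ C : ℝ, 0 < C ∧ ∀ (f : ℕ → ℂ) (H a b X : ℕ) (T : ℝ), OB f → 1 ≤ H → H ≤ a → a < b → 1 ≤ X →
    EE H b ≤ X → 1 ≤ T → T ≤ X → 0 < ∑ p ∈ PR H a b, 1 / (p : ℝ) →
    ∫ t in (-T)..T, ‖ds f X (6 * X) t - ∑ v ∈ Ico a b, pv f H v t * mv f H a b X v t‖ ^ 2 ≤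
      C * (1 / (∑ p ∈ PR H a b, 1 / (p : ℝ)) + Real.exp (-((a : ℝ) / H)) + 1 / H + 1 / X) := by
  classical
  obtain ⟨C0, hC0, hmv⟩ := mvl
  refine ⟨C0 * 648 * 34, by positivity, ?_⟩
  intro f H a b X T hf hH ha hab hX hEX hT hTX hL
  obtain ⟨r, hr1, hr2, hr3, hr4⟩ := ram f hf H a b X hH ha hab hX
  have hH0 : (1 : ℝ) ≤ (H : ℝ) := by exact_mod_cast hH
  have hX0 : (1 : ℝ) ≤ (X : ℝ) := by exact_mod_cast hX
  have haH : (H : ℝ) ≤ (a : ℝ) := by exact_mod_cast ha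
  set L := ∑ p ∈ PR H a b, 1 / (p : ℝ) with hLdef
  have e1 : ∀ t : ℝ, ds f X (6 * X) t - ∑ v ∈ Ico a b, pv f H v t * mv f H a b X v t =
      ∑ n ∈ Icc 1 (17 * X), r n * nj t n := by
    intro t
    rw [hr1 t]
    ring
  simp only [e1]
  have h1 := hmv (17 * X) T ((X : ℝ) / 3) r (by omega) hT (by positivity) (by
    intro n _ hn
    have := hr2 n hn
    linarith)
  refine h1.trans ?_
  -- the number of nonzero coefficients
  set Z := (Icc 1 (17 * X)).filter (fun n => r n ≠ 0) with hZ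
  have h2 : ∑ n ∈ Icc 1 (17 * X), ‖r n‖ ^ 2 ≤ 4 * (Z.card : ℝ) := by
    have h3 : ∑ n ∈ Icc 1 (17 * X), ‖r n‖ ^ 2 = ∑ n ∈ Z, ‖r n‖ ^ 2 := by
      rw [hZ, Finset.sum_filter]
      refine Finset.sum_congr rfl fun n _ => ?_
      split_ifs with h
      · rfl
      · rw [ne_eq, not_not] at h
        simp [h]
    rw [h3]
    calc ∑ n ∈ Z, ‖r n‖ ^ 2 ≤ ∑ _n ∈ Z, (4 : ℝ) := Finset.sum_le_sum fun n _ => by
          have := hr3 n
          have h0 := norm_nonneg (r n)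
          nlinarith
      _ = 4 * (Z.card : ℝ) := by rw [Finset.sum_const, nsmul_eq_mul]; ring
  -- the four sets
  set Z1 := (Icc 1 (6 * X)).filter (fun n => ∀ p ∈ PR H a b, ¬ p ∣ n) with hZ1
  set Z2 := (Icc 1 (17 * X)).filter (fun n => ∃ p ∈ PR H a b, p ^ 2 ∣ n) with hZ2
  set Z3 := (Icc 1 (17 * X)).filter (fun n : ℕ => (X : ℝ) * Real.exp (-(1 / (H : ℝ))) < n ∧ (n : ℝ) ≤ (X : ℝ)) with hZ3
  set Z4 := (Icc 1 (17 * X)).filter (fun n : ℕ => (6 * X : ℝ) < n ∧ (n : ℝ) ≤ 6 * X * Real.exp (1 / (H : ℝ))) with hZ4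
  have hsub : Z ⊆ Z1 ∪ (Z2 ∪ (Z3 ∪ Z4)) := by
    intro n hn
    rw [hZ, Finset.mem_filter] at hn
    obtain ⟨hn1, hn2⟩ := hn
    rw [Finset.mem_union, Finset.mem_union, Finset.mem_union]
    rcases hr4 n hn2 hn1 with h | h | h | h
    · left
      rw [hZ1, Finset.mem_filter, Finset.mem_Icc]
      rw [Finset.mem_Icc] at hn1
      exact ⟨⟨hn1.1, h.1⟩, h.2⟩
    · right; left
      rw [hZ2, Finset.mem_filter]
      exact ⟨hn1, h⟩
    · right; right; left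
      rw [hZ3, Finset.mem_filter]
      exact ⟨hn1, h.1, by exact_mod_cast h.2⟩
    · right; right; right
      rw [hZ4, Finset.mem_filter]
      exact ⟨hn1, by exact_mod_cast h.1, h.2⟩
  have hPRprime : ∀ p ∈ PR H a b, p.Prime := by
    intro p hp
    unfold PR at hp
    exact (Finset.mem_filter.1 hp).2
  have c1 : (Z1.card : ℝ) ≤ 18 * X * (1 / L) := by
    have hcard : (PR H a b).card ≤ 6 * X := by
      unfold PR
      refine (Finset.card_filter_le _ _).trans ?_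
      rw [Nat.card_Ioc]
      omega
    have h3 := tk (PR H a b) hPRprime (6 * X) hcard
    push_cast at h3
    rw [mul_one_div, le_div_iff₀ hL]
    linarith
  have hEa : Real.exp ((a : ℝ) / H) / 2 ≤ (EE H a : ℝ) := by
    have h3 : Real.exp ((a : ℝ) / H) < (EE H a : ℝ) + 1 := by
      unfold EE
      exact Nat.lt_floor_add_one _
    have h4 : (1 : ℝ) ≤ (a : ℝ) / H := by
      rw [le_div_iff₀ (by linarith)]
      linarith
    have h5 : Real.exp 1 ≤ Real.exp ((a : ℝ) / H) := Real.exp_le_exp.2 h4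
    have h6 := Real.exp_one_gt_d9
    linarith
  have hEpos : (0 : ℝ) < (EE H a : ℝ) := lt_of_lt_of_le (by positivity) hEa
  have c2 : (Z2.card : ℝ) ≤ 34 * X * Real.exp (-((a : ℝ) / H)) := by
    have h3 : Z2 ⊆ (PR H a b).biUnion (fun p => (Icc 1 (17 * X)).filter (fun n => p ^ 2 ∣ n)) := by
      intro n hn
      rw [hZ2, Finset.mem_filter] at hn
      obtain ⟨hn1, p, hp, hpn⟩ := hn
      rw [Finset.mem_biUnion]
      exact ⟨p, hp, Finset.mem_filter.2 ⟨hn1, hpn⟩⟩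
    have h4 : (Z2.card : ℝ) ≤ ∑ p ∈ PR H a b, (((Icc 1 (17 * X)).filter (fun n => p ^ 2 ∣ n)).card : ℝ) := by
      have := (Finset.card_le_card h3).trans Finset.card_biUnion_le
      exact_mod_cast this
    have h5 : ∀ p ∈ PR H a b, (((Icc 1 (17 * X)).filter (fun n => p ^ 2 ∣ n)).card : ℝ) ≤
        17 * X * ((p : ℝ) ^ 2)⁻¹ := by
      intro p _
      rw [tk_card]
      have h6 : ((17 * X / p ^ 2 : ℕ) : ℝ) ≤ ((17 * X : ℕ) : ℝ) / ((p ^ 2 : ℕ) : ℝ) := Nat.cast_div_le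
      push_cast at h6
      rw [← div_eq_mul_inv]
      exact h6
    have h6 : ∑ p ∈ PR H a b, ((p : ℝ) ^ 2)⁻¹ ≤ (EE H a : ℝ)⁻¹ := by
      have h7 : PR H a b ⊆ Ioc (EE H a) (EE H b) := by
        unfold PR
        exact Finset.filter_subset _ _
      have h8 : EE H a ≤ EE H b := by
        unfold EE
        refine Nat.floor_le_floor (Real.exp_le_exp.2 ?_)
        have : (a : ℝ) ≤ (b : ℝ) := by exact_mod_cast hab.le
        gcongr
      have h9 : EE H a ≠ 0 := by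
        intro h0
        rw [h0] at hEpos
        simp at hEpos
      have h10 := sum_Ioc_inv_sq_le_sub (α := ℝ) h9 h8
      refine (Finset.sum_le_sum_of_subset_of_nonneg h7 fun p _ _ => by positivity).trans (h10.trans ?_)
      have : 0 ≤ (EE H b : ℝ)⁻¹ := by positivity
      linarith
    have h7 : (EE H a : ℝ)⁻¹ ≤ 2 * Real.exp (-((a : ℝ) / H)) := by
      rw [Real.exp_neg]
      have h8 : (EE H a : ℝ)⁻¹ ≤ (Real.exp ((a : ℝ) / H) / 2)⁻¹ := by gcongr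
      have h9 : (Real.exp ((a : ℝ) / H) / 2)⁻¹ = 2 * (Real.exp ((a : ℝ) / H))⁻¹ := by
        rw [inv_div]; ring
      rw [← h9]
      exact h8
    calc (Z2.card : ℝ) ≤ ∑ p ∈ PR H a b, 17 * X * ((p : ℝ) ^ 2)⁻¹ := h4.trans (Finset.sum_le_sum h5)
      _ = 17 * X * ∑ p ∈ PR H a b, ((p : ℝ) ^ 2)⁻¹ := by rw [Finset.mul_sum]
      _ ≤ 17 * X * (2 * Real.exp (-((a : ℝ) / H))) := by gcongr; exact h6.trans h7
      _ = 34 * X * Real.exp (-((a : ℝ) / H)) := by ring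
  have hHinv : 1 / (H : ℝ) ≤ 1 := by
    rw [div_le_one (by linarith)]
    exact hH0
  have hHinv0 : 0 ≤ 1 / (H : ℝ) := by positivity
  have c3 : (Z3.card : ℝ) ≤ X * (1 / H) + 1 := by
    have h3 := card_int (Icc 1 (17 * X)) ((X : ℝ) * Real.exp (-(1 / (H : ℝ)))) X (by positivity) (by
      have : Real.exp (-(1 / (H : ℝ))) ≤ 1 := Real.exp_le_one_iff.2 (by linarith)
      nlinarith)
    have h4 := Real.add_one_le_exp (-(1 / (H : ℝ)))
    have h5 : (X : ℝ) - X * Real.exp (-(1 / (H : ℝ))) ≤ X * (1 / H) := by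
      have : (X : ℝ) * (-(1 / (H : ℝ)) + 1) ≤ X * Real.exp (-(1 / (H : ℝ))) :=
        mul_le_mul_of_nonneg_left h4 (by linarith)
      linarith
    linarith
  have c4 : (Z4.card : ℝ) ≤ 12 * X * (1 / H) + 1 := by
    have h3 := card_int (Icc 1 (17 * X)) (6 * X : ℝ) (6 * X * Real.exp (1 / (H : ℝ))) (by positivity) (by
      have : 1 ≤ Real.exp (1 / (H : ℝ)) := Real.one_le_exp hHinv0
      nlinarith)
    have h4 := exp_le_two (1 / (H : ℝ)) hHinv0 hHinv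
    have h5 : 6 * (X : ℝ) * Real.exp (1 / (H : ℝ)) - 6 * X ≤ 12 * X * (1 / H) := by
      have : 6 * (X : ℝ) * (Real.exp (1 / (H : ℝ)) - 1) ≤ 6 * X * (2 * (1 / (H : ℝ))) :=
        mul_le_mul_of_nonneg_left h4 (by linarith)
      linarith
    linarith
  have hcard : (Z.card : ℝ) ≤ 18 * X * (1 / L) + 34 * X * Real.exp (-((a : ℝ) / H)) + 13 * X * (1 / H) + 2 := by
    have h3 : Z.card ≤ Z1.card + (Z2.card + (Z3.card + Z4.card)) :=
      (Finset.card_le_card hsub).trans ((Finset.card_union_le _ _).trans (Nat.add_le_add_left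
        ((Finset.card_union_le _ _).trans (Nat.add_le_add_left (Finset.card_union_le _ _) _)) _))
    have h4 : (Z.card : ℝ) ≤ Z1.card + (Z2.card + (Z3.card + Z4.card)) := by exact_mod_cast h3
    linarith
  have hLinv : 0 ≤ 1 / L := by positivity
  have hexp0 : 0 ≤ Real.exp (-((a : ℝ) / H)) := (Real.exp_pos _).le
  have hXinv : (X : ℝ) * (1 / X) = 1 := by field_simp
  have h5 : (Z.card : ℝ) ≤ 34 * X * (1 / L + Real.exp (-((a : ℝ) / H)) + 1 / H + 1 / X) := by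
    have h6 : 34 * (X : ℝ) * (1 / L + Real.exp (-((a : ℝ) / H)) + 1 / H + 1 / X) =
        34 * X * (1 / L) + 34 * X * Real.exp (-((a : ℝ) / H)) + 34 * X * (1 / H) + 34 * (X * (1 / X)) := by ring
    rw [h6, hXinv]
    have h7 : 0 ≤ (X : ℝ) * (1 / L) := by positivity
    have h8 : 0 ≤ (X : ℝ) * (1 / H) := by positivity
    linarith
  push_cast
  calc C0 * (T + 17 * X) / ((X : ℝ) / 3) ^ 2 * ∑ n ∈ Icc 1 (17 * X), ‖r n‖ ^ 2
      ≤ C0 * (X + 17 * X) / ((X : ℝ) / 3) ^ 2 *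
        (4 * (34 * X * (1 / L + Real.exp (-((a : ℝ) / H)) + 1 / H + 1 / X))) := by
        refine mul_le_mul ?_ (h2.trans ?_) (Finset.sum_nonneg fun _ _ => by positivity) (by positivity)
        · gcongr
        · gcongr
    _ = C0 * 648 * 34 * (1 / L + Real.exp (-((a : ℝ) / H)) + 1 / H + 1 / X) := by
        field_simp
        ring

end Pool.H2.MR
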