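import Pool.Agent.H2.MR.Kn
import Pool.Agent.H2.MR.Du

/-!
# [H2 MR HK] the integral of a kernel over a set of small measure (used by HS and HP)
-/

namespace Pool.H2.MR

open Finset MeasureTheory

theorem ker_int {X A ε : ℝ} (hA : 0 ≤ A) {U : Set ℝ} (hU : MeasurableSet U)
    (hUX : U ⊆ Set.Icc (-(X / 2)) (X / 2)) {G : ℝ → ℂ}
    (hG : ∀ v, |v| ≤ X → ‖G v‖ ≤ A / (1 + v ^ 2) + ε) {t : ℝ} (ht : t ∈ U) :
    ∫ s in U, ‖G (t - s)‖ ≤ Real.pi * A + ε * (volume U).toReal := by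
  have hfin : volume U ≠ ⊤ := by
    refine ((measure_mono hUX).trans_lt ?_).ne
    rw [Real.volume_Icc]
    exact ENNReal.ofReal_lt_top
  have hi1 : Integrable (fun s : ℝ => A * (1 + (t - s) ^ 2)⁻¹) := by
    have h := (integrable_inv_one_add_sq.comp_sub_left t).const_mul A
    exact h
  have hi2 : IntegrableOn (fun _ : ℝ => ε) U := integrableOn_const hfin
  have h1 : ∫ s in U, ‖G (t - s)‖ ≤ ∫ s in U, (A * (1 + (t - s) ^ 2)⁻¹ + ε) := by
    refine integral_mono_of_nonneg (Filter.Eventually.of_forall fun s => norm_nonneg _)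
      (hi1.integrableOn.add hi2) ?_
    refine (ae_restrict_iff' hU).2 (Filter.Eventually.of_forall fun s hs => ?_)
    refine (hG (t - s) ?_).trans (le_of_eq ?_)
    · have h1 := hUX ht
      have h2 := hUX hs
      rw [abs_le]
      constructor <;> linarith [h1.1, h1.2, h2.1, h2.2]
    · rw [div_eq_mul_inv]
  refine h1.trans ?_
  rw [integral_add hi1.integrableOn hi2]
  refine add_le_add ?_ ?_
  · have h2 : ∫ s in U, A * (1 + (t - s) ^ 2)⁻¹ ≤ ∫ s : ℝ, A * (1 + (t - s) ^ 2)⁻¹ :=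
      setIntegral_le_integral hi1 (Filter.Eventually.of_forall fun s => by positivity)
    refine h2.trans (le_of_eq ?_)
    rw [integral_const_mul]
    have h3 : ∫ s : ℝ, (1 + (t - s) ^ 2)⁻¹ = ∫ s : ℝ, (1 + s ^ 2)⁻¹ :=
      integral_sub_left_eq_self (fun s : ℝ => (1 + s ^ 2)⁻¹) volume t
    rw [h3, integral_univ_inv_one_add_sq, mul_comm]
  · rw [integral_const, smul_eq_mul, measureReal_restrict_apply_univ]
    rw [mul_comm]
    rfl

end Pool.H2.MR
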