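import Pool.Agent.H2.MR.Kp
import Pool.Agent.H2.MR.Du
import Pool.Agent.H2.MR.Hk

/-!
# [H2 MR HP] Halász-Montgomery for primes

PROOF. `c, C, X0` from `kp_le`, `δ = c/2`, `R = ⌊X^c⌋₊`, `M = M1 + 1`, `I = Icc 1 ⌊60M⌋₊`, `a n = c n/n` if `n` is prime and `M1 < n ≤ M2`, else `0`,
`w n = wt(log(n/M)) sw R n/n`. For a prime `n` with `M ≤ n ≤ 20M`: `w n = 1/n` (`n > R` because `X^c < X^(1/K) ≤ M`; `sw_prime`, `wt_one`), so
`∑ ‖a n‖²/w n ≤ ∑_{p prime, M≤p≤20M} 1/p ≤ ∑_n w n = kp M R 0 ≤ C/log X + C X^(-c) ≤ 2C/log X`. `∑ w n ni u n = kp M R u`, so for `t ∈ U`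
`∫_U ‖kp (t-s)‖ ds ≤ π C/log X + C vol(U) X^(-c) ≤ (π+1) C/log X` for large `X` (`X^(-c/2) ≤ 1/log X`). `du` gives `≤ 2C(π+1)C/(log X)²`.
-/

namespace Pool.H2.MR

open Finset MeasureTheory

private theorem hp_mid {M : ℝ} (hM : 0 < M) {n : ℕ} (h1 : M ≤ n) (h2 : (n : ℝ) ≤ 20 * M) :
    wt (Real.log ((n : ℝ) / M)) = 1 := by
  refine wt_one _ (Real.log_nonneg ?_) (Real.log_le_log ?_ ?_)
  · rw [le_div_iff₀ hM]
    linarith
  · exact div_pos (by linarith) hM
  · rw [div_le_iff₀ hM]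
    exact h2

theorem hp (K : ℕ) (hK : 1 ≤ K) : ∃ δ C X0 : ℝ, 0 < δ ∧ 0 < C ∧ 1 ≤ X0 ∧ ∀ (X : ℝ) (U : Set ℝ) (c : ℕ → ℂ) (M1 M2 : ℕ), X0 ≤ X →
    MeasurableSet U → U ⊆ Set.Icc (-(X / 2)) (X / 2) → volume U ≤ ENNReal.ofReal (X ^ δ) → (∀ n, ‖c n‖ ≤ 1) →
    X ^ (1 / (K : ℝ)) ≤ M1 → (M1 : ℝ) + 1 ≤ 2 * X → (M2 : ℝ) ≤ 20 * ((M1 : ℝ) + 1) →
    ∫ t in U, ‖∑ p ∈ (Ioc M1 M2).filter Nat.Prime, c p * nj t p‖ ^ 2 ≤ C / (Real.log X) ^ 2 := by
  obtain ⟨c, C, X1, hc, hcK, hC, hX1, hkp⟩ := kp_le K hK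
  have hpi := Real.pi_pos
  have hK0 : (0 : ℝ) < K := by exact_mod_cast hK
  refine ⟨c / 2, ((Real.pi + 1) * C) * (2 * C), max X1 (max 3 ((4 / c) ^ (4 / c))), by positivity,
    by positivity, hX1.trans (le_max_left _ _), ?_⟩
  intro X U b M1 M2 hX hU hUX hvol hb hM1 hM12 hM2
  have hXX1 : X1 ≤ X := (le_max_left _ _).trans hX
  have hX3 : 3 ≤ X := (le_max_left _ _).trans ((le_max_right _ _).trans hX)
  have hX4 : (4 / c) ^ (4 / c) ≤ X := (le_max_right _ _).trans ((le_max_right _ _).trans hX)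
  have hX0 : 0 < X := by linarith
  have hlog : 0 < Real.log X := Real.log_pos (by linarith)
  have hlogX : Real.log X ≤ X ^ (c / 2) := by
    have h1 := Real.log_le_rpow_div hX0.le (show 0 < c / 4 by positivity)
    have h2 : 4 / c ≤ X ^ (c / 4) := by
      have := Real.rpow_le_rpow (by positivity) hX4 (show 0 ≤ c / 4 by positivity)
      rw [← Real.rpow_mul (by positivity)] at this
      have h3 : 4 / c * (c / 4) = 1 := by field_simp
      rwa [h3, Real.rpow_one] at this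
    calc Real.log X ≤ X ^ (c / 4) / (c / 4) := h1
      _ = X ^ (c / 4) * (4 / c) := by
        field_simp
      _ ≤ X ^ (c / 4) * X ^ (c / 4) := mul_le_mul_of_nonneg_left h2 (by positivity)
      _ = X ^ (c / 2) := by
        rw [← Real.rpow_add hX0]
        congr 1
        ring
  have hXc : X ^ (-(c / 2)) ≤ 1 / Real.log X := by
    rw [Real.rpow_neg hX0.le, ← one_div]
    exact one_div_le_one_div_of_le hlog hlogX
  have hXc2 : X ^ (-c) ≤ 1 / Real.log X :=
    (Real.rpow_le_rpow_of_exponent_le (by linarith) (by linarith)).trans hXc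
  set R := ⌊X ^ c⌋₊ with hR
  have hXc1 : 1 ≤ X ^ c := Real.one_le_rpow (by linarith) hc.le
  have hR1 : (R : ℝ) ≤ X ^ c := Nat.floor_le (by positivity)
  have hR3 : 1 ≤ R := Nat.le_floor (by simpa using hXc1)
  set M : ℝ := (M1 : ℝ) + 1 with hM
  have hM0 : 0 < M := by positivity
  have hMX : X ^ (1 / (K : ℝ)) ≤ M := by linarith
  have hRM : (R : ℝ) ≤ M1 := by
    refine hR1.trans (le_trans ?_ hM1)
    refine Real.rpow_le_rpow_of_exponent_le (by linarith) (hcK.trans ?_)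
    exact one_div_le_one_div_of_le hK0 (by linarith)
  have hRM' : R ≤ M1 := by exact_mod_cast hRM
  set N := ⌊60 * M⌋₊ with hN
  have hM2N : M2 ≤ N := Nat.le_floor (by linarith)
  set S := (Ioc M1 M2).filter Nat.Prime with hS
  set a : ℕ → ℂ := fun n => if n ∈ S then b n / n else 0 with ha
  set w : ℕ → ℝ := fun n => wt (Real.log ((n : ℝ) / M)) * sw R n / n with hw
  have hw0 : ∀ n, 0 ≤ w n := fun n => by
    have h1 := wt_nonneg (Real.log ((n : ℝ) / M))
    have h2 : 0 ≤ sw R n := by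
      rw [sw]
      positivity
    exact div_nonneg (mul_nonneg h1 h2) (by positivity)
  have hmem : ∀ n ∈ S, M ≤ n ∧ (n : ℝ) ≤ 20 * M ∧ (0 : ℝ) < n ∧ n.Prime ∧ R < n := by
    intro n hn
    rw [hS, Finset.mem_filter, Finset.mem_Ioc] at hn
    have h1 : M ≤ n := by
      rw [hM]
      exact_mod_cast hn.1.1
    have h2 : (n : ℝ) ≤ M2 := by exact_mod_cast hn.1.2
    exact ⟨h1, by linarith, by linarith, hn.2, by omega⟩
  have hSN : S ⊆ Icc 1 N := by
    intro n hn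
    rw [hS, Finset.mem_filter, Finset.mem_Ioc] at hn
    rw [Finset.mem_Icc]
    omega
  have hw1 : ∀ n ∈ S, w n = 1 / n := by
    intro n hn
    obtain ⟨h1, h2, h3, h4, h5⟩ := hmem n hn
    rw [hw]
    simp only
    rw [hp_mid hM0 h1 h2, sw_prime R n hR3 h4 h5, one_mul]
  have h1 : ∀ t, ∑ p ∈ S, b p * nj t p = ∑ n ∈ Icc 1 N, a n * ni t n := by
    intro t
    have e1 : ∑ n ∈ Icc 1 N, a n * ni t n = ∑ n ∈ S, a n * ni t n := by
      symm
      refine Finset.sum_subset hSN ?_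
      intro n _ hn
      rw [ha]
      simp only
      rw [if_neg hn, zero_mul]
    rw [e1]
    refine Finset.sum_congr rfl fun n hn => ?_
    have h3 : 1 ≤ n := (Finset.mem_Icc.1 (hSN hn)).1
    rw [ha]
    simp only
    rw [if_pos hn, nj_eq t n h3, ni]
    ring
  have hkw : ∀ u, ∑ n ∈ Icc 1 N, (w n : ℂ) * ni u n = kp M R u := by
    intro u
    rw [kp]
    refine Finset.sum_congr rfl fun n hn => ?_
    rw [Finset.mem_Icc] at hn
    rw [nj_eq u n hn.1, hw, ni]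
    push_cast
    ring
  have hk : ∀ v, |v| ≤ X → ‖kp M R v‖ ≤ C / Real.log X / (1 + v ^ 2) + C * X ^ (-c) := by
    intro v hv
    have h2 := hkp X M v hXX1 hMX hM12 hv
    rw [mul_one_div] at h2
    exact h2
  have hB : ∀ t ∈ U, ∫ s in U, ‖∑ n ∈ Icc 1 N, (w n : ℂ) * ni (t - s) n‖ ≤
      (Real.pi + 1) * C / Real.log X := by
    intro t ht
    have h2 := ker_int (A := C / Real.log X) (ε := C * X ^ (-c)) (by positivity) hU hUX
      (G := kp M R) hk ht
    simp only [hkw]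
    refine h2.trans ?_
    have h3 : (volume U).toReal ≤ X ^ (c / 2) := by
      refine ENNReal.toReal_le_of_le_ofReal (by positivity) hvol
    have h4 : C * X ^ (-c) * (volume U).toReal ≤ C * X ^ (-c) * X ^ (c / 2) :=
      mul_le_mul_of_nonneg_left h3 (by positivity)
    have h5 : C * X ^ (-c) * X ^ (c / 2) = C * X ^ (-(c / 2)) := by
      rw [mul_assoc, ← Real.rpow_add hX0]
      congr 2
      ring
    have h6 : C * X ^ (-(c / 2)) ≤ C * (1 / Real.log X) := mul_le_mul_of_nonneg_left hXc hC.le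
    calc Real.pi * (C / Real.log X) + C * X ^ (-c) * (volume U).toReal
        ≤ Real.pi * (C / Real.log X) + C * (1 / Real.log X) := by linarith
      _ = _ := by ring
  have hdu := du (Icc 1 N) (fun n hn => (Finset.mem_Icc.1 hn).1) a w
    (fun n _ => hw0 n) (by
      intro n hn hwn
      rw [ha]
      simp only
      by_cases h2 : n ∈ S
      · exfalso
        rw [hw1 n h2] at hwn
        have h3 := (hmem n h2).2.2.1
        have : 0 < 1 / (n : ℝ) := by positivity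
        linarith
      · rw [if_neg h2]) U (X / 2) ((Real.pi + 1) * C / Real.log X) hU hUX (by positivity) hB
  simp only [h1]
  refine hdu.trans ?_
  have h2 : ∑ n ∈ Icc 1 N, ‖a n‖ ^ 2 / w n ≤ ∑ n ∈ Icc 1 N, w n := by
    have e1 : ∑ n ∈ Icc 1 N, ‖a n‖ ^ 2 / w n = ∑ n ∈ S, ‖a n‖ ^ 2 / w n := by
      symm
      refine Finset.sum_subset hSN ?_
      intro n _ hn
      rw [ha]
      simp only
      rw [if_neg hn]
      simp
    rw [e1]
    refine le_trans ?_ (Finset.sum_le_sum_of_subset_of_nonneg hSN fun n _ _ => hw0 n)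
    refine Finset.sum_le_sum fun n hn => ?_
    obtain ⟨h3, h4, h5, _, _⟩ := hmem n hn
    rw [hw1 n hn, ha]
    simp only
    rw [if_pos hn, norm_div, Complex.norm_natCast]
    have h6 : (‖b n‖ / n) ^ 2 / (1 / (n : ℝ)) = ‖b n‖ ^ 2 * (1 / n) := by
      field_simp
    rw [h6]
    have h7 : ‖b n‖ ^ 2 ≤ 1 := by
      have := hb n
      have := norm_nonneg (b n)
      nlinarith
    calc ‖b n‖ ^ 2 * (1 / n) ≤ 1 * (1 / (n : ℝ)) := mul_le_mul_of_nonneg_right h7 (by positivity)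
      _ = _ := one_mul _
  have h3 : ∑ n ∈ Icc 1 N, w n ≤ 2 * C / Real.log X := by
    have e1 : kp M R 0 = ((∑ n ∈ Icc 1 N, w n : ℝ) : ℂ) := by
      rw [← hkw 0]
      push_cast
      refine Finset.sum_congr rfl fun n hn => ?_
      rw [Finset.mem_Icc] at hn
      have : ni 0 n = 1 := by
        rw [ni]
        simp
      rw [this, mul_one]
    have e2 : 0 ≤ ∑ n ∈ Icc 1 N, w n := Finset.sum_nonneg fun n _ => hw0 n
    have e3 : ‖kp M R 0‖ = ∑ n ∈ Icc 1 N, w n := by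
      rw [e1, Complex.norm_real, Real.norm_of_nonneg e2]
    have e4 := hk 0 (by simpa using hX0.le)
    rw [e3] at e4
    have e5 : C * X ^ (-c) ≤ C * (1 / Real.log X) := mul_le_mul_of_nonneg_left hXc2 hC.le
    refine e4.trans ?_
    calc C / Real.log X / (1 + 0 ^ 2) + C * X ^ (-c) ≤ C / Real.log X / (1 + 0 ^ 2) + C * (1 / Real.log X) := by
          linarith
      _ = _ := by
        norm_num
        ring
  calc (Real.pi + 1) * C / Real.log X * ∑ n ∈ Icc 1 N, ‖a n‖ ^ 2 / w n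
      ≤ (Real.pi + 1) * C / Real.log X * (2 * C / Real.log X) :=
        mul_le_mul_of_nonneg_left (h2.trans h3) (by positivity)
    _ = _ := by
      field_simp

end Pool.H2.MR
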