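import Pool.Agent.H2.MR.Kn
import Pool.Agent.H2.MR.Du
import Pool.Agent.H2.MR.Hk

/-!
# [H2 MR HS] Halász-Montgomery for integers, without loss of a logarithm

PROOF. `kn` with `K = 2` gives `c, C`; `δ = min(c, 1/2)`. `M = M1 + 1` (real), `I = Icc 1 ⌊60M⌋₊`, `a n = b n/n` for `M1 < n ≤ M2`, else `0` (so
`∑_{n∈I} a n ni t n = ds b M1 M2 t`, as `M2 ≤ 20M`), `w n = wt(log(n/M))/n`. For `M ≤ n ≤ 20M` `wt = 1`, so `∑ ‖a n‖²/w n ≤ ∑_{M≤n≤20M} 1/n ≤ 20` (at most `20M` terms `≤ 1/M`).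
`∑ w n ni u n = kw M u`, for `t, s ∈ U` `|t-s| ≤ X`: `‖kw M (t-s)‖ ≤ 8/(1+(t-s)²) + C X^(-c)`, so `∫_U ‖kw M (t-s)‖ ds ≤ 8π + C vol(U) X^(-c) ≤ 8π + C`.
`du`.
-/

namespace Pool.H2.MR

open Finset MeasureTheory

/-- the weight is one on the interval -/
theorem wt_mid {M : ℝ} (hM : 0 < M) {n : ℕ} (h1 : M ≤ n) (h2 : (n : ℝ) ≤ 20 * M) :
    wt (Real.log ((n : ℝ) / M)) = 1 := by
  refine wt_one _ (Real.log_nonneg ?_) (Real.log_le_log ?_ ?_)
  · rw [le_div_iff₀ hM]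
    linarith
  · exact div_pos (by linarith) hM
  · rw [div_le_iff₀ hM]
    exact h2

theorem hs : ∃ δ C X0 : ℝ, 0 < δ ∧ 0 < C ∧ 1 ≤ X0 ∧ ∀ (X : ℝ) (U : Set ℝ) (b : ℕ → ℂ) (M1 M2 : ℕ), X0 ≤ X → MeasurableSet U →
    U ⊆ Set.Icc (-(X / 2)) (X / 2) → volume U ≤ ENNReal.ofReal (X ^ δ) → (∀ n, ‖b n‖ ≤ 1) →
    X ^ ((1 : ℝ) / 2) ≤ M1 → (M2 : ℝ) ≤ 20 * ((M1 : ℝ) + 1) →
    ∫ t in U, ‖ds b M1 M2 t‖ ^ 2 ≤ C := by
  obtain ⟨c, C, hc, hC, hkn⟩ := kn 2 (by norm_num)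
  have hpi := Real.pi_pos
  refine ⟨c, (Real.pi * 8 + C) * 20, 9, hc, by positivity, by norm_num, ?_⟩
  intro X U b M1 M2 hX hU hUX hvol hb hM1 hM2
  have hX0 : 0 < X := by linarith
  set M : ℝ := (M1 : ℝ) + 1 with hM
  have hM0 : 0 < M := by positivity
  have hX3 : 3 ≤ X ^ ((1 : ℝ) / 2) := by
    have h1 : (9 : ℝ) ^ ((1 : ℝ) / 2) ≤ X ^ ((1 : ℝ) / 2) :=
      Real.rpow_le_rpow (by norm_num) hX (by norm_num)
    have h2 : (9 : ℝ) ^ ((1 : ℝ) / 2) = 3 := by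
      rw [show (9 : ℝ) = 3 ^ (2 : ℝ) by norm_num, ← Real.rpow_mul (by norm_num)]
      norm_num
    linarith
  have hMX : X ^ (1 / ((2 : ℕ) : ℝ)) ≤ M := by
    push_cast
    linarith
  set N := ⌊60 * M⌋₊ with hN
  have hM2N : M2 ≤ N := Nat.le_floor (by linarith)
  set a : ℕ → ℂ := fun n => if n ∈ Ioc M1 M2 then b n / n else 0 with ha
  set w : ℕ → ℝ := fun n => wt (Real.log ((n : ℝ) / M)) / n with hw
  have hmem : ∀ n ∈ Ioc M1 M2, M ≤ n ∧ (n : ℝ) ≤ 20 * M ∧ (0 : ℝ) < n := by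
    intro n hn
    rw [Finset.mem_Ioc] at hn
    have h1 : M ≤ n := by
      rw [hM]
      exact_mod_cast hn.1
    have h2 : (n : ℝ) ≤ M2 := by exact_mod_cast hn.2
    exact ⟨h1, by linarith, by linarith⟩
  have hw1 : ∀ n ∈ Ioc M1 M2, w n = 1 / n := by
    intro n hn
    obtain ⟨h1, h2, h3⟩ := hmem n hn
    rw [hw]
    simp only
    rw [wt_mid hM0 h1 h2]
  have h1 : ∀ t, ds b M1 M2 t = ∑ n ∈ Icc 1 N, a n * ni t n := by
    intro t
    have e1 : ∑ n ∈ Icc 1 N, a n * ni t n = ∑ n ∈ Ioc M1 M2, a n * ni t n := by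
      symm
      refine Finset.sum_subset ?_ ?_
      · intro n hn
        rw [Finset.mem_Ioc] at hn
        rw [Finset.mem_Icc]
        omega
      · intro n _ hn
        rw [ha]
        simp only
        rw [if_neg hn, zero_mul]
    rw [e1, ds]
    refine Finset.sum_congr rfl fun n hn => ?_
    have h3 : 1 ≤ n := by
      rw [Finset.mem_Ioc] at hn
      omega
    rw [ha]
    simp only
    rw [if_pos hn, nj_eq t n h3, ni]
    ring
  have hkw : ∀ u, ∑ n ∈ Icc 1 N, (w n : ℂ) * ni u n = kw M u := by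
    intro u
    rw [kw]
    refine Finset.sum_congr rfl fun n hn => ?_
    rw [Finset.mem_Icc] at hn
    rw [nj_eq u n hn.1, hw, ni]
    push_cast
    ring
  have hk : ∀ v, |v| ≤ X → ‖kw M v‖ ≤ 8 / (1 + v ^ 2) + C * X ^ (-c) := by
    intro v hv
    have h2 := hkn X M v (by linarith) hMX (by linarith) (by linarith)
    have h3 := mk_le v
    have h4 : ‖Complex.exp (-((v * Real.log M : ℝ) : ℂ) * Complex.I) * mk v‖ = ‖mk v‖ := by
      rw [norm_mul]
      have h5 := Complex.norm_exp_ofReal_mul_I (-(v * Real.log M))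
      rw [Complex.ofReal_neg] at h5
      rw [h5, one_mul]
    have h6 := norm_le_norm_add_norm_sub' (kw M v)
      (Complex.exp (-((v * Real.log M : ℝ) : ℂ) * Complex.I) * mk v)
    rw [h4] at h6
    linarith
  have hB : ∀ t ∈ U, ∫ s in U, ‖∑ n ∈ Icc 1 N, (w n : ℂ) * ni (t - s) n‖ ≤ Real.pi * 8 + C := by
    intro t ht
    have h2 := ker_int (A := 8) (ε := C * X ^ (-c)) (by norm_num) hU hUX (G := kw M) hk ht
    simp only [hkw]
    refine h2.trans ?_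
    have h3 : (volume U).toReal ≤ X ^ c := by
      refine ENNReal.toReal_le_of_le_ofReal (by positivity) hvol
    have h4 : C * X ^ (-c) * (volume U).toReal ≤ C * X ^ (-c) * X ^ c :=
      mul_le_mul_of_nonneg_left h3 (by positivity)
    have h5 : C * X ^ (-c) * X ^ c = C := by
      rw [mul_assoc, ← Real.rpow_add hX0, neg_add_cancel, Real.rpow_zero, mul_one]
    linarith
  have hdu := du (Icc 1 N) (fun n hn => (Finset.mem_Icc.1 hn).1) a w
    (fun n hn => div_nonneg (wt_nonneg _) (by positivity)) (by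
      intro n hn hwn
      rw [ha]
      simp only
      by_cases h2 : n ∈ Ioc M1 M2
      · exfalso
        rw [hw1 n h2] at hwn
        have h3 := (hmem n h2).2.2
        have : 0 < 1 / (n : ℝ) := by positivity
        linarith
      · rw [if_neg h2]) U (X / 2) (Real.pi * 8 + C) hU hUX (by positivity) hB
  simp only [h1]
  refine hdu.trans (mul_le_mul_of_nonneg_left ?_ (by positivity))
  have h2 : ∑ n ∈ Icc 1 N, ‖a n‖ ^ 2 / w n ≤ ∑ n ∈ Ioc M1 M2, 1 / M := by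
    have e1 : ∑ n ∈ Icc 1 N, ‖a n‖ ^ 2 / w n = ∑ n ∈ Ioc M1 M2, ‖a n‖ ^ 2 / w n := by
      symm
      refine Finset.sum_subset ?_ ?_
      · intro n hn
        rw [Finset.mem_Ioc] at hn
        rw [Finset.mem_Icc]
        omega
      · intro n _ hn
        rw [ha]
        simp only
        rw [if_neg hn]
        simp
    rw [e1]
    refine Finset.sum_le_sum fun n hn => ?_
    obtain ⟨h3, h4, h5⟩ := hmem n hn
    rw [hw1 n hn, ha]
    simp only
    rw [if_pos hn, norm_div, Complex.norm_natCast]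
    have h6 : (‖b n‖ / n) ^ 2 / (1 / (n : ℝ)) = ‖b n‖ ^ 2 * (1 / n) := by
      field_simp
    rw [h6]
    have h7 : ‖b n‖ ^ 2 ≤ 1 := by
      have := hb n
      have := norm_nonneg (b n)
      nlinarith
    have h8 : 1 / (n : ℝ) ≤ 1 / M := one_div_le_one_div_of_le hM0 h3
    calc ‖b n‖ ^ 2 * (1 / n) ≤ 1 * (1 / (n : ℝ)) := mul_le_mul_of_nonneg_right h7 (by positivity)
      _ ≤ _ := by linarith
  refine h2.trans ?_
  rw [Finset.sum_const, Nat.card_Ioc, nsmul_eq_mul, mul_one_div, div_le_iff₀ hM0]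
  refine le_trans ?_ hM2
  exact_mod_cast Nat.sub_le _ _

end Pool.H2.MR
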