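import Pool.Agent.H2.MR.Defs
import Pool.Agent.H75.AP.MertensB

/-!
# [H2 MR PRL] The sum of `1/p` over the primes of the blocks

PROOF. `p ∈ PR H a b` iff `p` is prime and `exp(a/H) < p ≤ exp(b/H)`. So `∑_{PR} 1/p = ∑_{p ≤ exp(b/H)} 1/p - ∑_{p ≤ exp(a/H)} 1/p` and by
`H75.AP.mertens_low`, `mertens_upper` (`exp(a/H) ≥ e² ≥ 3`) this is `≥ log(b/H) - C - log(a/H) - C' = log(b/a) - C - C'`
(`H75.AP.PI 0 v` is the set of primes `p ≤ v`).
-/

namespace Pool.H2.MR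

open Finset

private theorem prl_mem (H a : ℕ) (p : ℕ) : p ≤ EE H a ↔ (p : ℝ) ≤ Real.exp ((a : ℝ) / H) := by
  unfold EE
  rw [Nat.le_floor_iff (Real.exp_pos _).le]

private theorem prl_PI (v : ℝ) (hv : 0 ≤ v) (p : ℕ) : p ∈ Pool.Agent.H75.AP.PI 0 v ↔ p.Prime ∧ (p : ℝ) ≤ v := by
  unfold Pool.Agent.H75.AP.PI
  rw [Finset.mem_filter, Finset.mem_range, Nat.lt_succ_iff, Nat.le_floor_iff hv]
  constructor
  · rintro ⟨h1, h2, h3⟩
    exact ⟨h2, h1⟩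
  · rintro ⟨h2, h4⟩
    exact ⟨h4, h2, by exact_mod_cast h2.pos⟩

theorem prl : ∃ C0 : ℝ, 0 < C0 ∧ ∀ H a b : ℕ, 1 ≤ H → 2 * H ≤ a → a < b →
    Real.log ((b : ℝ) / a) - C0 ≤ ∑ p ∈ PR H a b, 1 / (p : ℝ) := by
  obtain ⟨C, hC, h1⟩ := Pool.Agent.H75.AP.mertens_upper
  obtain ⟨C', hC', h2⟩ := Pool.Agent.H75.AP.mertens_low
  refine ⟨C + C', by positivity, ?_⟩
  intro H a b hH ha hab
  have hHr : (1 : ℝ) ≤ H := by exact_mod_cast hH
  have har : (2 : ℝ) * H ≤ a := by exact_mod_cast ha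
  have habr : (a : ℝ) < b := by exact_mod_cast hab
  have h3 : ∀ c : ℝ, 2 * (H : ℝ) ≤ c → 3 ≤ Real.exp (c / H) := by
    intro c hc
    have h4 : 2 ≤ c / H := by
      rw [le_div_iff₀ (by linarith)]
      exact hc
    have := Real.add_one_le_exp (c / H)
    linarith
  have e1 := h1 (Real.exp ((a : ℝ) / H)) (h3 a har)
  have e2 := h2 (Real.exp ((b : ℝ) / H)) (h3 b (by linarith))
  rw [Real.log_exp] at e1 e2
  have hsplit : Pool.Agent.H75.AP.PI 0 (Real.exp ((b : ℝ) / H)) = Pool.Agent.H75.AP.PI 0 (Real.exp ((a : ℝ) / H)) ∪ PR H a b := by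
    ext p
    rw [Finset.mem_union, prl_PI _ (Real.exp_pos _).le, prl_PI _ (Real.exp_pos _).le]
    unfold PR
    rw [Finset.mem_filter, Finset.mem_Ioc, ← not_le, prl_mem, prl_mem]
    have h5 : Real.exp ((a : ℝ) / H) ≤ Real.exp ((b : ℝ) / H) := by
      apply Real.exp_le_exp.2
      exact div_le_div_of_nonneg_right habr.le (by linarith)
    constructor
    · rintro ⟨hp, hpb⟩
      by_cases hpa : (p : ℝ) ≤ Real.exp ((a : ℝ) / H)
      · exact Or.inl ⟨hp, hpa⟩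
      · exact Or.inr ⟨⟨hpa, hpb⟩, hp⟩
    · rintro (⟨hp, hpa⟩ | ⟨⟨hpa, hpb⟩, hp⟩)
      · exact ⟨hp, hpa.trans h5⟩
      · exact ⟨hp, hpb⟩
  have hdisj : Disjoint (Pool.Agent.H75.AP.PI 0 (Real.exp ((a : ℝ) / H))) (PR H a b) := by
    rw [Finset.disjoint_left]
    intro p hp hp'
    rw [prl_PI _ (Real.exp_pos _).le] at hp
    unfold PR at hp'
    rw [Finset.mem_filter, Finset.mem_Ioc, ← not_le, prl_mem] at hp'
    exact hp'.1.1 hp.2
  rw [hsplit, Finset.sum_union hdisj] at e2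
  have hlog : Real.log ((b : ℝ) / a) = Real.log ((b : ℝ) / H) - Real.log ((a : ℝ) / H) := by
    have ha0 : (a : ℝ) ≠ 0 := by linarith
    have hb0 : (b : ℝ) ≠ 0 := by linarith
    have hH0 : (H : ℝ) ≠ 0 := by linarith
    rw [Real.log_div hb0 ha0, Real.log_div hb0 hH0, Real.log_div ha0 hH0]
    ring
  rw [hlog]
  linarith

end Pool.H2.MR
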