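import Pool.Agent.H2.MR.Defs
import Pool.Agent.H43.SI.Mvt

/-!
# [H2 MR MVL] Mean value theorem on the line 1

PROOF. `nj t n = n^(-it) / n` for `n ≥ 1` (`Complex.cpow_add`, `Complex.cpow_neg_one`). Apply `H43.SI.mvt` to the coefficients `a n / n`
(the integrand is `‖∑ (a n / n) n^(-(t I))‖^2`); `‖a n / n‖^2 = ‖a n‖^2 / n^2 ≤ ‖a n‖^2 / N1^2` (if `a n ≠ 0` then `n ≥ N1 > 0`).
-/

namespace Pool.H2.MR

open Finset

theorem nj_eq (t : ℝ) (n : ℕ) (hn : 1 ≤ n) : nj t n = (n : ℂ) ^ (-((t : ℂ) * Complex.I)) / n := by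
  have hn0 : (n : ℂ) ≠ 0 := by
    exact_mod_cast (by omega : n ≠ 0)
  unfold nj
  have h1 : (-(1 + (t : ℂ) * Complex.I)) = -((t : ℂ) * Complex.I) - 1 := by ring
  rw [h1, Complex.cpow_sub _ _ hn0, Complex.cpow_one]

theorem norm_ni (t : ℝ) (n : ℕ) (hn : 1 ≤ n) : ‖ni t n‖ = 1 := by
  unfold ni
  rw [Complex.norm_natCast_cpow_of_pos (by omega)]
  simp

theorem norm_nj (t : ℝ) (n : ℕ) (hn : 1 ≤ n) : ‖nj t n‖ = 1 / (n : ℝ) := by
  have h1 := norm_ni t n hn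
  unfold ni at h1
  rw [nj_eq t n hn, norm_div, h1, Complex.norm_natCast]

theorem nj_mul (t : ℝ) (m n : ℕ) (hm : 1 ≤ m) (hn : 1 ≤ n) : nj t (m * n) = nj t m * nj t n := by
  unfold nj
  rw [Nat.cast_mul]
  exact Complex.natCast_mul_natCast_cpow m n _

theorem continuous_nj (n : ℕ) (hn : 1 ≤ n) : Continuous (fun t : ℝ => nj t n) := by
  unfold nj
  refine Continuous.const_cpow (by fun_prop) (Or.inl ?_)
  exact_mod_cast (by omega : n ≠ 0)

theorem mvl : ∃ C : ℝ, 0 < C ∧ ∀ (N : ℕ) (T N1 : ℝ) (a : ℕ → ℂ), 1 ≤ N → 1 ≤ T → 0 < N1 →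
    (∀ n ∈ Icc 1 N, a n ≠ 0 → N1 ≤ n) →
    ∫ t in (-T)..T, ‖∑ n ∈ Icc 1 N, a n * nj t n‖ ^ 2 ≤
      C * (T + N) / N1 ^ 2 * ∑ n ∈ Icc 1 N, ‖a n‖ ^ 2 := by
  obtain ⟨C, hC, h⟩ := Pool.Agent.H43.SI.mvt
  refine ⟨C, hC, ?_⟩
  intro N T N1 a hN hT hN1 ha
  have h1 : ∀ t : ℝ, ∑ n ∈ Icc 1 N, a n * nj t n =
      ∑ n ∈ Icc 1 N, (a n / n) * (n : ℂ) ^ (-((t : ℂ) * Complex.I)) := by
    intro t
    refine Finset.sum_congr rfl fun n hn => ?_
    rw [nj_eq t n (Finset.mem_Icc.1 hn).1]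
    ring
  simp only [h1]
  refine (h N T (fun n => a n / n) hN hT).trans ?_
  rw [div_mul_eq_mul_div, mul_div_assoc]
  apply mul_le_mul_of_nonneg_left _ (by positivity)
  rw [Finset.sum_div]
  refine Finset.sum_le_sum fun n hn => ?_
  by_cases h0 : a n = 0
  · simp [h0]
  · have h2 := ha n hn h0
    rw [norm_div, div_pow, Complex.norm_natCast]
    exact div_le_div_of_nonneg_left (by positivity) (by positivity) (pow_le_pow_left₀ hN1.le h2 2)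

/-- the same for a sum over `M1 < n ≤ M2` with coefficients bounded by `1` -/
theorem mvl_ds : ∃ C : ℝ, 0 < C ∧ ∀ (M1 M2 : ℕ) (T N1 : ℝ) (a : ℕ → ℂ), 1 ≤ T → 0 < N1 →
    N1 ≤ (M1 : ℝ) + 1 → (∀ n, ‖a n‖ ≤ 1) →
    ∫ t in (-T)..T, ‖ds a M1 M2 t‖ ^ 2 ≤ C * (T + M2) / N1 ^ 2 * M2 := by
  obtain ⟨C, hC, h⟩ := mvl
  refine ⟨C, hC, ?_⟩
  intro M1 M2 T N1 a hT hN1 hM ha
  rcases Nat.eq_zero_or_pos M2 with h0 | h0
  · subst h0
    simp [ds]
  set a' : ℕ → ℂ := fun n => if M1 < n then a n else 0 with ha'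
  have h1 : ∀ t : ℝ, ds a M1 M2 t = ∑ n ∈ Icc 1 M2, a' n * nj t n := by
    intro t
    unfold ds
    have h2 : Ioc M1 M2 = (Icc 1 M2).filter (fun n => M1 < n) := by
      ext n
      simp only [Finset.mem_Ioc, Finset.mem_filter, Finset.mem_Icc]
      omega
    rw [h2, Finset.sum_filter]
    refine Finset.sum_congr rfl fun n _ => ?_
    simp only [ha']
    split_ifs <;> simp
  simp only [h1]
  refine (h M2 T N1 a' h0 hT hN1 ?_).trans ?_
  · intro n hn hne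
    have h3 : M1 < n := by
      by_contra h4
      exact hne (by simp only [ha']; rw [if_neg h4])
    have h4 : (M1 : ℝ) + 1 ≤ n := by exact_mod_cast h3
    linarith
  · apply mul_le_mul_of_nonneg_left _ (by positivity)
    calc ∑ n ∈ Icc 1 M2, ‖a' n‖ ^ 2 ≤ ∑ _n ∈ Icc 1 M2, (1 : ℝ) := by
          refine Finset.sum_le_sum fun n _ => ?_
          have h5 : ‖a' n‖ ≤ 1 := by
            simp only [ha']
            split_ifs
            · exact ha n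
            · simp
          exact pow_le_one₀ (norm_nonneg _) h5
      _ = M2 := by simp

end Pool.H2.MR
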