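import Pool.Agent.H2.MR.Hal
import Pool.Agent.H2.MR.Mvl

/-!
# [H2 MR PT] Pointwise bounds for the polynomial of `(X, 6X]`

PROOF. `g n = f n ni t n` is `OB` (`norm_ni`; `ni t (m n) = ni t m ni t n` for `m, n ≥ 1`; for `n = 0` only `‖g 0‖ ≤ 1` is needed: `(0 : ℂ)^(-it)` is `0` or `1`; `ni t 1 = 1`;
coprime pairs with a zero: `(0, 1)`, `(1, 0)`, fine as `g 1 = 1`), `DD g u N = DD f (t+u) N`. `hal` with `η' = η/16`: `T₀, M, Y₀`. For `X` large, `|t| ≤ X/2`, `X ≤ N ≤ 6X`, `|u| ≤ T₀`: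
`|t+u| ≤ X ≤ N`, so `M ≤ DD f (t+u) N` by `CondN1`. So `‖∑_{n≤N} g n‖ ≤ η' N` for all `N ∈ [X, 6X]`, and by partial summation
(`∑_{X<n≤6X} g n/n = A(6X)/(6X) - A(X)/X + ∑ A(n)(1/n - 1/(n+1))`) `‖ds f X (6X) t‖ ≤ 2η' + η' ∑_{X<n≤6X} 1/(n+1) ≤ 2η' + 5η' ≤ η`.
`pt0`: `t = 0`, `N` arbitrary: directly `hal`.
-/

namespace Pool.H2.MR

open Finset

theorem pt_OB (f : ℕ → ℂ) (hf : OB f) (t : ℝ) : OB (fun n => f n * ni t n) := by
  constructor
  · simp [hf.one, ni]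
  · intro m n h
    have h1 : ni t (m * n) = ni t m * ni t n := by
      unfold ni
      rw [Nat.cast_mul]
      exact Complex.natCast_mul_natCast_cpow m n _
    rw [hf.mul m n h, h1]
    ring
  · intro n
    rcases Nat.eq_zero_or_pos n with h0 | h0
    · subst h0
      have h1 : ‖ni t 0‖ ≤ 1 := by
        unfold ni
        by_cases h : (-((t : ℂ) * Complex.I)) = 0
        · rw [h, Complex.cpow_zero]; simp
        · rw [Nat.cast_zero, Complex.zero_cpow h]; simp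
      rw [norm_mul]
      exact mul_le_one₀ (hf.bd 0) (norm_nonneg _) h1
    · rw [norm_mul, norm_ni t n h0, mul_one]
      exact hf.bd n

theorem pt_DD (f : ℕ → ℂ) (t u : ℝ) (N : ℕ) :
    DD (fun n => f n * ni t n) u N = DD f (t + u) N := by
  unfold DD
  refine Finset.sum_congr rfl fun p hp => ?_
  have hp0 : (p : ℂ) ≠ 0 := by exact_mod_cast (Finset.mem_filter.1 hp).2.ne_zero
  have h1 : ni t p * ni u p = ni (t + u) p := by
    unfold ni
    rw [← Complex.cpow_add _ _ hp0]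
    congr 1
    push_cast
    ring
  rw [mul_assoc, h1]

theorem pt_abel (g : ℕ → ℂ) (X k : ℕ) :
    ∑ n ∈ Ioc X (X + k), g n / n =
      (∑ n ∈ Icc 1 (X + k), g n) / ((X + k : ℕ) + 1) - (∑ n ∈ Icc 1 X, g n) / (X + 1) +
        ∑ n ∈ Ioc X (X + k), (∑ i ∈ Icc 1 n, g i) * (1 / (n : ℂ) - 1 / (n + 1)) := by
  induction k with
  | zero => simp
  | succ k ih =>
    have e1 : Ioc X (X + (k + 1)) = insert (X + k + 1) (Ioc X (X + k)) := by
      ext n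
      simp only [Finset.mem_Ioc, Finset.mem_insert]
      omega
    have e2 : Icc 1 (X + (k + 1)) = insert (X + k + 1) (Icc 1 (X + k)) := by
      ext n
      simp only [Finset.mem_Icc, Finset.mem_insert]
      omega
    have n1 : X + k + 1 ∉ Ioc X (X + k) := by simp only [Finset.mem_Ioc]; omega
    have n2 : X + k + 1 ∉ Icc 1 (X + k) := by simp only [Finset.mem_Icc]; omega
    have e3 : Icc 1 (X + k + 1) = insert (X + k + 1) (Icc 1 (X + k)) := e2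
    rw [e1, Finset.sum_insert n1, Finset.sum_insert n1, ih, e2, e3, Finset.sum_insert n2]
    have h1 : (((X + k : ℕ) : ℂ) + 1) ≠ 0 := by exact_mod_cast (by omega : X + k + 1 ≠ 0)
    have h2 : (((X + k : ℕ) : ℂ) + 1 + 1) ≠ 0 := by exact_mod_cast (by omega : X + k + 1 + 1 ≠ 0)
    have c1 : ((X + k + 1 : ℕ) : ℂ) = ((X + k : ℕ) : ℂ) + 1 := by push_cast; ring
    have c2 : ((X + (k + 1) : ℕ) : ℂ) = ((X + k : ℕ) : ℂ) + 1 := by push_cast; ring
    rw [c1, c2]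
    generalize ((X + k : ℕ) : ℂ) = Z at *
    generalize (∑ n ∈ Icc 1 (X + k), g n) = A at *
    generalize (∑ n ∈ Ioc X (X + k), (∑ i ∈ Icc 1 n, g i) * (1 / (n : ℂ) - 1 / (n + 1))) = B at *
    generalize (∑ n ∈ Icc 1 X, g n) / ((X : ℂ) + 1) = D at *
    field_simp
    ring

theorem pt_bound (g : ℕ → ℂ) (X : ℕ) (hX : 1 ≤ X) (η : ℝ)
    (h : ∀ N : ℕ, X ≤ N → N ≤ 6 * X → ‖∑ n ∈ Icc 1 N, g n‖ ≤ η * N) (hη : 0 < η) :
    ‖∑ n ∈ Ioc X (6 * X), g n / n‖ ≤ 7 * η := by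
  have hX0 : (0 : ℝ) < X := by exact_mod_cast hX
  have e0 : 6 * X = X + 5 * X := by ring
  have h1 : ∀ N : ℕ, X ≤ N → N ≤ 6 * X → ‖(∑ n ∈ Icc 1 N, g n) / ((N : ℂ) + 1)‖ ≤ η := by
    intro N h1 h2
    have h3 : ‖((N : ℂ) + 1)‖ = (N : ℝ) + 1 := by
      have : ((N : ℂ) + 1) = (((N : ℝ) + 1 : ℝ) : ℂ) := by push_cast; rfl
      rw [this, Complex.norm_real, Real.norm_eq_abs, abs_of_nonneg (by positivity)]
    rw [norm_div, h3, div_le_iff₀ (by positivity)]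
    refine (h N h1 h2).trans ?_
    nlinarith
  have h2 := pt_abel g X (5 * X)
  rw [← e0] at h2
  rw [h2]
  have h3 : ‖∑ n ∈ Ioc X (6 * X), (∑ i ∈ Icc 1 n, g i) * (1 / (n : ℂ) - 1 / (n + 1))‖ ≤ 5 * η := by
    refine (norm_sum_le _ _).trans ?_
    have h4 : ∀ n ∈ Ioc X (6 * X), ‖(∑ i ∈ Icc 1 n, g i) * (1 / (n : ℂ) - 1 / (n + 1))‖ ≤ η / X := by
      intro n hn
      rw [Finset.mem_Ioc] at hn
      have hn0 : (0 : ℝ) < n := by exact_mod_cast (by omega : 0 < n)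
      have hnX : (X : ℝ) ≤ n := by exact_mod_cast hn.1.le
      have h5 : (1 / (n : ℂ) - 1 / (n + 1)) = ((1 / ((n : ℝ) * (n + 1)) : ℝ) : ℂ) := by
        have c1 : (n : ℂ) ≠ 0 := by exact_mod_cast (by omega : n ≠ 0)
        have c2 : ((n : ℂ) + 1) ≠ 0 := by exact_mod_cast (by omega : n + 1 ≠ 0)
        push_cast
        field_simp
        ring
      rw [norm_mul, h5, Complex.norm_real, Real.norm_eq_abs, abs_of_nonneg (by positivity)]
      calc ‖∑ i ∈ Icc 1 n, g i‖ * (1 / ((n : ℝ) * (n + 1)))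
          ≤ (η * n) * (1 / ((n : ℝ) * (n + 1))) :=
            mul_le_mul_of_nonneg_right (h n hn.1.le hn.2) (by positivity)
        _ = η / (n + 1) := by field_simp
        _ ≤ η / X := div_le_div_of_nonneg_left hη.le hX0 (by linarith)
    refine (Finset.sum_le_sum h4).trans ?_
    rw [Finset.sum_const, nsmul_eq_mul, Nat.card_Ioc]
    have h6 : ((6 * X - X : ℕ) : ℝ) = 5 * X := by
      have : 6 * X - X = 5 * X := by omega
      rw [this]; push_cast; ring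
    rw [h6]
    apply le_of_eq
    field_simp
  refine (norm_add_le _ _).trans ?_
  have h7 := norm_sub_le ((∑ n ∈ Icc 1 (6 * X), g n) / (((6 * X : ℕ) : ℂ) + 1)) ((∑ n ∈ Icc 1 X, g n) / ((X : ℂ) + 1))
  have h8 := h1 (6 * X) (by omega) le_rfl
  have h9 := h1 X le_rfl (by omega)
  linarith

theorem pt (f : ℕ → ℂ) (hf : OB f) (hN : CondN1 f) (η : ℝ) (hη : 0 < η) : ∃ X₀ : ℕ, ∀ X : ℕ, X₀ ≤ X → ∀ t : ℝ, |t| ≤ (X : ℝ) / 2 →
    ‖ds f X (6 * X) t‖ ≤ η := by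
  obtain ⟨T₀, M, Y₀, hT, hal'⟩ := hal (η / 7) (by positivity)
  obtain ⟨X₁, hX₁⟩ := hN M
  refine ⟨max (max Y₀ X₁) (max ⌈2 * T₀⌉₊ 1), ?_⟩
  intro X hX t ht
  have a1 : Y₀ ≤ X := (le_max_left _ _).trans ((le_max_left _ _).trans hX)
  have a2 : X₁ ≤ X := (le_max_right _ _).trans ((le_max_left _ _).trans hX)
  have a3 : ⌈2 * T₀⌉₊ ≤ X := (le_max_left _ _).trans ((le_max_right _ _).trans hX)
  have a4 : 1 ≤ X := (le_max_right _ _).trans ((le_max_right _ _).trans hX)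
  have a5 : 2 * T₀ ≤ X := (Nat.le_ceil _).trans (by exact_mod_cast a3)
  have hb := pt_bound (fun n => f n * ni t n) X a4 (η / 7) ?_ (by positivity)
  · have e1 : ds f X (6 * X) t = ∑ n ∈ Ioc X (6 * X), f n * ni t n / n := by
      unfold ds
      refine Finset.sum_congr rfl fun n hn => ?_
      rw [Finset.mem_Ioc] at hn
      rw [nj_eq t n (by omega)]
      unfold ni
      ring
    rw [e1]
    linarith
  · intro N h1 h2
    refine hal' N _ (a1.trans h1) (pt_OB f hf t) ?_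
    intro u hu
    rw [pt_DD]
    refine hX₁ N (a2.trans h1) (t + u) ?_
    have h3 : (X : ℝ) ≤ N := by exact_mod_cast h1
    calc |t + u| ≤ |t| + |u| := abs_add_le _ _
      _ ≤ N := by linarith

theorem pt0 (f : ℕ → ℂ) (hf : OB f) (hN : CondN1 f) (η : ℝ) (hη : 0 < η) : ∃ X₀ : ℕ, ∀ N : ℕ, X₀ ≤ N →
    ‖∑ n ∈ Icc 1 N, f n‖ ≤ η * N := by
  obtain ⟨T₀, M, Y₀, hT, hal'⟩ := hal η hη
  obtain ⟨X₁, hX₁⟩ := hN M
  refine ⟨max (max Y₀ X₁) ⌈T₀⌉₊, ?_⟩
  intro N hNN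
  have a1 : Y₀ ≤ N := (le_max_left _ _).trans ((le_max_left _ _).trans hNN)
  have a2 : X₁ ≤ N := (le_max_right _ _).trans ((le_max_left _ _).trans hNN)
  have a3 : ⌈T₀⌉₊ ≤ N := (le_max_right _ _).trans hNN
  have a5 : T₀ ≤ N := (Nat.le_ceil _).trans (by exact_mod_cast a3)
  exact hal' N f a1 hf fun u hu => hX₁ N a2 u (hu.trans a5)

end Pool.H2.MR
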