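import Pool.Agent.H2.MR.Err
import Pool.Agent.H2.MR.Prl
import Pool.Agent.H2.MR.Hs
import Pool.Agent.H2.MR.Hp
import Pool.Agent.H2.MR.Pt

/-!
# [H2 MR FIN] Sets of measure at most `X^δ`

PROOF. Constants: `Ce` (`err`), `C0` (`prl`), `δs, Cs` (`hs`). `H = ⌈32 Ce/ε⌉₊ + 1`; `θ ∈ (0, 1/20)` with `Ce/(log(1/θ) - C0 - 2) ≤ ε/32`. `K = ⌈2/θ²⌉₊`, `δp, Cp` from `hp K`. `δ = min δs δp`.
For `X` large let `x = log X`, `a = ⌈Hθ²x⌉₊`, `b = ⌊Hθx⌋₊`, so `exp(a/H) ≥ X^(θ²)`, `exp(b/H) ≤ X^θ`, `EE H b ≤ X`, `b/a ≥ (1/θ) e^(-1)`, so `∑_{PR} 1/p ≥ log(1/θ) - 1 - C0`. `err` with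
`T = X/2`: the mean square of `F - ∑ pv mv` over `[-T,T]` is `≤ ε/32·3 + o(1) ≤ ε/8`.
`E1 = {t ∈ U : κ < x ∑_v ‖pv‖²}`. On `U \ E1`: `‖∑ pv mv‖² ≤ (∑‖pv‖²)(∑‖mv‖²) ≤ (κ/x) ∑_v ‖mv‖²`; `hs` for `mco` (norm `≤ 1`), `M1 = lo H X v ≥ X^(1-θ)/e² - 1 ≥ X^(1/2)`,
`M2 = hi ≤ 20(M1+1)` (`6X exp(-v/H) ≤ 6e X exp(-(v+1)/H)`, `6e ≤ 17`): `∫_U ‖mv‖² ≤ Cs`; there are `b - a ≤ Hx` values of `v`, so
`∫_{U\E1} ‖∑ pv mv‖² ≤ κ H Cs ≤ ε/8` with `κ = ε/(8HCs)`. Hence `∫_{U\E1} ‖F‖² ≤ 2ε/8 + 2ε/8 = ε/2`.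
`vol(E1) ≤ (x/κ) ∑_v ∫_U ‖pv‖² ≤ (x/κ)(Hx)(Cp/x²) = HCp/κ` (`hp` with `M1 = EE H v ≥ X^(θ²) - 1 ≥ X^(1/K)`, `M2 = EE H (v+1) ≤ e(EE H v + 1)`, `c = f`, `M1 + 1 ≤ 2X`). `pt` with
`η² HCp/κ ≤ ε/2`: `∫_{E1} ‖F‖² ≤ ε/2`.
-/

namespace Pool.H2.MR

open Finset MeasureTheory

theorem fin_nj_cont (n : ℕ) (hn : 1 ≤ n) : Continuous fun t : ℝ => nj t n := by
  have h0 : (n : ℂ) ≠ 0 := by
    have : n ≠ 0 := by omega
    exact_mod_cast this
  unfold nj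
  refine Continuous.const_cpow ?_ (Or.inl h0)
  fun_prop

theorem fin_ds_cont (c : ℕ → ℂ) (N N' : ℕ) : Continuous fun t : ℝ => ds c N N' t := by
  unfold ds
  refine continuous_finsetSum _ fun n hn => continuous_const.mul (fin_nj_cont n ?_)
  rw [mem_Ioc] at hn
  omega

theorem fin_pv_cont (f : ℕ → ℂ) (H v : ℕ) : Continuous fun t : ℝ => pv f H v t := by
  unfold pv
  refine continuous_finsetSum _ fun n hn => continuous_const.mul (fin_nj_cont n ?_)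
  unfold Bl at hn
  rw [mem_filter, mem_Ioc] at hn
  omega

/-- the measure theoretic part -/
theorem fin_meas (F : ℝ → ℂ) (P M : ℕ → ℝ → ℂ) (s : Finset ℕ) (U : Set ℝ) (T e1 Cs p2 η κ n : ℝ)
    (hU : MeasurableSet U) (hUT : U ⊆ Set.Icc (-T) T) (hT : 0 ≤ T) (hF : Continuous F)
    (hP : ∀ v, Continuous (P v)) (hM : ∀ v, Continuous (M v)) (hκ : 0 < κ) (hCs : 0 ≤ Cs) (hp2 : 0 ≤ p2)
    (hn : (s.card : ℝ) ≤ n) (hη : ∀ t, |t| ≤ T → ‖F t‖ ≤ η)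
    (h1 : ∫ t in (-T)..T, ‖F t - ∑ v ∈ s, P v t * M v t‖ ^ 2 ≤ e1)
    (h2 : ∀ v ∈ s, ∫ t in U, ‖M v t‖ ^ 2 ≤ Cs) (h3 : ∀ v ∈ s, ∫ t in U, ‖P v t‖ ^ 2 ≤ p2) :
    ∫ t in U, ‖F t‖ ^ 2 ≤ 2 * e1 + 2 * κ * (n * Cs) + η ^ 2 / κ * (n * p2) := by
  have hint : ∀ g : ℝ → ℝ, Continuous g → IntegrableOn g U := fun g hg =>
    (hg.integrableOn_Icc (a := -T) (b := T)).mono_set hUT
  have hJ : Continuous fun t => ∑ v ∈ s, P v t * M v t :=
    continuous_finsetSum _ fun v _ => (hP v).mul (hM v)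
  have hD : Continuous fun t => ‖F t - ∑ v ∈ s, P v t * M v t‖ ^ 2 := (hF.sub hJ).norm.pow 2
  have hMc : Continuous fun t => ∑ v ∈ s, ‖M v t‖ ^ 2 :=
    continuous_finsetSum _ fun v _ => (hM v).norm.pow 2
  have hPc : Continuous fun t => ∑ v ∈ s, ‖P v t‖ ^ 2 :=
    continuous_finsetSum _ fun v _ => (hP v).norm.pow 2
  have hA : Continuous fun t => 2 * ‖F t - ∑ v ∈ s, P v t * M v t‖ ^ 2 := continuous_const.mul hD
  have hB : Continuous fun t => 2 * κ * ∑ v ∈ s, ‖M v t‖ ^ 2 := continuous_const.mul hMc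
  have hC : Continuous fun t => η ^ 2 / κ * ∑ v ∈ s, ‖P v t‖ ^ 2 := continuous_const.mul hPc
  have hAB : Continuous fun t => 2 * ‖F t - ∑ v ∈ s, P v t * M v t‖ ^ 2 +
      2 * κ * ∑ v ∈ s, ‖M v t‖ ^ 2 := hA.add hB
  have hpt : ∀ t ∈ U, ‖F t‖ ^ 2 ≤ (2 * ‖F t - ∑ v ∈ s, P v t * M v t‖ ^ 2 +
      2 * κ * ∑ v ∈ s, ‖M v t‖ ^ 2) + η ^ 2 / κ * ∑ v ∈ s, ‖P v t‖ ^ 2 := by
    intro t ht
    have hS0 : 0 ≤ ∑ v ∈ s, ‖P v t‖ ^ 2 := Finset.sum_nonneg fun v _ => by positivity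
    have hM0 : 0 ≤ ∑ v ∈ s, ‖M v t‖ ^ 2 := Finset.sum_nonneg fun v _ => by positivity
    rcases le_or_gt (∑ v ∈ s, ‖P v t‖ ^ 2) κ with hle | hlt
    · have e1 : ‖∑ v ∈ s, P v t * M v t‖ ^ 2 ≤ κ * ∑ v ∈ s, ‖M v t‖ ^ 2 := by
        have e2 : ‖∑ v ∈ s, P v t * M v t‖ ≤ ∑ v ∈ s, ‖P v t‖ * ‖M v t‖ := by
          refine (norm_sum_le _ _).trans (le_of_eq ?_)
          exact Finset.sum_congr rfl fun v _ => norm_mul _ _
        calc ‖∑ v ∈ s, P v t * M v t‖ ^ 2 ≤ (∑ v ∈ s, ‖P v t‖ * ‖M v t‖) ^ 2 :=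
              pow_le_pow_left₀ (norm_nonneg _) e2 2
          _ ≤ (∑ v ∈ s, ‖P v t‖ ^ 2) * ∑ v ∈ s, ‖M v t‖ ^ 2 := Finset.sum_mul_sq_le_sq_mul_sq _ _ _
          _ ≤ κ * ∑ v ∈ s, ‖M v t‖ ^ 2 := mul_le_mul_of_nonneg_right hle hM0
      have e3 : ‖F t‖ ≤ ‖F t - ∑ v ∈ s, P v t * M v t‖ + ‖∑ v ∈ s, P v t * M v t‖ := by
        have := norm_add_le (F t - ∑ v ∈ s, P v t * M v t) (∑ v ∈ s, P v t * M v t)
        rwa [sub_add_cancel] at this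
      have e4 : ‖F t‖ ^ 2 ≤ (‖F t - ∑ v ∈ s, P v t * M v t‖ + ‖∑ v ∈ s, P v t * M v t‖) ^ 2 :=
        pow_le_pow_left₀ (norm_nonneg _) e3 2
      have e5 : 0 ≤ η ^ 2 / κ * ∑ v ∈ s, ‖P v t‖ ^ 2 := by positivity
      nlinarith [sq_nonneg (‖F t - ∑ v ∈ s, P v t * M v t‖ - ‖∑ v ∈ s, P v t * M v t‖)]
    · have hTt : |t| ≤ T := abs_le.2 (hUT ht)
      have e1 : ‖F t‖ ^ 2 ≤ η ^ 2 := pow_le_pow_left₀ (norm_nonneg _) (hη t hTt) 2
      have e2 : η ^ 2 ≤ η ^ 2 / κ * ∑ v ∈ s, ‖P v t‖ ^ 2 := by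
        calc η ^ 2 = η ^ 2 / κ * κ := by field_simp
          _ ≤ _ := mul_le_mul_of_nonneg_left hlt.le (by positivity)
      have e3 : 0 ≤ 2 * ‖F t - ∑ v ∈ s, P v t * M v t‖ ^ 2 + 2 * κ * ∑ v ∈ s, ‖M v t‖ ^ 2 := by
        positivity
      linarith
  have hF2 : Continuous fun t => ‖F t‖ ^ 2 := hF.norm.pow 2
  have hABC : Continuous fun t => (2 * ‖F t - ∑ v ∈ s, P v t * M v t‖ ^ 2 +
      2 * κ * ∑ v ∈ s, ‖M v t‖ ^ 2) + η ^ 2 / κ * ∑ v ∈ s, ‖P v t‖ ^ 2 := hAB.add hC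
  have hmono := setIntegral_mono_on (hint _ hF2) (hint _ hABC) hU hpt
  have hM2 : ∀ v, Continuous fun t => ‖M v t‖ ^ 2 := fun v => (hM v).norm.pow 2
  have hP2 : ∀ v, Continuous fun t => ‖P v t‖ ^ 2 := fun v => (hP v).norm.pow 2
  rw [integral_add (hint _ hAB) (hint _ hC), integral_add (hint _ hA) (hint _ hB),
    integral_const_mul, integral_const_mul, integral_const_mul,
    integral_finsetSum _ (fun v _ => hint _ (hM2 v)),
    integral_finsetSum _ (fun v _ => hint _ (hP2 v))] at hmono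
  have g1 : ∫ t in U, ‖F t - ∑ v ∈ s, P v t * M v t‖ ^ 2 ≤ e1 := by
    refine le_trans ?_ h1
    rw [intervalIntegral.integral_of_le (by linarith), ← integral_Icc_eq_integral_Ioc]
    exact setIntegral_mono_set hD.integrableOn_Icc
      (Filter.Eventually.of_forall fun t => by positivity) (LE.le.eventuallyLE hUT)
  have g2 : ∑ v ∈ s, ∫ t in U, ‖M v t‖ ^ 2 ≤ n * Cs := by
    calc ∑ v ∈ s, ∫ t in U, ‖M v t‖ ^ 2 ≤ ∑ v ∈ s, Cs := Finset.sum_le_sum h2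
      _ = s.card * Cs := by rw [Finset.sum_const, nsmul_eq_mul]
      _ ≤ n * Cs := mul_le_mul_of_nonneg_right hn hCs
  have g3 : ∑ v ∈ s, ∫ t in U, ‖P v t‖ ^ 2 ≤ n * p2 := by
    calc ∑ v ∈ s, ∫ t in U, ‖P v t‖ ^ 2 ≤ ∑ v ∈ s, p2 := Finset.sum_le_sum h3
      _ = s.card * p2 := by rw [Finset.sum_const, nsmul_eq_mul]
      _ ≤ n * p2 := mul_le_mul_of_nonneg_right hn hp2
  have g4 : 2 * κ * ∑ v ∈ s, ∫ t in U, ‖M v t‖ ^ 2 ≤ 2 * κ * (n * Cs) :=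
    mul_le_mul_of_nonneg_left g2 (by positivity)
  have g5 : η ^ 2 / κ * ∑ v ∈ s, ∫ t in U, ‖P v t‖ ^ 2 ≤ η ^ 2 / κ * (n * p2) :=
    mul_le_mul_of_nonneg_left g3 (by positivity)
  linarith

/-- the parameters -/
theorem fin_par (θ x : ℝ) (H a b : ℕ) (hθ : 0 < θ) (hθ1 : θ < 1 / 20) (hH : 1 ≤ H)
    (hx : 2 ≤ θ ^ 2 * x) (ha : a = ⌈(H : ℝ) * (θ ^ 2 * x)⌉₊) (hb : b = ⌊(H : ℝ) * (θ * x)⌋₊) :
    2 * H ≤ a ∧ a < b ∧ -Real.log θ - 1 ≤ Real.log ((b : ℝ) / a) ∧ θ ^ 2 * x ≤ (a : ℝ) / H ∧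
      (b : ℝ) / H ≤ θ * x ∧ (b : ℝ) ≤ H * x ∧ 800 ≤ x := by
  have hHR : (1 : ℝ) ≤ H := by exact_mod_cast hH
  have hH0 : (0 : ℝ) < H := by linarith
  have hx0 : 800 ≤ x := by
    have h1 : θ ^ 2 ≤ 1 / 400 := by nlinarith
    by_contra hcon
    rw [not_le] at hcon
    have h2 : θ ^ 2 * x < 2 := by
      rcases le_or_gt x 0 with h | h
      · have : θ ^ 2 * x ≤ 0 := mul_nonpos_of_nonneg_of_nonpos (sq_nonneg θ) h
        linarith
      · calc θ ^ 2 * x ≤ 1 / 400 * x := mul_le_mul_of_nonneg_right h1 h.le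
          _ < 2 := by linarith
    linarith
  have hA2 : 2 * (H : ℝ) ≤ H * (θ ^ 2 * x) := by nlinarith
  have hA0 : 0 ≤ (H : ℝ) * (θ ^ 2 * x) := by linarith
  have ha1 : (H : ℝ) * (θ ^ 2 * x) ≤ a := by rw [ha]; exact Nat.le_ceil _
  have ha2 : (a : ℝ) < H * (θ ^ 2 * x) + 1 := by rw [ha]; exact Nat.ceil_lt_add_one hA0
  have hB0 : 0 ≤ (H : ℝ) * (θ * x) := by positivity
  have hb1 : (b : ℝ) ≤ H * (θ * x) := by rw [hb]; exact Nat.floor_le hB0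
  have hb2 : (H : ℝ) * (θ * x) < b + 1 := by rw [hb]; exact Nat.lt_floor_add_one _
  have ha0 : (0 : ℝ) < a := by linarith
  have he : (2.7 : ℝ) < Real.exp 1 := lt_trans (by norm_num) Real.exp_one_gt_d9
  have he3 : Real.exp 1 < 2.72 := lt_trans Real.exp_one_lt_d9 (by norm_num)
  have hkey : (a : ℝ) ≤ Real.exp 1 * θ * b := by
    have h1 : θ * (H * (θ * x) - 1) ≤ θ * b := mul_le_mul_of_nonneg_left (by linarith) hθ.le
    have h2 : θ * (H * (θ * x) - 1) = H * (θ ^ 2 * x) - θ := by ring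
    have h3 : 0 ≤ θ * b := by
      rw [h2] at h1
      linarith
    have h4 : 2.7 * (θ * b) ≤ Real.exp 1 * (θ * b) := mul_le_mul_of_nonneg_right he.le h3
    rw [h2] at h1
    have h5 : Real.exp 1 * θ * b = Real.exp 1 * (θ * b) := by ring
    rw [h5]
    linarith
  have hb0 : (0 : ℝ) < b := by
    by_contra hcon
    rw [not_lt] at hcon
    have : Real.exp 1 * θ * b ≤ 0 := mul_nonpos_of_nonneg_of_nonpos (by positivity) hcon
    linarith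
  refine ⟨by exact_mod_cast (hA2.trans ha1), ?_, ?_, ?_, ?_, ?_, hx0⟩
  · have h1 : Real.exp 1 * θ * b ≤ (1 / 2) * b := by
      apply mul_le_mul_of_nonneg_right _ hb0.le
      nlinarith
    have h2 : (a : ℝ) < b := by linarith
    exact_mod_cast h2
  · have h1 : Real.exp (-1) / θ ≤ (b : ℝ) / a := by
      rw [div_le_div_iff₀ hθ ha0]
      have h2 : Real.exp (-1) * Real.exp 1 = 1 := by rw [← Real.exp_add]; norm_num
      calc Real.exp (-1) * a ≤ Real.exp (-1) * (Real.exp 1 * θ * b) :=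
            mul_le_mul_of_nonneg_left hkey (Real.exp_pos _).le
        _ = (Real.exp (-1) * Real.exp 1) * (b * θ) := by ring
        _ = b * θ := by rw [h2, one_mul]
    have h2 : Real.log (Real.exp (-1) / θ) = -Real.log θ - 1 := by
      rw [Real.log_div (Real.exp_pos _).ne' hθ.ne', Real.log_exp]
      ring
    rw [← h2]
    exact Real.log_le_log (by positivity) h1
  · rw [le_div_iff₀ hH0]
    linarith
  · rw [div_le_iff₀ hH0]
    linarith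
  · refine hb1.trans ?_
    apply mul_le_mul_of_nonneg_left _ hH0.le
    have : θ * x ≤ 1 * x := mul_le_mul_of_nonneg_right (by linarith) (by linarith)
    linarith

/-- the sizes of the blocks -/
theorem fin_blk (θ x : ℝ) (H a b X v : ℕ) (hθ : 0 < θ) (hθ1 : θ < 1 / 20) (hH : 1 ≤ H)
    (hx : 2 ≤ θ ^ 2 * x) (hx8 : 800 ≤ x) (hX : Real.exp x = X) (ha : θ ^ 2 * x ≤ (a : ℝ) / H)
    (hb : (b : ℝ) / H ≤ θ * x) (hva : a ≤ v) (hvb : v < b) :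
    Real.exp (x / 2) ≤ lo H X v ∧ (hi H X v : ℝ) ≤ 20 * ((lo H X v : ℝ) + 1) ∧
      Real.exp (θ ^ 2 * x / 2) ≤ EE H v ∧ (EE H v : ℝ) + 1 ≤ 2 * X ∧
      (EE H (v + 1) : ℝ) ≤ 20 * ((EE H v : ℝ) + 1) := by
  have hHR : (1 : ℝ) ≤ H := by exact_mod_cast hH
  have hH0 : (0 : ℝ) < H := by linarith
  have he : (2.7 : ℝ) < Real.exp 1 := lt_trans (by norm_num) Real.exp_one_gt_d9
  have he3 : Real.exp 1 < 2.72 := lt_trans Real.exp_one_lt_d9 (by norm_num)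
  have h1H : Real.exp (1 / (H : ℝ)) ≤ Real.exp 1 := by
    rw [Real.exp_le_exp, div_le_one hH0]
    exact hHR
  have hv1 : ((v : ℝ) + 1) / H ≤ θ * x := by
    refine le_trans ?_ hb
    apply div_le_div_of_nonneg_right _ hH0.le
    exact_mod_cast hvb
  have hv2 : θ ^ 2 * x ≤ (v : ℝ) / H := by
    refine ha.trans ?_
    apply div_le_div_of_nonneg_right _ hH0.le
    exact_mod_cast hva
  have hv3 : ((v : ℝ) + 1) / H = (v : ℝ) / H + 1 / H := by rw [add_div]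
  have h1H0 : 0 < 1 / (H : ℝ) := by positivity
  have hθx : θ * x ≤ 1 / 20 * x := mul_le_mul_of_nonneg_right hθ1.le (by linarith)
  -- lower end
  have hlo : (X : ℝ) * Real.exp (-(((v : ℝ) + 1) / H)) < (lo H X v : ℝ) + 1 := by
    unfold lo
    exact Nat.lt_floor_add_one _
  refine ⟨?_, ?_, ?_, ?_, ?_⟩
  · have h2 : Real.exp (x / 2 + 1) ≤ (X : ℝ) * Real.exp (-(((v : ℝ) + 1) / H)) := by
      rw [← hX, ← Real.exp_add, Real.exp_le_exp]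
      linarith
    have h3 : Real.exp (x / 2 + 1) = Real.exp (x / 2) * Real.exp 1 := Real.exp_add _ _
    have h4 : 1 ≤ Real.exp (x / 2) := Real.one_le_exp (by linarith)
    have h5 : Real.exp (x / 2) * 2 ≤ Real.exp (x / 2) * Real.exp 1 :=
      mul_le_mul_of_nonneg_left (by linarith) (by linarith)
    linarith
  · have h2 : (hi H X v : ℝ) ≤ 6 * (X : ℝ) * Real.exp (-((v : ℝ) / H)) := by
      unfold hi
      exact Nat.floor_le (by positivity)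
    have h3 : Real.exp (-((v : ℝ) / H)) = Real.exp (-(((v : ℝ) + 1) / H)) * Real.exp (1 / (H : ℝ)) := by
      rw [← Real.exp_add]
      congr 1
      rw [hv3]
      ring
    have h4 : 0 ≤ (X : ℝ) * Real.exp (-(((v : ℝ) + 1) / H)) := by positivity
    calc (hi H X v : ℝ) ≤ 6 * (X : ℝ) * Real.exp (-((v : ℝ) / H)) := h2
      _ = 6 * ((X : ℝ) * Real.exp (-(((v : ℝ) + 1) / H))) * Real.exp (1 / (H : ℝ)) := by
          rw [h3]
          ring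
      _ ≤ 6 * ((lo H X v : ℝ) + 1) * 2.72 := by
          apply mul_le_mul _ (by linarith) (Real.exp_pos _).le (by positivity)
          linarith
      _ ≤ 20 * ((lo H X v : ℝ) + 1) := by
          have : (0 : ℝ) ≤ (lo H X v : ℝ) := Nat.cast_nonneg _
          linarith
  · have h2 : Real.exp ((v : ℝ) / H) < (EE H v : ℝ) + 1 := by
      unfold EE
      exact Nat.lt_floor_add_one _
    have h3 : Real.exp (θ ^ 2 * x) ≤ Real.exp ((v : ℝ) / H) := Real.exp_le_exp.2 hv2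
    have h4 : Real.exp (θ ^ 2 * x) = Real.exp (θ ^ 2 * x / 2) * Real.exp (θ ^ 2 * x / 2) := by
      rw [← Real.exp_add]
      congr 1
      ring
    have h5 : Real.exp 1 ≤ Real.exp (θ ^ 2 * x / 2) := Real.exp_le_exp.2 (by linarith)
    nlinarith
  · have h2 : (EE H v : ℝ) ≤ Real.exp ((v : ℝ) / H) := by
      unfold EE
      exact Nat.floor_le (Real.exp_pos _).le
    have h3 : Real.exp ((v : ℝ) / H) ≤ X := by
      rw [← hX, Real.exp_le_exp]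
      linarith
    have h4 : (1 : ℝ) ≤ X := by
      rw [← hX]
      exact Real.one_le_exp (by linarith)
    linarith
  · have h2 : (EE H (v + 1) : ℝ) ≤ Real.exp (((v : ℝ) + 1) / H) := by
      unfold EE
      have := Nat.floor_le (Real.exp_pos (((v + 1 : ℕ) : ℝ) / H)).le
      push_cast at this ⊢
      exact this
    have h3 : Real.exp ((v : ℝ) / H) < (EE H v : ℝ) + 1 := by
      unfold EE
      exact Nat.lt_floor_add_one _
    have h4 : (0 : ℝ) ≤ (EE H v : ℝ) := Nat.cast_nonneg _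
    calc (EE H (v + 1) : ℝ) ≤ Real.exp (((v : ℝ) + 1) / H) := h2
      _ = Real.exp ((v : ℝ) / H) * Real.exp (1 / (H : ℝ)) := by rw [hv3, Real.exp_add]
      _ ≤ ((EE H v : ℝ) + 1) * 2.72 :=
          mul_le_mul h3.le (by linarith) (Real.exp_pos _).le (by linarith)
      _ ≤ 20 * ((EE H v : ℝ) + 1) := by linarith

theorem fin (ε : ℝ) (hε : 0 < ε) (hε1 : ε ≤ 1) : ∃ δ : ℝ, 0 < δ ∧ δ ≤ 1 ∧ ∀ f : ℕ → ℂ, OB f → CondN1 f → ∃ X₀ : ℕ, ∀ X : ℕ, X₀ ≤ X →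
    ∀ U : Set ℝ, MeasurableSet U → U ⊆ Set.Icc (-((X : ℝ) / 2)) ((X : ℝ) / 2) → volume U ≤ ENNReal.ofReal ((X : ℝ) ^ δ) →
    ∫ t in U, ‖ds f X (6 * X) t‖ ^ 2 ≤ ε := by
  obtain ⟨Ce, hCe, herr⟩ := err
  obtain ⟨C0, hC0, hprl⟩ := prl
  obtain ⟨δs, Cs, Xs, hδs, hCs, hXs, hhs⟩ := hs
  obtain ⟨H, hHd⟩ : ∃ H : ℕ, H = ⌈32 * Ce / ε⌉₊ + 1 := ⟨_, rfl⟩
  have hH : 1 ≤ H := by omega
  have hHR : (1 : ℝ) ≤ H := by exact_mod_cast hH
  have hH0 : (0 : ℝ) < H := by linarith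
  have hCeH : Ce / H ≤ ε / 32 := by
    have h1 : 32 * Ce / ε ≤ H := by
      rw [hHd]
      push_cast
      linarith [Nat.le_ceil (32 * Ce / ε)]
    rw [div_le_iff₀ hH0]
    rw [div_le_iff₀ hε] at h1
    linarith
  obtain ⟨L, hL⟩ : ∃ L : ℝ, L = 32 * Ce / ε + C0 + 5 := ⟨_, rfl⟩
  have hCeε : 0 < 32 * Ce / ε := by positivity
  obtain ⟨θ, hθd⟩ : ∃ θ : ℝ, θ = Real.exp (-L) := ⟨_, rfl⟩
  have hθ0 : 0 < θ := by rw [hθd]; exact Real.exp_pos _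
  have hθ1 : θ < 1 / 20 := by
    have h1 : θ ≤ Real.exp (-5) := by
      rw [hθd, Real.exp_le_exp]
      linarith
    have h2 : Real.exp (-5) * Real.exp 5 = 1 := by rw [← Real.exp_add]; norm_num
    have h3 : (20 : ℝ) < Real.exp 5 := by
      have h4 : Real.exp 5 = Real.exp 1 ^ 5 := by rw [← Real.exp_nat_mul]; norm_num
      rw [h4]
      have h5 : (2.7 : ℝ) < Real.exp 1 := lt_trans (by norm_num) Real.exp_one_gt_d9
      calc (20 : ℝ) < 2.7 ^ 5 := by norm_num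
        _ ≤ Real.exp 1 ^ 5 := pow_le_pow_left₀ (by norm_num) h5.le 5
    have h4 : Real.exp (-5) < 1 / 20 := by
      rw [lt_div_iff₀ (by norm_num)]
      have := Real.exp_pos (-5)
      nlinarith
    linarith
  have hlogθ : Real.log θ = -L := by rw [hθd, Real.log_exp]
  obtain ⟨K, hKd⟩ : ∃ K : ℕ, K = ⌈2 / θ ^ 2⌉₊ := ⟨_, rfl⟩
  have hK2 : 2 / θ ^ 2 ≤ K := by rw [hKd]; exact Nat.le_ceil _
  have hK0 : (0 : ℝ) < K := lt_of_lt_of_le (by positivity) hK2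
  have hK : 1 ≤ K := by exact_mod_cast hK0
  obtain ⟨δp, Cp, Xp, hδp, hCp, hXp, hhp⟩ := hp K hK
  refine ⟨min (min δs δp) 1, lt_min (lt_min hδs hδp) one_pos, min_le_right _ _, ?_⟩
  intro f hf hN
  obtain ⟨κ, hκd⟩ : ∃ κ : ℝ, κ = ε / (8 * H * Cs) := ⟨_, rfl⟩
  have hκ0 : 0 < κ := by rw [hκd]; positivity
  obtain ⟨η, hηd⟩ : ∃ η : ℝ, η = Real.sqrt (ε * κ / (2 * H * Cp)) := ⟨_, rfl⟩
  have hη0 : 0 < η := by rw [hηd]; exact Real.sqrt_pos.2 (by positivity)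
  have hη2 : η ^ 2 = ε * κ / (2 * H * Cp) := by rw [hηd]; exact Real.sq_sqrt (by positivity)
  obtain ⟨Xt, hpt⟩ := pt f hf hN η hη0
  have hev : ∀ᶠ X : ℕ in Filter.atTop, (32 * Ce / ε + 2) / θ ^ 2 ≤ Real.log X ∧ Xs ≤ X ∧ Xp ≤ X ∧ Xt ≤ X := by
    refine ((Real.tendsto_log_atTop.comp tendsto_natCast_atTop_atTop).eventually_ge_atTop _).and ?_
    refine (tendsto_natCast_atTop_atTop.eventually_ge_atTop Xs).and ?_
    exact (tendsto_natCast_atTop_atTop.eventually_ge_atTop Xp).and (Filter.eventually_ge_atTop Xt)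
  obtain ⟨X₀, hX₀⟩ := Filter.eventually_atTop.1 hev
  refine ⟨X₀, fun X hXX U hU hUT hvol => ?_⟩
  obtain ⟨g1, g2, g3, g4⟩ := hX₀ X hXX
  have hX1 : (1 : ℝ) ≤ X := le_trans hXs g2
  have hX0 : (0 : ℝ) < X := by linarith
  obtain ⟨x, hxd⟩ : ∃ x : ℝ, x = Real.log X := ⟨_, rfl⟩
  rw [← hxd] at g1
  have hexp : Real.exp x = X := by rw [hxd, Real.exp_log hX0]
  have hθ2 : 0 < θ ^ 2 := by positivity
  have hx1 : 32 * Ce / ε + 2 ≤ θ ^ 2 * x := by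
    rw [div_le_iff₀ hθ2] at g1
    linarith
  have hx2 : 2 ≤ θ ^ 2 * x := by linarith
  obtain ⟨a, had⟩ : ∃ a : ℕ, a = ⌈(H : ℝ) * (θ ^ 2 * x)⌉₊ := ⟨_, rfl⟩
  obtain ⟨b, hbd⟩ : ∃ b : ℕ, b = ⌊(H : ℝ) * (θ * x)⌋₊ := ⟨_, rfl⟩
  obtain ⟨q1, q2, q3, q4, q5, q6, q7⟩ := fin_par θ x H a b hθ0 hθ1 hH hx2 had hbd
  have hx0 : 0 < x := by linarith
  have hblk := fun v (hv : v ∈ Ico a b) => fin_blk θ x H a b X v hθ0 hθ1 hH hx2 q7 hexp q4 q5
    (mem_Ico.1 hv).1 (mem_Ico.1 hv).2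
  have hXnat : 1 ≤ X := by exact_mod_cast hX1
  have hXx : x ≤ X := by
    rw [← hexp]
    linarith [Real.add_one_le_exp x]
  -- the error
  have hsum : 32 * Ce / ε ≤ ∑ p ∈ PR H a b, 1 / (p : ℝ) := by
    refine le_trans ?_ (hprl H a b hH q1 q2)
    rw [hlogθ] at q3
    linarith
  have hsum0 : 0 < ∑ p ∈ PR H a b, 1 / (p : ℝ) := lt_of_lt_of_le hCeε hsum
  have hEb : EE H b ≤ X := by
    have h1 : (EE H b : ℝ) ≤ X := by
      unfold EE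
      refine (Nat.floor_le (Real.exp_pos _).le).trans ?_
      rw [← hexp, Real.exp_le_exp]
      have : θ * x ≤ 1 / 20 * x := mul_le_mul_of_nonneg_right hθ1.le hx0.le
      linarith
    exact_mod_cast h1
  have he := herr f H a b X ((X : ℝ) / 2) hf hH (by omega) q2 hXnat hEb (by linarith) (by linarith) hsum0
  have he1 : Ce * (1 / (∑ p ∈ PR H a b, 1 / (p : ℝ)) + Real.exp (-((a : ℝ) / H)) + 1 / H + 1 / X) ≤ ε / 8 := by
    have r1 : Ce * (1 / (∑ p ∈ PR H a b, 1 / (p : ℝ))) ≤ ε / 32 := by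
      rw [mul_one_div, div_le_iff₀ hsum0]
      rw [div_le_iff₀ hε] at hsum
      linarith
    have r2 : Ce * Real.exp (-((a : ℝ) / H)) ≤ ε / 32 := by
      have h1 : 32 * Ce / ε ≤ Real.exp ((a : ℝ) / H) := by
        linarith [Real.add_one_le_exp ((a : ℝ) / H)]
      rw [Real.exp_neg, ← div_eq_mul_inv, div_le_iff₀ (Real.exp_pos _)]
      rw [div_le_iff₀ hε] at h1
      linarith
    have r3 : Ce * (1 / (H : ℝ)) ≤ ε / 32 := by rw [mul_one_div]; exact hCeH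
    have r4 : Ce * (1 / (X : ℝ)) ≤ ε / 32 := by
      have h1 : θ ^ 2 * x ≤ x := by
        have h2 : θ ^ 2 ≤ 1 := by nlinarith
        calc θ ^ 2 * x ≤ 1 * x := mul_le_mul_of_nonneg_right h2 hx0.le
          _ = x := one_mul x
      have h2 : 32 * Ce / ε ≤ X := by linarith
      rw [mul_one_div, div_le_iff₀ hX0]
      rw [div_le_iff₀ hε] at h2
      linarith
    calc Ce * (1 / (∑ p ∈ PR H a b, 1 / (p : ℝ)) + Real.exp (-((a : ℝ) / H)) + 1 / H + 1 / X)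
        = Ce * (1 / (∑ p ∈ PR H a b, 1 / (p : ℝ))) + Ce * Real.exp (-((a : ℝ) / H)) +
          Ce * (1 / (H : ℝ)) + Ce * (1 / (X : ℝ)) := by ring
      _ ≤ ε / 8 := by linarith
  -- the volumes
  have hvs : volume U ≤ ENNReal.ofReal ((X : ℝ) ^ δs) := hvol.trans (ENNReal.ofReal_le_ofReal
    (Real.rpow_le_rpow_of_exponent_le hX1 ((min_le_left _ _).trans (min_le_left _ _))))
  have hvp : volume U ≤ ENNReal.ofReal ((X : ℝ) ^ δp) := hvol.trans (ENNReal.ofReal_le_ofReal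
    (Real.rpow_le_rpow_of_exponent_le hX1 ((min_le_left _ _).trans (min_le_right _ _))))
  have hm2 : ∀ v ∈ Ico a b, ∫ t in U, ‖mv f H a b X v t‖ ^ 2 ≤ Cs := by
    intro v hv
    obtain ⟨s1, s2, s3, s4, s5⟩ := hblk v hv
    refine hhs X U (mco f H a b) (lo H X v) (hi H X v) g2 hU hUT hvs ?_ ?_ s2
    · intro n
      unfold mco
      rw [norm_div]
      have h1 : ‖((om H a b n : ℂ) + 1)‖ = (om H a b n : ℝ) + 1 := by
        have : ((om H a b n : ℂ) + 1) = (((om H a b n + 1 : ℕ)) : ℂ) := by push_cast; rfl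
        rw [this, Complex.norm_natCast]
        push_cast
        rfl
      rw [h1, div_le_one (by positivity)]
      have h2 : (0 : ℝ) ≤ (om H a b n : ℝ) := Nat.cast_nonneg _
      linarith [hf.bd n]
    · refine le_trans (le_of_eq ?_) s1
      rw [Real.rpow_def_of_pos hX0, ← hxd]
      congr 1
      ring
  have hp2 : ∀ v ∈ Ico a b, ∫ t in U, ‖pv f H v t‖ ^ 2 ≤ Cp / x ^ 2 := by
    intro v hv
    obtain ⟨s1, s2, s3, s4, s5⟩ := hblk v hv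
    have h1 := hhp X U f (EE H v) (EE H (v + 1)) g3 hU hUT hvp hf.bd (by
      refine le_trans ?_ s3
      rw [Real.rpow_def_of_pos hX0, ← hxd, Real.exp_le_exp]
      have h2 : 1 / (K : ℝ) ≤ θ ^ 2 / 2 := by
        rw [div_le_div_iff₀ hK0 (by norm_num)]
        rw [div_le_iff₀ hθ2] at hK2
        linarith
      calc x * (1 / (K : ℝ)) ≤ x * (θ ^ 2 / 2) := mul_le_mul_of_nonneg_left h2 hx0.le
        _ = θ ^ 2 * x / 2 := by ring) s4 s5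
    rw [← hxd] at h1
    exact h1
  have hcard : (((Ico a b).card : ℕ) : ℝ) ≤ H * x := by
    rw [Nat.card_Ico]
    refine le_trans ?_ q6
    exact_mod_cast Nat.sub_le _ _
  have hmain := fin_meas (fun t => ds f X (6 * X) t) (fun v t => pv f H v t) (fun v t => mv f H a b X v t)
    (Ico a b) U ((X : ℝ) / 2) (ε / 8) Cs (Cp / x ^ 2) η (κ / x) (H * x) hU hUT (by positivity)
    (fin_ds_cont f X (6 * X)) (fin_pv_cont f H) (fun v => fin_ds_cont _ _ _) (by positivity) hCs.le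
    (by positivity) hcard (fun t ht => hpt X g4 t ht) (he.trans he1) hm2 hp2
  refine hmain.trans (le_of_eq ?_)
  rw [hη2, hκd]
  field_simp
  ring

end Pool.H2.MR
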