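import Pool.Agent.H2.MR.Defs

/-!
# [H2 MR HA1] Halász's theorem, step 1: logarithms

`Sg g x = ∑_{n ≤ x} g n` for real `x`.

PROOF. `∑_{n≤N} log(N/n) ≤ 2N` (e.g. `log(N/n) ≤ ∑_{n≤k<N} 1/k·...`, or `∑_{n≤N} log n ≥ N log N - N`, Mathlib `Stirling`/`Real.log_factorial` bounds; or compare
with `∫_0^N log(N/x) dx = N`). So `|log N Sg g N - ∑_{n≤N} g n log n| ≤ 2N`. `log n = ∑_{p^k ∥ n} log p^k` and for `p^k ∥ n`, `n = p^k m`, `p ∤ m`, `g n = g(p^k) g(m)`:
`∑_{n≤N} g n log n = ∑_{p^k ≤ N} log(p^k) g(p^k) ∑_{m ≤ N/p^k, p∤m} g m`. The terms with `k ≥ 2` are at most `∑_p ∑_{k≥2} k log p · N/p^k ≤ C N`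
(`∑_{k≥2} k/p^k ≤ 8/p²`, `∑_n log n/n² < ∞`), the terms `k = 1`: `∑_p log p g(p) (Sg g (N/p) - ∑_{m≤N/p, p∣m} g m)` and
`∑_p log p N/p² ≤ C N`. Hence `|log N Sg g N| ≤ ∑_{p≤N} log p |Sg g (N/p)| + C N`.
-/

namespace Pool.H2.MR

open Finset

noncomputable def Sg (g : ℕ → ℂ) (x : ℝ) : ℂ := ∑ n ∈ Icc 1 ⌊x⌋₊, g n

private theorem ha1_log : ∃ K : ℝ, 0 ≤ K ∧ ∀ N : ℕ, ∑ n ∈ Icc 1 N, Real.log n / (n : ℝ) ^ 2 ≤ K := by
  have hs : Summable (fun n : ℕ => 2 * (1 / (n : ℝ) ^ (3 / 2 : ℝ))) :=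
    (Real.summable_one_div_nat_rpow.2 (by norm_num)).mul_left 2
  refine ⟨∑' n : ℕ, 2 * (1 / (n : ℝ) ^ (3 / 2 : ℝ)), tsum_nonneg fun n => by positivity,
    fun N => ?_⟩
  refine le_trans (Finset.sum_le_sum fun n hn => ?_)
    (hs.sum_le_tsum (Icc 1 N) fun n _ => by positivity)
  rw [mem_Icc] at hn
  have hn0 : (0 : ℝ) < n := by exact_mod_cast hn.1
  have h1 := Real.log_le_rpow_div hn0.le (ε := 1 / 2) (by norm_num)
  rw [div_le_iff₀ (by positivity)]
  have h2 : (n : ℝ) ^ 2 = (n : ℝ) ^ (3 / 2 : ℝ) * (n : ℝ) ^ (1 / 2 : ℝ) := by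
    rw [← Real.rpow_add hn0, ← Real.rpow_natCast]
    norm_num
  rw [h2]
  have h3 : 0 < (n : ℝ) ^ (3 / 2 : ℝ) := by positivity
  calc Real.log n ≤ (n : ℝ) ^ (1 / 2 : ℝ) / (1 / 2) := h1
    _ = 2 * (1 / (n : ℝ) ^ (3 / 2 : ℝ)) * ((n : ℝ) ^ (3 / 2 : ℝ) * (n : ℝ) ^ (1 / 2 : ℝ)) := by
      field_simp

private theorem ha1_fact (N : ℕ) (hN : 1 ≤ N) :
    ∑ n ∈ Icc 1 N, (Real.log N - Real.log n) ≤ N := by
  have hN0 : (0 : ℝ) < N := by exact_mod_cast hN
  have h1 : ∑ n ∈ Icc 1 N, Real.log n = Real.log (N.factorial : ℝ) := by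
    clear hN hN0
    induction N with
    | zero => simp
    | succ n ih =>
      rw [Finset.sum_Icc_succ_top (by omega), ih, Nat.factorial_succ, Nat.cast_mul,
        Real.log_mul (by exact_mod_cast (by omega : n + 1 ≠ 0))
          (by exact_mod_cast n.factorial_ne_zero), add_comm]
  have h2 := Real.pow_div_factorial_le_exp (N : ℝ) hN0.le N
  have hf : (0 : ℝ) < (N.factorial : ℝ) := by exact_mod_cast N.factorial_pos
  have h3 : Real.log ((N : ℝ) ^ N / (N.factorial : ℝ)) ≤ N := by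
    have := Real.log_le_log (by positivity) h2
    rwa [Real.log_exp] at this
  rw [Real.log_div (by positivity) hf.ne', Real.log_pow] at h3
  rw [Finset.sum_sub_distrib, h1, Finset.sum_const, Nat.card_Icc, nsmul_eq_mul,
    Nat.add_sub_cancel]
  exact h3

/-- the number of multiples -/
private theorem ha1_card (N d : ℕ) (hd : 1 ≤ d) :
    (((Icc 1 N).filter (fun n => d ∣ n)).card : ℝ) ≤ (N : ℝ) / d := by
  have h1 : ((Icc 1 N).filter (fun n => d ∣ n)).card = N / d := by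
    have h2 : (Icc 1 N).filter (fun n => d ∣ n) = (Ioc 0 N).filter (fun n => d ∣ n) := by
      ext n
      simp only [mem_filter, mem_Icc, mem_Ioc]
      constructor
      · rintro ⟨⟨a, b⟩, c⟩
        exact ⟨⟨by omega, b⟩, c⟩
      · rintro ⟨⟨a, b⟩, c⟩
        exact ⟨⟨by omega, b⟩, c⟩
    rw [h2, Nat.Ioc_filter_dvd_card_eq_div]
  rw [h1]
  exact Nat.cast_div_le

private theorem ha1_geo (m : ℕ) (x : ℝ) (hx0 : 0 ≤ x) (hx : x ≤ 1 / 2) :
    ∑ j ∈ range m, x ^ (j + 2) ≤ 2 * x ^ 2 := by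
  have h1 : ∀ m : ℕ, ∑ j ∈ range m, (1 / 2 : ℝ) ^ j = 2 - 2 * (1 / 2) ^ m := by
    intro m
    induction m with
    | zero => norm_num
    | succ m ih =>
      rw [Finset.sum_range_succ, ih]
      ring
  have h2 : ∑ j ∈ range m, x ^ (j + 2) ≤ x ^ 2 * ∑ j ∈ range m, (1 / 2 : ℝ) ^ j := by
    rw [Finset.mul_sum]
    refine Finset.sum_le_sum fun j _ => ?_
    have h3 : x ^ j ≤ (1 / 2 : ℝ) ^ j := pow_le_pow_left₀ hx0 hx j
    calc x ^ (j + 2) = x ^ 2 * x ^ j := by ring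
      _ ≤ x ^ 2 * (1 / 2) ^ j := mul_le_mul_of_nonneg_left h3 (by positivity)
  rw [h1 m] at h2
  have h4 : 0 ≤ 2 * (1 / 2 : ℝ) ^ m := by positivity
  calc _ ≤ _ := h2
    _ ≤ x ^ 2 * 2 := mul_le_mul_of_nonneg_left (by linarith) (by positivity)
    _ = 2 * x ^ 2 := by ring

/-- the higher powers of `p` -/
private theorem ha1_high (N p : ℕ) (hp : p.Prime) :
    ∑ n ∈ Icc 1 N, ((n.factorization p - 1 : ℕ) : ℝ) ≤ 2 * N / (p : ℝ) ^ 2 := by
  have hp2 : (2 : ℝ) ≤ p := by exact_mod_cast hp.two_le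
  have h1 : ∀ n ∈ Icc 1 N, ((n.factorization p - 1 : ℕ) : ℝ) ≤
      ∑ j ∈ range N, (if p ^ (j + 2) ∣ n then (1 : ℝ) else 0) := by
    intro n hn
    rw [mem_Icc] at hn
    have hn0 : n ≠ 0 := by omega
    have h2 : range (n.factorization p - 1) ⊆ (range N).filter (fun j => p ^ (j + 2) ∣ n) := by
      intro j hj
      rw [mem_range] at hj
      rw [mem_filter, mem_range]
      have h3 : n.factorization p < n := Nat.factorization_lt p hn0
      exact ⟨by omega, (hp.pow_dvd_iff_le_factorization hn0).2 (by omega)⟩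
    rw [← Finset.sum_filter, Finset.sum_const, nsmul_eq_mul, mul_one]
    have h4 := Finset.card_le_card h2
    rw [Finset.card_range] at h4
    exact_mod_cast h4
  refine (Finset.sum_le_sum h1).trans ?_
  rw [Finset.sum_comm]
  have h5 : ∀ j ∈ range N, ∑ n ∈ Icc 1 N, (if p ^ (j + 2) ∣ n then (1 : ℝ) else 0) ≤
      N * (1 / (p : ℝ)) ^ (j + 2) := by
    intro j _
    rw [← Finset.sum_filter, Finset.sum_const, nsmul_eq_mul, mul_one]
    have h6 := ha1_card N (p ^ (j + 2)) (Nat.one_le_pow _ _ hp.pos)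
    refine h6.trans (le_of_eq ?_)
    rw [Nat.cast_pow, one_div_pow, mul_one_div]
  refine (Finset.sum_le_sum h5).trans ?_
  rw [← Finset.mul_sum]
  have h7 := ha1_geo N (1 / (p : ℝ)) (by positivity) (one_div_le_one_div_of_le (by norm_num) hp2)
  calc (N : ℝ) * ∑ i ∈ range N, (1 / (p : ℝ)) ^ (i + 2) ≤ N * (2 * (1 / (p : ℝ)) ^ 2) :=
        mul_le_mul_of_nonneg_left h7 (by positivity)
    _ = 2 * N / (p : ℝ) ^ 2 := by
        rw [one_div_pow]
        ring

/-- the multiples of `p` -/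
private theorem ha1_mult (g : ℕ → ℂ) (hg : OB g) (N p : ℕ) (hp : p.Prime) :
    ‖∑ n ∈ (Icc 1 N).filter (fun n => p ∣ n), g n‖ ≤
      ‖Sg g ((N : ℝ) / p)‖ + 2 * N / (p : ℝ) ^ 2 := by
  have hp0 : 0 < p := hp.pos
  have hfl : ⌊(N : ℝ) / p⌋₊ = N / p := Nat.floor_div_eq_div N p
  have h1 : ∑ n ∈ (Icc 1 N).filter (fun n => p ∣ n), g n = ∑ m ∈ Icc 1 (N / p), g (p * m) := by
    refine Finset.sum_nbij' (fun n => n / p) (fun m => p * m) ?_ ?_ ?_ ?_ ?_
    · intro n hn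
      rw [mem_filter, mem_Icc] at hn
      obtain ⟨⟨h2, h3⟩, m, rfl⟩ := hn
      rw [Nat.mul_div_cancel_left m hp0, mem_Icc]
      refine ⟨?_, ?_⟩
      · rcases Nat.eq_zero_or_pos m with h4 | h4
        · rw [h4, mul_zero] at h2
          omega
        · exact h4
      · exact (Nat.le_div_iff_mul_le hp0).2 (by rw [mul_comm]; exact h3)
    · intro m hm
      rw [mem_Icc] at hm
      rw [mem_filter, mem_Icc]
      refine ⟨⟨Nat.mul_pos hp0 hm.1, ?_⟩, Dvd.intro m rfl⟩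
      rw [mul_comm]
      exact (Nat.le_div_iff_mul_le hp0).1 hm.2
    · intro n hn
      rw [mem_filter] at hn
      exact Nat.mul_div_cancel' hn.2
    · intro m _
      exact Nat.mul_div_cancel_left m hp0
    · intro n hn
      rw [mem_filter] at hn
      rw [Nat.mul_div_cancel' hn.2]
  have h2 : ∑ m ∈ Icc 1 (N / p), g (p * m) = g p * Sg g ((N : ℝ) / p) +
      ∑ m ∈ (Icc 1 (N / p)).filter (fun m => p ∣ m), (g (p * m) - g p * g m) := by
    unfold Sg
    rw [hfl, Finset.mul_sum, Finset.sum_filter, ← Finset.sum_add_distrib]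
    refine Finset.sum_congr rfl fun m _ => ?_
    by_cases h3 : p ∣ m
    · rw [if_pos h3]
      ring
    · rw [if_neg h3, add_zero]
      exact hg.mul p m ((Nat.Prime.coprime_iff_not_dvd hp).2 h3)
  rw [h1, h2]
  refine (norm_add_le _ _).trans (add_le_add ?_ ?_)
  · rw [norm_mul]
    exact mul_le_of_le_one_left (norm_nonneg _) (hg.bd p)
  · refine (norm_sum_le _ _).trans ?_
    have h3 : ∀ m ∈ (Icc 1 (N / p)).filter (fun m => p ∣ m), ‖g (p * m) - g p * g m‖ ≤ 2 := by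
      intro m _
      refine (norm_sub_le _ _).trans ?_
      have h4 := hg.bd (p * m)
      have h5 : ‖g p * g m‖ ≤ 1 := by
        rw [norm_mul]
        exact mul_le_one₀ (hg.bd p) (norm_nonneg _) (hg.bd m)
      linarith
    refine (Finset.sum_le_sum h3).trans ?_
    rw [Finset.sum_const, nsmul_eq_mul]
    have h6 := ha1_card (N / p) p hp0
    have h7 : ((N / p : ℕ) : ℝ) ≤ (N : ℝ) / p := Nat.cast_div_le
    have hpr : (0 : ℝ) < p := by exact_mod_cast hp0
    calc (((Icc 1 (N / p)).filter (fun m => p ∣ m)).card : ℝ) * 2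
        ≤ ((N : ℝ) / p / p) * 2 := by
          refine mul_le_mul_of_nonneg_right (h6.trans ?_) (by norm_num)
          exact div_le_div_of_nonneg_right h7 hpr.le
      _ = 2 * N / (p : ℝ) ^ 2 := by
          field_simp

private theorem ha1_lg (N n : ℕ) (hn : n ∈ Icc 1 N) :
    Real.log n = ∑ p ∈ (Icc 1 N).filter Nat.Prime,
      ((if p ∣ n then Real.log p else 0) + ((n.factorization p - 1 : ℕ) : ℝ) * Real.log p) := by
  rw [mem_Icc] at hn
  have hn0 : n ≠ 0 := by omega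
  rw [Real.log_nat_eq_sum_factorization n, Finsupp.sum]
  have hsub : n.factorization.support ⊆ (Icc 1 N).filter Nat.Prime := by
    intro p hp
    rw [Nat.support_factorization, Nat.mem_primeFactors] at hp
    exact mem_filter.2 ⟨mem_Icc.2 ⟨hp.1.one_lt.le, (Nat.le_of_dvd (by omega) hp.2.1).trans hn.2⟩,
      hp.1⟩
  rw [Finset.sum_subset hsub (fun p _ hp => by
    rw [Finsupp.notMem_support_iff] at hp
    rw [hp, Nat.cast_zero, zero_mul])]
  refine Finset.sum_congr rfl fun p hp => ?_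
  have hpp := (mem_filter.1 hp).2
  by_cases h : p ∣ n
  · rw [if_pos h]
    have h1 : 1 ≤ n.factorization p := (hpp.dvd_iff_one_le_factorization hn0).1 h
    have h2 : (n.factorization p : ℝ) = ((n.factorization p - 1 : ℕ) : ℝ) + 1 := by
      have h3 : n.factorization p = (n.factorization p - 1) + 1 := by omega
      exact_mod_cast h3
    rw [h2]
    ring
  · rw [if_neg h, Nat.factorization_eq_zero_of_not_dvd h]
    simp

theorem ha1 : ∃ C : ℝ, 0 < C ∧ ∀ (g : ℕ → ℂ) (N : ℕ), OB g → 1 ≤ N →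
    ‖Sg g N‖ * Real.log N ≤ ∑ p ∈ (Icc 1 N).filter Nat.Prime, Real.log p * ‖Sg g ((N : ℝ) / p)‖ + C * N := by
  obtain ⟨K, hK0, hK⟩ := ha1_log
  refine ⟨4 * K + 1, by positivity, ?_⟩
  intro g N hg hN
  have hN1 : (1 : ℝ) ≤ N := by exact_mod_cast hN
  have hlN : 0 ≤ Real.log N := Real.log_nonneg hN1
  obtain ⟨P, hP⟩ : ∃ P : Finset ℕ, P = (Icc 1 N).filter Nat.Prime := ⟨_, rfl⟩
  have hPp : ∀ p ∈ P, p.Prime := by
    intro p hp
    rw [hP] at hp
    exact (mem_filter.1 hp).2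
  have hPs : P ⊆ Icc 1 N := by
    rw [hP]
    exact Finset.filter_subset _ _
  have hlp : ∀ p ∈ P, 0 ≤ Real.log p := by
    intro p hp
    refine Real.log_nonneg ?_
    exact_mod_cast (hPp p hp).one_lt.le
  have hS : Sg g N = ∑ n ∈ Icc 1 N, g n := by
    unfold Sg
    rw [Nat.floor_natCast]
  -- the sum with logarithms
  have h1 : Sg g N * (Real.log N : ℂ) =
      ∑ n ∈ Icc 1 N, g n * ((Real.log N - Real.log n : ℝ) : ℂ) +
      ∑ n ∈ Icc 1 N, g n * (Real.log n : ℂ) := by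
    rw [hS, Finset.sum_mul, ← Finset.sum_add_distrib]
    refine Finset.sum_congr rfl fun n _ => ?_
    push_cast
    ring
  have h2 : ∑ n ∈ Icc 1 N, g n * (Real.log n : ℂ) =
      ∑ p ∈ P, (Real.log p : ℂ) * ∑ n ∈ (Icc 1 N).filter (fun n => p ∣ n), g n +
      ∑ p ∈ P, (Real.log p : ℂ) * ∑ n ∈ Icc 1 N, ((n.factorization p - 1 : ℕ) : ℂ) * g n := by
    have h3 : ∀ n ∈ Icc 1 N, g n * (Real.log n : ℂ) = ∑ p ∈ P,
        ((Real.log p : ℂ) * (if p ∣ n then g n else 0) +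
          (Real.log p : ℂ) * (((n.factorization p - 1 : ℕ) : ℂ) * g n)) := by
      intro n hn
      rw [ha1_lg N n hn, ← hP, Complex.ofReal_sum, Finset.mul_sum]
      refine Finset.sum_congr rfl fun p _ => ?_
      rw [Complex.ofReal_add, Complex.ofReal_mul, Complex.ofReal_natCast]
      split_ifs
      · ring
      · rw [Complex.ofReal_zero]
        ring
    rw [Finset.sum_congr rfl h3, Finset.sum_comm, ← Finset.sum_add_distrib]
    refine Finset.sum_congr rfl fun p _ => ?_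
    rw [Finset.sum_add_distrib, ← Finset.mul_sum, ← Finset.mul_sum, Finset.sum_filter]
  have hA : ‖∑ n ∈ Icc 1 N, g n * ((Real.log N - Real.log n : ℝ) : ℂ)‖ ≤ N := by
    refine (norm_sum_le _ _).trans (le_trans (Finset.sum_le_sum fun n hn => ?_)
      (ha1_fact N hN))
    rw [mem_Icc] at hn
    have h4 : 0 ≤ Real.log N - Real.log n := by
      have h5 : (0 : ℝ) < n := by exact_mod_cast hn.1
      have h6 : (n : ℝ) ≤ N := by exact_mod_cast hn.2
      have := Real.log_le_log h5 h6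
      linarith
    rw [norm_mul, Complex.norm_real, Real.norm_eq_abs, abs_of_nonneg h4]
    exact mul_le_of_le_one_left h4 (hg.bd n)
  have hKP : ∑ q ∈ P, Real.log q * (2 * N / (q : ℝ) ^ 2) ≤ 2 * K * N := by
    have h5 : ∑ q ∈ P, Real.log q / (q : ℝ) ^ 2 ≤ K := by
      refine le_trans ?_ (hK N)
      refine Finset.sum_le_sum_of_subset_of_nonneg hPs fun n hn _ => ?_
      rw [mem_Icc] at hn
      have h6 : (1 : ℝ) ≤ n := by exact_mod_cast hn.1
      have := Real.log_nonneg h6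
      positivity
    calc ∑ q ∈ P, Real.log q * (2 * N / (q : ℝ) ^ 2)
        = 2 * N * ∑ q ∈ P, Real.log q / (q : ℝ) ^ 2 := by
          rw [Finset.mul_sum]
          refine Finset.sum_congr rfl fun q _ => ?_
          ring
      _ ≤ 2 * N * K := mul_le_mul_of_nonneg_left h5 (by positivity)
      _ = 2 * K * N := by ring
  have hB : ‖∑ p ∈ P, (Real.log p : ℂ) * ∑ n ∈ (Icc 1 N).filter (fun n => p ∣ n), g n‖ ≤
      ∑ p ∈ P, Real.log p * ‖Sg g ((N : ℝ) / p)‖ + 2 * K * N := by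
    refine (norm_sum_le _ _).trans ?_
    calc ∑ p ∈ P, ‖(Real.log p : ℂ) * ∑ n ∈ (Icc 1 N).filter (fun n => p ∣ n), g n‖
        ≤ ∑ p ∈ P, (Real.log p * ‖Sg g ((N : ℝ) / p)‖ + Real.log p * (2 * N / (p : ℝ) ^ 2)) := by
          refine Finset.sum_le_sum fun p hp => ?_
          rw [norm_mul, Complex.norm_real, Real.norm_eq_abs, abs_of_nonneg (hlp p hp), ← mul_add]
          exact mul_le_mul_of_nonneg_left (ha1_mult g hg N p (hPp p hp)) (hlp p hp)
      _ ≤ _ := by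
          rw [Finset.sum_add_distrib]
          linarith
  have hC : ‖∑ p ∈ P, (Real.log p : ℂ) * ∑ n ∈ Icc 1 N,
      ((n.factorization p - 1 : ℕ) : ℂ) * g n‖ ≤ 2 * K * N := by
    refine (norm_sum_le _ _).trans (le_trans (Finset.sum_le_sum fun p hp => ?_) hKP)
    rw [norm_mul, Complex.norm_real, Real.norm_eq_abs, abs_of_nonneg (hlp p hp)]
    refine mul_le_mul_of_nonneg_left ?_ (hlp p hp)
    refine (norm_sum_le _ _).trans (le_trans (Finset.sum_le_sum fun n _ => ?_)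
      (ha1_high N p (hPp p hp)))
    rw [norm_mul, Complex.norm_natCast]
    exact mul_le_of_le_one_right (by positivity) (hg.bd n)
  have hnorm : ‖Sg g N‖ * Real.log N = ‖Sg g N * (Real.log N : ℂ)‖ := by
    rw [norm_mul, Complex.norm_real, Real.norm_eq_abs, abs_of_nonneg hlN]
  rw [hnorm, h1, h2, ← hP]
  refine (norm_add_le _ _).trans ?_
  have h9 := norm_add_le (∑ p ∈ P, (Real.log p : ℂ) * ∑ n ∈ (Icc 1 N).filter (fun n => p ∣ n), g n)
    (∑ p ∈ P, (Real.log p : ℂ) * ∑ n ∈ Icc 1 N, ((n.factorization p - 1 : ℕ) : ℂ) * g n)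
  linarith

end Pool.H2.MR
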