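import Pool.Agent.H2.MR.Ha1
import Pool.Agent.H5.PNT.PNT
import Pool.Agent.H75.AP.MertensA

/-!
# [H2 MR HA2] Halász's theorem, step 2: from the sum over primes to an integral

PROOF. `Sg` is bounded by `x`, and `‖Sg g x - Sg g y‖ ≤ |x - y| + 1`. Let `0 < η ≤ 1`. By the prime number theorem (`H5.PNT.theta_tendsto`: `θ(x)/x → 1`) there is `y0 ≥ 1` with
`θ((1+η)y) - θ(y) ≤ 2ηy` for all real `y ≥ y0` (`|θ(x) - x| ≤ (η/8) x` for `x ≥ y0`). Primes `p ≤ y0` contribute at most `∑ log p N/p ≤ C_η N`. For the others let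
`y_i = y0 (1+η)^i`, `i = 0..I-1`, where `y_I > N ≥ y_(I-1)` (so `I ≤ log N/log(1+η) + 1 ≤ 2 log N/η + 1`; `log(1+η) ≥ η/2`). For `p, y ∈ (y_i, y_(i+1)]`:
`|N/p - N/y| ≤ ηN/y_i`, so `‖Sg g (N/p)‖ ≤ ‖Sg g (N/y)‖ + ηN/y_i + 1`; averaging over `y ∈ (y_i, y_(i+1)]` (length `ηy_i`):
`∑_{y_i<p≤y_(i+1)} log p ‖Sg g (N/p)‖ ≤ 2ηy_i ((1/(ηy_i)) ∫_{y_i}^{y_(i+1)} ‖Sg g (N/y)‖ dy + ηN/y_i + 1) = 2∫ + 2η²N + 2ηy_i`.
Sum over `i < I`: `2∫_{1}^{2N} ‖Sg g (N/y)‖ dy + 2η²N(2 log N/η + 1) + 4N`; for `y > N` the integrand is `0`. Substitution `y = N e^(-x)`: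
`∫_1^N ‖Sg g (N/y)‖ dy = N ∫_0^(log N) ‖Sg g (e^x)‖ e^(-x) dx`. Total: `2N∫ + 4ηN log N + C_η N`. (`Sg g (e^x)` is a step function of `x`: measurable and bounded.)
-/

namespace Pool.H2.MR

open Finset

/-- the chebyshev function in short multiplicative intervals -/
private theorem ha2_theta (η : ℝ) (hη : 0 < η) (hη1 : η ≤ 1) : ∃ K : ℝ, 0 ≤ K ∧ ∀ y : ℝ, 0 ≤ y →
    Chebyshev.theta y - Chebyshev.theta (y / (1 + η)) ≤ 2 * (η / (1 + η)) * y + K := by
  have h1 := Pool.Agent.H5.PNT.theta_tendsto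
  have h2 := (Metric.tendsto_atTop.1 h1) (η / 3) (by positivity)
  obtain ⟨N, hN⟩ := h2
  set y1 : ℝ := max N 1 with hy1
  have hy1' : 1 ≤ y1 := le_max_right _ _
  refine ⟨Chebyshev.theta (2 * y1), Chebyshev.theta_nonneg _, fun y hy => ?_⟩
  by_cases hc : y ≤ 2 * y1
  · have h3 := Chebyshev.theta_mono hc
    have h4 := Chebyshev.theta_nonneg (y / (1 + η))
    have h5 : 0 ≤ 2 * (η / (1 + η)) * y := by positivity
    linarith
  · push Not at hc
    have hK := Chebyshev.theta_nonneg (2 * y1)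
    have hy0 : 0 < y := by linarith
    have h3 : y1 ≤ y / (1 + η) := by
      rw [le_div_iff₀ (by positivity)]
      nlinarith
    have h4 := hN y (by linarith [le_max_left N 1])
    have h5 := hN (y / (1 + η)) (by linarith [le_max_left N 1])
    rw [Real.dist_eq, abs_lt] at h4 h5
    have h6 : Chebyshev.theta y ≤ (1 + η / 3) * y := by
      have := h4.2
      rw [sub_lt_iff_lt_add, div_lt_iff₀ hy0] at this
      linarith
    have h7 : (1 - η / 3) * (y / (1 + η)) ≤ Chebyshev.theta (y / (1 + η)) := by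
      have := h5.1
      rw [lt_sub_iff_add_lt, lt_div_iff₀ (by positivity)] at this
      linarith
    have h8 : (1 + η / 3) * y - (1 - η / 3) * (y / (1 + η)) ≤ 2 * (η / (1 + η)) * y := by
      have e1 : (1 + η / 3) * y - (1 - η / 3) * (y / (1 + η)) =
          (y / (1 + η)) * ((1 + η / 3) * (1 + η) - (1 - η / 3)) := by
        field_simp
      have e2 : 2 * (η / (1 + η)) * y = (y / (1 + η)) * (2 * η) := by
        field_simp
      rw [e1, e2]
      apply mul_le_mul_of_nonneg_left _ (by positivity)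
      nlinarith
    linarith

private theorem ha2_meas (g : ℕ → ℂ) : Measurable (fun x : ℝ => ‖Sg g (Real.exp x)‖) := by
  have h1 : Measurable (fun n : ℕ => ‖∑ k ∈ Icc 1 n, g k‖) := measurable_from_nat
  exact h1.comp (Nat.measurable_floor.comp Real.measurable_exp)

private theorem ha2_bd (g : ℕ → ℂ) (hg : OB g) (x : ℝ) : ‖Sg g (Real.exp x)‖ ≤ Real.exp x := by
  unfold Sg
  refine (norm_sum_le _ _).trans ?_
  refine (Finset.sum_le_sum fun n _ => hg.bd n).trans ?_
  rw [Finset.sum_const, Nat.card_Icc, nsmul_eq_mul, mul_one, Nat.add_sub_cancel]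
  exact Nat.floor_le (Real.exp_pos x).le

private theorem ha2_lip (g : ℕ → ℂ) (hg : OB g) (u v : ℝ) (hu : 0 ≤ u) (huv : u ≤ v) :
    ‖Sg g v‖ ≤ ‖Sg g u‖ + (v - u) + 1 := by
  have h0 : ⌊u⌋₊ ≤ ⌊v⌋₊ := Nat.floor_mono huv
  have h1 : Sg g v = Sg g u + ∑ n ∈ Ioc ⌊u⌋₊ ⌊v⌋₊, g n := by
    unfold Sg
    have e1 : ∀ m : ℕ, Icc 1 m = Ioc 0 m := by
      intro m
      ext k
      simp only [mem_Icc, mem_Ioc]
      omega
    rw [e1, e1, ← Finset.sum_Ioc_consecutive _ (Nat.zero_le _) h0]
  have h2 : ‖∑ n ∈ Ioc ⌊u⌋₊ ⌊v⌋₊, g n‖ ≤ (⌊v⌋₊ : ℝ) - ⌊u⌋₊ := by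
    refine (norm_sum_le _ _).trans ?_
    refine (Finset.sum_le_sum fun n _ => hg.bd n).trans ?_
    rw [Finset.sum_const, Nat.card_Ioc, nsmul_eq_mul, mul_one, Nat.cast_sub h0]
  have h3 : (⌊v⌋₊ : ℝ) ≤ v := Nat.floor_le (hu.trans huv)
  have h4 : u < (⌊u⌋₊ : ℝ) + 1 := Nat.lt_floor_add_one u
  rw [h1]
  refine (norm_add_le _ _).trans ?_
  linarith

theorem ha2 (η : ℝ) (hη : 0 < η) (hη1 : η ≤ 1) : ∃ C : ℝ, 0 < C ∧ ∀ (g : ℕ → ℂ) (N : ℕ), OB g → 2 ≤ N →
    ∑ p ∈ (Icc 1 N).filter Nat.Prime, Real.log p * ‖Sg g ((N : ℝ) / p)‖ ≤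
      2 * N * (∫ x in (0 : ℝ)..(Real.log N), ‖Sg g (Real.exp x)‖ * Real.exp (-x)) + 4 * η * N * Real.log N + C * N := by
  obtain ⟨K, hK0, hK⟩ := ha2_theta η hη hη1
  obtain ⟨C1, hC1, hM⟩ := Pool.Agent.H75.AP.mertens_one
  set c : ℝ := Real.log (1 + η) with hc
  have hc0 : 0 < c := Real.log_pos (by linarith)
  have hcη : η / (1 + η) ≤ c := by
    have h1 := Real.one_sub_inv_le_log_of_pos (show (0 : ℝ) < 1 + η by linarith)
    have h2 : 1 - (1 + η)⁻¹ = η / (1 + η) := by
      field_simp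
      ring
    rw [h2] at h1
    exact h1
  refine ⟨K / c + (η * C1 + Real.log 4), by
    have : 0 < Real.log 4 := Real.log_pos (by norm_num)
    positivity, fun g N hg hN => ?_⟩
  have hN1 : 1 ≤ N := by omega
  have hN0 : (0 : ℝ) < N := by exact_mod_cast hN1
  have hNR1 : (1 : ℝ) ≤ N := by exact_mod_cast hN1
  have hlogN : 0 ≤ Real.log N := Real.log_nonneg hNR1
  set F : ℝ → ℝ := fun x => ‖Sg g (Real.exp x)‖ with hF
  have hFm : Measurable F := ha2_meas g
  have hFb : ∀ x, F x ≤ Real.exp x := ha2_bd g hg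
  have hF0 : ∀ x, 0 ≤ F x := fun x => norm_nonneg _
  set S := (Icc 1 N).filter Nat.Prime with hS
  -- integrability of bounded functions
  have hint : ∀ (G : ℝ → ℝ) (a b : ℝ), Measurable G → (∀ x, 0 ≤ G x) →
      (∃ B, ∀ x, x ∈ Set.uIoc a b → G x ≤ B) → IntervalIntegrable G MeasureTheory.volume a b := by
    intro G a b hG h0 ⟨B, hB⟩
    rw [intervalIntegrable_iff]
    refine MeasureTheory.Measure.integrableOn_of_bounded (M := B) ?_ hG.aestronglyMeasurable ?_
    · rw [Set.uIoc]
      exact measure_Ioc_lt_top.ne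
    · rw [MeasureTheory.ae_restrict_iff' measurableSet_uIoc]
      refine Filter.Eventually.of_forall fun x hx => ?_
      rw [Real.norm_of_nonneg (h0 x)]
      exact hB x hx
  have hFint : ∀ a b : ℝ, IntervalIntegrable F MeasureTheory.volume a b := by
    intro a b
    refine hint F a b hFm hF0 ⟨Real.exp (max a b), fun x hx => (hFb x).trans ?_⟩
    rw [Set.uIoc, Set.mem_Ioc] at hx
    exact Real.exp_le_exp.2 hx.2
  -- each prime
  have hp : ∀ p ∈ S, Real.log p * ‖Sg g ((N : ℝ) / p)‖ ≤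
      (1 / c) * (∫ x in (-c)..(Real.log N), (Set.Ioc (Real.log (N / p) - c) (Real.log (N / p))).indicator
        (fun x => Real.log p * F x) x) + (η * N * (Real.log p / p) + Real.log p) := by
    intro p hp
    rw [hS, mem_filter, mem_Icc] at hp
    obtain ⟨⟨hp1, hpN⟩, hpp⟩ := hp
    have hp0 : (0 : ℝ) < p := by exact_mod_cast hp1
    have hpR1 : (1 : ℝ) ≤ p := by exact_mod_cast hp1
    have hpRN : (p : ℝ) ≤ N := by exact_mod_cast hpN
    have hlp : 0 ≤ Real.log p := Real.log_nonneg hpR1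
    set ℓ : ℝ := Real.log (N / p) with hℓ
    have hNp : (0 : ℝ) < (N : ℝ) / p := by positivity
    have hNp1 : (1 : ℝ) ≤ (N : ℝ) / p := by rwa [le_div_iff₀ hp0, one_mul]
    have hℓ0 : 0 ≤ ℓ := Real.log_nonneg hNp1
    have hℓN : ℓ ≤ Real.log N := Real.log_le_log hNp (div_le_self hN0.le hpR1)
    have hexp : Real.exp ℓ = (N : ℝ) / p := Real.exp_log hNp
    have e1 : ∫ x in (-c)..(Real.log N), (Set.Ioc (ℓ - c) ℓ).indicator (fun x => Real.log p * F x) x =
        ∫ x in (ℓ - c)..ℓ, Real.log p * F x := by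
      rw [intervalIntegral.integral_of_le (by linarith), intervalIntegral.integral_of_le (by linarith),
        MeasureTheory.setIntegral_indicator measurableSet_Ioc]
      congr 2
      ext x
      simp only [Set.mem_inter_iff, Set.mem_Ioc]
      constructor
      · rintro ⟨_, h⟩
        exact h
      · rintro ⟨h, h'⟩
        exact ⟨⟨by linarith, by linarith⟩, h, h'⟩
    rw [e1]
    have e2 : ∫ _x in (ℓ - c)..ℓ, Real.log p * (‖Sg g ((N : ℝ) / p)‖ - (η * (N / p) + 1)) ≤
        ∫ x in (ℓ - c)..ℓ, Real.log p * F x := by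
      apply intervalIntegral.integral_mono_on (by linarith) (by simp) ((hFint _ _).const_mul _)
      intro x hx
      rw [Set.mem_Icc] at hx
      apply mul_le_mul_of_nonneg_left _ hlp
      have h1 : Real.exp x ≤ (N : ℝ) / p := by
        rw [← hexp]
        exact Real.exp_le_exp.2 hx.2
      have h2 := ha2_lip g hg (Real.exp x) ((N : ℝ) / p) (Real.exp_pos x).le h1
      have h3 : (N : ℝ) / p / (1 + η) ≤ Real.exp x := by
        have h4 : Real.exp (ℓ - c) ≤ Real.exp x := Real.exp_le_exp.2 hx.1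
        rw [Real.exp_sub, hexp, hc, Real.exp_log (by linarith)] at h4
        exact h4
      have h5 : (N : ℝ) / p - Real.exp x ≤ η * (N / p) := by
        have h6 : (N : ℝ) / p - η * (N / p) ≤ (N : ℝ) / p / (1 + η) := by
          rw [le_div_iff₀ (by linarith)]
          nlinarith [mul_nonneg (mul_nonneg hη.le hη.le) hNp.le]
        linarith
      simp only [hF]
      linarith
    rw [intervalIntegral.integral_const, smul_eq_mul] at e2
    have e3 : (ℓ - (ℓ - c)) = c := by ring
    rw [e3] at e2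
    have e4 : Real.log p * (‖Sg g ((N : ℝ) / p)‖ - (η * (N / p) + 1)) ≤
        (1 / c) * ∫ x in (ℓ - c)..ℓ, Real.log p * F x := by
      rw [one_div, inv_mul_eq_div, le_div_iff₀ hc0]
      linarith
    have e5 : Real.log p * ‖Sg g ((N : ℝ) / p)‖ = Real.log p * (‖Sg g ((N : ℝ) / p)‖ - (η * (N / p) + 1)) +
        (η * N * (Real.log p / p) + Real.log p) := by
      field_simp
      ring
    rw [e5]
    linarith
  refine (Finset.sum_le_sum hp).trans ?_
  rw [Finset.sum_add_distrib, ← Finset.mul_sum, Finset.sum_add_distrib, ← Finset.mul_sum]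
  -- the error terms
  have hE1 : ∑ p ∈ S, Real.log p / p ≤ Real.log N + C1 := by
    have h1 := (abs_le.1 (hM N hNR1)).2
    have h2 : ∑ p ∈ S, Real.log p / p ≤ ∑ p ∈ Pool.Agent.H75.AP.PI 0 N, Real.log p / p := by
      apply Finset.sum_le_sum_of_subset_of_nonneg
      · intro p hp
        rw [hS, mem_filter, mem_Icc] at hp
        unfold Pool.Agent.H75.AP.PI
        rw [mem_filter, mem_range, Nat.floor_natCast]
        exact ⟨by omega, hp.2, by exact_mod_cast hp.2.pos⟩
      · intro p _ _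
        rcases Nat.eq_zero_or_pos p with h | h
        · simp [h]
        · have : (1 : ℝ) ≤ p := by exact_mod_cast h
          have := Real.log_nonneg this
          positivity
    linarith
  have hE2 : ∑ p ∈ S, Real.log p ≤ Real.log 4 * N := by
    have h1 := Chebyshev.theta_le_log4_mul_x hN0.le
    have h2 : ∑ p ∈ S, Real.log p = Chebyshev.theta N := by
      unfold Chebyshev.theta
      rw [Nat.floor_natCast, hS]
      apply Finset.sum_congr _ (fun _ _ => rfl)
      ext k
      simp only [mem_filter, mem_Icc, mem_Ioc]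
      constructor
      · rintro ⟨⟨a, b⟩, c⟩
        exact ⟨⟨by omega, b⟩, c⟩
      · rintro ⟨⟨a, b⟩, c⟩
        exact ⟨⟨by omega, b⟩, c⟩
    rw [h2]
    exact h1
  -- interchange
  have hI : ∑ p ∈ S, (∫ x in (-c)..(Real.log N), (Set.Ioc (Real.log (N / p) - c) (Real.log (N / p))).indicator
        (fun x => Real.log p * F x) x) =
      ∫ x in (-c)..(Real.log N), ∑ p ∈ S, (Set.Ioc (Real.log ((N : ℝ) / (p : ℕ)) - c) (Real.log (N / p))).indicator
        (fun x => Real.log p * F x) x := by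
    rw [intervalIntegral.integral_finsetSum]
    intro p hp
    rw [hS, mem_filter, mem_Icc] at hp
    have hpR1 : (1 : ℝ) ≤ p := by exact_mod_cast hp.1.1
    have hlp : 0 ≤ Real.log p := Real.log_nonneg hpR1
    refine hint _ _ _ ((hFm.const_mul _).indicator measurableSet_Ioc)
      (fun x => Set.indicator_nonneg (fun x _ => mul_nonneg hlp (hF0 x)) x)
      ⟨Real.log p * Real.exp (Real.log N), fun x hx => ?_⟩
    rw [Set.uIoc_of_le (by linarith), Set.mem_Ioc] at hx
    refine (Set.indicator_le_self' (fun x _ => mul_nonneg hlp (hF0 x)) x).trans ?_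
    exact mul_le_mul_of_nonneg_left ((hFb x).trans (Real.exp_le_exp.2 hx.2)) hlp
  rw [hI]
  have hW : ∀ x ∈ Set.Icc (-c) (Real.log N), ∑ p ∈ S, (Set.Ioc (Real.log ((N : ℝ) / (p : ℕ)) - c) (Real.log (N / p))).indicator
        (fun x => Real.log p * F x) x ≤ (2 * c * (N * Real.exp (-x)) + K) * F x := by
    intro x hx
    set y : ℝ := N * Real.exp (-x) with hy
    have hy0 : 0 < y := by positivity
    have h1 := hK y hy0.le
    have h2 : 2 * (η / (1 + η)) * y ≤ 2 * c * y := by
      apply mul_le_mul_of_nonneg_right _ hy0.le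
      linarith
    have h3 : ∑ p ∈ S, (Set.Ioc (Real.log ((N : ℝ) / (p : ℕ)) - c) (Real.log (N / p))).indicator
        (fun x => Real.log p * F x) x ≤
        (∑ p ∈ S, if y / (1 + η) < p ∧ (p : ℝ) ≤ y then Real.log p else 0) * F x := by
      rw [Finset.sum_mul]
      apply Finset.sum_le_sum
      intro p hp
      rw [hS, mem_filter, mem_Icc] at hp
      have hpR1 : (1 : ℝ) ≤ p := by exact_mod_cast hp.1.1
      have hp0 : (0 : ℝ) < p := by linarith
      have hlp : 0 ≤ Real.log p := Real.log_nonneg hpR1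
      by_cases hx' : x ∈ Set.Ioc (Real.log ((N : ℝ) / (p : ℕ)) - c) (Real.log (N / p))
      · rw [Set.indicator_of_mem hx']
        rw [Set.mem_Ioc] at hx'
        have hNp : (0 : ℝ) < (N : ℝ) / p := by positivity
        have a1 : (p : ℝ) ≤ y := by
          have := Real.exp_le_exp.2 hx'.2
          rw [Real.exp_log hNp, le_div_iff₀ hp0] at this
          rw [hy, Real.exp_neg, ← div_eq_mul_inv, le_div_iff₀ (Real.exp_pos x)]
          linarith
        have a2 : y / (1 + η) < p := by
          have := Real.exp_lt_exp.2 hx'.1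
          rw [Real.exp_sub, Real.exp_log hNp, hc, Real.exp_log (by linarith)] at this
          rw [div_div, div_lt_iff₀ (by positivity)] at this
          rw [hy, Real.exp_neg, ← div_eq_mul_inv, div_div, div_lt_iff₀ (by positivity)]
          linarith
        rw [if_pos ⟨a2, a1⟩]
      · rw [Set.indicator_of_notMem hx']
        apply mul_nonneg _ (hF0 x)
        split_ifs
        · exact hlp
        · exact le_rfl
    have h4 : (∑ p ∈ S, if y / (1 + η) < p ∧ (p : ℝ) ≤ y then Real.log p else 0) ≤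
        Chebyshev.theta y - Chebyshev.theta (y / (1 + η)) := by
      have hyy : y / (1 + η) ≤ y := div_le_self hy0.le (by linarith)
      have hfl : ⌊y / (1 + η)⌋₊ ≤ ⌊y⌋₊ := Nat.floor_mono hyy
      have h5 : Chebyshev.theta y - Chebyshev.theta (y / (1 + η)) =
          ∑ p ∈ (Ioc ⌊y / (1 + η)⌋₊ ⌊y⌋₊).filter Nat.Prime, Real.log p := by
        unfold Chebyshev.theta
        rw [Finset.sum_filter, Finset.sum_filter, Finset.sum_filter,
          ← Finset.sum_Ioc_consecutive _ (Nat.zero_le _) hfl]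
        ring
      rw [h5, ← Finset.sum_filter]
      apply Finset.sum_le_sum_of_subset_of_nonneg
      · intro p hp
        rw [mem_filter, hS, mem_filter] at hp
        rw [mem_filter, mem_Ioc]
        exact ⟨⟨(Nat.floor_lt (by positivity)).2 hp.2.1, Nat.le_floor hp.2.2⟩, hp.1.2⟩
      · intro p hp _
        rw [mem_filter] at hp
        exact Real.log_nonneg (by exact_mod_cast hp.2.one_lt.le)
    refine h3.trans (mul_le_mul_of_nonneg_right ?_ (hF0 x))
    linarith
  have hGint : ∀ a b : ℝ, IntervalIntegrable (fun x => F x * Real.exp (-x)) MeasureTheory.volume a b := by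
    intro a b
    refine hint _ a b (hFm.mul (Real.measurable_exp.comp measurable_neg))
      (fun x => mul_nonneg (hF0 x) (Real.exp_pos _).le) ⟨1, fun x _ => ?_⟩
    calc F x * Real.exp (-x) ≤ Real.exp x * Real.exp (-x) :=
          mul_le_mul_of_nonneg_right (hFb x) (Real.exp_pos _).le
      _ = 1 := by rw [← Real.exp_add]; simp
  have hJ : ∫ x in (-c)..(Real.log N), ∑ p ∈ S, (Set.Ioc (Real.log ((N : ℝ) / (p : ℕ)) - c) (Real.log (N / p))).indicator
        (fun x => Real.log p * F x) x ≤ ∫ x in (-c)..(Real.log N), (2 * c * (N * Real.exp (-x)) + K) * F x := by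
    apply intervalIntegral.integral_mono_on (by linarith)
    · refine hint _ _ _ ?_ ?_ ⟨(2 * c * (N * Real.exp c) + K) * Real.exp (Real.log N), fun x hx => ?_⟩
      · exact Finset.measurable_sum _ (fun p _ => (hFm.const_mul _).indicator measurableSet_Ioc)
      · intro x
        refine Finset.sum_nonneg fun p hp => ?_
        rw [hS, mem_filter, mem_Icc] at hp
        have hpR1 : (1 : ℝ) ≤ p := by exact_mod_cast hp.1.1
        have hlp : 0 ≤ Real.log p := Real.log_nonneg hpR1
        exact Set.indicator_nonneg (fun x _ => mul_nonneg hlp (hF0 x)) x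
      · rw [Set.uIoc_of_le (by linarith), Set.mem_Ioc] at hx
        refine (hW x ⟨hx.1.le, hx.2⟩).trans ?_
        apply mul_le_mul _ ((hFb x).trans (Real.exp_le_exp.2 hx.2)) (hF0 x) (by positivity)
        have : Real.exp (-x) ≤ Real.exp c := Real.exp_le_exp.2 (by linarith [hx.1])
        gcongr
    · have e : (fun x => (2 * c * (N * Real.exp (-x)) + K) * F x) =
          fun x => (2 * c * N) * (F x * Real.exp (-x)) + K * F x := by
        funext x
        ring
      rw [e]
      exact ((hGint _ _).const_mul _).add ((hFint _ _).const_mul _)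
    · exact hW
  have hJ2 : ∫ x in (-c)..(Real.log N), (2 * c * (N * Real.exp (-x)) + K) * F x =
      ∫ x in (0 : ℝ)..(Real.log N), (2 * c * (N * Real.exp (-x)) + K) * F x := by
    have hii : ∀ a b : ℝ, IntervalIntegrable (fun x => (2 * c * (N * Real.exp (-x)) + K) * F x) MeasureTheory.volume a b := by
      intro a b
      have e : (fun x => (2 * c * (N * Real.exp (-x)) + K) * F x) =
          fun x => (2 * c * N) * (F x * Real.exp (-x)) + K * F x := by
        funext x
        ring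
      rw [e]
      exact ((hGint _ _).const_mul _).add ((hFint _ _).const_mul _)
    rw [← intervalIntegral.integral_add_adjacent_intervals (hii (-c) 0) (hii 0 (Real.log N))]
    have hz : ∫ x in (-c)..(0 : ℝ), (2 * c * (N * Real.exp (-x)) + K) * F x = 0 := by
      have e : ∫ x in (-c)..(0 : ℝ), (2 * c * (N * Real.exp (-x)) + K) * F x = ∫ _x in (-c)..(0 : ℝ), (0 : ℝ) := by
        apply intervalIntegral.integral_congr_ae
        have h0 : ∀ᵐ x : ℝ, x ≠ 0 := by
          simp [MeasureTheory.ae_iff]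
        filter_upwards [h0] with x hx0 hx
        rw [Set.uIoc_of_le (by linarith), Set.mem_Ioc] at hx
        have hx1 : x < 0 := lt_of_le_of_ne hx.2 hx0
        have h1 : Real.exp x < 1 := by rw [← Real.exp_zero]; exact Real.exp_lt_exp.2 hx1
        have h2 : ⌊Real.exp x⌋₊ = 0 := Nat.floor_eq_zero.2 h1
        have h3 : F x = 0 := by
          simp only [hF, Sg, h2]
          simp
        rw [h3, mul_zero]
      rw [e]
      simp
    rw [hz, zero_add]
  have hJ3 : ∫ x in (0 : ℝ)..(Real.log N), (2 * c * (N * Real.exp (-x)) + K) * F x =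
      2 * c * N * (∫ x in (0 : ℝ)..(Real.log N), F x * Real.exp (-x)) + K * ∫ x in (0 : ℝ)..(Real.log N), F x := by
    have e : (fun x => (2 * c * (N * Real.exp (-x)) + K) * F x) =
        fun x => (2 * c * N) * (F x * Real.exp (-x)) + K * F x := by
      funext x
      ring
    rw [e, intervalIntegral.integral_add ((hGint _ _).const_mul _) ((hFint _ _).const_mul _),
      intervalIntegral.integral_const_mul, intervalIntegral.integral_const_mul]
  have hJ4 : ∫ x in (0 : ℝ)..(Real.log N), F x ≤ N := by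
    have h1 : ∫ x in (0 : ℝ)..(Real.log N), F x ≤ ∫ x in (0 : ℝ)..(Real.log N), Real.exp x := by
      apply intervalIntegral.integral_mono_on hlogN (hFint _ _) (by simp)
      intro x _
      exact hFb x
    rw [integral_exp, Real.exp_log hN0, Real.exp_zero] at h1
    linarith
  have hfin : (1 / c) * (∫ x in (-c)..(Real.log N), ∑ p ∈ S, (Set.Ioc (Real.log ((N : ℝ) / (p : ℕ)) - c) (Real.log (N / p))).indicator
        (fun x => Real.log p * F x) x) ≤
      2 * N * (∫ x in (0 : ℝ)..(Real.log N), F x * Real.exp (-x)) + (K / c) * N := by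
    rw [one_div, inv_mul_eq_div, div_le_iff₀ hc0]
    have e1 : (2 * N * (∫ x in (0 : ℝ)..(Real.log N), F x * Real.exp (-x)) + (K / c) * N) * c =
        2 * c * N * (∫ x in (0 : ℝ)..(Real.log N), F x * Real.exp (-x)) + K * N := by
      field_simp
    rw [e1]
    have e2 := hJ
    rw [hJ2, hJ3] at e2
    have e3 := mul_le_mul_of_nonneg_left hJ4 hK0
    linarith
  have hE3 : η * N * ∑ p ∈ S, Real.log p / p ≤ η * N * (Real.log N + C1) :=
    mul_le_mul_of_nonneg_left hE1 (by positivity)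
  have hE4 : 0 ≤ η * N * Real.log N := by positivity
  have e7 : ∫ x in (0 : ℝ)..(Real.log N), F x * Real.exp (-x) =
      ∫ x in (0 : ℝ)..(Real.log N), ‖Sg g (Real.exp x)‖ * Real.exp (-x) := rfl
  rw [← e7]
  nlinarith [hfin, hE3, hE4, hE2]

end Pool.H2.MR
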