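import Pool.Agent.H2.MR.Defs
import Pool.Agent.H43.SI.Pl

/-!
# [H2 MR HA3] Plancherel for a finite Dirichlet series

PROOF. `g(x) = exp(-(1+σ)x) ∑_{n∈S, n ≤ e^x} a n` is a finite combination of the functions `1[x ≥ log n] exp(-(1+σ)x)`, so in `L¹ ∩ L²`, and
`𝓕 g(ξ) = ∑ a n ∫_{log n}^∞ exp(-(1+σ+2πiξ)x) dx = ∑ a n n^(-(1+σ+2πiξ))/(1+σ+2πiξ)`. `H43.SI.plancherel` and `t = 2πξ`:
`∫ ‖g‖² = (1/2π) ∫ ‖∑ a n n^(-(1+σ+it))‖²/|1+σ+it|² dt`. (See `H43/SI/Par.lean` for the same computation.)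
-/

namespace Pool.H2.MR

open Finset MeasureTheory

/-- the basic function -/
private noncomputable def hJ (σ b : ℝ) : ℝ → ℂ :=
  Set.indicator (Set.Ici b) (fun y : ℝ => Complex.exp (-((1 : ℂ) + σ) * (y : ℂ)))

private theorem hJ_meas (σ b : ℝ) : AEStronglyMeasurable (hJ σ b) volume := by
  unfold hJ
  apply AEStronglyMeasurable.indicator _ measurableSet_Ici
  exact (by fun_prop : Continuous fun y : ℝ => Complex.exp (-((1 : ℂ) + σ) * (y : ℂ))).aestronglyMeasurable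

private theorem hJ_int {σ : ℝ} (hσ : 0 < σ) (b : ℝ) : Integrable (hJ σ b) := by
  unfold hJ
  rw [integrable_indicator_iff measurableSet_Ici, integrableOn_Ici_iff_integrableOn_Ioi]
  exact integrableOn_exp_mul_complex_Ioi (by simp; linarith) b

private theorem hJ_L2 {σ : ℝ} (hσ : 0 < σ) (b : ℝ) : MemLp (hJ σ b) 2 := by
  rw [memLp_two_iff_integrable_sq_norm (hJ_meas σ b)]
  have h1 : (fun x => ‖hJ σ b x‖ ^ 2) = Set.indicator (Set.Ici b) (fun y : ℝ => Real.exp (-(2 * (1 + σ)) * y)) := by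
    funext y
    unfold hJ
    by_cases hy : y ∈ Set.Ici b
    · rw [Set.indicator_of_mem hy, Set.indicator_of_mem hy, Complex.norm_exp, ← Real.exp_nat_mul]
      congr 1
      simp
      ring
    · rw [Set.indicator_of_notMem hy, Set.indicator_of_notMem hy]
      simp
  rw [h1, integrable_indicator_iff measurableSet_Ici, integrableOn_Ici_iff_integrableOn_Ioi]
  exact integrableOn_exp_mul_Ioi (by linarith) b

private theorem hJ_fourier {σ : ℝ} (hσ : 0 < σ) (b : ℝ) (w : ℝ) :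
    ∫ v : ℝ, Complex.exp (((-2 * Real.pi * v * w : ℝ) : ℂ) * Complex.I) • hJ σ b v =
      Complex.exp (-((1 : ℂ) + σ + ((2 * Real.pi * w : ℝ) : ℂ) * Complex.I) * b) /
        ((1 : ℂ) + σ + ((2 * Real.pi * w : ℝ) : ℂ) * Complex.I) := by
  obtain ⟨s, hs⟩ : ∃ s : ℂ, s = (1 : ℂ) + σ + ((2 * Real.pi * w : ℝ) : ℂ) * Complex.I := ⟨_, rfl⟩
  rw [← hs]
  have hsre : s.re = 1 + σ := by
    rw [hs]
    simp
  have hs0 : s ≠ 0 := by
    intro h
    rw [h] at hsre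
    simp at hsre
    linarith
  have h1 : ∀ v : ℝ, Complex.exp (((-2 * Real.pi * v * w : ℝ) : ℂ) * Complex.I) • hJ σ b v =
      Set.indicator (Set.Ici b) (fun v : ℝ => Complex.exp (-s * v)) v := by
    intro v
    unfold hJ
    by_cases hy : v ∈ Set.Ici b
    · rw [Set.indicator_of_mem hy, Set.indicator_of_mem hy, smul_eq_mul, ← Complex.exp_add]
      congr 1
      rw [hs]
      push_cast
      ring
    · rw [Set.indicator_of_notMem hy, Set.indicator_of_notMem hy, smul_zero]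
  rw [integral_congr_ae (Filter.Eventually.of_forall h1), integral_indicator measurableSet_Ici,
    integral_Ici_eq_integral_Ioi, integral_exp_mul_complex_Ioi (by rw [Complex.neg_re, hsre]; linarith)]
  rw [neg_div_neg_eq]

private theorem hJ_fourier' {σ : ℝ} (hσ : 0 < σ) (n : ℕ) (hn : 1 ≤ n) (w : ℝ) :
    (∫ v : ℝ, Complex.exp (((-2 * Real.pi * v * w : ℝ) : ℂ) * Complex.I) • hJ σ (Real.log n) v) =
      (n : ℂ) ^ (-((1 : ℂ) + σ + ((2 * Real.pi * w : ℝ) : ℂ) * Complex.I)) /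
        ((1 : ℂ) + σ + ((2 * Real.pi * w : ℝ) : ℂ) * Complex.I) := by
  rw [hJ_fourier hσ]
  have hn0 : (n : ℂ) ≠ 0 := by
    have : n ≠ 0 := by omega
    exact_mod_cast this
  have h2 : Complex.log (n : ℂ) = ((Real.log n : ℝ) : ℂ) := by
    rw [← Complex.ofReal_natCast, ← Complex.ofReal_log (by positivity)]
  rw [Complex.cpow_def_of_ne_zero hn0, h2]
  congr 2
  ring

/-- the function to which Plancherel is applied -/
private noncomputable def gJ (S : Finset ℕ) (a : ℕ → ℂ) (σ : ℝ) (y : ℝ) : ℂ :=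
  ∑ n ∈ S, a n * hJ σ (Real.log n) y

private theorem gJ_eq (S : Finset ℕ) (hS : ∀ n ∈ S, 1 ≤ n) (a : ℕ → ℂ) (σ : ℝ) (y : ℝ) :
    gJ S a σ y = (∑ n ∈ S.filter (fun n : ℕ => (n : ℝ) ≤ Real.exp y), a n) * Complex.exp (-((1 : ℂ) + σ) * (y : ℂ)) := by
  unfold gJ
  rw [Finset.sum_filter, Finset.sum_mul]
  refine Finset.sum_congr rfl fun n hn => ?_
  have hn1 := hS n hn
  have hn0 : (0 : ℝ) < n := by exact_mod_cast hn1
  unfold hJ
  by_cases hy : y ∈ Set.Ici (Real.log n)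
  · rw [Set.indicator_of_mem hy, if_pos]
    rw [← Real.log_le_iff_le_exp hn0]
    exact hy
  · rw [Set.indicator_of_notMem hy, if_neg]
    · simp
    · rw [← Real.log_le_iff_le_exp hn0]
      exact hy

private theorem gJ_int (S : Finset ℕ) (a : ℕ → ℂ) {σ : ℝ} (hσ : 0 < σ) : Integrable (gJ S a σ) := by
  unfold gJ
  exact integrable_finsetSum _ fun n _ => (hJ_int hσ _).const_mul _

private theorem gJ_L2 (S : Finset ℕ) (a : ℕ → ℂ) {σ : ℝ} (hσ : 0 < σ) : MemLp (gJ S a σ) 2 := by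
  unfold gJ
  exact memLp_finsetSum _ fun n _ => (hJ_L2 hσ _).const_mul _

open FourierTransform in
private theorem gJ_fourier (S : Finset ℕ) (hS : ∀ n ∈ S, 1 ≤ n) (a : ℕ → ℂ) {σ : ℝ} (hσ : 0 < σ) (w : ℝ) :
    𝓕 (gJ S a σ) w =
      (∑ n ∈ S, a n * (n : ℂ) ^ (-((1 : ℂ) + σ + ((2 * Real.pi * w : ℝ) : ℂ) * Complex.I))) /
        ((1 : ℂ) + σ + ((2 * Real.pi * w : ℝ) : ℂ) * Complex.I) := by
  rw [Real.fourier_real_eq_integral_exp_smul]
  have hint : ∀ b : ℝ, Integrable (fun v : ℝ =>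
      Complex.exp (((-2 * Real.pi * v * w : ℝ) : ℂ) * Complex.I) • hJ σ b v) := by
    intro b
    refine (hJ_int hσ b).mono ?_ ?_
    · have hc : Continuous fun v : ℝ =>
        Complex.exp (((-2 * Real.pi * v * w : ℝ) : ℂ) * Complex.I) := by fun_prop
      exact hc.aestronglyMeasurable.smul (hJ_meas σ b)
    · refine Filter.Eventually.of_forall fun v => ?_
      rw [norm_smul, Complex.norm_exp_ofReal_mul_I, one_mul]
  have h1 : ∀ v : ℝ, Complex.exp (((-2 * Real.pi * v * w : ℝ) : ℂ) * Complex.I) • gJ S a σ v =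
      ∑ n ∈ S, a n * (Complex.exp (((-2 * Real.pi * v * w : ℝ) : ℂ) * Complex.I) • hJ σ (Real.log n) v) := by
    intro v
    unfold gJ
    rw [Finset.smul_sum]
    refine Finset.sum_congr rfl fun n _ => ?_
    simp only [smul_eq_mul]
    ring
  rw [integral_congr_ae (Filter.Eventually.of_forall h1), integral_finsetSum]
  · rw [Finset.sum_div]
    refine Finset.sum_congr rfl fun n hn => ?_
    rw [integral_const_mul, hJ_fourier' hσ n (hS n hn) w]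
    ring
  · intro n _
    exact (hint _).const_mul _

open FourierTransform in
theorem ha3 (S : Finset ℕ) (hS : ∀ n ∈ S, 1 ≤ n) (a : ℕ → ℂ) (σ : ℝ) (hσ : 0 < σ) :
    Integrable (fun t : ℝ => ‖∑ n ∈ S, a n * (n : ℂ) ^ (-((1 : ℂ) + σ + t * Complex.I))‖ ^ 2 / ((1 + σ) ^ 2 + t ^ 2)) ∧
    Integrable (fun x : ℝ => ‖∑ n ∈ S.filter (fun n : ℕ => (n : ℝ) ≤ Real.exp x), a n‖ ^ 2 * Real.exp (-(2 * (1 + σ) * x))) ∧
    ∫ x : ℝ, ‖∑ n ∈ S.filter (fun n : ℕ => (n : ℝ) ≤ Real.exp x), a n‖ ^ 2 * Real.exp (-(2 * (1 + σ) * x)) =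
      (1 / (2 * Real.pi)) *
        ∫ t : ℝ, ‖∑ n ∈ S, a n * (n : ℂ) ^ (-((1 : ℂ) + σ + t * Complex.I))‖ ^ 2 / ((1 + σ) ^ 2 + t ^ 2) := by
  obtain ⟨W, hW⟩ : ∃ W : ℝ → ℝ, W = fun t : ℝ => ‖∑ n ∈ S, a n * (n : ℂ) ^ (-((1 : ℂ) + σ + t * Complex.I))‖ ^ 2 / ((1 + σ) ^ 2 + t ^ 2) :=
    ⟨_, rfl⟩
  obtain ⟨hF, hPl⟩ := Pool.Agent.H43.SI.plancherel (gJ S a σ) (gJ_int S a hσ) (gJ_L2 S a hσ)
  have hg2 : Integrable (fun y => ‖gJ S a σ y‖ ^ 2) := (gJ_L2 S a hσ).integrable_norm_pow (by norm_num)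
  have hF2 : Integrable (fun y => ‖𝓕 (gJ S a σ) y‖ ^ 2) := hF.integrable_norm_pow (by norm_num)
  have hpi : (0 : ℝ) < 2 * Real.pi := by positivity
  have e1 : (fun y => ‖gJ S a σ y‖ ^ 2) =
      fun x : ℝ => ‖∑ n ∈ S.filter (fun n : ℕ => (n : ℝ) ≤ Real.exp x), a n‖ ^ 2 * Real.exp (-(2 * (1 + σ) * x)) := by
    funext y
    rw [gJ_eq S hS, norm_mul, mul_pow, Complex.norm_exp, ← Real.exp_nat_mul]
    congr 2
    simp
    ring
  have e2 : (fun y => ‖𝓕 (gJ S a σ) y‖ ^ 2) = fun ξ : ℝ => W (2 * Real.pi * ξ) := by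
    funext ξ
    rw [gJ_fourier S hS a hσ, hW, norm_div, div_pow]
    congr 1
    rw [Complex.sq_norm, Complex.normSq_apply]
    simp
    ring
  rw [e2] at hF2 hPl
  rw [e1] at hg2
  rw [← hW]
  have hWi : Integrable W := (integrable_comp_mul_left_iff W hpi.ne').1 hF2
  refine ⟨hWi, hg2, ?_⟩
  have e3 : ∫ x : ℝ, ‖gJ S a σ x‖ ^ 2 = ∫ x : ℝ, ‖∑ n ∈ S.filter (fun n : ℕ => (n : ℝ) ≤ Real.exp x), a n‖ ^ 2 * Real.exp (-(2 * (1 + σ) * x)) := by
    rw [e1]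
  rw [← e3, ← hPl]
  rw [Measure.integral_comp_mul_left W (2 * Real.pi), smul_eq_mul, abs_of_pos (by positivity), one_div]

end Pool.H2.MR
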