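import Pool.Agent.H2.MR.Defs

/-!
# [H2 MR HA4] Euler products

`Dv N = ∏_{p ≤ N} p^(⌊log_p N⌋)` (the least common multiple of `1..N`); its divisors are the `n` all of whose prime powers are `≤ N`; every `n ≤ N` is one.
`Ls g N s = ∑_{n ∣ Dv N} g n n^(-s)`, `Ll g N s = ∑_{n ∣ Dv N} g n log n n^(-s)`, `Gp g N s = ∑_{p≤N} g p log p p^(-s)`, `Ph g N s = exp(∑_{p≤N} Re(g p p^(-s)))`.

PROOF of `ha4`. `s = 1+σ+it`, `0 < σ ≤ 1`. For a prime `p ≤ N`, `e = ⌊log_p N⌋`, `E_p = ∑_{k≤e} g(p^k) p^(-ks) = 1 + z + w`, `z = g(p) p^(-s)`, `|z| ≤ 1/p`, `|w| ≤ 1/(p(p-1))`.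
`|1+z|² = 1 + 2Re z + |z|² ≤ exp(2Re z + |z|²)`, and `|1+z+w| ≤ exp(Re z + |z|²/2) + |w| ≤ exp(Re z + |z|²/2 + 2|w|)` (`Re z ≥ -1/2`, `e^(1/2) ≤ 2`), so
`|E_p| ≤ exp(Re z + 5/p²)`·; `(1/(p(p-1)) ≤ 2/p²)`. For a prime `q` let `L_q = ∑_{n∣Dv N, q∤n} g n n^(-s) = ∏_{p≠q} E_p` and `Ls = ∏ E_p` (multiplicativity over the divisors of a product
of coprime prime powers: induction on a finite set of primes, `Nat.divisors_mul`, `Nat.Coprime`; `Finset.prod_sum`). So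
`|L_q|, |Ls| ≤ C Ph` (`∑ 5/p² < ∞`, `|Re z_q| ≤ 1/2`). `log n = ∑_{p^k∥n} log p^k` gives
`Ll = ∑_p ∑_{1≤k≤e} k log p g(p^k) p^(-ks) L_p`; the terms `k ≥ 2` are at most `∑_p 8 log p/p² · C Ph ≤ C' Ph`; for `k = 1` insert `L_p = Ls - (E_p - 1) L_p`,
`|E_p - 1| ≤ 2/p`: `∑_p log p g(p) p^(-s) L_p = Gp Ls + O(∑ 2 log p/p² Ph)`. Hence `|Ll| ≤ C Ph (|Gp| + 1)`.
-/

namespace Pool.H2.MR

open Finset

noncomputable def Dv (N : ℕ) : ℕ := ∏ p ∈ (Icc 1 N).filter Nat.Prime, p ^ (Nat.log p N)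

theorem dvd_Dv (N n : ℕ) (h1 : 1 ≤ n) (hn : n ≤ N) : n ∣ Dv N := by
  rw [Nat.dvd_iff_prime_pow_dvd_dvd]
  intro p k hp hk
  rcases Nat.eq_zero_or_pos k with rfl | hk0
  · rw [pow_zero]
    exact one_dvd _
  · have h2 : p ^ k ≤ N := (Nat.le_of_dvd (by omega) hk).trans hn
    have h3 : p ≤ N := (Nat.le_self_pow (by omega) p).trans h2
    have h4 : k ≤ Nat.log p N := Nat.le_log_of_pow_le hp.one_lt h2
    unfold Dv
    exact (pow_dvd_pow p h4).trans (Finset.dvd_prod_of_mem (fun p => p ^ (Nat.log p N))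
      (mem_filter.2 ⟨mem_Icc.2 ⟨hp.one_lt.le, h3⟩, hp⟩))

theorem Dv_pos (N : ℕ) : 0 < Dv N := by
  unfold Dv
  exact Finset.prod_pos fun p hp => pow_pos (mem_filter.1 hp).2.pos _

noncomputable def Ls (g : ℕ → ℂ) (N : ℕ) (s : ℂ) : ℂ := ∑ n ∈ (Dv N).divisors, g n * (n : ℂ) ^ (-s)

noncomputable def Ll (g : ℕ → ℂ) (N : ℕ) (s : ℂ) : ℂ := ∑ n ∈ (Dv N).divisors, g n * Real.log n * (n : ℂ) ^ (-s)

noncomputable def Gp (g : ℕ → ℂ) (N : ℕ) (s : ℂ) : ℂ :=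
  ∑ p ∈ (Icc 1 N).filter Nat.Prime, g p * Real.log p * (p : ℂ) ^ (-s)

noncomputable def Ph (g : ℕ → ℂ) (N : ℕ) (s : ℂ) : ℝ :=
  Real.exp (∑ p ∈ (Icc 1 N).filter Nat.Prime, (g p * (p : ℂ) ^ (-s)).re)

private theorem ha4_sdm {m n : ℕ} (h : m.Coprime n) (H : ℕ → ℂ) :
    ∑ d ∈ (m * n).divisors, H d = ∑ x ∈ m.divisors, ∑ y ∈ n.divisors, H (x * y) := by
  rw [Nat.divisors_mul, Finset.mul_def, Finset.sum_image h.mul_injOn_divisors, Finset.sum_product]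

private theorem ha4_ind (e : ℕ → ℕ) (F : ℕ → ℂ) (hF1 : F 1 = 1)
    (hF : ∀ m n : ℕ, m.Coprime n → 0 < m → 0 < n → F (m * n) = F m * F n) (P : Finset ℕ) :
    (∀ p ∈ P, p.Prime) →
    ∑ n ∈ (∏ p ∈ P, p ^ e p).divisors, F n = ∏ p ∈ P, ∑ k ∈ range (e p + 1), F (p ^ k) ∧
    ∑ n ∈ (∏ p ∈ P, p ^ e p).divisors, F n * (Real.log n : ℂ) =
      ∑ q ∈ P, (∑ k ∈ range (e q + 1), (k : ℂ) * (Real.log q : ℂ) * F (q ^ k)) *
        ∏ p ∈ P.erase q, ∑ k ∈ range (e p + 1), F (p ^ k) := by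
  induction P using Finset.induction_on with
  | empty =>
    intro _
    simp [hF1]
  | insert q P hq ih =>
    intro hP
    have hqp : q.Prime := hP q (Finset.mem_insert_self q P)
    have hPp : ∀ p ∈ P, p.Prime := fun p hp => hP p (Finset.mem_insert_of_mem hp)
    obtain ⟨ih1, ih2⟩ := ih hPp
    have hcop : (∏ p ∈ P, p ^ e p).Coprime (q ^ e q) := by
      refine Nat.Coprime.prod_left fun p hp => ?_
      refine Nat.Coprime.pow _ _ ((Nat.coprime_primes (hPp p hp) hqp).2 ?_)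
      rintro rfl
      exact hq hp
    have hD0 : 0 < ∏ p ∈ P, p ^ e p := Finset.prod_pos fun p hp => pow_pos (hPp p hp).pos _
    have hmul : ∏ p ∈ insert q P, p ^ e p = (∏ p ∈ P, p ^ e p) * q ^ e q := by
      rw [Finset.prod_insert hq, mul_comm]
    have hx0 : ∀ x ∈ (∏ p ∈ P, p ^ e p).divisors, 0 < x := fun x hx =>
      Nat.pos_of_mem_divisors hx
    have hxy : ∀ x ∈ (∏ p ∈ P, p ^ e p).divisors, ∀ k ∈ range (e q + 1),
        F (x * q ^ k) = F x * F (q ^ k) := by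
      intro x hx k hk
      refine hF x (q ^ k) ?_ (hx0 x hx) (pow_pos hqp.pos _)
      rw [Nat.mem_divisors] at hx
      exact Nat.Coprime.coprime_dvd_left hx.1 (Nat.Coprime.coprime_dvd_right
        (pow_dvd_pow q (by rw [mem_range] at hk; omega)) hcop)
    constructor
    · rw [hmul, ha4_sdm hcop, Finset.prod_insert hq, ← ih1, mul_comm, Finset.sum_mul_sum]
      refine Finset.sum_congr rfl fun x hx => ?_
      rw [Nat.sum_divisors_prime_pow hqp]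
      exact Finset.sum_congr rfl fun k hk => hxy x hx k hk
    · have hlog : ∀ x ∈ (∏ p ∈ P, p ^ e p).divisors, ∀ k : ℕ,
          ((Real.log ((x * q ^ k : ℕ) : ℝ) : ℝ) : ℂ) =
            (Real.log x : ℂ) + (k : ℂ) * (Real.log q : ℂ) := by
        intro x hx k
        have h1 : (x : ℝ) ≠ 0 := by
          have := hx0 x hx
          have h2 : x ≠ 0 := by omega
          exact_mod_cast h2
        have h3 : ((q : ℝ) ^ k) ≠ 0 := pow_ne_zero _ (by exact_mod_cast hqp.ne_zero)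
        rw [Nat.cast_mul, Nat.cast_pow, Real.log_mul h1 h3, Real.log_pow]
        push_cast
        ring
      have h1 : ∑ n ∈ (∏ p ∈ insert q P, p ^ e p).divisors, F n * (Real.log n : ℂ) =
          (∑ x ∈ (∏ p ∈ P, p ^ e p).divisors, F x * (Real.log x : ℂ)) *
            (∑ k ∈ range (e q + 1), F (q ^ k)) +
          (∑ x ∈ (∏ p ∈ P, p ^ e p).divisors, F x) *
            (∑ k ∈ range (e q + 1), (k : ℂ) * (Real.log q : ℂ) * F (q ^ k)) := by
        rw [hmul, ha4_sdm hcop, Finset.sum_mul_sum, Finset.sum_mul_sum,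
          ← Finset.sum_add_distrib]
        refine Finset.sum_congr rfl fun x hx => ?_
        rw [Nat.sum_divisors_prime_pow hqp, ← Finset.sum_add_distrib]
        refine Finset.sum_congr rfl fun k hk => ?_
        rw [hxy x hx k hk, hlog x hx k]
        ring
      rw [h1, ih1, ih2, Finset.sum_insert hq, Finset.erase_insert hq, Finset.sum_mul, add_comm,
        mul_comm]
      congr 1
      refine Finset.sum_congr rfl fun r hr => ?_
      have hrq : q ≠ r := by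
        rintro rfl
        exact hq hr
      rw [Finset.erase_insert_of_ne hrq, Finset.prod_insert (fun h => hq (Finset.mem_of_mem_erase h))]
      ring

private theorem ha4_geo (m : ℕ) (x : ℝ) (hx0 : 0 ≤ x) (hx : x ≤ 1 / 2) :
    ∑ j ∈ range m, ((j : ℝ) + 2) * x ^ (j + 2) ≤ 8 * x ^ 2 := by
  have h1 : ∀ m : ℕ, ∑ j ∈ range m, ((j : ℝ) + 2) * (1 / 2 : ℝ) ^ j =
      6 - ((m : ℝ) + 3) * 2 * (1 / 2) ^ m := by
    intro m
    induction m with
    | zero => norm_num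
    | succ m ih =>
      rw [Finset.sum_range_succ, ih]
      push_cast
      ring
  have h2 : ∑ j ∈ range m, ((j : ℝ) + 2) * x ^ (j + 2) ≤
      x ^ 2 * ∑ j ∈ range m, ((j : ℝ) + 2) * (1 / 2 : ℝ) ^ j := by
    rw [Finset.mul_sum]
    refine Finset.sum_le_sum fun j _ => ?_
    have h3 : x ^ j ≤ (1 / 2 : ℝ) ^ j := pow_le_pow_left₀ hx0 hx j
    calc ((j : ℝ) + 2) * x ^ (j + 2) = x ^ 2 * (((j : ℝ) + 2) * x ^ j) := by ring
      _ ≤ x ^ 2 * (((j : ℝ) + 2) * (1 / 2) ^ j) :=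
        mul_le_mul_of_nonneg_left (mul_le_mul_of_nonneg_left h3 (by positivity)) (by positivity)
  rw [h1 m] at h2
  have h4 : 0 ≤ ((m : ℝ) + 3) * 2 * (1 / 2) ^ m := by positivity
  calc _ ≤ _ := h2
    _ ≤ x ^ 2 * 8 := mul_le_mul_of_nonneg_left (by linarith) (by positivity)
    _ = 8 * x ^ 2 := by ring

private theorem ha4_geo' (m : ℕ) (x : ℝ) (hx0 : 0 ≤ x) (hx : x ≤ 1 / 2) :
    ∑ j ∈ range m, x ^ (j + 2) ≤ 2 * x ^ 2 := by
  have h1 : ∀ m : ℕ, ∑ j ∈ range m, (1 / 2 : ℝ) ^ j = 2 - 2 * (1 / 2) ^ m := by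
    intro m
    induction m with
    | zero => norm_num
    | succ m ih =>
      rw [Finset.sum_range_succ, ih]
      ring
  have h2 : ∑ j ∈ range m, x ^ (j + 2) ≤ x ^ 2 * ∑ j ∈ range m, (1 / 2 : ℝ) ^ j := by
    rw [Finset.mul_sum]
    refine Finset.sum_le_sum fun j _ => ?_
    have h3 : x ^ j ≤ (1 / 2 : ℝ) ^ j := pow_le_pow_left₀ hx0 hx j
    calc x ^ (j + 2) = x ^ 2 * x ^ j := by ring
      _ ≤ x ^ 2 * (1 / 2) ^ j := mul_le_mul_of_nonneg_left h3 (by positivity)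
  rw [h1 m] at h2
  have h4 : 0 ≤ 2 * (1 / 2 : ℝ) ^ m := by positivity
  calc _ ≤ _ := h2
    _ ≤ x ^ 2 * 2 := mul_le_mul_of_nonneg_left (by linarith) (by positivity)
    _ = 2 * x ^ 2 := by ring

/-- the bounds at one prime -/
private theorem ha4_E (a : ℕ → ℂ) (e : ℕ) (he : 1 ≤ e) (x : ℝ) (hx0 : 0 ≤ x) (hx : x ≤ 1 / 2)
    (h0 : a 0 = 1) (ha : ∀ k, ‖a k‖ ≤ x ^ k) :
    ‖∑ k ∈ range (e + 1), a k‖ ≤ Real.exp ((a 1).re + 5 * x ^ 2) ∧
    ‖∑ k ∈ range (e + 1), a k - 1‖ ≤ 2 * x ∧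
    ‖∑ k ∈ range (e + 1), (k : ℂ) * a k - a 1‖ ≤ 8 * x ^ 2 := by
  obtain ⟨m, rfl⟩ : ∃ m, e = m + 1 := ⟨e - 1, by omega⟩
  obtain ⟨w, hw⟩ : ∃ w : ℂ, w = ∑ j ∈ range m, a (j + 2) := ⟨_, rfl⟩
  have hsum : ∑ k ∈ range (m + 1 + 1), a k = 1 + a 1 + w := by
    rw [Finset.sum_range_succ', Finset.sum_range_succ', h0, hw]
    ring
  have hw2 : ‖w‖ ≤ 2 * x ^ 2 := by
    rw [hw]
    refine (norm_sum_le _ _).trans ((Finset.sum_le_sum fun j _ => ha (j + 2)).trans ?_)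
    exact ha4_geo' m x hx0 hx
  have hz : ‖a 1‖ ≤ x := by
    have := ha 1
    rwa [pow_one] at this
  have hre : |(a 1).re| ≤ x := (Complex.abs_re_le_norm _).trans hz
  have hre2 := abs_le.1 hre
  refine ⟨?_, ?_, ?_⟩
  · rw [hsum]
    have h1 : ‖1 + a 1‖ ≤ Real.exp ((a 1).re + ‖a 1‖ ^ 2 / 2) := by
      have h2 : ‖1 + a 1‖ ^ 2 = 1 + 2 * (a 1).re + ‖a 1‖ ^ 2 := by
        rw [Complex.sq_norm, Complex.sq_norm, Complex.normSq_apply, Complex.normSq_apply]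
        simp only [Complex.add_re, Complex.one_re, Complex.add_im, Complex.one_im]
        ring
      have h3 : ‖1 + a 1‖ ^ 2 ≤ (Real.exp ((a 1).re + ‖a 1‖ ^ 2 / 2)) ^ 2 := by
        rw [h2, ← Real.exp_nat_mul]
        have h4 := Real.add_one_le_exp (2 * (a 1).re + ‖a 1‖ ^ 2)
        have h5 : ((2 : ℕ) : ℝ) * ((a 1).re + ‖a 1‖ ^ 2 / 2) = 2 * (a 1).re + ‖a 1‖ ^ 2 := by
          push_cast
          ring
        rw [h5]
        linarith
      exact (pow_le_pow_iff_left₀ (norm_nonneg _) (Real.exp_pos _).le two_ne_zero).1 h3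
    have h6 : 0 ≤ ‖w‖ := norm_nonneg w
    obtain ⟨A, hA⟩ : ∃ A : ℝ, A = (a 1).re + ‖a 1‖ ^ 2 / 2 := ⟨_, rfl⟩
    have hA2 : -(1 / 2) ≤ A := by
      rw [hA]
      have : 0 ≤ ‖a 1‖ ^ 2 / 2 := by positivity
      linarith
    have h7 : Real.exp A + ‖w‖ ≤ Real.exp (A + 2 * ‖w‖) := by
      rw [Real.exp_add]
      have h8 := Real.add_one_le_exp (2 * ‖w‖)
      have h9 := Real.add_one_le_exp A
      have h10 : 1 / 2 ≤ Real.exp A := by linarith
      calc Real.exp A + ‖w‖ ≤ Real.exp A * (2 * ‖w‖ + 1) := by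
            have := mul_le_mul_of_nonneg_right h10 (by linarith : (0:ℝ) ≤ 2 * ‖w‖)
            linarith
        _ ≤ Real.exp A * Real.exp (2 * ‖w‖) := mul_le_mul_of_nonneg_left h8 (Real.exp_pos _).le
    calc ‖1 + a 1 + w‖ ≤ ‖1 + a 1‖ + ‖w‖ := norm_add_le _ _
      _ ≤ Real.exp A + ‖w‖ := by rw [hA]; linarith
      _ ≤ Real.exp (A + 2 * ‖w‖) := h7
      _ ≤ Real.exp ((a 1).re + 5 * x ^ 2) := by
        refine Real.exp_le_exp.2 ?_
        rw [hA]
        have h11 : ‖a 1‖ ^ 2 ≤ x ^ 2 := pow_le_pow_left₀ (norm_nonneg _) hz 2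
        have h12 : 0 ≤ x ^ 2 := sq_nonneg x
        linarith
  · rw [hsum]
    have h1 : 1 + a 1 + w - 1 = a 1 + w := by ring
    rw [h1]
    have h2 : 2 * x ^ 2 ≤ x := by
      have := mul_le_mul_of_nonneg_left hx hx0
      nlinarith
    calc ‖a 1 + w‖ ≤ ‖a 1‖ + ‖w‖ := norm_add_le _ _
      _ ≤ 2 * x := by linarith
  · have h1 : ∑ k ∈ range (m + 1 + 1), (k : ℂ) * a k - a 1 =
        ∑ j ∈ range m, (((j : ℝ) + 2 : ℝ) : ℂ) * a (j + 2) := by
      rw [Finset.sum_range_succ', Finset.sum_range_succ']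
      have h2 : ∀ j : ℕ, (((j + 1 + 1 : ℕ) : ℂ)) * a (j + 1 + 1) =
          (((j : ℝ) + 2 : ℝ) : ℂ) * a (j + 2) := by
        intro j
        push_cast
        ring
      rw [Finset.sum_congr rfl fun j _ => h2 j]
      push_cast
      ring
    rw [h1]
    refine (norm_sum_le _ _).trans (le_trans (Finset.sum_le_sum fun j _ => ?_)
      (ha4_geo m x hx0 hx))
    rw [norm_mul, Complex.norm_real, Real.norm_eq_abs, abs_of_nonneg (by positivity)]
    exact mul_le_mul_of_nonneg_left (ha (j + 2)) (by positivity)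

private theorem ha4_sq (N : ℕ) : ∑ n ∈ Icc 1 N, 1 / (n : ℝ) ^ 2 ≤ 2 := by
  have h : ∀ N : ℕ, 1 ≤ N → ∑ n ∈ Icc 1 N, 1 / (n : ℝ) ^ 2 ≤ 2 - 1 / (N : ℝ) := by
    intro N hN
    induction N, hN using Nat.le_induction with
    | base => norm_num
    | succ n hn ih =>
      rw [Finset.sum_Icc_succ_top (by omega)]
      have h0 : (0 : ℝ) < n := by exact_mod_cast hn
      have h1 : 1 / ((n + 1 : ℕ) : ℝ) ^ 2 ≤ 1 / (n : ℝ) - 1 / ((n + 1 : ℕ) : ℝ) := by
        push_cast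
        rw [div_sub_div _ _ (by positivity) (by positivity), div_le_div_iff₀ (by positivity)
          (by positivity)]
        nlinarith
      linarith
  rcases Nat.eq_zero_or_pos N with rfl | hN
  · norm_num
  · have h1 := h N hN
    have h2 : (0 : ℝ) ≤ 1 / N := by positivity
    linarith

private theorem ha4_log : ∃ K : ℝ, 0 ≤ K ∧ ∀ N : ℕ, ∑ n ∈ Icc 1 N, Real.log n / (n : ℝ) ^ 2 ≤ K := by
  have hs : Summable (fun n : ℕ => 2 * (1 / (n : ℝ) ^ (3 / 2 : ℝ))) :=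
    (Real.summable_one_div_nat_rpow.2 (by norm_num)).mul_left 2
  refine ⟨∑' n : ℕ, 2 * (1 / (n : ℝ) ^ (3 / 2 : ℝ)), tsum_nonneg fun n => by positivity,
    fun N => ?_⟩
  refine le_trans (Finset.sum_le_sum fun n hn => ?_)
    (hs.sum_le_tsum (Icc 1 N) fun n _ => by positivity)
  rw [mem_Icc] at hn
  have hn0 : (0 : ℝ) < n := by exact_mod_cast hn.1
  have h1 := Real.log_le_rpow_div hn0.le (ε := 1 / 2) (by norm_num)
  rw [div_le_iff₀ (by positivity)]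
  have h2 : (n : ℝ) ^ 2 = (n : ℝ) ^ (3 / 2 : ℝ) * (n : ℝ) ^ (1 / 2 : ℝ) := by
    rw [← Real.rpow_add hn0, ← Real.rpow_natCast]
    norm_num
  rw [h2]
  have h3 : 0 < (n : ℝ) ^ (3 / 2 : ℝ) := by positivity
  calc Real.log n ≤ (n : ℝ) ^ (1 / 2 : ℝ) / (1 / 2) := h1
    _ = 2 * (1 / (n : ℝ) ^ (3 / 2 : ℝ)) * ((n : ℝ) ^ (3 / 2 : ℝ) * (n : ℝ) ^ (1 / 2 : ℝ)) := by
      field_simp

theorem ha4 : ∃ C : ℝ, 0 < C ∧ ∀ (g : ℕ → ℂ) (N : ℕ) (σ t : ℝ), OB g → 0 < σ → σ ≤ 1 →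
    ‖Ll g N (1 + σ + t * Complex.I)‖ ≤
      C * Ph g N (1 + σ + t * Complex.I) * (‖Gp g N (1 + σ + t * Complex.I)‖ + 1) := by
  obtain ⟨K, hK0, hK⟩ := ha4_log
  refine ⟨Real.exp 11 * (10 * K + 1), by positivity, ?_⟩
  intro g N σ t hg hσ _
  obtain ⟨s, hs⟩ : ∃ s : ℂ, s = 1 + σ + t * Complex.I := ⟨_, rfl⟩
  rw [← hs]
  have hsre : (-s).re = -(1 + σ) := by
    rw [hs]
    simp
  obtain ⟨F, hF⟩ : ∃ F : ℕ → ℂ, F = fun n => g n * (n : ℂ) ^ (-s) := ⟨_, rfl⟩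
  have hF1 : F 1 = 1 := by
    rw [hF]
    simp [hg.one]
  have hFm : ∀ m n : ℕ, m.Coprime n → 0 < m → 0 < n → F (m * n) = F m * F n := by
    intro m n hmn _ _
    rw [hF]
    simp only
    rw [hg.mul m n hmn, Nat.cast_mul, Complex.natCast_mul_natCast_cpow]
    ring
  have hFb : ∀ n : ℕ, 1 ≤ n → ‖F n‖ ≤ 1 / n := by
    intro n hn
    have hn1 : (1 : ℝ) ≤ n := by exact_mod_cast hn
    rw [hF]
    simp only
    rw [norm_mul, Complex.norm_natCast_cpow_of_pos (by omega), hsre]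
    calc ‖g n‖ * (n : ℝ) ^ (-(1 + σ)) ≤ 1 * (n : ℝ) ^ (-1 : ℝ) :=
          mul_le_mul (hg.bd n) (Real.rpow_le_rpow_of_exponent_le hn1 (by linarith))
            (by positivity) zero_le_one
      _ = 1 / n := by rw [one_mul, Real.rpow_neg_one, one_div]
  obtain ⟨P, hP⟩ : ∃ P : Finset ℕ, P = (Icc 1 N).filter Nat.Prime := ⟨_, rfl⟩
  have hPp : ∀ p ∈ P, p.Prime := by
    intro p hp
    rw [hP] at hp
    exact (mem_filter.1 hp).2
  have hPN : ∀ p ∈ P, p ≤ N := by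
    intro p hp
    rw [hP] at hp
    exact (mem_Icc.1 (mem_filter.1 hp).1).2
  have hPs : P ⊆ Icc 1 N := by
    rw [hP]
    exact Finset.filter_subset _ _
  obtain ⟨E, hE⟩ : ∃ E : ℕ → ℂ, E = fun p => ∑ k ∈ range (Nat.log p N + 1), F (p ^ k) := ⟨_, rfl⟩
  obtain ⟨E', hE'⟩ : ∃ E' : ℕ → ℂ, E' = fun q => ∑ k ∈ range (Nat.log q N + 1),
    (k : ℂ) * (Real.log q : ℂ) * F (q ^ k) := ⟨_, rfl⟩
  have hind := ha4_ind (fun p => Nat.log p N) F hF1 hFm P hPp
  have hLl : Ll g N s = ∑ q ∈ P, E' q * ∏ p ∈ P.erase q, E p := by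
    rw [hE, hE', ← hind.2]
    unfold Ll Dv
    rw [hP]
    refine Finset.sum_congr rfl fun n _ => ?_
    rw [hF]
    ring
  -- the bounds at the primes
  have hb : ∀ p ∈ P, ‖E p‖ ≤ Real.exp ((F p).re + 5 * (1 / (p : ℝ)) ^ 2) ∧
      ‖E p - 1‖ ≤ 2 * (1 / (p : ℝ)) ∧
      ‖E' p - (Real.log p : ℂ) * F p‖ ≤ Real.log p * (8 * (1 / (p : ℝ)) ^ 2) := by
    intro p hp
    have hpp := hPp p hp
    have hp2 : (2 : ℝ) ≤ p := by exact_mod_cast hpp.two_le
    have h1 := ha4_E (fun k => F (p ^ k)) (Nat.log p N) (Nat.log_pos hpp.one_lt (hPN p hp))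
      (1 / (p : ℝ)) (by positivity)
      (one_div_le_one_div_of_le (by norm_num) hp2) (by simp only [pow_zero, hF1])
      (fun k => by
        have h2 := hFb (p ^ k) (Nat.one_le_pow _ _ hpp.pos)
        rw [Nat.cast_pow] at h2
        rw [one_div_pow]
        exact h2)
    simp only [pow_one] at h1
    obtain ⟨h2, h3, h4⟩ := h1
    refine ⟨?_, ?_, ?_⟩
    · rw [hE]
      exact h2
    · rw [hE]
      exact h3
    · have h5 : E' p - (Real.log p : ℂ) * F p = (Real.log p : ℂ) *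
          (∑ k ∈ range (Nat.log p N + 1), (k : ℂ) * F (p ^ k) - F p) := by
        rw [hE', mul_sub, Finset.mul_sum]
        congr 1
        refine Finset.sum_congr rfl fun k _ => ?_
        ring
      have h6 : 0 ≤ Real.log p := Real.log_nonneg (by linarith)
      rw [h5, norm_mul, Complex.norm_real, Real.norm_eq_abs, abs_of_nonneg h6]
      exact mul_le_mul_of_nonneg_left h4 h6
  have hsq : ∑ p ∈ P, 5 * (1 / (p : ℝ)) ^ 2 ≤ 10 := by
    rw [← Finset.mul_sum]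
    have h1 : ∑ p ∈ P, (1 / (p : ℝ)) ^ 2 ≤ ∑ n ∈ Icc 1 N, 1 / (n : ℝ) ^ 2 := by
      refine le_trans (Finset.sum_le_sum_of_subset_of_nonneg hPs fun _ _ _ => by positivity)
        (Finset.sum_le_sum fun n _ => ?_)
      rw [one_div_pow]
    have h2 := ha4_sq N
    linarith
  have hPh : Ph g N s = Real.exp (∑ p ∈ P, (F p).re) := by
    unfold Ph
    rw [hP, hF]
  have hprod : ∀ Q : Finset ℕ, Q ⊆ P → ∑ p ∈ Q, (F p).re ≤ ∑ p ∈ P, (F p).re + 1 →
      ‖∏ p ∈ Q, E p‖ ≤ Real.exp 11 * Ph g N s := by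
    intro Q hQ hQ2
    have h1 : ‖∏ p ∈ Q, E p‖ ≤ Real.exp (∑ p ∈ Q, ((F p).re + 5 * (1 / (p : ℝ)) ^ 2)) := by
      rw [Real.exp_sum, norm_prod]
      exact Finset.prod_le_prod (fun p _ => norm_nonneg _) fun p hp => (hb p (hQ hp)).1
    refine h1.trans ?_
    rw [hPh, ← Real.exp_add]
    refine Real.exp_le_exp.2 ?_
    rw [Finset.sum_add_distrib]
    have h2 : ∑ p ∈ Q, 5 * (1 / (p : ℝ)) ^ 2 ≤ ∑ p ∈ P, 5 * (1 / (p : ℝ)) ^ 2 :=
      Finset.sum_le_sum_of_subset_of_nonneg hQ fun _ _ _ => by positivity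
    linarith
  have hLs : ‖∏ p ∈ P, E p‖ ≤ Real.exp 11 * Ph g N s :=
    hprod P (Finset.Subset.refl _) (by linarith)
  have hLq : ∀ q ∈ P, ‖∏ p ∈ P.erase q, E p‖ ≤ Real.exp 11 * Ph g N s := by
    intro q hq
    refine hprod _ (Finset.erase_subset _ _) ?_
    have h1 := Finset.sum_erase_add P (fun p => (F p).re) hq
    have h2 : -(1 : ℝ) ≤ (F q).re := by
      have h3 := (Complex.abs_re_le_norm (F q)).trans (hFb q (hPp q hq).one_lt.le)
      have h4 := (abs_le.1 h3).1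
      have h5 : (1 : ℝ) / q ≤ 1 := by
        have : (1 : ℝ) ≤ q := by exact_mod_cast (hPp q hq).one_lt.le
        exact div_le_one_of_le₀ this (by positivity)
      linarith
    linarith
  have hB0 : 0 ≤ Real.exp 11 * Ph g N s := by
    unfold Ph
    positivity
  have hGp : Gp g N s = ∑ q ∈ P, (Real.log q : ℂ) * F q := by
    unfold Gp
    rw [hP, hF]
    refine Finset.sum_congr rfl fun q _ => ?_
    ring
  have hsplit : Ll g N s = (∑ q ∈ P, (E' q - (Real.log q : ℂ) * F q) * ∏ p ∈ P.erase q, E p) +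
      Gp g N s * ∏ p ∈ P, E p -
      ∑ q ∈ P, (Real.log q : ℂ) * F q * (E q - 1) * ∏ p ∈ P.erase q, E p := by
    rw [hLl, hGp, Finset.sum_mul, ← Finset.sum_add_distrib, ← Finset.sum_sub_distrib]
    refine Finset.sum_congr rfl fun q hq => ?_
    rw [← Finset.mul_prod_erase P E hq]
    ring
  have hKP : ∑ q ∈ P, Real.log q * (1 / (q : ℝ)) ^ 2 ≤ K := by
    refine le_trans ?_ (hK N)
    refine le_trans (Finset.sum_le_sum_of_subset_of_nonneg hPs fun n hn _ => ?_)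
      (Finset.sum_le_sum fun n _ => ?_)
    · rw [mem_Icc] at hn
      have : (1 : ℝ) ≤ n := by exact_mod_cast hn.1
      have := Real.log_nonneg this
      positivity
    · rw [one_div_pow, mul_one_div]
  have hT1 : ‖∑ q ∈ P, (E' q - (Real.log q : ℂ) * F q) * ∏ p ∈ P.erase q, E p‖ ≤
      8 * K * (Real.exp 11 * Ph g N s) := by
    refine (norm_sum_le _ _).trans ?_
    calc ∑ q ∈ P, ‖(E' q - (Real.log q : ℂ) * F q) * ∏ p ∈ P.erase q, E p‖
        ≤ ∑ q ∈ P, (Real.log q * (1 / (q : ℝ)) ^ 2) * (8 * (Real.exp 11 * Ph g N s)) := by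
          refine Finset.sum_le_sum fun q hq => ?_
          rw [norm_mul]
          calc _ ≤ (Real.log q * (8 * (1 / (q : ℝ)) ^ 2)) * (Real.exp 11 * Ph g N s) :=
                mul_le_mul (hb q hq).2.2 (hLq q hq) (norm_nonneg _)
                  (le_trans (norm_nonneg _) (hb q hq).2.2)
            _ = _ := by ring
      _ = (∑ q ∈ P, Real.log q * (1 / (q : ℝ)) ^ 2) * (8 * (Real.exp 11 * Ph g N s)) := by
          rw [Finset.sum_mul]
      _ ≤ K * (8 * (Real.exp 11 * Ph g N s)) := mul_le_mul_of_nonneg_right hKP (by positivity)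
      _ = _ := by ring
  have hT3 : ‖∑ q ∈ P, (Real.log q : ℂ) * F q * (E q - 1) * ∏ p ∈ P.erase q, E p‖ ≤
      2 * K * (Real.exp 11 * Ph g N s) := by
    refine (norm_sum_le _ _).trans ?_
    calc ∑ q ∈ P, ‖(Real.log q : ℂ) * F q * (E q - 1) * ∏ p ∈ P.erase q, E p‖
        ≤ ∑ q ∈ P, (Real.log q * (1 / (q : ℝ)) ^ 2) * (2 * (Real.exp 11 * Ph g N s)) := by
          refine Finset.sum_le_sum fun q hq => ?_
          have hq1 : (1 : ℝ) ≤ q := by exact_mod_cast (hPp q hq).one_lt.le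
          have hl0 : 0 ≤ Real.log q := Real.log_nonneg hq1
          rw [norm_mul, norm_mul, norm_mul, Complex.norm_real, Real.norm_eq_abs,
            abs_of_nonneg hl0]
          calc _ ≤ (Real.log q * (1 / (q : ℝ)) * (2 * (1 / (q : ℝ)))) *
                (Real.exp 11 * Ph g N s) := by
                refine mul_le_mul ?_ (hLq q hq) (norm_nonneg _) (by positivity)
                refine mul_le_mul ?_ (hb q hq).2.1 (norm_nonneg _) (by positivity)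
                exact mul_le_mul_of_nonneg_left (hFb q (hPp q hq).one_lt.le) hl0
            _ = _ := by ring
      _ = (∑ q ∈ P, Real.log q * (1 / (q : ℝ)) ^ 2) * (2 * (Real.exp 11 * Ph g N s)) := by
          rw [Finset.sum_mul]
      _ ≤ K * (2 * (Real.exp 11 * Ph g N s)) := mul_le_mul_of_nonneg_right hKP (by positivity)
      _ = _ := by ring
  have hT2 : ‖Gp g N s * ∏ p ∈ P, E p‖ ≤ ‖Gp g N s‖ * (Real.exp 11 * Ph g N s) := by
    rw [norm_mul]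
    exact mul_le_mul_of_nonneg_left hLs (norm_nonneg _)
  have hG0 := norm_nonneg (Gp g N s)
  calc ‖Ll g N s‖ ≤ 8 * K * (Real.exp 11 * Ph g N s) + ‖Gp g N s‖ * (Real.exp 11 * Ph g N s) +
        2 * K * (Real.exp 11 * Ph g N s) := by
        rw [hsplit]
        refine (norm_sub_le _ _).trans (add_le_add ((norm_add_le _ _).trans
          (add_le_add hT1 hT2)) hT3)
    _ = (10 * K + ‖Gp g N s‖) * (Real.exp 11 * Ph g N s) := by ring
    _ ≤ ((10 * K + 1) * (‖Gp g N s‖ + 1)) * (Real.exp 11 * Ph g N s) := by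
        refine mul_le_mul_of_nonneg_right ?_ hB0
        have := mul_nonneg hK0 hG0
        nlinarith
    _ = Real.exp 11 * (10 * K + 1) * Ph g N s * (‖Gp g N s‖ + 1) := by ring

end Pool.H2.MR
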