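import Pool.Agent.H2.MR.Ha3
import Pool.Agent.H2.MR.Ha4

/-!
# [H2 MR HA5] The integral of the logarithmic series

PROOF. (i) `∫_ℝ |Gp|²/|1+σ+it|² dt = 2π ∫ |∑_{p ≤ min(N,e^x)} g(p) log p|² e^(-2(1+σ)x) dx` (`ha3` with `S` = primes up to `N`) `≤ 2π C² ∫_0^∞ e^(-2σx) dx = πC²/σ`
(Chebyshev: `Chebyshev.theta_le_log4_mul_x`; the inner sum is `0` for `x < 0`).
(ii) Tail. Let `k` be an integer, `a n = g n log n`. For `v ∈ [0,1]` `|1+σ+iv|² ≤ 5`, so
`∫_k^(k+1) |Ll(1+σ+it)|² dt ≤ 5 ∫_ℝ |∑ a n n^(-ik) n^(-(1+σ+iv))|²/|1+σ+iv|² dv = 10π ∫ |∑_{n∣Dv N, n≤e^x} a n n^(-ik)|² e^(-2(1+σ)x) dx ≤ 10π ∫_0^∞ (x e^x)² e^(-2(1+σ)x) dx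
= 10π · 2/(2σ)³ = 5π/(2σ³)` (`ha3`; `∑_{n≤e^x} log n ≤ x e^x`). Hence `∫_{|t|>T} |Ll|²/|1+σ+it|² dt ≤ ∑_{k ≥ T-1 or k+1 ≤ -(T-1)} ... ≤ (C/σ³)(∑_{k≥T-1} 1/k²)·2 ≤ C'/(σ³T)` for `T ≥ 3`
(cover `{|t| > T}` by the `[k,k+1]`, where `|t| ≥ |k|-1`...).
(iii) For `|t| ≤ T`: `ha4`, `|Ll|² ≤ 2C² M²(|Gp|² + 1)` if `Ph ≤ M` there; `∫ 1/|1+σ+it|² ≤ π`. So
`∫_ℝ |Ll|²/|1+σ+it|² ≤ C(M²(1/σ + 1) + 1/(σ³T)) ≤ C'(M²/σ + 1/(σ³T))`.
-/

namespace Pool.H2.MR

open Finset MeasureTheory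

private theorem h5_cont (S : Finset ℕ) (hS : ∀ n ∈ S, 1 ≤ n) (a : ℕ → ℂ) (σ : ℝ) : Continuous (fun t : ℝ =>
    ∑ n ∈ S, a n * (n : ℂ) ^ (-((1 : ℂ) + σ + t * Complex.I))) := by
  refine continuous_finsetSum _ fun n hn => ?_
  have hn1 : 1 ≤ n := hS n hn
  have hn0 : (n : ℂ) ≠ 0 := by
    have : n ≠ 0 := by omega
    exact_mod_cast this
  exact continuous_const.mul (Continuous.const_cpow (by fun_prop) (Or.inl hn0))

private theorem h5_x (S : Finset ℕ) (hS : ∀ n ∈ S, 1 ≤ n) (b : ℕ → ℂ) (hb : ∀ n ∈ S, ‖b n‖ ≤ Real.log n) (σ : ℝ) (hσ : 0 < σ) :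
    ∫ x : ℝ, ‖∑ n ∈ S.filter (fun n : ℕ => (n : ℝ) ≤ Real.exp x), b n‖ ^ 2 * Real.exp (-(2 * (1 + σ) * x)) ≤ 1 / (4 * σ ^ 3) := by
  have hI : ∫ t in Set.Ioi (0 : ℝ), t ^ ((3 : ℝ) - 1) * Real.exp (-(2 * σ * t)) = 1 / (4 * σ ^ 3) := by
    rw [Real.integral_rpow_mul_exp_neg_mul_Ioi (by norm_num) (by linarith)]
    have h1 : Real.Gamma 3 = 2 := by
      have h3 := Real.Gamma_nat_eq_factorial 2
      rw [show ((2 : ℕ) : ℝ) + 1 = 3 by norm_num] at h3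
      rw [h3]
      norm_num [Nat.factorial]
    have h2 : (1 / (2 * σ)) ^ (3 : ℝ) = (1 / (2 * σ)) ^ 3 := by
      exact_mod_cast Real.rpow_natCast (1 / (2 * σ)) 3
    rw [h1, h2]
    field_simp
    norm_num
  have hint : IntegrableOn (fun t : ℝ => t ^ ((3 : ℝ) - 1) * Real.exp (-(2 * σ * t))) (Set.Ioi 0) := by
    by_contra hc
    rw [integral_undef hc] at hI
    have : 0 < 1 / (4 * σ ^ 3) := by positivity
    linarith
  rw [← hI, ← integral_indicator measurableSet_Ioi]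
  apply integral_mono_of_nonneg
  · exact Filter.Eventually.of_forall fun x => by positivity
  · rw [integrable_indicator_iff measurableSet_Ioi]
    exact hint
  · refine Filter.Eventually.of_forall fun x => ?_
    have h1 : ‖∑ n ∈ S.filter (fun n : ℕ => (n : ℝ) ≤ Real.exp x), b n‖ ≤
        ∑ n ∈ S.filter (fun n : ℕ => (n : ℝ) ≤ Real.exp x), Real.log n :=
      (norm_sum_le _ _).trans (Finset.sum_le_sum fun n hn => hb n (Finset.mem_filter.1 hn).1)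
    rcases lt_or_ge 0 x with hx | hx
    · show _ ≤ Set.indicator (Set.Ioi 0) _ x
      rw [Set.indicator_of_mem (show x ∈ Set.Ioi (0 : ℝ) from hx)]
      have h2 : ∑ n ∈ S.filter (fun n : ℕ => (n : ℝ) ≤ Real.exp x), Real.log n ≤ Real.exp x * x := by
        have h3 : ∀ n ∈ S.filter (fun n : ℕ => (n : ℝ) ≤ Real.exp x), Real.log n ≤ x := by
          intro n hn
          obtain ⟨h4, h5⟩ := Finset.mem_filter.1 hn
          have h6 : (0 : ℝ) < n := by exact_mod_cast hS n h4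
          exact (Real.log_le_iff_le_exp h6).2 h5
        have h4 := Finset.sum_le_card_nsmul _ _ _ h3
        rw [nsmul_eq_mul] at h4
        refine h4.trans (mul_le_mul_of_nonneg_right ?_ hx.le)
        have h5 : (S.filter (fun n : ℕ => (n : ℝ) ≤ Real.exp x)) ⊆ Icc 1 ⌊Real.exp x⌋₊ := by
          intro n hn
          obtain ⟨h6, h7⟩ := Finset.mem_filter.1 hn
          exact mem_Icc.2 ⟨hS n h6, Nat.le_floor h7⟩
        have h6 := Finset.card_le_card h5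
        rw [Nat.card_Icc, Nat.add_sub_cancel] at h6
        have h7 : ((S.filter (fun n : ℕ => (n : ℝ) ≤ Real.exp x)).card : ℝ) ≤ (⌊Real.exp x⌋₊ : ℝ) := by exact_mod_cast h6
        exact h7.trans (Nat.floor_le (Real.exp_pos x).le)
      have h3 : ‖∑ n ∈ S.filter (fun n : ℕ => (n : ℝ) ≤ Real.exp x), b n‖ ^ 2 ≤ (Real.exp x * x) ^ 2 :=
        pow_le_pow_left₀ (norm_nonneg _) (h1.trans h2) 2
      have h4 : x ^ ((3 : ℝ) - 1) = x ^ 2 := by
        have h5 : (3 : ℝ) - 1 = ((2 : ℕ) : ℝ) := by norm_num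
        rw [h5, Real.rpow_natCast]
      rw [h4]
      calc ‖∑ n ∈ S.filter (fun n : ℕ => (n : ℝ) ≤ Real.exp x), b n‖ ^ 2 * Real.exp (-(2 * (1 + σ) * x))
          ≤ (Real.exp x * x) ^ 2 * Real.exp (-(2 * (1 + σ) * x)) := mul_le_mul_of_nonneg_right h3 (Real.exp_pos _).le
        _ = x ^ 2 * (Real.exp x ^ 2 * Real.exp (-(2 * (1 + σ) * x))) := by ring
        _ = x ^ 2 * Real.exp (-(2 * σ * x)) := by
            rw [← Real.exp_nat_mul, ← Real.exp_add]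
            congr 2
            push_cast
            ring
    · show _ ≤ Set.indicator (Set.Ioi 0) _ x
      rw [Set.indicator_of_notMem (show x ∉ Set.Ioi (0 : ℝ) from not_lt.2 hx)]
      have h2 : ∑ n ∈ S.filter (fun n : ℕ => (n : ℝ) ≤ Real.exp x), Real.log n = 0 := by
        apply Finset.sum_eq_zero
        intro n hn
        obtain ⟨h4, h5⟩ := Finset.mem_filter.1 hn
        have h6 : (n : ℝ) ≤ 1 := h5.trans (Real.exp_le_one_iff.2 hx)
        have h7 : n ≤ 1 := by exact_mod_cast h6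
        have h8 : n = 1 := le_antisymm h7 (hS n h4)
        rw [h8]
        simp
      rw [h2] at h1
      have h3 : ‖∑ n ∈ S.filter (fun n : ℕ => (n : ℝ) ≤ Real.exp x), b n‖ = 0 := le_antisymm h1 (norm_nonneg _)
      show ‖∑ n ∈ S.filter (fun n : ℕ => (n : ℝ) ≤ Real.exp x), b n‖ ^ 2 * Real.exp (-(2 * (1 + σ) * x)) ≤ 0
      rw [h3]
      simp

private theorem h5_tw (n : ℕ) (hn : 1 ≤ n) (σ τ v : ℝ) :
    (n : ℂ) ^ (-((1 : ℂ) + σ + ((τ + v : ℝ) : ℂ) * Complex.I)) =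
      (n : ℂ) ^ (-((τ : ℂ) * Complex.I)) * (n : ℂ) ^ (-((1 : ℂ) + σ + v * Complex.I)) := by
  have hn0 : (n : ℂ) ≠ 0 := by
    have : n ≠ 0 := by omega
    exact_mod_cast this
  rw [← Complex.cpow_add _ _ hn0]
  congr 1
  push_cast
  ring

private theorem h5_unit (S : Finset ℕ) (hS : ∀ n ∈ S, 1 ≤ n) (a : ℕ → ℂ) (ha : ∀ n ∈ S, ‖a n‖ ≤ Real.log n) (σ : ℝ) (hσ : 0 < σ)
    (hσ1 : σ ≤ 1) (τ : ℝ) :
    ∫ t in τ..(τ + 1), ‖∑ n ∈ S, a n * (n : ℂ) ^ (-((1 : ℂ) + σ + t * Complex.I))‖ ^ 2 ≤ 5 * Real.pi / (2 * σ ^ 3) := by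
  have h0 := intervalIntegral.integral_comp_add_left (a := 0) (b := 1)
    (fun t : ℝ => ‖∑ n ∈ S, a n * (n : ℂ) ^ (-((1 : ℂ) + σ + t * Complex.I))‖ ^ 2) τ
  rw [add_zero] at h0
  rw [← h0]
  obtain ⟨b, hb⟩ : ∃ b : ℕ → ℂ, b = fun n => a n * (n : ℂ) ^ (-((τ : ℂ) * Complex.I)) := ⟨_, rfl⟩
  have hbn : ∀ n ∈ S, ‖b n‖ ≤ Real.log n := by
    intro n hn
    rw [hb]
    simp only
    rw [norm_mul, Complex.norm_natCast_cpow_of_pos (hS n hn)]
    simpa using ha n hn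
  have h1 : ∀ v : ℝ, ‖∑ n ∈ S, a n * (n : ℂ) ^ (-((1 : ℂ) + σ + ((τ + v : ℝ) : ℂ) * Complex.I))‖ ^ 2 =
      ‖∑ n ∈ S, b n * (n : ℂ) ^ (-((1 : ℂ) + σ + v * Complex.I))‖ ^ 2 := by
    intro v
    congr 2
    refine Finset.sum_congr rfl fun n hn => ?_
    rw [h5_tw n (hS n hn), hb]
    ring
  simp only [h1]
  obtain ⟨i1, _, i3⟩ := ha3 S hS b σ hσ
  have hx := h5_x S hS b hbn σ hσ
  rw [i3] at hx
  have hc := h5_cont S hS b σ
  calc ∫ v in (0 : ℝ)..1, ‖∑ n ∈ S, b n * (n : ℂ) ^ (-((1 : ℂ) + σ + v * Complex.I))‖ ^ 2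
      ≤ ∫ v in (0 : ℝ)..1, 5 * (‖∑ n ∈ S, b n * (n : ℂ) ^ (-((1 : ℂ) + σ + v * Complex.I))‖ ^ 2 / ((1 + σ) ^ 2 + v ^ 2)) := by
        apply intervalIntegral.integral_mono_on zero_le_one
        · exact (hc.norm.pow 2).intervalIntegrable _ _
        · exact (i1.const_mul 5).intervalIntegrable
        · intro v hv
          have h2 : (1 + σ) ^ 2 + v ^ 2 ≤ 5 := by nlinarith [hv.1, hv.2]
          have h3 : 0 < (1 + σ) ^ 2 + v ^ 2 := by positivity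
          rw [mul_div_assoc', le_div_iff₀ h3, mul_comm]
          exact mul_le_mul_of_nonneg_right h2 (by positivity)
    _ = ∫ v in Set.Ioc (0 : ℝ) 1, 5 * (‖∑ n ∈ S, b n * (n : ℂ) ^ (-((1 : ℂ) + σ + v * Complex.I))‖ ^ 2 / ((1 + σ) ^ 2 + v ^ 2)) := by
        rw [intervalIntegral.integral_of_le zero_le_one]
    _ ≤ ∫ v : ℝ, 5 * (‖∑ n ∈ S, b n * (n : ℂ) ^ (-((1 : ℂ) + σ + v * Complex.I))‖ ^ 2 / ((1 + σ) ^ 2 + v ^ 2)) := by
        apply setIntegral_le_integral (i1.const_mul 5)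
        exact Filter.Eventually.of_forall fun v => by
          show 0 ≤ 5 * (‖∑ n ∈ S, b n * (n : ℂ) ^ (-((1 : ℂ) + σ + v * Complex.I))‖ ^ 2 / ((1 + σ) ^ 2 + v ^ 2))
          positivity
    _ = 5 * ∫ v : ℝ, ‖∑ n ∈ S, b n * (n : ℂ) ^ (-((1 : ℂ) + σ + v * Complex.I))‖ ^ 2 / ((1 + σ) ^ 2 + v ^ 2) := by
        rw [integral_const_mul]
    _ ≤ 5 * Real.pi / (2 * σ ^ 3) := by
        obtain ⟨J, hJ⟩ : ∃ J, J = ∫ v : ℝ, ‖∑ n ∈ S, b n * (n : ℂ) ^ (-((1 : ℂ) + σ + v * Complex.I))‖ ^ 2 / ((1 + σ) ^ 2 + v ^ 2) := ⟨_, rfl⟩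
        rw [← hJ] at hx ⊢
        rw [one_div_mul_eq_div, div_le_iff₀ (by positivity)] at hx
        have h2 : 5 * Real.pi / (2 * σ ^ 3) = 5 * (1 / (4 * σ ^ 3) * (2 * Real.pi)) := by
          field_simp
          norm_num
        rw [h2]
        linarith

/-- tail of an integral with unit mass bounds -/
private theorem h5_tail (G F : ℝ → ℝ) (hG : Continuous G) (hG0 : ∀ t, 0 ≤ G t) (c : ℝ) (hF : ∀ t, F t = G t / (c ^ 2 + t ^ 2)) (hc : 1 ≤ c)
    (hFi : Integrable F) (B T : ℝ) (hT : 3 ≤ T) (hB : ∀ τ : ℝ, ∫ t in τ..(τ + 1), G t ≤ B) : ∫ t in Set.Ioi T, F t ≤ 2 * B / T := by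
  have hB0 : 0 ≤ B := by
    refine le_trans ?_ (hB 0)
    apply intervalIntegral.integral_nonneg (by norm_num)
    intro t _
    exact hG0 t
  have hpos : ∀ t, 0 < c ^ 2 + t ^ 2 := fun t => by positivity
  have hlim := intervalIntegral_tendsto_integral_Ioi (μ := volume) (f := F) (l := Filter.atTop) (b := fun n : ℕ => T + n) T
    hFi.integrableOn (Filter.tendsto_atTop_add_const_left _ T tendsto_natCast_atTop_atTop)
  refine le_of_tendsto' hlim fun n => ?_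
  have h1 := intervalIntegral.sum_integral_adjacent_intervals (f := F) (μ := volume) (a := fun k : ℕ => T + k) (n := n)
    (fun k _ => hFi.intervalIntegrable)
  simp only [Nat.cast_zero, add_zero] at h1
  rw [← h1]
  have h2 : ∀ k ∈ range n, ∫ t in (T + (k : ℕ))..(T + ((k + 1 : ℕ))), F t ≤ B * (1 / (T + k - 1) - 1 / (T + k)) := by
    intro k _
    have hk0 : (0 : ℝ) ≤ k := Nat.cast_nonneg k
    have e1 : (T + ((k + 1 : ℕ) : ℝ)) = (T + k) + 1 := by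
      push_cast
      ring
    rw [e1]
    have h3 : ∫ t in (T + (k : ℝ))..((T + k) + 1), F t ≤ ∫ t in (T + (k : ℝ))..((T + k) + 1), (1 / (T + k) ^ 2) * G t := by
      apply intervalIntegral.integral_mono_on (by linarith)
      · exact hFi.intervalIntegrable
      · exact (continuous_const.mul hG).intervalIntegrable _ _
      · intro t ht
        rw [hF, one_div_mul_eq_div]
        apply div_le_div_of_nonneg_left (hG0 t) (by positivity)
        have h4 : (T + k) ^ 2 ≤ t ^ 2 := pow_le_pow_left₀ (by positivity) ht.1 2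
        have h5 : 0 ≤ c ^ 2 := by positivity
        linarith
    rw [intervalIntegral.integral_const_mul] at h3
    have h4 : 1 / (T + k) ^ 2 * ∫ t in (T + (k : ℝ))..((T + k) + 1), G t ≤ 1 / (T + k) ^ 2 * B :=
      mul_le_mul_of_nonneg_left (hB _) (by positivity)
    have h5 : 1 / (T + k) ^ 2 ≤ 1 / (T + k - 1) - 1 / (T + k) := by
      have h6 : 0 < T + k - 1 := by linarith
      rw [div_sub_div _ _ h6.ne' (by positivity), div_le_div_iff₀ (by positivity) (by positivity)]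
      nlinarith
    calc _ ≤ _ := h3
      _ ≤ 1 / (T + k) ^ 2 * B := h4
      _ ≤ (1 / (T + k - 1) - 1 / (T + k)) * B := mul_le_mul_of_nonneg_right h5 hB0
      _ = _ := by ring
  refine (Finset.sum_le_sum h2).trans ?_
  rw [← Finset.mul_sum]
  have h3 : ∀ n : ℕ, ∑ k ∈ range n, (1 / (T + k - 1) - 1 / (T + k)) = 1 / (T - 1) - 1 / (T + n - 1) := by
    intro n
    induction n with
    | zero => simp
    | succ n ih =>
      rw [Finset.sum_range_succ, ih]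
      push_cast
      have e : T + ((n : ℝ) + 1) - 1 = T + n := by ring
      rw [e]
      ring
  rw [h3]
  have h4 : 0 ≤ 1 / (T + n - 1) := by
    have : (0 : ℝ) ≤ n := Nat.cast_nonneg n
    have : 0 < T + n - 1 := by linarith
    positivity
  have h5 : 1 / (T - 1) ≤ 2 / T := by
    rw [div_le_div_iff₀ (by linarith) (by linarith)]
    linarith
  calc B * (1 / (T - 1) - 1 / (T + n - 1)) ≤ B * (2 / T) := mul_le_mul_of_nonneg_left (by linarith) hB0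
    _ = 2 * B / T := by ring

private theorem h5_primes (g : ℕ → ℂ) (hg : OB g) (N : ℕ) (σ : ℝ) (hσ : 0 < σ) :
    Integrable (fun t : ℝ => ‖Gp g N (1 + σ + t * Complex.I)‖ ^ 2 / ((1 + σ) ^ 2 + t ^ 2)) ∧
    ∫ t : ℝ, ‖Gp g N (1 + σ + t * Complex.I)‖ ^ 2 / ((1 + σ) ^ 2 + t ^ 2) ≤ 4 * Real.pi / σ := by
  obtain ⟨S, hS'⟩ : ∃ S, S = (Icc 1 N).filter Nat.Prime := ⟨_, rfl⟩
  have hS : ∀ n ∈ S, 1 ≤ n := by
    intro n hn
    rw [hS'] at hn
    exact (mem_Icc.1 (mem_filter.1 hn).1).1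
  have hSp : ∀ n ∈ S, n.Prime := by
    intro n hn
    rw [hS'] at hn
    exact (mem_filter.1 hn).2
  obtain ⟨i1, i2, i3⟩ := ha3 S hS (fun p => g p * Real.log p) σ hσ
  have e1 : (fun t : ℝ => ‖Gp g N (1 + σ + t * Complex.I)‖ ^ 2 / ((1 + σ) ^ 2 + t ^ 2)) =
      fun t : ℝ => ‖∑ n ∈ S, g n * Real.log n * (n : ℂ) ^ (-((1 : ℂ) + σ + t * Complex.I))‖ ^ 2 / ((1 + σ) ^ 2 + t ^ 2) := by
    funext t
    unfold Gp
    rw [hS']
  rw [e1]
  refine ⟨i1, ?_⟩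
  have hI : ∫ x in Set.Ioi (0 : ℝ), Real.exp (-(2 * σ) * x) = 1 / (2 * σ) := by
    rw [integral_exp_mul_Ioi (by linarith)]
    simp
  have hint : IntegrableOn (fun x : ℝ => Real.exp (-(2 * σ) * x)) (Set.Ioi 0) := integrableOn_exp_mul_Ioi (by linarith) 0
  have hx : ∫ x : ℝ, ‖∑ n ∈ S.filter (fun n : ℕ => (n : ℝ) ≤ Real.exp x), g n * (Real.log n : ℂ)‖ ^ 2 * Real.exp (-(2 * (1 + σ) * x)) ≤
      4 * (1 / (2 * σ)) := by
    rw [← hI, ← integral_const_mul, ← integral_indicator measurableSet_Ioi]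
    apply integral_mono_of_nonneg
    · exact Filter.Eventually.of_forall fun x => by positivity
    · rw [integrable_indicator_iff measurableSet_Ioi]
      exact hint.const_mul 4
    · refine Filter.Eventually.of_forall fun x => ?_
      have h1 : ‖∑ n ∈ S.filter (fun n : ℕ => (n : ℝ) ≤ Real.exp x), g n * (Real.log n : ℂ)‖ ≤
          ∑ n ∈ S.filter (fun n : ℕ => (n : ℝ) ≤ Real.exp x), Real.log n := by
        refine (norm_sum_le _ _).trans (Finset.sum_le_sum fun n hn => ?_)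
        have h2 : 0 ≤ Real.log n := Real.log_natCast_nonneg n
        rw [norm_mul, Complex.norm_real, Real.norm_of_nonneg h2]
        calc ‖g n‖ * Real.log n ≤ 1 * Real.log n := mul_le_mul_of_nonneg_right (hg.bd n) h2
          _ = Real.log n := one_mul _
      rcases lt_or_ge 0 x with hx | hx
      · show _ ≤ Set.indicator (Set.Ioi 0) _ x
        rw [Set.indicator_of_mem (show x ∈ Set.Ioi (0 : ℝ) from hx)]
        have h2 : ∑ n ∈ S.filter (fun n : ℕ => (n : ℝ) ≤ Real.exp x), Real.log n ≤ 2 * Real.exp x := by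
          have h3 : ∑ n ∈ S.filter (fun n : ℕ => (n : ℝ) ≤ Real.exp x), Real.log n ≤ Chebyshev.theta (Real.exp x) := by
            unfold Chebyshev.theta
            apply Finset.sum_le_sum_of_subset_of_nonneg
            · intro n hn
              obtain ⟨h4, h5⟩ := mem_filter.1 hn
              exact mem_filter.2 ⟨mem_Ioc.2 ⟨hS n h4, Nat.le_floor h5⟩, hSp n h4⟩
            · intro n _ _
              exact Real.log_natCast_nonneg n
          have h4 := Chebyshev.theta_le_log4_mul_x (Real.exp_pos x).le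
          have h5 : Real.log 4 ≤ 2 := by
            have h6 : Real.log 4 = 2 * Real.log 2 := by
              rw [show (4 : ℝ) = 2 ^ 2 by norm_num, Real.log_pow]
              norm_num
            have h7 := Real.log_two_lt_d9
            linarith
          have h6 := mul_le_mul_of_nonneg_right h5 (Real.exp_pos x).le
          linarith
        have h3 : ‖∑ n ∈ S.filter (fun n : ℕ => (n : ℝ) ≤ Real.exp x), g n * (Real.log n : ℂ)‖ ^ 2 ≤ (2 * Real.exp x) ^ 2 :=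
          pow_le_pow_left₀ (norm_nonneg _) (h1.trans h2) 2
        calc ‖∑ n ∈ S.filter (fun n : ℕ => (n : ℝ) ≤ Real.exp x), g n * (Real.log n : ℂ)‖ ^ 2 * Real.exp (-(2 * (1 + σ) * x))
            ≤ (2 * Real.exp x) ^ 2 * Real.exp (-(2 * (1 + σ) * x)) := mul_le_mul_of_nonneg_right h3 (Real.exp_pos _).le
          _ = 4 * (Real.exp x ^ 2 * Real.exp (-(2 * (1 + σ) * x))) := by ring
          _ = 4 * Real.exp (-(2 * σ) * x) := by
              rw [← Real.exp_nat_mul, ← Real.exp_add]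
              congr 2
              push_cast
              ring
      · show _ ≤ Set.indicator (Set.Ioi 0) _ x
        rw [Set.indicator_of_notMem (show x ∉ Set.Ioi (0 : ℝ) from not_lt.2 hx)]
        have h2 : S.filter (fun n : ℕ => (n : ℝ) ≤ Real.exp x) = ∅ := by
          rw [Finset.filter_eq_empty_iff]
          intro n hn h5
          have h6 : (n : ℝ) ≤ 1 := h5.trans (Real.exp_le_one_iff.2 hx)
          have h7 : n ≤ 1 := by exact_mod_cast h6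
          have h8 := (hSp n hn).two_le
          omega
        show ‖∑ n ∈ S.filter (fun n : ℕ => (n : ℝ) ≤ Real.exp x), g n * (Real.log n : ℂ)‖ ^ 2 * Real.exp (-(2 * (1 + σ) * x)) ≤ 0
        rw [h2]
        simp
  rw [i3] at hx
  obtain ⟨J, hJ⟩ : ∃ J, J = ∫ t : ℝ, ‖∑ n ∈ S, g n * Real.log n * (n : ℂ) ^ (-((1 : ℂ) + σ + t * Complex.I))‖ ^ 2 / ((1 + σ) ^ 2 + t ^ 2) :=
    ⟨_, rfl⟩
  rw [← hJ] at hx ⊢
  rw [one_div_mul_eq_div, div_le_iff₀ (by positivity)] at hx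
  have h2 : 4 * Real.pi / σ = 4 * (1 / (2 * σ)) * (2 * Real.pi) := by
    field_simp
  rw [h2]
  exact hx

theorem ha5 : ∃ C : ℝ, 0 < C ∧ ∀ (g : ℕ → ℂ) (N : ℕ) (σ T M : ℝ), OB g → 1 ≤ N → 0 < σ → σ ≤ 1 → 3 ≤ T →
    (∀ t : ℝ, |t| ≤ T → Ph g N (1 + σ + t * Complex.I) ≤ M) →
    ∫ t : ℝ, ‖Ll g N (1 + σ + t * Complex.I)‖ ^ 2 / ((1 + σ) ^ 2 + t ^ 2) ≤ C * (M ^ 2 / σ + 1 / (σ ^ 3 * T)) := by
  obtain ⟨C0, hC0, h4⟩ := ha4
  refine ⟨10 * Real.pi * (C0 ^ 2 + 1), by positivity, ?_⟩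
  intro g N σ T M hg hN hσ hσ1 hT hM
  obtain ⟨S, hSd⟩ : ∃ S, S = (Dv N).divisors := ⟨_, rfl⟩
  have hS : ∀ n ∈ S, 1 ≤ n := by
    intro n hn
    rw [hSd] at hn
    exact Nat.pos_of_mem_divisors hn
  obtain ⟨a, ha⟩ : ∃ a : ℕ → ℂ, a = fun n => g n * Real.log n := ⟨_, rfl⟩
  have han : ∀ n ∈ S, ‖a n‖ ≤ Real.log n := by
    intro n _
    have h2 : 0 ≤ Real.log n := Real.log_natCast_nonneg n
    rw [ha]
    simp only
    rw [norm_mul, Complex.norm_real, Real.norm_of_nonneg h2]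
    calc ‖g n‖ * Real.log n ≤ 1 * Real.log n := mul_le_mul_of_nonneg_right (hg.bd n) h2
      _ = Real.log n := one_mul _
  obtain ⟨G, hG⟩ : ∃ G : ℝ → ℝ, G = fun t : ℝ => ‖∑ n ∈ S, a n * (n : ℂ) ^ (-((1 : ℂ) + σ + t * Complex.I))‖ ^ 2 := ⟨_, rfl⟩
  have hLl : ∀ t : ℝ, ‖Ll g N (1 + σ + t * Complex.I)‖ ^ 2 = G t := by
    intro t
    rw [hG, ha, hSd]
    rfl
  obtain ⟨F, hF⟩ : ∃ F : ℝ → ℝ, F = fun t : ℝ => G t / ((1 + σ) ^ 2 + t ^ 2) := ⟨_, rfl⟩
  have hFe : (fun t : ℝ => ‖Ll g N (1 + σ + t * Complex.I)‖ ^ 2 / ((1 + σ) ^ 2 + t ^ 2)) = F := by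
    rw [hF]
    funext t
    rw [hLl]
  have hFt : ∀ t, F t = G t / ((1 + σ) ^ 2 + t ^ 2) := fun t => by rw [hF]
  rw [hFe]
  have hFi : Integrable F := by
    rw [hF, hG]
    exact (ha3 S hS a σ hσ).1
  have hGc : Continuous G := by
    rw [hG]
    exact (h5_cont S hS a σ).norm.pow 2
  have hG0 : ∀ t, 0 ≤ G t := by
    intro t
    rw [hG]
    positivity
  have hF0 : ∀ t, 0 ≤ F t := by
    intro t
    rw [hFt]
    have := hG0 t
    positivity
  have hB : ∀ τ : ℝ, ∫ t in τ..(τ + 1), G t ≤ 5 * Real.pi / (2 * σ ^ 3) := by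
    intro τ
    rw [hG]
    exact h5_unit S hS a han σ hσ hσ1 τ
  -- the tails
  have t1 := h5_tail G F hGc hG0 (1 + σ) hFt (by linarith) hFi _ T hT hB
  have t2 := h5_tail (fun t => G (-t)) (fun t => F (-t)) (hGc.comp continuous_neg) (fun t => hG0 _) (1 + σ)
    (fun t => by rw [hFt, neg_sq]) (by linarith) hFi.comp_neg _ T hT (fun τ => by
      rw [intervalIntegral.integral_comp_neg (fun t => G t)]
      have h5 := hB (-(τ + 1))
      have h6 : -(τ + 1) + 1 = -τ := by ring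
      rw [h6] at h5
      exact h5)
  have t3 : ∫ t in Set.Iic (-T), F t = ∫ t in Set.Ioi T, F (-t) := by
    have h5 := integral_comp_neg_Iic (-T) (fun t => F (-t))
    simp only [neg_neg] at h5
    exact h5
  -- the middle
  have hMpos : 0 < M := by
    refine lt_of_lt_of_le ?_ (hM 0 (by rw [abs_zero]; linarith))
    unfold Ph
    positivity
  obtain ⟨p1, p2⟩ := h5_primes g hg N σ hσ
  have hmid : ∫ t in Set.Ioc (-T) T, F t ≤ 2 * C0 ^ 2 * M ^ 2 * (4 * Real.pi / σ + Real.pi) := by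
    have q1 : Integrable (fun t : ℝ => 2 * C0 ^ 2 * M ^ 2 * (‖Gp g N (1 + σ + t * Complex.I)‖ ^ 2 / ((1 + σ) ^ 2 + t ^ 2) + (1 + t ^ 2)⁻¹)) :=
      (p1.add integrable_inv_one_add_sq).const_mul _
    have q2 : ∀ t : ℝ, 0 ≤ 2 * C0 ^ 2 * M ^ 2 * (‖Gp g N (1 + σ + t * Complex.I)‖ ^ 2 / ((1 + σ) ^ 2 + t ^ 2) + (1 + t ^ 2)⁻¹) := by
      intro t
      positivity
    calc ∫ t in Set.Ioc (-T) T, F t ≤ ∫ t in Set.Ioc (-T) T, 2 * C0 ^ 2 * M ^ 2 *
          (‖Gp g N (1 + σ + t * Complex.I)‖ ^ 2 / ((1 + σ) ^ 2 + t ^ 2) + (1 + t ^ 2)⁻¹) := by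
          apply setIntegral_mono_on hFi.integrableOn q1.integrableOn measurableSet_Ioc
          intro t ht
          rw [hFt, ← hLl]
          have r1 := h4 g N σ t hg hσ hσ1
          have r2 := hM t (abs_le.2 ⟨ht.1.le, ht.2⟩)
          obtain ⟨y, hy⟩ : ∃ y, y = ‖Gp g N (1 + σ + t * Complex.I)‖ := ⟨_, rfl⟩
          rw [← hy] at r1 ⊢
          have hy0 : 0 ≤ y := by
            rw [hy]
            exact norm_nonneg _
          have r3 : ‖Ll g N (1 + σ + t * Complex.I)‖ ≤ C0 * M * (y + 1) := by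
            refine r1.trans (mul_le_mul_of_nonneg_right (mul_le_mul_of_nonneg_left r2 hC0.le) (by linarith))
          have r4 := pow_le_pow_left₀ (norm_nonneg _) r3 2
          have r5 : (C0 * M * (y + 1)) ^ 2 ≤ 2 * C0 ^ 2 * M ^ 2 * (y ^ 2 + 1) := by
            have : 0 ≤ C0 ^ 2 * M ^ 2 * (y - 1) ^ 2 := by positivity
            nlinarith
          have hd1 : 0 < (1 + σ) ^ 2 + t ^ 2 := by positivity
          have hd2 : 1 + t ^ 2 ≤ (1 + σ) ^ 2 + t ^ 2 := by nlinarith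
          have r6 : 1 / ((1 + σ) ^ 2 + t ^ 2) ≤ (1 + t ^ 2)⁻¹ := by
            rw [← one_div]
            exact one_div_le_one_div_of_le (by positivity) hd2
          calc ‖Ll g N (1 + σ + t * Complex.I)‖ ^ 2 / ((1 + σ) ^ 2 + t ^ 2)
              ≤ 2 * C0 ^ 2 * M ^ 2 * (y ^ 2 + 1) / ((1 + σ) ^ 2 + t ^ 2) := div_le_div_of_nonneg_right (r4.trans r5) hd1.le
            _ = 2 * C0 ^ 2 * M ^ 2 * (y ^ 2 / ((1 + σ) ^ 2 + t ^ 2) + 1 / ((1 + σ) ^ 2 + t ^ 2)) := by ring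
            _ ≤ _ := by
                apply mul_le_mul_of_nonneg_left _ (by positivity)
                linarith
      _ ≤ ∫ t : ℝ, 2 * C0 ^ 2 * M ^ 2 * (‖Gp g N (1 + σ + t * Complex.I)‖ ^ 2 / ((1 + σ) ^ 2 + t ^ 2) + (1 + t ^ 2)⁻¹) :=
          setIntegral_le_integral q1 (Filter.Eventually.of_forall q2)
      _ = 2 * C0 ^ 2 * M ^ 2 * ((∫ t : ℝ, ‖Gp g N (1 + σ + t * Complex.I)‖ ^ 2 / ((1 + σ) ^ 2 + t ^ 2)) + Real.pi) := by
          rw [integral_const_mul, integral_add p1 integrable_inv_one_add_sq, integral_univ_inv_one_add_sq]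
      _ ≤ 2 * C0 ^ 2 * M ^ 2 * (4 * Real.pi / σ + Real.pi) := by
          apply mul_le_mul_of_nonneg_left _ (by positivity)
          linarith
  have hsplit : ∫ t : ℝ, F t = (∫ t in Set.Iic (-T), F t) + (∫ t in Set.Ioc (-T) T, F t) + ∫ t in Set.Ioi T, F t := by
    rw [← intervalIntegral.integral_of_le (by linarith : -T ≤ T)]
    have e1 := intervalIntegral.integral_Iic_sub_Iic (μ := volume) (f := F) (a := -T) (b := T) hFi.integrableOn hFi.integrableOn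
    have e2 : ∫ t : ℝ, F t = (∫ t in Set.Iic T, F t) + ∫ t in Set.Ioi T, F t := by
      rw [← setIntegral_union (Set.Iic_disjoint_Ioi le_rfl) measurableSet_Ioi hFi.integrableOn hFi.integrableOn, Set.Iic_union_Ioi, setIntegral_univ]
    rw [e2, ← e1]
    ring
  rw [hsplit, t3]
  have hfin : 2 * (5 * Real.pi / (2 * σ ^ 3)) / T = 5 * Real.pi * (1 / (σ ^ 3 * T)) := by
    field_simp
  rw [hfin] at t1 t2
  have hX : 0 ≤ 1 / (σ ^ 3 * T) := by positivity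
  have hY : M ^ 2 ≤ M ^ 2 / σ := by
    rw [le_div_iff₀ hσ]
    have : 0 ≤ M ^ 2 := by positivity
    nlinarith
  have hmid2 : 2 * C0 ^ 2 * M ^ 2 * (4 * Real.pi / σ + Real.pi) ≤ 10 * Real.pi * C0 ^ 2 * (M ^ 2 / σ) := by
    have e1 : 2 * C0 ^ 2 * M ^ 2 * (4 * Real.pi / σ + Real.pi) = 2 * C0 ^ 2 * Real.pi * (4 * (M ^ 2 / σ) + M ^ 2) := by ring
    rw [e1]
    have e2 : 10 * Real.pi * C0 ^ 2 * (M ^ 2 / σ) = 2 * C0 ^ 2 * Real.pi * (5 * (M ^ 2 / σ)) := by ring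
    rw [e2]
    apply mul_le_mul_of_nonneg_left _ (by positivity)
    linarith
  have hYY : 0 ≤ M ^ 2 / σ := by positivity
  have z1 : 0 ≤ 10 * Real.pi * (M ^ 2 / σ) := by positivity
  have z2 : 0 ≤ 10 * Real.pi * C0 ^ 2 * (1 / (σ ^ 3 * T)) := by positivity
  have e3 : 10 * Real.pi * (C0 ^ 2 + 1) * (M ^ 2 / σ + 1 / (σ ^ 3 * T)) = 10 * Real.pi * C0 ^ 2 * (M ^ 2 / σ) + 10 * Real.pi * (M ^ 2 / σ) +
      10 * Real.pi * C0 ^ 2 * (1 / (σ ^ 3 * T)) + 10 * Real.pi * (1 / (σ ^ 3 * T)) := by ring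
  rw [e3]
  linarith

end Pool.H2.MR
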