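import Pool.Agent.H2.MR.Ha1
import Pool.Agent.H2.MR.Ha5

/-!
# [H2 MR HA6] Halász's theorem, step 3: the integral of `|S(e^x)| e^(-x)`

PROOF. `L = log N`, `σ = 1/L ≤ 1` (`N ≥ 3`), `S1(x) = ∑_{n≤e^x} g n log n`. For `0 ≤ x ≤ L` all `n ≤ e^x` divide `Dv N` (`dvd_Dv`), so `S1(x)` is the sum in `ha3` with
`S = divisors of Dv N`, `a n = g n log n`; `ha3`, `ha5` and `e^(-2x) ≤ e² e^(-2(1+σ)x)` for `x ≤ L`: `∫_0^L |S1|² e^(-2x) dx ≤ e² C(M² L + L³/T)`.
`|x S(e^x) - S1(x)| ≤ ∑_{n≤e^x} (x - log n) ≤ 2e^x` (as in `ha1`; `∑_{n≤y} log(y/n) ≤ 2y`). For `κL ≤ x ≤ L`: `|S(e^x)| e^(-x) ≤ (1/(κL))(|S1| e^(-x) + 2)`. By Cauchy-Schwarz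
`∫_{κL}^L |S(e^x)| e^(-x) dx ≤ (1/(κL)) (L^(1/2) (e² C (M² L + L³/T))^(1/2) + 2L) ≤ (C'/κ)(M + L/√T + 1)`. For `x ≤ κL` the integrand is at most `1`: `κL`.
-/

namespace Pool.H2.MR

open Finset MeasureTheory

private theorem h6_sqrt (m : ℕ) : ∑ n ∈ Icc 1 m, 1 / Real.sqrt n ≤ 2 * Real.sqrt m := by
  induction m with
  | zero => simp
  | succ m ih =>
    rw [Finset.sum_Icc_succ_top (by omega)]
    have h1 : 1 / Real.sqrt ((m + 1 : ℕ) : ℝ) ≤ 2 * Real.sqrt ((m + 1 : ℕ) : ℝ) - 2 * Real.sqrt m := by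
      obtain ⟨u, hu⟩ : ∃ u, u = Real.sqrt ((m + 1 : ℕ) : ℝ) := ⟨_, rfl⟩
      obtain ⟨v, hv⟩ : ∃ v, v = Real.sqrt (m : ℝ) := ⟨_, rfl⟩
      have hu2 : u ^ 2 = m + 1 := by
        rw [hu, Real.sq_sqrt (by positivity)]
        push_cast
        ring
      have hv2 : v ^ 2 = m := by rw [hv, Real.sq_sqrt (by positivity)]
      have hu0 : 0 < u := by
        rw [hu]
        positivity
      have hv0 : 0 ≤ v := by
        rw [hv]
        positivity
      rw [← hu, ← hv, div_le_iff₀ hu0]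
      nlinarith [sq_nonneg (u - v)]
    linarith

/-- the difference of `x S(e^x)` and the logarithmic sum -/
private theorem h6_log (g : ℕ → ℂ) (hg : OB g) (x : ℝ) (hx : 0 ≤ x) :
    ‖(x : ℂ) * Sg g (Real.exp x) - ∑ n ∈ Icc 1 ⌊Real.exp x⌋₊, g n * (Real.log n : ℂ)‖ ≤ 4 * Real.exp x := by
  unfold Sg
  rw [Finset.mul_sum, ← Finset.sum_sub_distrib]
  have hE : 0 < Real.exp x := Real.exp_pos x
  have h1 : ∀ n ∈ Icc 1 ⌊Real.exp x⌋₊, ‖(x : ℂ) * g n - g n * (Real.log n : ℂ)‖ ≤ 2 * Real.sqrt (Real.exp x) * (1 / Real.sqrt n) := by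
    intro n hn
    rw [mem_Icc] at hn
    have hn0 : (0 : ℝ) < n := by exact_mod_cast hn.1
    have hnx : (n : ℝ) ≤ Real.exp x := (Nat.le_floor_iff hE.le).1 hn.2
    have e1 : (x : ℂ) * g n - g n * (Real.log n : ℂ) = g n * ((x - Real.log n : ℝ) : ℂ) := by
      push_cast
      ring
    have h2 : 0 ≤ x - Real.log n := by
      have := (Real.log_le_iff_le_exp hn0).2 hnx
      linarith
    rw [e1, norm_mul, Complex.norm_real, Real.norm_of_nonneg h2]
    have h3 : x - Real.log n = 2 * Real.log (Real.sqrt (Real.exp x / n)) := by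
      rw [Real.log_sqrt (by positivity), Real.log_div hE.ne' hn0.ne', Real.log_exp]
      ring
    have h4 : Real.log (Real.sqrt (Real.exp x / n)) ≤ Real.sqrt (Real.exp x / n) := by
      have := Real.log_le_sub_one_of_pos (Real.sqrt_pos.2 (div_pos hE hn0))
      linarith
    calc ‖g n‖ * (x - Real.log n) ≤ 1 * (x - Real.log n) := mul_le_mul_of_nonneg_right (hg.bd n) h2
      _ = 2 * Real.log (Real.sqrt (Real.exp x / n)) := by rw [one_mul, h3]
      _ ≤ 2 * Real.sqrt (Real.exp x / n) := by linarith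
      _ = 2 * Real.sqrt (Real.exp x) * (1 / Real.sqrt n) := by
          rw [Real.sqrt_div hE.le]
          ring
  refine (norm_sum_le _ _).trans ((Finset.sum_le_sum h1).trans ?_)
  rw [← Finset.mul_sum]
  have h2 := h6_sqrt ⌊Real.exp x⌋₊
  have h3 : Real.sqrt (⌊Real.exp x⌋₊ : ℝ) ≤ Real.sqrt (Real.exp x) := Real.sqrt_le_sqrt (Nat.floor_le hE.le)
  calc 2 * Real.sqrt (Real.exp x) * ∑ n ∈ Icc 1 ⌊Real.exp x⌋₊, 1 / Real.sqrt n
      ≤ 2 * Real.sqrt (Real.exp x) * (2 * Real.sqrt (Real.exp x)) :=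
        mul_le_mul_of_nonneg_left (by linarith) (by positivity)
    _ = 4 * (Real.sqrt (Real.exp x) * Real.sqrt (Real.exp x)) := by ring
    _ = 4 * Real.exp x := by rw [Real.mul_self_sqrt hE.le]

private theorem h6_triv (g : ℕ → ℂ) (hg : OB g) (x : ℝ) : ‖Sg g (Real.exp x)‖ * Real.exp (-x) ≤ 1 := by
  have h1 : ‖Sg g (Real.exp x)‖ ≤ Real.exp x := by
    unfold Sg
    refine (norm_sum_le _ _).trans ?_
    have h2 := Finset.sum_le_card_nsmul (Icc 1 ⌊Real.exp x⌋₊) (fun n => ‖g n‖) 1 (fun n _ => hg.bd n)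
    rw [Nat.card_Icc, Nat.add_sub_cancel, nsmul_eq_mul, mul_one] at h2
    exact h2.trans (Nat.floor_le (Real.exp_pos x).le)
  calc ‖Sg g (Real.exp x)‖ * Real.exp (-x) ≤ Real.exp x * Real.exp (-x) := mul_le_mul_of_nonneg_right h1 (Real.exp_pos _).le
    _ = 1 := by rw [← Real.exp_add, add_neg_cancel, Real.exp_zero]

theorem ha6 : ∃ C : ℝ, 0 < C ∧ ∀ (g : ℕ → ℂ) (N : ℕ) (κ T M : ℝ), OB g → 3 ≤ N → 0 < κ → κ ≤ 1 → 3 ≤ T → 0 ≤ M →
    (∀ t : ℝ, |t| ≤ T → Ph g N (1 + ((1 / Real.log N : ℝ) : ℂ) + t * Complex.I) ≤ M) →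
    ∫ x in (0 : ℝ)..(Real.log N), ‖Sg g (Real.exp x)‖ * Real.exp (-x) ≤
      κ * Real.log N + C / κ * (M + Real.log N / Real.sqrt T + 1) := by
  obtain ⟨C5, hC5, h5⟩ := ha5
  refine ⟨C5 + 5, by positivity, ?_⟩
  intro g N κ T M hg hN hκ hκ1 hT hM0 hM
  have hN0 : (0 : ℝ) < N := by
    have : 0 < N := by omega
    exact_mod_cast this
  obtain ⟨L, hL⟩ : ∃ L, L = Real.log N := ⟨_, rfl⟩
  have hL1 : 1 ≤ L := by
    rw [hL, Real.le_log_iff_exp_le hN0]
    have h1 := Real.exp_one_lt_three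
    have h2 : (3 : ℝ) ≤ N := by exact_mod_cast hN
    linarith
  have hL0 : 0 < L := by linarith
  rw [← hL] at hM ⊢
  obtain ⟨σ, hσ⟩ : ∃ σ, σ = 1 / L := ⟨_, rfl⟩
  have hσ0 : 0 < σ := by
    rw [hσ]
    positivity
  have hσ1 : σ ≤ 1 := by
    rw [hσ, div_le_one hL0]
    exact hL1
  rw [← hσ] at hM
  have h51 := h5 g N σ T M hg (by omega) hσ0 hσ1 hT hM
  obtain ⟨S, hSd⟩ : ∃ S, S = (Dv N).divisors := ⟨_, rfl⟩
  have hS : ∀ n ∈ S, 1 ≤ n := by
    intro n hn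
    rw [hSd] at hn
    exact Nat.pos_of_mem_divisors hn
  obtain ⟨_, i2, i3⟩ := ha3 S hS (fun n => g n * (Real.log n : ℂ)) σ hσ0
  obtain ⟨W, hW⟩ : ∃ W : ℝ → ℝ, W = fun x : ℝ => ‖∑ n ∈ S.filter (fun n : ℕ => (n : ℝ) ≤ Real.exp x), g n * (Real.log n : ℂ)‖ ^ 2 *
    Real.exp (-(2 * (1 + σ) * x)) := ⟨_, rfl⟩
  rw [← hW] at i2 i3
  have hW0 : ∀ x, 0 ≤ W x := by
    intro x
    rw [hW]
    positivity
  have hWint : ∫ x : ℝ, W x ≤ C5 * (M ^ 2 * L + L ^ 3 / T) / (2 * Real.pi) := by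
    rw [i3, one_div_mul_eq_div]
    apply div_le_div_of_nonneg_right _ (by positivity)
    have e1 : ∫ t : ℝ, ‖∑ n ∈ S, g n * (Real.log n : ℂ) * (n : ℂ) ^ (-((1 : ℂ) + σ + t * Complex.I))‖ ^ 2 / ((1 + σ) ^ 2 + t ^ 2) =
        ∫ t : ℝ, ‖Ll g N (1 + σ + t * Complex.I)‖ ^ 2 / ((1 + σ) ^ 2 + t ^ 2) := by
      rw [hSd]
      rfl
    rw [e1]
    refine h51.trans (le_of_eq ?_)
    rw [hσ]
    field_simp
  obtain ⟨Λ, hΛ⟩ : ∃ Λ, Λ = M + L / Real.sqrt T + 1 := ⟨_, rfl⟩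
  have hsT : 0 < Real.sqrt T := Real.sqrt_pos.2 (by linarith)
  have hΛ1 : 1 ≤ Λ := by
    rw [hΛ]
    have : 0 ≤ L / Real.sqrt T := by positivity
    linarith
  have hΛ0 : 0 < Λ := by linarith
  rw [← hΛ]
  -- pointwise
  obtain ⟨A, hA⟩ : ∃ A, A = 1 / (κ * L) * (1 / (2 * Λ)) * Real.exp 2 := ⟨_, rfl⟩
  obtain ⟨Bc, hBc⟩ : ∃ Bc, Bc = 1 / (κ * L) * (Λ / 2 + 4) := ⟨_, rfl⟩
  have hA0 : 0 ≤ A := by
    rw [hA]
    positivity
  have hB0 : 0 ≤ Bc := by
    rw [hBc]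
    positivity
  have hpt : ∀ x ∈ Set.Ioc 0 L, ‖Sg g (Real.exp x)‖ * Real.exp (-x) ≤
      Set.indicator (Set.Iic (κ * L)) (fun _ => (1 : ℝ)) x + (A * W x + Bc) := by
    intro x hx
    rcases le_or_gt x (κ * L) with h1 | h1
    · rw [Set.indicator_of_mem (show x ∈ Set.Iic (κ * L) from h1)]
      have h2 := h6_triv g hg x
      have h3 := mul_nonneg hA0 (hW0 x)
      linarith
    · rw [Set.indicator_of_notMem (show x ∉ Set.Iic (κ * L) from not_le.2 h1), zero_add]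
      have hfil : S.filter (fun n : ℕ => (n : ℝ) ≤ Real.exp x) = Icc 1 ⌊Real.exp x⌋₊ := by
        ext n
        rw [mem_filter, mem_Icc]
        constructor
        · rintro ⟨h2, h3⟩
          exact ⟨hS n h2, Nat.le_floor h3⟩
        · rintro ⟨h2, h3⟩
          have h4 : (n : ℝ) ≤ Real.exp x := (Nat.le_floor_iff (Real.exp_pos x).le).1 h3
          refine ⟨?_, h4⟩
          have h5 : (n : ℝ) ≤ N := by
            refine h4.trans ?_
            rw [← Real.exp_log hN0, ← hL]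
            exact Real.exp_le_exp.2 hx.2
          rw [hSd, Nat.mem_divisors]
          exact ⟨dvd_Dv N n h2 (by exact_mod_cast h5), (Dv_pos N).ne'⟩
      have h2 := h6_log g hg x hx.1.le
      obtain ⟨y, hy⟩ : ∃ y, y = ‖∑ n ∈ Icc 1 ⌊Real.exp x⌋₊, g n * (Real.log n : ℂ)‖ := ⟨_, rfl⟩
      have hy0 : 0 ≤ y := by
        rw [hy]
        exact norm_nonneg _
      have h3 : x * ‖Sg g (Real.exp x)‖ ≤ y + 4 * Real.exp x := by
        have h4 := norm_sub_norm_le ((x : ℂ) * Sg g (Real.exp x)) (∑ n ∈ Icc 1 ⌊Real.exp x⌋₊, g n * (Real.log n : ℂ))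
        rw [norm_mul, Complex.norm_real, Real.norm_of_nonneg hx.1.le, ← hy] at h4
        linarith
      have hWx : W x = y ^ 2 * Real.exp (-(2 * (1 + σ) * x)) := by
        rw [hW]
        simp only
        rw [hfil, ← hy]
      have h4 : y ^ 2 * Real.exp (-x) ^ 2 ≤ Real.exp 2 * W x := by
        rw [hWx]
        have h5 : Real.exp (-x) ^ 2 ≤ Real.exp 2 * Real.exp (-(2 * (1 + σ) * x)) := by
          rw [← Real.exp_nat_mul, ← Real.exp_add]
          apply Real.exp_le_exp.2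
          have h6 : σ * x ≤ 1 := by
            rw [hσ, one_div_mul_eq_div, div_le_one hL0]
            exact hx.2
          push_cast
          linarith
        calc y ^ 2 * Real.exp (-x) ^ 2 ≤ y ^ 2 * (Real.exp 2 * Real.exp (-(2 * (1 + σ) * x))) :=
              mul_le_mul_of_nonneg_left h5 (by positivity)
          _ = _ := by ring
      have h5 : y * Real.exp (-x) ≤ 1 / (2 * Λ) * (Real.exp 2 * W x) + Λ / 2 := by
        have h6 : y * Real.exp (-x) ≤ 1 / (2 * Λ) * (y * Real.exp (-x)) ^ 2 + Λ / 2 := by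
          obtain ⟨w, hw⟩ : ∃ w, w = y * Real.exp (-x) := ⟨_, rfl⟩
          rw [← hw, one_div_mul_eq_div, ← sub_nonneg]
          have h7 : w ^ 2 / (2 * Λ) + Λ / 2 - w = (w - Λ) ^ 2 / (2 * Λ) := by
            field_simp
            ring
          rw [h7]
          positivity
        have h7 : 1 / (2 * Λ) * (y * Real.exp (-x)) ^ 2 ≤ 1 / (2 * Λ) * (Real.exp 2 * W x) := by
          apply mul_le_mul_of_nonneg_left _ (by positivity)
          rw [mul_pow]
          exact h4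
        linarith
      have h6 : κ * L * (‖Sg g (Real.exp x)‖ * Real.exp (-x)) ≤ y * Real.exp (-x) + 4 := by
        have h7 : κ * L * ‖Sg g (Real.exp x)‖ ≤ y + 4 * Real.exp x :=
          (mul_le_mul_of_nonneg_right h1.le (norm_nonneg _)).trans h3
        have h8 := mul_le_mul_of_nonneg_right h7 (Real.exp_pos (-x)).le
        have h9 : Real.exp x * Real.exp (-x) = 1 := by rw [← Real.exp_add, add_neg_cancel, Real.exp_zero]
        calc κ * L * (‖Sg g (Real.exp x)‖ * Real.exp (-x)) = κ * L * ‖Sg g (Real.exp x)‖ * Real.exp (-x) := by ring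
          _ ≤ (y + 4 * Real.exp x) * Real.exp (-x) := h8
          _ = y * Real.exp (-x) + 4 * (Real.exp x * Real.exp (-x)) := by ring
          _ = _ := by rw [h9, mul_one]
      have h7 : 0 < κ * L := by positivity
      have h8 : ‖Sg g (Real.exp x)‖ * Real.exp (-x) ≤ (1 / (2 * Λ) * (Real.exp 2 * W x) + Λ / 2 + 4) / (κ * L) := by
        rw [le_div_iff₀ h7, mul_comm]
        linarith
      refine h8.trans (le_of_eq ?_)
      rw [hA, hBc]
      ring
  have hκL : κ * L ≤ L := by nlinarith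
  have hint1 : IntegrableOn (Set.indicator (Set.Iic (κ * L)) (fun _ => (1 : ℝ))) (Set.Ioc 0 L) := by
    rw [IntegrableOn, integrable_indicator_iff measurableSet_Iic]
    apply IntegrableOn.mono_measure (μ := volume.restrict (Set.Ioc 0 L)) _ le_rfl
    exact (integrable_const (1 : ℝ)).integrableOn
  have hint2 : IntegrableOn (fun x => A * W x + Bc) (Set.Ioc 0 L) :=
    (i2.const_mul A).integrableOn.add (integrable_const _)
  have hmain : ∫ x in Set.Ioc 0 L, ‖Sg g (Real.exp x)‖ * Real.exp (-x) ≤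
      ∫ x in Set.Ioc 0 L, (Set.indicator (Set.Iic (κ * L)) (fun _ => (1 : ℝ)) x + (A * W x + Bc)) := by
    apply integral_mono_of_nonneg
    · exact Filter.Eventually.of_forall fun x => by positivity
    · exact hint1.add hint2
    · rw [Filter.EventuallyLE, ae_restrict_iff' measurableSet_Ioc]
      exact Filter.Eventually.of_forall hpt
  rw [intervalIntegral.integral_of_le hL0.le]
  refine hmain.trans ?_
  rw [integral_add hint1 hint2, integral_add (i2.const_mul A).integrableOn (integrable_const _), setIntegral_indicator measurableSet_Iic]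
  have hI1 : ∫ x in Set.Ioc 0 L ∩ Set.Iic (κ * L), (1 : ℝ) = κ * L := by
    have h1 : Set.Ioc 0 L ∩ Set.Iic (κ * L) = Set.Ioc 0 (κ * L) := by
      ext x
      simp only [Set.mem_inter_iff, Set.mem_Ioc, Set.mem_Iic]
      constructor
      · rintro ⟨⟨h1, h2⟩, h3⟩
        exact ⟨h1, h3⟩
      · rintro ⟨h1, h2⟩
        exact ⟨⟨h1, h2.trans hκL⟩, h2⟩
    rw [h1, setIntegral_const, smul_eq_mul, mul_one, Measure.real, Real.volume_Ioc, sub_zero, ENNReal.toReal_ofReal (by positivity)]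
  have hI2 : ∫ x in Set.Ioc 0 L, Bc = L * Bc := by
    rw [setIntegral_const, smul_eq_mul, Measure.real, Real.volume_Ioc, sub_zero, ENNReal.toReal_ofReal hL0.le]
  have hI3 : ∫ x in Set.Ioc 0 L, A * W x ≤ A * (C5 * (M ^ 2 * L + L ^ 3 / T) / (2 * Real.pi)) := by
    rw [integral_const_mul]
    apply mul_le_mul_of_nonneg_left _ hA0
    exact (setIntegral_le_integral i2 (Filter.Eventually.of_forall hW0)).trans hWint
  rw [hI1, hI2]
  have hE2 : Real.exp 2 ≤ 8 := by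
    have h1 : Real.exp 2 = Real.exp 1 ^ 2 := by
      rw [← Real.exp_nat_mul]
      norm_num
    rw [h1]
    have h2 := Real.exp_one_lt_d9
    have h3 := Real.exp_pos 1
    nlinarith
  have hsq : M ^ 2 + L ^ 2 / T ≤ Λ ^ 2 := by
    have h1 : L ^ 2 / T = (L / Real.sqrt T) ^ 2 := by
      rw [div_pow, Real.sq_sqrt (by linarith)]
    rw [h1, hΛ]
    have h2 : 0 ≤ L / Real.sqrt T := by positivity
    nlinarith
  have hfin1 : A * (C5 * (M ^ 2 * L + L ^ 3 / T) / (2 * Real.pi)) ≤ C5 / κ * Λ := by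
    have e1 : A * (C5 * (M ^ 2 * L + L ^ 3 / T) / (2 * Real.pi)) =
        (C5 / κ) * (Real.exp 2 / (4 * Real.pi)) * ((M ^ 2 + L ^ 2 / T) / Λ) := by
      rw [hA]
      field_simp
      ring
    rw [e1]
    have h1 : Real.exp 2 / (4 * Real.pi) ≤ 1 := by
      rw [div_le_one (by positivity)]
      have := Real.pi_gt_three
      linarith
    have h2 : (M ^ 2 + L ^ 2 / T) / Λ ≤ Λ := by
      rw [div_le_iff₀ hΛ0]
      nlinarith
    have h3 : 0 ≤ (M ^ 2 + L ^ 2 / T) / Λ := by positivity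
    calc (C5 / κ) * (Real.exp 2 / (4 * Real.pi)) * ((M ^ 2 + L ^ 2 / T) / Λ) ≤ (C5 / κ) * 1 * Λ := by
          apply mul_le_mul _ h2 h3 (by positivity)
          exact mul_le_mul_of_nonneg_left h1 (by positivity)
      _ = _ := by ring
  have hfin2 : L * Bc ≤ 5 / κ * Λ := by
    have e1 : L * Bc = (Λ / 2 + 4) / κ := by
      rw [hBc]
      field_simp
    rw [e1, div_mul_eq_mul_div]
    apply div_le_div_of_nonneg_right _ hκ.le
    linarith
  have e2 : (C5 + 5) / κ * Λ = C5 / κ * Λ + 5 / κ * Λ := by ring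
  rw [e2]
  linarith

end Pool.H2.MR
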