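import Pool.Agent.H2.MR.Ha4
import Pool.Agent.H75.AP.MertensB

/-!
# [H2 MR HA7] `Ph` and the distance

PROOF. `σ = 1/log N`. `|p^(-σ) - 1| ≤ σ log p`, so `|∑_{p≤N} Re(g(p) p^(-1-σ-it)) - ∑_{p≤N} Re(g(p) p^(-it))/p| ≤ σ ∑_{p≤N} log p/p ≤ C`
(Mertens' first theorem, `H75.AP.mertens_one`). `∑_{p≤N} Re(g(p) p^(-it))/p = ∑_{p≤N} 1/p - DD g t N ≤ log log N + C - DD g t N`
(`H75.AP.mertens_upper`). So `Ph ≤ C log N exp(-DD g t N)`.
-/

namespace Pool.H2.MR

open Finset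

theorem ha7 : ∃ C : ℝ, 0 < C ∧ ∀ (g : ℕ → ℂ) (N : ℕ) (t : ℝ), OB g → 3 ≤ N →
    Ph g N (1 + ((1 / Real.log N : ℝ) : ℂ) + t * Complex.I) ≤ C * Real.log N * Real.exp (-DD g t N) := by
  obtain ⟨C1, hC1, hM⟩ := Pool.Agent.H75.AP.mertens_one
  obtain ⟨C2, hC2, hU⟩ := Pool.Agent.H75.AP.mertens_upper
  refine ⟨Real.exp (C2 + 1 + C1), Real.exp_pos _, fun g N t hg hN => ?_⟩
  have hNR3 : (3 : ℝ) ≤ N := by exact_mod_cast hN
  have hN0 : (0 : ℝ) < N := by linarith
  have hL1 : 1 ≤ Real.log N := by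
    rw [Real.le_log_iff_exp_le hN0]
    linarith [Real.exp_one_lt_d9]
  have hL0 : 0 < Real.log N := by linarith
  set σ : ℝ := 1 / Real.log N with hσ
  have hσ0 : 0 < σ := by positivity
  set S := (Icc 1 N).filter Nat.Prime with hS
  have hPI : ∀ h : ℕ → ℝ, ∑ p ∈ S, h p = ∑ p ∈ Pool.Agent.H75.AP.PI 0 N, h p := by
    intro h
    apply Finset.sum_congr _ (fun _ _ => rfl)
    ext p
    rw [hS, mem_filter, mem_Icc]
    unfold Pool.Agent.H75.AP.PI
    rw [mem_filter, mem_range, Nat.floor_natCast]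
    constructor
    · rintro ⟨⟨a, b⟩, c⟩
      exact ⟨by omega, c, by exact_mod_cast c.pos⟩
    · rintro ⟨a, b, c⟩
      exact ⟨⟨b.one_lt.le, by omega⟩, b⟩
  have hE1 : ∑ p ∈ S, Real.log p / p ≤ Real.log N + C1 := by
    rw [hPI]
    linarith [(abs_le.1 (hM N (by linarith))).2]
  have hE2 : ∑ p ∈ S, 1 / (p : ℝ) ≤ Real.log (Real.log N) + C2 := by
    rw [hPI]
    exact hU N hNR3
  have hterm : ∀ p ∈ S, (g p * (p : ℂ) ^ (-(1 + ((σ : ℝ) : ℂ) + t * Complex.I))).re ≤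
      1 / (p : ℝ) - (1 - (g p * ni t p).re) / (p : ℝ) + σ * (Real.log p / p) := by
    intro p hp
    rw [hS, mem_filter, mem_Icc] at hp
    have hpR1 : (1 : ℝ) ≤ p := by exact_mod_cast hp.1.1
    have hp0 : (0 : ℝ) < p := by linarith
    have hpc : (p : ℂ) ≠ 0 := by exact_mod_cast hp0.ne'
    have hlp : 0 ≤ Real.log p := Real.log_nonneg hpR1
    have e1 : (p : ℂ) ^ (-(1 + ((σ : ℝ) : ℂ) + t * Complex.I)) = (((p : ℝ) ^ (-(1 + σ)) : ℝ) : ℂ) * ni t p := by
      unfold ni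
      have : -(1 + ((σ : ℝ) : ℂ) + t * Complex.I) = ((-(1 + σ) : ℝ) : ℂ) + -((t : ℂ) * Complex.I) := by
        push_cast
        ring
      rw [this, Complex.cpow_add _ _ hpc, Complex.ofReal_cpow hp0.le]
      norm_num
    have e2 : (g p * (p : ℂ) ^ (-(1 + ((σ : ℝ) : ℂ) + t * Complex.I))).re = (p : ℝ) ^ (-(1 + σ)) * (g p * ni t p).re := by
      rw [e1, mul_left_comm, Complex.re_ofReal_mul]
    rw [e2]
    set r := (g p * ni t p).re with hr
    have hni : ‖ni t p‖ = 1 := by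
      unfold ni
      rw [show (p : ℂ) = ((p : ℝ) : ℂ) by norm_num, Complex.norm_cpow_eq_rpow_re_of_pos hp0]
      simp
    have hr1 : |r| ≤ 1 := by
      refine (Complex.abs_re_le_norm _).trans ?_
      rw [norm_mul, hni, mul_one]
      exact hg.bd p
    have e3 : (p : ℝ) ^ (-(1 + σ)) = (1 / p) * Real.exp (-(σ * Real.log p)) := by
      rw [Real.rpow_def_of_pos hp0]
      have : Real.log p * -(1 + σ) = -Real.log p + -(σ * Real.log p) := by ring
      rw [this, Real.exp_add, Real.exp_neg, Real.exp_log hp0, one_div]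
    have e4 : 1 - σ * Real.log p ≤ Real.exp (-(σ * Real.log p)) := by
      have := Real.add_one_le_exp (-(σ * Real.log p))
      linarith
    have e5 : Real.exp (-(σ * Real.log p)) ≤ 1 := by
      rw [Real.exp_le_one_iff]
      have : 0 ≤ σ * Real.log p := by positivity
      linarith
    have e6 : Real.exp (-(σ * Real.log p)) * r ≤ r + σ * Real.log p := by
      have h1 := (abs_le.1 hr1).1
      have h2 := (abs_le.1 hr1).2
      nlinarith [mul_nonneg hσ0.le hlp]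
    rw [e3]
    have e7 : 1 / (p : ℝ) * Real.exp (-(σ * Real.log p)) * r = (1 / (p : ℝ)) * (Real.exp (-(σ * Real.log p)) * r) := by ring
    have e8 : 1 / (p : ℝ) - (1 - r) / (p : ℝ) + σ * (Real.log p / p) = (1 / (p : ℝ)) * (r + σ * Real.log p) := by
      field_simp
      ring
    rw [e7, e8]
    exact mul_le_mul_of_nonneg_left e6 (by positivity)
  have hsum := Finset.sum_le_sum hterm
  rw [Finset.sum_add_distrib, Finset.sum_sub_distrib, ← Finset.mul_sum] at hsum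
  have hDD : ∑ p ∈ S, (1 - (g p * ni t p).re) / (p : ℝ) = DD g t N := rfl
  rw [hDD] at hsum
  have hE3 : σ * ∑ p ∈ S, Real.log p / p ≤ 1 + C1 := by
    have h1 := mul_le_mul_of_nonneg_left hE1 hσ0.le
    have h2 : σ * (Real.log N + C1) = 1 + C1 / Real.log N := by
      rw [hσ]
      field_simp
    have h3 : C1 / Real.log N ≤ C1 := div_le_self hC1.le hL1
    linarith
  unfold Ph
  have hfin : ∑ p ∈ S, (g p * (p : ℂ) ^ (-(1 + ((σ : ℝ) : ℂ) + t * Complex.I))).re ≤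
      (C2 + 1 + C1) + Real.log (Real.log N) + -DD g t N := by
    linarith
  refine (Real.exp_le_exp.2 hfin).trans ?_
  rw [Real.exp_add, Real.exp_add, Real.exp_log hL0]

end Pool.H2.MR
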