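import Pool.Agent.H2.MR.Ha2
import Pool.Agent.H2.MR.Ha6
import Pool.Agent.H2.MR.Ha7

/-!
# [H2 MR HAL] Halász's theorem (qualitative)

PROOF. `ha1`, `ha2` (with `η' = η/32`... ), `ha6`, `ha7`: with `L = log N`,
`‖Sg g N‖/N ≤ (2/L) ∫_0^L + 4η' + C_η'/L ≤ 2κ + (2C/κ)(C e^(-M) + 1/√T + 1/L) + 4η' + C_η'/L`. Choose `η' = min(1, η/32)`, `κ = min(1, η/16)`, then `T` and `M` with
`(2C/κ)(C e^(-M) + 1/√T) ≤ η/4`, then `N ≥ Y0`. `T₀ = T`.
-/

namespace Pool.H2.MR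

open Finset

theorem hal (η : ℝ) (hη : 0 < η) : ∃ (T₀ M : ℝ) (Y₀ : ℕ), 1 ≤ T₀ ∧ ∀ (N : ℕ) (g : ℕ → ℂ), Y₀ ≤ N → OB g →
    (∀ u : ℝ, |u| ≤ T₀ → M ≤ DD g u N) → ‖∑ n ∈ Icc 1 N, g n‖ ≤ η * N := by
  obtain ⟨C1, hC1, h1⟩ := ha1
  obtain ⟨C2, hC2, h2⟩ := ha2 (min 1 (η / 16)) (by positivity) (min_le_left _ _)
  obtain ⟨C6, hC6, h6⟩ := ha6
  obtain ⟨C7, hC7, h7⟩ := ha7
  set η' : ℝ := min 1 (η / 16) with hη'
  have hη'0 : 0 < η' := by positivity
  have hη'1 : 4 * η' ≤ η / 4 := by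
    have := min_le_right 1 (η / 16)
    linarith
  set κ : ℝ := min 1 (η / 8) with hκ
  have hκ0 : 0 < κ := by positivity
  have hκ1 : κ ≤ 1 := min_le_left _ _
  have hκ2 : 2 * κ ≤ η / 4 := by
    have := min_le_right 1 (η / 8)
    linarith
  set T : ℝ := max 3 ((16 * C6 / (κ * η)) ^ 2) with hT
  set M : ℝ := Real.log (16 * C6 * C7 / (κ * η)) with hM
  set B : ℝ := 2 * C6 / κ + C1 + C2 with hB
  have hB0 : 0 < B := by positivity
  refine ⟨T, M, max 3 ⌈Real.exp (4 * B / η)⌉₊, by linarith [le_max_left 3 ((16 * C6 / (κ * η)) ^ 2)], fun N g hN hg hD => ?_⟩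
  have hN3 : 3 ≤ N := (le_max_left _ _).trans hN
  have hNR3 : (3 : ℝ) ≤ N := by exact_mod_cast hN3
  have hN0 : (0 : ℝ) < N := by linarith
  have hL1 : 1 ≤ Real.log N := by
    rw [Real.le_log_iff_exp_le hN0]
    linarith [Real.exp_one_lt_d9]
  set L : ℝ := Real.log N with hL
  have hL0 : 0 < L := by linarith
  have hLB : 4 * B / η ≤ L := by
    rw [hL, Real.le_log_iff_exp_le hN0]
    have a1 : (⌈Real.exp (4 * B / η)⌉₊ : ℝ) ≤ N := by exact_mod_cast (le_max_right _ _).trans hN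
    exact (Nat.le_ceil _).trans a1
  have hLB' : B ≤ (η / 4) * L := by
    rw [div_le_iff₀ hη] at hLB
    linarith
  have a1 := h1 g N hg (by omega)
  have a2 := h2 g N hg (by omega)
  have a7 : ∀ t : ℝ, |t| ≤ T → Ph g N (1 + ((1 / Real.log N : ℝ) : ℂ) + t * Complex.I) ≤ C7 * L * Real.exp (-M) := by
    intro t ht
    refine (h7 g N t hg hN3).trans ?_
    have : Real.exp (-DD g t N) ≤ Real.exp (-M) := Real.exp_le_exp.2 (by linarith [hD t ht])
    exact mul_le_mul_of_nonneg_left this (by positivity)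
  have a6 := h6 g N κ T (C7 * L * Real.exp (-M)) hg hN3 hκ0 hκ1 (le_max_left _ _) (by positivity) a7
  have hS : Sg g N = ∑ n ∈ Icc 1 N, g n := by
    unfold Sg
    rw [Nat.floor_natCast]
  rw [← hS]
  set I : ℝ := ∫ x in (0 : ℝ)..(Real.log N), ‖Sg g (Real.exp x)‖ * Real.exp (-x) with hI
  -- the constants
  have hMe : Real.exp (-M) = (κ * η) / (16 * C6 * C7) := by
    rw [hM, Real.exp_neg, Real.exp_log (by positivity), inv_div]
  have b1 : 2 * (C6 / κ) * (C7 * L * Real.exp (-M)) = (η / 8) * L := by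
    rw [hMe]
    field_simp
    norm_num
  have hT0 : 0 < T := by
    have := le_max_left 3 ((16 * C6 / (κ * η)) ^ 2)
    linarith
  have hsT : 16 * C6 / (κ * η) ≤ Real.sqrt T := by
    apply Real.le_sqrt_of_sq_le
    exact le_max_right _ _
  have hsT0 : 0 < Real.sqrt T := Real.sqrt_pos.2 hT0
  have b2 : 2 * (C6 / κ) * (L / Real.sqrt T) ≤ (η / 8) * L := by
    have c1 : L / Real.sqrt T ≤ L / (16 * C6 / (κ * η)) := by
      apply div_le_div_of_nonneg_left hL0.le (by positivity) hsT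
    have c2 : 2 * (C6 / κ) * (L / (16 * C6 / (κ * η))) = (η / 8) * L := by
      field_simp
      norm_num
    rw [← c2]
    exact mul_le_mul_of_nonneg_left c1 (by positivity)
  have b3 : I ≤ κ * L + C6 / κ * (C7 * L * Real.exp (-M) + L / Real.sqrt T + 1) := a6
  have b4 : 2 * I ≤ (η / 4) * L + (η / 8) * L + (η / 8) * L + 2 * C6 / κ := by
    have e : 2 * (κ * L + C6 / κ * (C7 * L * Real.exp (-M) + L / Real.sqrt T + 1)) =
        (2 * κ) * L + 2 * (C6 / κ) * (C7 * L * Real.exp (-M)) + 2 * (C6 / κ) * (L / Real.sqrt T) + 2 * C6 / κ := by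
      ring
    have e2 : (2 * κ) * L ≤ (η / 4) * L := mul_le_mul_of_nonneg_right hκ2 hL0.le
    linarith
  have b5 : ‖Sg g N‖ * L ≤ N * (2 * I + 4 * η' * L + C2 + C1) := by
    have e : (N : ℝ) * (2 * I + 4 * η' * L + C2 + C1) = (2 * N * I + 4 * η' * N * L + C2 * N) + C1 * N := by ring
    rw [e]
    linarith
  have b6 : 2 * I + 4 * η' * L + C2 + C1 ≤ η * L := by
    have e : 4 * η' * L ≤ (η / 4) * L := mul_le_mul_of_nonneg_right hη'1 hL0.le
    have e2 : B = 2 * C6 / κ + C1 + C2 := hB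
    linarith
  have b7 : ‖Sg g N‖ * L ≤ (η * N) * L := by
    refine b5.trans ?_
    have := mul_le_mul_of_nonneg_left b6 hN0.le
    linarith
  exact le_of_mul_le_mul_right b7 hL0

end Pool.H2.MR
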