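import Pool.Agent.H2.MR.Zp
import Pool.Agent.H2.MR.Mvl

/-!
# [H2 MR KN] The smooth kernel

`wt s` is the trapezoid: `0` for `s ≤ -1`, `s + 1` on `[-1,0]`, `1` on `[0, log 20]`, `log 20 + 1 - s` on `[log 20, log 20 + 1]`, `0` afterwards.
`mk u = ∫ wt(s) exp(-ius) ds`, `kw M u = ∑_{m ≤ 60M} wt(log(m/M)) m^(-1-iu)`.

PROOF of `mk_le`: `|mk u| ≤ ∫ wt = log 20 + 1 ≤ 4`; for `u ≠ 0` integrate by parts twice (or integrate explicitly the three pieces): with
`ρ = log 20`, `mk u = -(1/u²)(e^(iu) - 1) · (-1) ...`, precisely `mk u = (1/(iu)) (∫_{-1}^0 e^(-ius) ds - ∫_ρ^(ρ+1) e^(-ius) ds)` and each integral is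
`≤ 2/|u|` in absolute value, so `|mk u| ≤ 4/u²`. So `|mk u| ≤ 8/(1+u²)`. (Alternative: `wt` is the convolution of two indicator functions.)

PROOF of `kn`. `φ(x) = wt(log(x/M)) x^(-1-iu)` (`x > 0`), support in `[M/e, 20eM]`, `20e < 60`; substitution `x = M e^s`: `∫ φ = M^(-iu) mk u`.
(a) `|u| ≤ 8 M^(1/2)`. `φ` is Lipschitz on each `[m-1, m]` with constant `≤ (2+|u|)/(M/e - 1)²`-like (`wt` is 1-Lipschitz and bounded by 1):
`|φ(m) - ∫_{m-1}^m φ| ≤ C(2+|u|)/M²` for the `m ≤ 60M+1`, so the difference is `≤ C'(2+|u|)/M ≤ C'' M^(-1/2)`.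
(b) `|u| > 8 M^(1/2)`: `|mk u| ≤ 4/u² ≤ 1/M`. `kw M u = ∑_m g(m) ni u m`, `g(m) = wt(log(m/M))/m`, `0 ≤ g ≤ 3/M`, total variation `≤ C/M`. By Abel summation
`|kw| ≤ (C/M) max_{N'} |∑_{N0<m≤N'} ni u m|`, `N0 = ⌊M/e⌋`, `N' ≤ 60M`; split `(N0, N']` into at most 8 intervals `(N, N'']`, `N'' ≤ 2N`, `N ≥ N0`; `zp` with
exponent `K+2` (`N^(1/2) ≤ 8M^(1/2) < |u|`, `|u| ≤ 2X ≤ 2M^K ≤ (M/4)^(K+2) ≤ N^(K+2)` if `M ≥ M_0(K)`) gives `≤ C M^(1-c)`, so `|kw| ≤ C' M^(-c)`.
(For `M < M_0(K)` also `X ≤ M^K` is bounded and the trivial bound `|kw| + |mk| ≤ C` is enough.)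
In all cases `≤ C M^(-c) ≤ C X^(-c/K)` (`c ≤ 1/8`).
-/

namespace Pool.H2.MR

open Finset MeasureTheory

noncomputable def wt (s : ℝ) : ℝ := max 0 (min 1 (min (s + 1) (Real.log 20 + 1 - s)))

noncomputable def mk (u : ℝ) : ℂ := ∫ s in (-1 : ℝ)..(Real.log 20 + 1), (wt s : ℂ) * Complex.exp (-((u * s : ℝ) : ℂ) * Complex.I)

noncomputable def kw (M u : ℝ) : ℂ := ∑ m ∈ Icc 1 ⌊60 * M⌋₊, (wt (Real.log ((m : ℝ) / M)) : ℂ) * nj u m

theorem wt_nonneg (s : ℝ) : 0 ≤ wt s := le_max_left _ _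

theorem wt_le (s : ℝ) : wt s ≤ 1 := max_le zero_le_one (min_le_left _ _)

theorem wt_one (s : ℝ) (h0 : 0 ≤ s) (h1 : s ≤ Real.log 20) : wt s = 1 := by
  have h2 : (1 : ℝ) ≤ min (s + 1) (Real.log 20 + 1 - s) := le_min (by linarith) (by linarith)
  rw [wt, min_eq_left h2]
  norm_num

private theorem kn_rho : 0 < Real.log 20 ∧ Real.log 20 < 3 := by
  refine ⟨Real.log_pos (by norm_num), ?_⟩
  rw [Real.log_lt_iff_lt_exp (by norm_num)]
  have h := Real.exp_one_gt_d9
  have h2 : Real.exp 3 = Real.exp 1 ^ 3 := by rw [← Real.exp_nat_mul]; norm_num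
  rw [h2]
  calc (20 : ℝ) < 2.7182818283 ^ 3 := by norm_num
    _ ≤ _ := pow_le_pow_left₀ (by norm_num) h.le 3

private theorem wt_zero_left {s : ℝ} (h : s ≤ -1) : wt s = 0 := by
  rw [wt, max_eq_left]
  exact (min_le_right _ _).trans ((min_le_left _ _).trans (by linarith))

private theorem wt_zero_right {s : ℝ} (h : Real.log 20 + 1 ≤ s) : wt s = 0 := by
  rw [wt, max_eq_left]
  exact (min_le_right _ _).trans ((min_le_right _ _).trans (by linarith))

private theorem wt_left {s : ℝ} (h : -1 ≤ s) (h' : s ≤ 0) : wt s = s + 1 := by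
  have := kn_rho
  rw [wt, min_eq_left (a := s + 1) (by linarith), min_eq_right (by linarith), max_eq_right (by linarith)]

private theorem wt_right {s : ℝ} (h : Real.log 20 ≤ s) (h' : s ≤ Real.log 20 + 1) :
    wt s = Real.log 20 + 1 - s := by
  have := kn_rho
  rw [wt, min_eq_right (a := s + 1) (by linarith), min_eq_right (by linarith), max_eq_right (by linarith)]

private theorem wt_cont : Continuous wt := by
  unfold wt
  fun_prop

private theorem wt_lip (s t : ℝ) : |wt s - wt t| ≤ |s - t| := by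
  have h1 : |wt s - wt t| ≤ |min 1 (min (s + 1) (Real.log 20 + 1 - s)) -
      min 1 (min (t + 1) (Real.log 20 + 1 - t))| := by
    refine (abs_max_sub_max_le_max _ _ _ _).trans ?_
    simp
  refine h1.trans ((abs_min_sub_min_le_max _ _ _ _).trans ?_)
  refine max_le (by simp) ((abs_min_sub_min_le_max _ _ _ _).trans (max_le ?_ ?_))
  · rw [show s + 1 - (t + 1) = s - t by ring]
  · rw [show Real.log 20 + 1 - s - (Real.log 20 + 1 - t) = -(s - t) by ring, abs_neg]

/-- the integrand -/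
private noncomputable def kh (u s : ℝ) : ℂ := (wt s : ℂ) * Complex.exp (-((u * s : ℝ) : ℂ) * Complex.I)

private theorem kexp_norm (x : ℝ) : ‖Complex.exp (-(x : ℂ) * Complex.I)‖ = 1 := by
  have := Complex.norm_exp_ofReal_mul_I (-x)
  rw [← this]
  push_cast
  rfl

private theorem kh_norm (u s : ℝ) : ‖kh u s‖ = wt s := by
  rw [kh, norm_mul, kexp_norm, mul_one, Complex.norm_real, Real.norm_of_nonneg (wt_nonneg s)]

private theorem kh_cont (u : ℝ) : Continuous (kh u) := by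
  unfold kh
  have := wt_cont
  fun_prop

private theorem mk_four (u : ℝ) : ‖mk u‖ ≤ 4 := by
  have hρ := kn_rho
  have h1 : ‖mk u‖ ≤ ∫ s in (-1 : ℝ)..(Real.log 20 + 1), wt s := by
    refine (intervalIntegral.norm_integral_le_integral_norm (by linarith)).trans (le_of_eq ?_)
    refine intervalIntegral.integral_congr fun s _ => ?_
    exact kh_norm u s
  have hi : ∀ a b : ℝ, IntervalIntegrable wt volume a b := fun a b => wt_cont.intervalIntegrable a b
  have h2 : ∫ s in (-1 : ℝ)..(Real.log 20 + 1), wt s = (∫ s in (-1 : ℝ)..0, wt s) +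
      (∫ s in (0 : ℝ)..(Real.log 20), wt s) + ∫ s in (Real.log 20)..(Real.log 20 + 1), wt s := by
    rw [intervalIntegral.integral_add_adjacent_intervals (hi _ _) (hi _ _),
      intervalIntegral.integral_add_adjacent_intervals (hi _ _) (hi _ _)]
  have h3 : ∫ s in (-1 : ℝ)..0, wt s = 1 / 2 := by
    have : ∫ s in (-1 : ℝ)..0, wt s = ∫ s in (-1 : ℝ)..0, (s + 1) := by
      refine intervalIntegral.integral_congr fun s hs => ?_
      rw [Set.uIcc_of_le (by norm_num)] at hs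
      exact wt_left hs.1 hs.2
    rw [this, intervalIntegral.integral_add (by simp) (by simp)]
    simp
    norm_num
  have h4 : ∫ s in (0 : ℝ)..(Real.log 20), wt s ≤ Real.log 20 := by
    have : ∫ s in (0 : ℝ)..(Real.log 20), wt s ≤ ∫ s in (0 : ℝ)..(Real.log 20), (1 : ℝ) :=
      intervalIntegral.integral_mono_on hρ.1.le (hi _ _) (by simp) fun s _ => wt_le s
    simpa using this
  have h5 : ∫ s in (Real.log 20)..(Real.log 20 + 1), wt s = 1 / 2 := by
    have : ∫ s in (Real.log 20)..(Real.log 20 + 1), wt s =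
        ∫ s in (Real.log 20)..(Real.log 20 + 1), (Real.log 20 + 1 - s) := by
      refine intervalIntegral.integral_congr fun s hs => ?_
      rw [Set.uIcc_of_le (by linarith)] at hs
      exact wt_right hs.1 hs.2
    rw [this, intervalIntegral.integral_sub (by simp) (by simp)]
    simp
    ring
  rw [h2, h3, h5] at h1
  linarith

private theorem kexp_deriv (c : ℂ) (s : ℝ) :
    HasDerivAt (fun s : ℝ => Complex.exp (c * s)) (c * Complex.exp (c * s)) s := by
  have h := ((hasDerivAt_id (s : ℂ)).const_mul c).cexp.comp_ofReal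
  simp only [id, mul_one] at h
  rw [mul_comm]
  exact h

private theorem mk_formula {u : ℝ} (hu : u ≠ 0) : mk u = (1 / (-(u : ℂ) * Complex.I) ^ 2) *
    (-1 + Complex.exp (-(-(u : ℂ) * Complex.I)) +
      Complex.exp ((-(u : ℂ) * Complex.I) * (Real.log 20 + 1 : ℝ)) -
      Complex.exp ((-(u : ℂ) * Complex.I) * (Real.log 20 : ℝ))) := by
  have hρ := kn_rho
  set c : ℂ := -(u : ℂ) * Complex.I with hc
  have hc0 : c ≠ 0 := by
    rw [hc]
    simp [hu]
  set ρ := Real.log 20 with hρd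
  have hk : ∀ s : ℝ, kh u s = (wt s : ℂ) * Complex.exp (c * s) := by
    intro s
    rw [kh, hc]
    congr 2
    push_cast
    ring
  have hi : ∀ a b : ℝ, IntervalIntegrable (kh u) volume a b := fun a b => (kh_cont u).intervalIntegrable a b
  have h2 : mk u = (∫ s in (-1 : ℝ)..0, kh u s) +
      (∫ s in (0 : ℝ)..ρ, kh u s) + ∫ s in ρ..(ρ + 1), kh u s := by
    rw [intervalIntegral.integral_add_adjacent_intervals (hi _ _) (hi _ _),
      intervalIntegral.integral_add_adjacent_intervals (hi _ _) (hi _ _)]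
    rfl
  have h3 : ∫ s in (-1 : ℝ)..0, kh u s = 1 / c - 1 / c ^ 2 + Complex.exp (-c) / c ^ 2 := by
    have e1 : ∫ s in (-1 : ℝ)..0, kh u s = ∫ s in (-1 : ℝ)..0, ((s : ℂ) + 1) * Complex.exp (c * s) := by
      refine intervalIntegral.integral_congr fun s hs => ?_
      rw [Set.uIcc_of_le (by norm_num)] at hs
      rw [hk, wt_left hs.1 hs.2]
      push_cast
      rfl
    have e2 : ∀ s : ℝ, HasDerivAt (fun s : ℝ => (((s : ℂ) + 1) / c - 1 / c ^ 2) * Complex.exp (c * s))
        (((s : ℂ) + 1) * Complex.exp (c * s)) s := by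
      intro s
      have d1 : HasDerivAt (fun s : ℝ => (((s : ℂ) + 1) / c - 1 / c ^ 2)) (1 / c) s :=
        (((Complex.ofRealCLM.hasDerivAt (x := s)).add_const 1).div_const c).sub_const _
      have d2 := d1.mul (kexp_deriv c s)
      refine d2.congr_deriv ?_
      field_simp
      ring
    rw [e1, intervalIntegral.integral_eq_sub_of_hasDerivAt (fun s _ => e2 s)
      (Continuous.intervalIntegrable (by fun_prop) _ _)]
    simp
    ring
  have h4 : ∫ s in (0 : ℝ)..ρ, kh u s = (Complex.exp (c * ρ) - 1) / c := by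
    have e1 : ∫ s in (0 : ℝ)..ρ, kh u s = ∫ s in (0 : ℝ)..ρ, Complex.exp (c * s) := by
      refine intervalIntegral.integral_congr fun s hs => ?_
      rw [Set.uIcc_of_le hρ.1.le] at hs
      rw [hk, wt_one s hs.1 hs.2]
      simp
    have e2 : ∀ s : ℝ, HasDerivAt (fun s : ℝ => (1 / c) * Complex.exp (c * s))
        (Complex.exp (c * s)) s := by
      intro s
      have d2 := (kexp_deriv c s).const_mul (1 / c)
      refine d2.congr_deriv ?_
      field_simp
    rw [e1, intervalIntegral.integral_eq_sub_of_hasDerivAt (fun s _ => e2 s)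
      (Continuous.intervalIntegrable (by fun_prop) _ _)]
    simp
    ring
  have h5 : ∫ s in ρ..(ρ + 1), kh u s = Complex.exp (c * (ρ + 1 : ℝ)) / c ^ 2 -
      (1 / c + 1 / c ^ 2) * Complex.exp (c * ρ) := by
    have e1 : ∫ s in ρ..(ρ + 1), kh u s =
        ∫ s in ρ..(ρ + 1), ((ρ : ℂ) + 1 - s) * Complex.exp (c * s) := by
      refine intervalIntegral.integral_congr fun s hs => ?_
      rw [Set.uIcc_of_le (by linarith)] at hs
      rw [hk, wt_right hs.1 hs.2]
      push_cast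
      rfl
    have e2 : ∀ s : ℝ, HasDerivAt (fun s : ℝ => (((ρ : ℂ) + 1 - s) / c + 1 / c ^ 2) * Complex.exp (c * s))
        (((ρ : ℂ) + 1 - s) * Complex.exp (c * s)) s := by
      intro s
      have d1 : HasDerivAt (fun s : ℝ => (((ρ : ℂ) + 1 - s) / c + 1 / c ^ 2)) (-1 / c) s :=
        (((Complex.ofRealCLM.hasDerivAt (x := s)).const_sub ((ρ : ℂ) + 1)).div_const c).add_const _
      have d2 := d1.mul (kexp_deriv c s)
      refine d2.congr_deriv ?_
      field_simp
      ring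
    rw [e1, intervalIntegral.integral_eq_sub_of_hasDerivAt (fun s _ => e2 s)
      (Continuous.intervalIntegrable (by fun_prop) _ _)]
    push_cast
    ring
  rw [h2, h3, h4, h5]
  field_simp
  ring

private theorem mk_sq {u : ℝ} (hu : u ≠ 0) : ‖mk u‖ ≤ 4 / u ^ 2 := by
  rw [mk_formula hu, norm_mul]
  have h1 : ‖1 / (-(u : ℂ) * Complex.I) ^ 2‖ = 1 / u ^ 2 := by
    rw [norm_div, norm_pow, norm_mul, norm_neg, Complex.norm_I, Complex.norm_real, mul_one,
      Real.norm_eq_abs, sq_abs, norm_one]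
  have e : ∀ x : ℝ, ‖Complex.exp ((-(u : ℂ) * Complex.I) * (x : ℝ))‖ = 1 := by
    intro x
    rw [← kexp_norm (u * x)]
    congr 2
    push_cast
    ring
  have e1 : ‖Complex.exp (-(-(u : ℂ) * Complex.I))‖ = 1 := by
    have := e (-1)
    rw [← this]
    congr 2
    push_cast
    ring
  have h2 : ‖(-1 + Complex.exp (-(-(u : ℂ) * Complex.I)) +
      Complex.exp ((-(u : ℂ) * Complex.I) * (Real.log 20 + 1 : ℝ)) -
      Complex.exp ((-(u : ℂ) * Complex.I) * (Real.log 20 : ℝ)))‖ ≤ 4 := by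
    refine (norm_sub_le _ _).trans ?_
    have h3 := norm_add_le (-1 + Complex.exp (-(-(u : ℂ) * Complex.I)))
      (Complex.exp ((-(u : ℂ) * Complex.I) * (Real.log 20 + 1 : ℝ)))
    have h4 := norm_add_le (-1 : ℂ) (Complex.exp (-(-(u : ℂ) * Complex.I)))
    rw [e] at h3 ⊢
    rw [e1, norm_neg, norm_one] at h4
    linarith
  rw [h1]
  calc 1 / u ^ 2 * _ ≤ 1 / u ^ 2 * 4 := mul_le_mul_of_nonneg_left h2 (by positivity)
    _ = 4 / u ^ 2 := by ring

theorem mk_le (u : ℝ) : ‖mk u‖ ≤ 8 / (1 + u ^ 2) := by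
  rcases eq_or_ne u 0 with h | h
  · have := mk_four u
    rw [h] at this ⊢
    norm_num
    linarith
  · have h1 := mk_four u
    have h2 := mk_sq h
    have h3 : 0 < u ^ 2 := by positivity
    rw [le_div_iff₀ (by positivity)]
    have h4 : ‖mk u‖ * u ^ 2 ≤ 4 := by rwa [le_div_iff₀ h3] at h2
    linarith
private theorem kexp_lip (x y : ℝ) :
    ‖Complex.exp (-(x : ℂ) * Complex.I) - Complex.exp (-(y : ℂ) * Complex.I)‖ ≤ |x - y| := by
  have e1 : Complex.exp (-(x : ℂ) * Complex.I) - Complex.exp (-(y : ℂ) * Complex.I) =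
      Complex.exp (-(y : ℂ) * Complex.I) * (Complex.exp (Complex.I * ((y - x : ℝ) : ℂ)) - 1) := by
    rw [mul_sub, ← Complex.exp_add, mul_one]
    congr 2
    push_cast
    ring
  rw [e1, norm_mul, kexp_norm, one_mul]
  refine (Real.norm_exp_I_mul_ofReal_sub_one_le).trans ?_
  rw [Real.norm_eq_abs, abs_sub_comm]

private theorem kh_lip (u s t : ℝ) : ‖kh u s - kh u t‖ ≤ (1 + |u|) * |s - t| := by
  have e1 : kh u s - kh u t = ((wt s - wt t : ℝ) : ℂ) * Complex.exp (-((u * s : ℝ) : ℂ) * Complex.I) +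
      (wt t : ℂ) * (Complex.exp (-((u * s : ℝ) : ℂ) * Complex.I) -
        Complex.exp (-((u * t : ℝ) : ℂ) * Complex.I)) := by
    rw [kh, kh]
    push_cast
    ring
  rw [e1]
  refine (norm_add_le _ _).trans ?_
  rw [norm_mul, norm_mul, kexp_norm, mul_one, Complex.norm_real, Complex.norm_real, Real.norm_eq_abs,
    Real.norm_of_nonneg (wt_nonneg t)]
  have h1 := wt_lip s t
  have h2 := kexp_lip (u * s) (u * t)
  rw [← mul_sub, abs_mul] at h2
  have h3 := wt_le t
  have h4 := wt_nonneg t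
  have h5 : 0 ≤ |u| * |s - t| := by positivity
  nlinarith [norm_nonneg (Complex.exp (-((u * s : ℝ) : ℂ) * Complex.I) -
        Complex.exp (-((u * t : ℝ) : ℂ) * Complex.I))]

private theorem kh_step (u a b : ℝ) (hab : a ≤ b) :
    ‖(∫ s in a..b, kh u s) - ((b - a : ℝ) : ℂ) * kh u b‖ ≤ (1 + |u|) * (b - a) ^ 2 := by
  have e1 : (∫ s in a..b, kh u s) - ((b - a : ℝ) : ℂ) * kh u b = ∫ s in a..b, (kh u s - kh u b) := by
    rw [intervalIntegral.integral_sub ((kh_cont u).intervalIntegrable _ _) (by simp)]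
    simp
  rw [e1]
  have h := intervalIntegral.norm_integral_le_of_norm_le_const (a := a) (b := b)
    (C := (1 + |u|) * (b - a)) (f := fun s => kh u s - kh u b) (by
      intro s hs
      rw [Set.uIoc_of_le hab] at hs
      refine (kh_lip u s b).trans ?_
      refine mul_le_mul_of_nonneg_left ?_ (by positivity)
      rw [abs_sub_comm, abs_of_nonneg (by linarith [hs.2])]
      linarith [hs.1])
  rw [abs_of_nonneg (by linarith : 0 ≤ b - a)] at h
  calc _ ≤ _ := h
    _ = _ := by ring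

/-- one term of the comparison -/
private theorem kn_term {M u : ℝ} (hM : 3 ≤ M) (m : ℕ) (hm : 1 ≤ m) :
    ‖(∫ s in (Real.log ((m : ℝ) / M))..(Real.log (((m + 1 : ℕ) : ℝ) / M)), kh u s) -
      ((1 / ((m + 1 : ℕ) : ℝ) : ℝ) : ℂ) * kh u (Real.log (((m + 1 : ℕ) : ℝ) / M))‖ ≤
      40 * (2 + |u|) / M ^ 2 := by
  have hM0 : 0 < M := by linarith
  have hm0 : (0 : ℝ) < m := by exact_mod_cast hm
  have hm1 : (1 : ℝ) ≤ m := by exact_mod_cast hm
  have hu := abs_nonneg u
  set a := Real.log ((m : ℝ) / M) with ha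
  set b := Real.log (((m + 1 : ℕ) : ℝ) / M) with hb
  have hmc : (((m + 1 : ℕ) : ℝ)) = (m : ℝ) + 1 := by push_cast; ring
  have hab : a ≤ b := by
    refine Real.log_le_log (by positivity) ?_
    rw [hmc]
    gcongr
    linarith
  by_cases hsm : b ≤ -1
  · have h1 : kh u b = 0 := by
      rw [kh, wt_zero_left hsm]
      simp
    have h2 : ∫ s in a..b, kh u s = 0 := by
      rw [intervalIntegral.integral_congr (g := fun _ => (0 : ℂ))]
      · simp
      · intro s hs
        rw [Set.uIcc_of_le hab] at hs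
        show kh u s = 0
        rw [kh, wt_zero_left (hs.2.trans hsm)]
        simp
    rw [h1, h2]
    simp
    positivity
  · push Not at hsm
    have hbm : M < 6 * (m : ℝ) := by
      have h1 : Real.exp (-1) < ((m + 1 : ℕ) : ℝ) / M := by
        rw [← Real.lt_log_iff_exp_lt (by positivity)]
        exact hsm
      rw [lt_div_iff₀ hM0, hmc, Real.exp_neg] at h1
      have h2 : (1 : ℝ) / 2.72 < (Real.exp 1)⁻¹ := by
        rw [one_div]
        exact (inv_lt_inv₀ (by norm_num) (Real.exp_pos 1)).2 (by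
          have := Real.exp_one_lt_d9
          linarith)
      have h3 : M < 2.72 * (m + 1) := by
        have : 1 / 2.72 * M < (m : ℝ) + 1 := lt_of_le_of_lt (by
          exact mul_le_mul_of_nonneg_right h2.le hM0.le) h1
        rw [div_mul_eq_mul_div, one_mul, div_lt_iff₀ (by norm_num)] at this
        linarith
      linarith
    have h1 := kh_step u a b hab
    have hba : b - a = Real.log (((m : ℝ) + 1) / m) := by
      rw [ha, hb, hmc, ← Real.log_div (by positivity) (by positivity)]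
      congr 1
      field_simp
    have h2 : b - a ≤ 1 / m := by
      rw [hba]
      refine (Real.log_le_sub_one_of_pos (by positivity)).trans (le_of_eq ?_)
      field_simp
      ring
    have h3 : 1 / ((m : ℝ) + 1) ≤ b - a := by
      rw [hba]
      refine le_trans (le_of_eq ?_) (Real.one_sub_inv_le_log_of_pos (by positivity))
      field_simp
      ring
    have h4 : (1 : ℝ) / m - 1 / (m + 1) ≤ 1 / (m : ℝ) ^ 2 := by
      rw [div_sub_div _ _ (by positivity) (by positivity), div_le_div_iff₀ (by positivity) (by positivity)]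
      nlinarith
    have h5 : ‖((b - a : ℝ) : ℂ) * kh u b - ((1 / ((m + 1 : ℕ) : ℝ) : ℝ) : ℂ) * kh u b‖ ≤ 1 / (m : ℝ) ^ 2 := by
      rw [← sub_mul, ← Complex.ofReal_sub, norm_mul, Complex.norm_real, kh_norm, Real.norm_eq_abs, hmc,
        abs_of_nonneg (by linarith)]
      have h6 := wt_le b
      have h7 := wt_nonneg b
      calc (b - a - 1 / ((m : ℝ) + 1)) * wt b ≤ (b - a - 1 / ((m : ℝ) + 1)) * 1 :=
            mul_le_mul_of_nonneg_left h6 (by linarith)
        _ ≤ _ := by linarith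
    have h6 : (b - a) ^ 2 ≤ 1 / (m : ℝ) ^ 2 := by
      rw [← one_div_pow]
      exact pow_le_pow_left₀ (by linarith) h2 2
    have h7 : ‖(∫ s in a..b, kh u s) - ((1 / ((m + 1 : ℕ) : ℝ) : ℝ) : ℂ) * kh u b‖ ≤
        (2 + |u|) * (1 / (m : ℝ) ^ 2) := by
      have h8 := norm_sub_le_norm_sub_add_norm_sub (∫ s in a..b, kh u s) (((b - a : ℝ) : ℂ) * kh u b)
        (((1 / ((m + 1 : ℕ) : ℝ) : ℝ) : ℂ) * kh u b)
      nlinarith
    refine h7.trans ?_
    have h9 : 1 / (m : ℝ) ^ 2 ≤ 36 / M ^ 2 := by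
      rw [div_le_div_iff₀ (by positivity) (by positivity)]
      nlinarith
    calc (2 + |u|) * (1 / (m : ℝ) ^ 2) ≤ (2 + |u|) * (36 / M ^ 2) :=
          mul_le_mul_of_nonneg_left h9 (by positivity)
      _ ≤ _ := by
        rw [mul_div_assoc', div_le_div_iff_of_pos_right (by positivity)]
        nlinarith

private theorem nj_exp {M u : ℝ} (hM : 0 < M) (m : ℕ) (hm : 1 ≤ m) :
    (wt (Real.log ((m : ℝ) / M)) : ℂ) * nj u m =
      Complex.exp (-((u * Real.log M : ℝ) : ℂ) * Complex.I) *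
        (((1 / (m : ℝ) : ℝ) : ℂ) * kh u (Real.log ((m : ℝ) / M))) := by
  have hm0 : (0 : ℝ) < m := by exact_mod_cast hm
  have h0 : (m : ℂ) ≠ 0 := by exact_mod_cast (by omega : m ≠ 0)
  rw [nj_eq u m hm, kh, Complex.cpow_def_of_ne_zero h0, ← Complex.natCast_log]
  have e1 : Complex.exp ((Real.log (m : ℝ) : ℂ) * -((u : ℂ) * Complex.I)) =
      Complex.exp (-((u * Real.log M : ℝ) : ℂ) * Complex.I) *
        Complex.exp (-((u * Real.log ((m : ℝ) / M) : ℝ) : ℂ) * Complex.I) := by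
    rw [← Complex.exp_add]
    congr 1
    rw [Real.log_div hm0.ne' hM.ne']
    push_cast
    ring
  rw [e1]
  push_cast
  ring

/-- the comparison of the sum and the integral -/
private theorem kn_small {M u : ℝ} (hM : 3 ≤ M) :
    ‖kw M u - Complex.exp (-((u * Real.log M : ℝ) : ℂ) * Complex.I) * mk u‖ ≤
      2400 * (2 + |u|) / M := by
  have hM0 : 0 < M := by linarith
  have hρ := kn_rho
  have hu := abs_nonneg u
  set N := ⌊60 * M⌋₊ with hN
  have hN1 : (N : ℝ) ≤ 60 * M := Nat.floor_le (by positivity)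
  have hN2 : 60 * M < N + 1 := Nat.lt_floor_add_one _
  have hN3 : 1 ≤ N := by
    have : (1 : ℝ) ≤ N := by linarith
    exact_mod_cast this
  obtain ⟨n, hn⟩ : ∃ n, N = n + 1 := ⟨N - 1, by omega⟩
  set a : ℕ → ℝ := fun k => Real.log (((k + 1 : ℕ) : ℝ) / M) with ha
  have h1 : kw M u = Complex.exp (-((u * Real.log M : ℝ) : ℂ) * Complex.I) *
      ∑ m ∈ Icc 1 N, (((1 / (m : ℝ) : ℝ) : ℂ) * kh u (Real.log ((m : ℝ) / M))) := by
    rw [kw, Finset.mul_sum]
    exact Finset.sum_congr rfl fun m hm => nj_exp hM0 m (Finset.mem_Icc.1 hm).1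
  have ha0 : a 0 ≤ -1 := by
    rw [ha]
    simp only [zero_add, Nat.cast_one, one_div]
    rw [Real.log_inv]
    have : 1 ≤ Real.log M := by
      rw [Real.le_log_iff_exp_le hM0]
      have := Real.exp_one_lt_d9
      linarith
    linarith
  have han : Real.log 20 + 1 ≤ a n := by
    have h2 : Real.log 20 + 1 = Real.log (20 * Real.exp 1) := by
      rw [Real.log_mul (by norm_num) (Real.exp_pos 1).ne', Real.log_exp]
    rw [ha, h2]
    refine Real.log_le_log (by positivity) ?_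
    rw [le_div_iff₀ hM0, ← hn]
    have h3 := Real.exp_one_lt_d9
    have h4 : 20 * Real.exp 1 * M ≤ 55 * M := by nlinarith
    linarith
  have h2 : ∑ m ∈ Icc 1 N, (((1 / (m : ℝ) : ℝ) : ℂ) * kh u (Real.log ((m : ℝ) / M))) =
      ∑ k ∈ range n, (((1 / ((k + 1 + 1 : ℕ) : ℝ) : ℝ) : ℂ) * kh u (a (k + 1))) := by
    have e1 : Icc 1 N = Ico 1 (n + 1 + 1) := by
      ext x
      simp only [Finset.mem_Icc, Finset.mem_Ico]
      omega
    rw [e1, Finset.sum_Ico_eq_sum_range, show n + 1 + 1 - 1 = n + 1 by omega, Finset.sum_range_succ']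
    have e2 : kh u (Real.log (((1 + 0 : ℕ) : ℝ) / M)) = 0 := by
      have : kh u (a 0) = 0 := by
        rw [kh, wt_zero_left ha0]
        simp
      rw [ha] at this
      simpa using this
    rw [e2, mul_zero, add_zero]
    refine Finset.sum_congr rfl fun k _ => ?_
    rw [ha]
    simp only
    rw [show 1 + (k + 1) = k + 1 + 1 by ring]
  have h3 : mk u = ∑ k ∈ range n, ∫ s in (a k)..(a (k + 1)), kh u s := by
    rw [intervalIntegral.sum_integral_adjacent_intervals (fun k _ => (kh_cont u).intervalIntegrable _ _)]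
    have hi : ∀ a b : ℝ, IntervalIntegrable (kh u) volume a b := fun a b =>
      (kh_cont u).intervalIntegrable a b
    have e1 : ∫ s in (a 0)..(-1), kh u s = 0 := by
      rw [intervalIntegral.integral_congr (g := fun _ => (0 : ℂ))]
      · simp
      · intro s hs
        rw [Set.uIcc_of_le ha0] at hs
        show kh u s = 0
        rw [kh, wt_zero_left hs.2]
        simp
    have e2 : ∫ s in (Real.log 20 + 1)..(a n), kh u s = 0 := by
      rw [intervalIntegral.integral_congr (g := fun _ => (0 : ℂ))]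
      · simp
      · intro s hs
        rw [Set.uIcc_of_le han] at hs
        show kh u s = 0
        rw [kh, wt_zero_right hs.1]
        simp
    have e3 := intervalIntegral.integral_add_adjacent_intervals (hi (a 0) (-1)) (hi (-1) (Real.log 20 + 1))
    have e4 := intervalIntegral.integral_add_adjacent_intervals (hi (a 0) (Real.log 20 + 1))
      (hi (Real.log 20 + 1) (a n))
    rw [← e4, ← e3, e1, e2, zero_add, add_zero]
    rfl
  rw [h1, ← mul_sub, norm_mul, kexp_norm, one_mul, h2, h3, ← Finset.sum_sub_distrib]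
  refine (norm_sum_le _ _).trans ?_
  have h4 : ∀ k ∈ range n, ‖((1 / ((k + 1 + 1 : ℕ) : ℝ) : ℝ) : ℂ) * kh u (a (k + 1)) -
      ∫ s in (a k)..(a (k + 1)), kh u s‖ ≤ 40 * (2 + |u|) / M ^ 2 := by
    intro k _
    rw [norm_sub_rev]
    exact kn_term hM (k + 1) (by omega)
  refine (Finset.sum_le_sum h4).trans ?_
  rw [Finset.sum_const, Finset.card_range, nsmul_eq_mul]
  have hnN : (n : ℝ) ≤ 60 * M := by
    have : (n : ℝ) ≤ N := by exact_mod_cast (by omega : n ≤ N)
    linarith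
  calc (n : ℝ) * (40 * (2 + |u|) / M ^ 2) ≤ 60 * M * (40 * (2 + |u|) / M ^ 2) :=
        mul_le_mul_of_nonneg_right hnN (by positivity)
    _ = 2400 * (2 + |u|) / M := by
      field_simp
      ring
/-- Abel summation -/
private theorem kn_abel (g : ℕ → ℝ) (z : ℕ → ℂ) (N0 N : ℕ) (h : N0 ≤ N) :
    ∑ m ∈ Ioc N0 N, (g m : ℂ) * z m = (g N : ℂ) * (∑ m ∈ Ioc N0 N, z m) +
      ∑ m ∈ Ico N0 N, ((g m - g (m + 1) : ℝ) : ℂ) * ∑ j ∈ Ioc N0 m, z j := by
  induction N, h using Nat.le_induction with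
  | base => simp
  | succ n hn ih =>
    rw [Finset.sum_Ioc_succ_top hn, ih, Finset.sum_Ioc_succ_top hn, Finset.sum_Ico_succ_top hn]
    push_cast
    ring

/-- sums over long intervals -/
private theorem kn_dyad {C c : ℝ} {K : ℕ} (hC : 0 < C) (hc : c ≤ 1 / 8)
    (hz : ∀ (N N' : ℕ) (t : ℝ), 1 ≤ N → N' ≤ 2 * N → (N : ℝ) ^ ((1 : ℝ) / 2) ≤ |t| →
      |t| ≤ (N : ℝ) ^ K → ‖∑ m ∈ Ioc N N', ni t m‖ ≤ C * (N : ℝ) ^ (1 - c))
    (N0 : ℕ) (u : ℝ) (h0 : 1 ≤ N0) (huK : |u| ≤ (N0 : ℝ) ^ K) (R : ℕ) (hR : (R : ℝ) ≤ u ^ 2) (k : ℕ) :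
    ∀ n, n ≤ 2 ^ k * N0 → n ≤ R →
      ‖∑ m ∈ Ioc N0 n, ni u m‖ ≤ k * (C * ((2 ^ k * N0 : ℕ) : ℝ) ^ (1 - c)) := by
  induction k with
  | zero =>
    intro n hn _
    rw [Finset.Ioc_eq_empty (by omega)]
    simp
  | succ k ih =>
    intro n hn hnR
    have hA1 : 1 ≤ 2 ^ k * N0 := Nat.one_le_iff_ne_zero.2 (by positivity)
    have hmono : ((2 ^ k * N0 : ℕ) : ℝ) ^ (1 - c) ≤ ((2 ^ (k + 1) * N0 : ℕ) : ℝ) ^ (1 - c) := by
      refine Real.rpow_le_rpow (by positivity) ?_ (by linarith)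
      have : 2 ^ k * N0 ≤ 2 ^ (k + 1) * N0 := Nat.mul_le_mul_right _ (Nat.pow_le_pow_right (by norm_num) (by omega))
      exact_mod_cast this
    have hpos : 0 ≤ C * ((2 ^ k * N0 : ℕ) : ℝ) ^ (1 - c) := by positivity
    have hstep : ((k : ℝ) + 1) * (C * ((2 ^ k * N0 : ℕ) : ℝ) ^ (1 - c)) ≤
        ((k + 1 : ℕ) : ℝ) * (C * ((2 ^ (k + 1) * N0 : ℕ) : ℝ) ^ (1 - c)) := by
      push_cast
      push_cast at hmono
      gcongr
    refine le_trans ?_ hstep
    by_cases hle : n ≤ 2 ^ k * N0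
    · refine (ih n hle hnR).trans ?_
      linarith
    · push Not at hle
      have hN0 : N0 ≤ 2 ^ k * N0 := Nat.le_mul_of_pos_left _ (by positivity)
      have e1 : ∑ m ∈ Ioc N0 n, ni u m = ∑ m ∈ Ioc N0 (2 ^ k * N0), ni u m +
          ∑ m ∈ Ioc (2 ^ k * N0) n, ni u m := by
        rw [← Finset.sum_union]
        · rw [Finset.Ioc_union_Ioc_eq_Ioc hN0 hle.le]
        · rw [Finset.disjoint_left]
          intro x hx hx'
          rw [Finset.mem_Ioc] at hx hx'
          omega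
      rw [e1]
      refine (norm_add_le _ _).trans ?_
      have h1 := ih (2 ^ k * N0) le_rfl (hle.le.trans hnR)
      have h2 := hz (2 ^ k * N0) n u hA1 (by rw [pow_succ] at hn; nlinarith) (by
        rw [← Real.sqrt_eq_rpow]
        rw [Real.sqrt_le_left (abs_nonneg u), sq_abs]
        refine le_trans ?_ hR
        exact_mod_cast (hle.le.trans hnR)) (by
        refine huK.trans ?_
        refine pow_le_pow_left₀ (by positivity) ?_ K
        exact_mod_cast hN0)
      linarith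

private theorem kn_g {M : ℝ} (hM : 0 < M) (m : ℕ) (hm : 1 ≤ m) :
    |wt (Real.log ((m : ℝ) / M)) / m - wt (Real.log (((m + 1 : ℕ) : ℝ) / M)) / ((m + 1 : ℕ) : ℝ)| ≤
      2 / (m : ℝ) ^ 2 := by
  have hm0 : (0 : ℝ) < m := by exact_mod_cast hm
  have hmc : (((m + 1 : ℕ) : ℝ)) = (m : ℝ) + 1 := by push_cast; ring
  rw [hmc]
  set A := wt (Real.log ((m : ℝ) / M)) with hA
  set B := wt (Real.log (((m : ℝ) + 1) / M)) with hB
  have h1 : |A - B| ≤ 1 / m := by
    refine (wt_lip _ _).trans ?_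
    rw [abs_sub_comm]
    have hba : Real.log (((m : ℝ) + 1) / M) - Real.log ((m : ℝ) / M) = Real.log (((m : ℝ) + 1) / m) := by
      rw [← Real.log_div (by positivity) (by positivity)]
      congr 1
      field_simp
    rw [hba, abs_of_nonneg (Real.log_nonneg (by rw [le_div_iff₀ hm0]; linarith))]
    refine (Real.log_le_sub_one_of_pos (by positivity)).trans (le_of_eq ?_)
    field_simp
    ring
  have h2 : A / m - B / ((m : ℝ) + 1) = (A - B) / m + B * (1 / m - 1 / ((m : ℝ) + 1)) := by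
    field_simp
    ring
  have h3 : (1 : ℝ) / m - 1 / (m + 1) ≤ 1 / (m : ℝ) ^ 2 := by
    rw [div_sub_div _ _ (by positivity) (by positivity), div_le_div_iff₀ (by positivity) (by positivity)]
    nlinarith
  have h4 : 0 ≤ (1 : ℝ) / m - 1 / (m + 1) := by
    rw [sub_nonneg]
    exact one_div_le_one_div_of_le hm0 (by linarith)
  have hB0 : 0 ≤ B := wt_nonneg _
  have hB1 : B ≤ 1 := wt_le _
  rw [h2]
  refine (abs_add_le _ _).trans ?_
  rw [abs_div, abs_of_pos hm0, abs_of_nonneg (mul_nonneg hB0 h4)]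
  have h5 : |A - B| / m ≤ 1 / (m : ℝ) ^ 2 := by
    rw [div_le_div_iff₀ hm0 (by positivity)]
    rw [le_div_iff₀ hm0] at h1
    nlinarith
  have h6 : B * (1 / m - 1 / ((m : ℝ) + 1)) ≤ 1 * (1 / (m : ℝ) ^ 2) :=
    mul_le_mul hB1 h3 h4 (by norm_num)
  calc _ ≤ 1 / (m : ℝ) ^ 2 + 1 * (1 / (m : ℝ) ^ 2) := add_le_add h5 h6
    _ = _ := by ring

private theorem kn_large {C c : ℝ} {K : ℕ} (hC : 0 < C) (hc0 : 0 < c) (hc : c ≤ 1 / 8)
    (hz : ∀ (N N' : ℕ) (t : ℝ), 1 ≤ N → N' ≤ 2 * N → (N : ℝ) ^ ((1 : ℝ) / 2) ≤ |t| →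
      |t| ≤ (N : ℝ) ^ (2 * (K + 1)) → ‖∑ m ∈ Ioc N N', ni t m‖ ≤ C * (N : ℝ) ^ (1 - c))
    {M u : ℝ} (hM : 36 ≤ M) (hu1 : 64 * M ≤ u ^ 2) (hu2 : |u| ≤ 2 * M ^ K) :
    ‖kw M u‖ ≤ 4326 * 4608 * C * M ^ (-c) := by
  have hM0 : 0 < M := by linarith
  set N0 := ⌊M / 3⌋₊ with hN0
  set R := ⌊60 * M⌋₊ with hR
  have hN1 : (N0 : ℝ) ≤ M / 3 := Nat.floor_le (by positivity)
  have hN2 : M / 6 ≤ N0 := by
    have : M / 3 < N0 + 1 := Nat.lt_floor_add_one _
    linarith
  have hN3 : 1 ≤ N0 := by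
    have : (1 : ℝ) ≤ N0 := by linarith
    exact_mod_cast this
  have hR1 : (R : ℝ) ≤ 60 * M := Nat.floor_le (by positivity)
  have hR2 : 60 * M < R + 1 := Nat.lt_floor_add_one _
  have hNR : N0 ≤ R := by
    have : (N0 : ℝ) ≤ R := by linarith
    exact_mod_cast this
  have hRN : R ≤ 2 ^ 9 * N0 := by
    have : (R : ℝ) ≤ ((2 ^ 9 * N0 : ℕ) : ℝ) := by push_cast; linarith
    exact_mod_cast this
  have huK : |u| ≤ (N0 : ℝ) ^ (2 * (K + 1)) := by
    refine hu2.trans ?_
    have h1 : M ≤ (N0 : ℝ) ^ 2 := by nlinarith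
    calc 2 * M ^ K ≤ M * M ^ K := mul_le_mul_of_nonneg_right (by linarith) (by positivity)
      _ = M ^ (K + 1) := by ring
      _ ≤ ((N0 : ℝ) ^ 2) ^ (K + 1) := pow_le_pow_left₀ hM0.le h1 _
      _ = _ := by rw [← pow_mul]
  set g : ℕ → ℝ := fun m => wt (Real.log ((m : ℝ) / M)) / m with hg
  have h1 : kw M u = ∑ m ∈ Ioc N0 R, (g m : ℂ) * ni u m := by
    have e1 : Icc 1 R = Ioc 0 R := by
      ext x
      simp only [Finset.mem_Icc, Finset.mem_Ioc]
      omega
    have e2 : ∑ m ∈ Ioc N0 R, (g m : ℂ) * ni u m = ∑ m ∈ Ioc 0 R, (g m : ℂ) * ni u m := by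
      refine Finset.sum_subset (Finset.Ioc_subset_Ioc (by omega) le_rfl) ?_
      intro m hm hm'
      rw [Finset.mem_Ioc] at hm hm'
      have hmN : m ≤ N0 := by omega
      have hm0 : (0 : ℝ) < m := by exact_mod_cast hm.1
      have hmM : (m : ℝ) ≤ M / 3 := le_trans (by exact_mod_cast hmN) hN1
      have : Real.log ((m : ℝ) / M) ≤ -1 := by
        rw [Real.log_le_iff_le_exp (by positivity), Real.exp_neg, div_le_iff₀ hM0]
        have h3 : (1 : ℝ) / 3 ≤ (Real.exp 1)⁻¹ := by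
          rw [one_div]
          exact (inv_le_inv₀ (by norm_num) (Real.exp_pos 1)).2 (by
            have := Real.exp_one_lt_d9
            linarith)
        nlinarith
      rw [hg]
      simp only
      rw [wt_zero_left this]
      simp
    rw [e2, kw, e1]
    refine Finset.sum_congr rfl fun m hm => ?_
    rw [Finset.mem_Ioc] at hm
    rw [nj_eq u m (by omega), hg, ni]
    push_cast
    ring
  have h2 : ∀ n, n ≤ R → ‖∑ m ∈ Ioc N0 n, ni u m‖ ≤ 9 * (C * ((2 ^ 9 * N0 : ℕ) : ℝ) ^ (1 - c)) := by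
    intro n hn
    have := kn_dyad hC hc hz N0 u hN3 huK R (by linarith) 9 n (hn.trans hRN) hn
    exact_mod_cast this
  set B := 9 * (C * ((2 ^ 9 * N0 : ℕ) : ℝ) ^ (1 - c)) with hB
  have hB0 : 0 ≤ B := by positivity
  have hB1 : B ≤ 4608 * C * M ^ (1 - c) := by
    have e1 : ((2 ^ 9 * N0 : ℕ) : ℝ) ^ (1 - c) ≤ 512 * M ^ (1 - c) := by
      calc ((2 ^ 9 * N0 : ℕ) : ℝ) ^ (1 - c) ≤ (512 * M) ^ (1 - c) := by
            refine Real.rpow_le_rpow (by positivity) ?_ (by linarith)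
            push_cast
            linarith
        _ = 512 ^ (1 - c) * M ^ (1 - c) := Real.mul_rpow (by norm_num) hM0.le
        _ ≤ 512 ^ (1 : ℝ) * M ^ (1 - c) := by
            refine mul_le_mul_of_nonneg_right ?_ (by positivity)
            exact Real.rpow_le_rpow_of_exponent_le (by norm_num) (by linarith)
        _ = _ := by rw [Real.rpow_one]
    calc B ≤ 9 * (C * (512 * M ^ (1 - c))) := by
          rw [hB]
          gcongr
      _ = _ := by ring
  rw [h1, kn_abel g _ N0 R hNR]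
  refine (norm_add_le _ _).trans ?_
  have h3 : ‖(g R : ℂ) * ∑ m ∈ Ioc N0 R, ni u m‖ ≤ 6 / M * B := by
    rw [norm_mul, Complex.norm_real]
    refine mul_le_mul ?_ (h2 R le_rfl) (norm_nonneg _) (by positivity)
    have hR0 : (0 : ℝ) < R := by
      have : (1 : ℝ) ≤ N0 := by exact_mod_cast hN3
      have : (N0 : ℝ) ≤ R := by exact_mod_cast hNR
      linarith
    rw [hg]
    simp only
    rw [Real.norm_of_nonneg (div_nonneg (wt_nonneg _) hR0.le)]
    rw [div_le_div_iff₀ hR0 hM0]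
    have := wt_le (Real.log ((R : ℝ) / M))
    have := wt_nonneg (Real.log ((R : ℝ) / M))
    nlinarith
  have h4 : ‖∑ m ∈ Ico N0 R, ((g m - g (m + 1) : ℝ) : ℂ) * ∑ j ∈ Ioc N0 m, ni u j‖ ≤ 4320 / M * B := by
    refine (norm_sum_le _ _).trans ?_
    have e1 : ∀ m ∈ Ico N0 R, ‖((g m - g (m + 1) : ℝ) : ℂ) * ∑ j ∈ Ioc N0 m, ni u j‖ ≤ 72 / M ^ 2 * B := by
      intro m hm
      rw [Finset.mem_Ico] at hm
      rw [norm_mul, Complex.norm_real, Real.norm_eq_abs]
      refine mul_le_mul ?_ (h2 m hm.2.le) (norm_nonneg _) (by positivity)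
      have hmR : M / 6 ≤ (m : ℝ) := hN2.trans (by exact_mod_cast hm.1)
      have hm0 : (0 : ℝ) < m := by linarith
      refine (kn_g hM0 m (by omega)).trans ?_
      rw [div_le_div_iff₀ (by positivity) (by positivity)]
      nlinarith
    refine (Finset.sum_le_sum e1).trans ?_
    rw [Finset.sum_const, Nat.card_Ico, nsmul_eq_mul]
    have e2 : ((R - N0 : ℕ) : ℝ) ≤ 60 * M := by
      refine le_trans ?_ hR1
      exact_mod_cast Nat.sub_le _ _
    calc ((R - N0 : ℕ) : ℝ) * (72 / M ^ 2 * B) ≤ 60 * M * (72 / M ^ 2 * B) :=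
          mul_le_mul_of_nonneg_right e2 (by positivity)
      _ = 4320 / M * B := by
        field_simp
        ring
  calc _ ≤ 6 / M * B + 4320 / M * B := add_le_add h3 h4
    _ = 4326 / M * B := by ring
    _ ≤ 4326 / M * (4608 * C * M ^ (1 - c)) := mul_le_mul_of_nonneg_left hB1 (by positivity)
    _ = _ := by
      rw [show (1 - c) = 1 + (-c) by ring, Real.rpow_add hM0, Real.rpow_one]
      field_simp

theorem kn (K : ℕ) (hK : 1 ≤ K) : ∃ c C : ℝ, 0 < c ∧ 0 < C ∧ ∀ X M u : ℝ, 1 ≤ X → X ^ (1 / (K : ℝ)) ≤ M → 3 ≤ M → |u| ≤ 2 * X →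
    ‖kw M u - Complex.exp (-((u * Real.log M : ℝ) : ℂ) * Complex.I) * mk u‖ ≤ C * X ^ (-c) := by
  obtain ⟨c, C, hc0, hc, hC, hz⟩ := zp (2 * (K + 1)) (by omega)
  have hK0 : (0 : ℝ) < K := by exact_mod_cast hK
  set D : ℝ := 4326 * 4608 * C + 30000 + 3000 * 36 with hD
  refine ⟨c / K, D, by positivity, by positivity, ?_⟩
  intro X M u hX hXM hM hu
  have hM0 : 0 < M := by linarith
  have hX0 : 0 < X := by linarith
  have hXK : X ≤ M ^ K := by
    have h1 := Real.rpow_le_rpow (z := (K : ℝ)) (by positivity) hXM hK0.le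
    rw [← Real.rpow_mul hX0.le, one_div, inv_mul_cancel₀ hK0.ne', Real.rpow_one, Real.rpow_natCast] at h1
    exact h1
  have hpow : M ^ (-c) ≤ X ^ (-(c / K)) := by
    have h1 : X ^ (-(c / K)) = (X ^ (1 / (K : ℝ))) ^ (-c) := by
      rw [← Real.rpow_mul hX0.le]
      congr 1
      field_simp
    rw [h1]
    exact Real.rpow_le_rpow_of_nonpos (by positivity) hXM (by linarith)
  suffices h : ‖kw M u - Complex.exp (-((u * Real.log M : ℝ) : ℂ) * Complex.I) * mk u‖ ≤ D * M ^ (-c) from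
    h.trans (mul_le_mul_of_nonneg_left hpow (by positivity))
  have hMc : 0 < M ^ (-c) := by positivity
  by_cases hsmall : u ^ 2 < 64 * M
  · -- small `u`
    refine (kn_small hM).trans ?_
    have hu8 : |u| ≤ 8 * Real.sqrt M := by
      have h1 : u ^ 2 ≤ (8 * Real.sqrt M) ^ 2 := by
        rw [mul_pow, Real.sq_sqrt hM0.le]
        linarith
      exact abs_le_of_sq_le_sq h1 (by positivity)
    have hs1 : 1 ≤ Real.sqrt M := by
      rw [Real.one_le_sqrt]
      linarith
    have h2 : 2400 * (2 + |u|) / M ≤ 24000 * (Real.sqrt M / M) := by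
      rw [mul_div_assoc', div_le_div_iff_of_pos_right hM0]
      linarith
    have h3 : Real.sqrt M / M = M ^ (-(1 / 2 : ℝ)) := by
      rw [Real.sqrt_eq_rpow, div_eq_iff hM0.ne']
      nth_rw 3 [← Real.rpow_one M]
      rw [← Real.rpow_add hM0]
      norm_num
    have h4 : M ^ (-(1 / 2 : ℝ)) ≤ M ^ (-c) :=
      Real.rpow_le_rpow_of_exponent_le (by linarith) (by linarith)
    rw [h3] at h2
    refine h2.trans ?_
    have h5 : (24000 : ℝ) ≤ D := by
      rw [hD]
      have : 0 ≤ 4326 * 4608 * C := by positivity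
      linarith
    calc 24000 * M ^ (-(1 / 2 : ℝ)) ≤ 24000 * M ^ (-c) := mul_le_mul_of_nonneg_left h4 (by norm_num)
      _ ≤ D * M ^ (-c) := mul_le_mul_of_nonneg_right h5 hMc.le
  · push Not at hsmall
    have hu0 : u ≠ 0 := by
      rintro rfl
      norm_num at hsmall
      linarith
    have hmk : ‖Complex.exp (-((u * Real.log M : ℝ) : ℂ) * Complex.I) * mk u‖ ≤ M ^ (-c) := by
      rw [norm_mul, kexp_norm, one_mul]
      refine (mk_sq hu0).trans ?_
      have h1 : 4 / u ^ 2 ≤ M ^ (-1 : ℝ) := by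
        rw [Real.rpow_neg_one, ← one_div, div_le_div_iff₀ (by positivity) hM0]
        linarith
      exact h1.trans (Real.rpow_le_rpow_of_exponent_le (by linarith) (by linarith))
    by_cases hM36 : 36 ≤ M
    · have h1 := kn_large hC hc0 hc hz hM36 hsmall (hu.trans (by linarith))
      refine (norm_sub_le _ _).trans ?_
      have h2 : 4326 * 4608 * C + 1 ≤ D := by
        rw [hD]
        linarith
      calc _ ≤ 4326 * 4608 * C * M ^ (-c) + M ^ (-c) := add_le_add h1 hmk
        _ = (4326 * 4608 * C + 1) * M ^ (-c) := by ring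
        _ ≤ _ := mul_le_mul_of_nonneg_right h2 hMc.le
    · push Not at hM36
      refine (norm_sub_le _ _).trans ?_
      have h1 : ‖kw M u‖ ≤ 60 * 36 := by
        rw [kw]
        refine (norm_sum_le _ _).trans ?_
        have e1 : ∀ m ∈ Icc 1 ⌊60 * M⌋₊, ‖(wt (Real.log ((m : ℝ) / M)) : ℂ) * nj u m‖ ≤ 1 := by
          intro m hm
          rw [Finset.mem_Icc] at hm
          rw [norm_mul, norm_nj u m hm.1, Complex.norm_real, Real.norm_of_nonneg (wt_nonneg _)]
          have hm1 : (1 : ℝ) ≤ m := by exact_mod_cast hm.1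
          have h3 : 1 / (m : ℝ) ≤ 1 := by
            rw [div_le_one (by linarith)]
            exact hm1
          exact mul_le_one₀ (wt_le _) (by positivity) h3
        refine (Finset.sum_le_sum e1).trans ?_
        rw [Finset.sum_const, Nat.card_Icc, nsmul_eq_mul, mul_one, Nat.add_sub_cancel]
        refine (Nat.floor_le (by positivity)).trans ?_
        linarith
      have h2 : (1 : ℝ) / 36 ≤ M ^ (-c) := by
        have h3 : M ^ (-1 : ℝ) ≤ M ^ (-c) :=
          Real.rpow_le_rpow_of_exponent_le (by linarith) (by linarith)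
        refine le_trans ?_ h3
        rw [Real.rpow_neg_one, ← one_div]
        exact one_div_le_one_div_of_le hM0 hM36.le
      have h3 : ‖kw M u‖ ≤ 60 * 36 * 36 * M ^ (-c) := by
        refine h1.trans ?_
        linarith
      have h4 : (60 * 36 * 36 + 1 : ℝ) ≤ D := by
        rw [hD]
        have : 0 ≤ 4326 * 4608 * C := by positivity
        linarith
      calc _ ≤ 60 * 36 * 36 * M ^ (-c) + M ^ (-c) := add_le_add h3 hmk
        _ = (60 * 36 * 36 + 1) * M ^ (-c) := by ring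
        _ ≤ _ := mul_le_mul_of_nonneg_right h4 hMc.le

end Pool.H2.MR
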