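import Pool.Agent.H2.MR.Kn
import Pool.Agent.H24.AB.Quad
import Pool.Agent.H24.AB.SLog

/-!
# [H2 MR KP] The kernel with Selberg's weights

`sw R m = (∑_{d ≤ R, d ∣ m} lam R d)²` (`H24.AB.lam`: Selberg's weights of level `R`, `lam_abs`, `lam_one`, `lam_big`).

PROOF. `sw R m = ∑_{e ≤ R², e ∣ m} cc R e` (expand the square, `d1 ∣ m` and `d2 ∣ m` iff `lcm ∣ m`; see `H24/AB/Quad.lean`, `cc`, `cc_sum`). The multiples
`m = e m'` of `e`: `wt(log(m/M)) nj u m = wt(log(m'/(M/e))) nj u e nj u m'`, so `kp M R u = ∑_{e≤R²} cc R e nj u e kw (M/e) u`. `kn` for `2K` gives `c1, C1`;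
`c = min(c1/8, 1/(8K))`, `R = ⌊X^c⌋₊`: `M/e ≥ X^(1/K)/R² ≥ X^(1/(2K))` and `≥ 3` for large `X`. Since
`nj u e exp(-iu log(M/e)) = exp(-iu log M)/e`: `kp = exp(-iu log M) mk u ∑_e cc R e/e + O(∑_e |cc R e|/e X^(-c1))`, `∑_e cc R e/e = 1/Ss R ≤ 1/log R ≤ (2/c)/log X`
(`cc_sum`, `log_le_Ss`, `R ≥ X^(c)/2`), `∑_e |cc R e|/e ≤ ∑_{d1,d2≤R} 1/lcm ≤ R²` (`lam_abs`), so the error is `≤ C1 X^(2c-c1) ≤ C1 X^(-c)`.
-/

namespace Pool.H2.MR

open Finset

noncomputable def sw (R m : ℕ) : ℝ := (∑ d ∈ (Icc 1 R).filter (fun d => d ∣ m), Pool.Agent.H24.AB.lam R d) ^ 2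

noncomputable def kp (M : ℝ) (R : ℕ) (u : ℝ) : ℂ :=
  ∑ m ∈ Icc 1 ⌊60 * M⌋₊, ((wt (Real.log ((m : ℝ) / M)) * sw R m : ℝ) : ℂ) * nj u m

theorem sw_prime (R p : ℕ) (hR : 1 ≤ R) (hp : p.Prime) (h : R < p) : sw R p = 1 := by
  have h3 : (Icc 1 R).filter (fun d => d ∣ p) = {1} := by
    ext d
    rw [mem_filter, mem_Icc, mem_singleton]
    constructor
    · rintro ⟨⟨_, hd2⟩, hd3⟩
      rcases (Nat.dvd_prime hp).mp hd3 with h | h
      · exact h
      · omega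
    · rintro rfl
      exact ⟨⟨le_refl _, hR⟩, one_dvd _⟩
  rw [sw, h3, sum_singleton, Pool.Agent.H24.AB.lam_one R hR]
  norm_num

private theorem kp_inner {M : ℝ} (hM : 0 < M) (u : ℝ) (e : ℕ) (he : 1 ≤ e) :
    ∑ m ∈ (Icc 1 ⌊60 * M⌋₊).filter (fun m => e ∣ m), (wt (Real.log ((m : ℝ) / M)) : ℂ) * nj u m =
      nj u e * kw (M / e) u := by
  have he0 : (0 : ℝ) < e := by exact_mod_cast he
  have h1 : (Icc 1 ⌊60 * M⌋₊).filter (fun m => e ∣ m) =
      (Icc 1 ⌊60 * (M / e)⌋₊).image (fun m => e * m) := by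
    have h2 : ⌊60 * (M / e)⌋₊ = ⌊60 * M⌋₊ / e := by
      rw [← Nat.floor_div_natCast]
      congr 1
      ring
    rw [h2]
    ext m
    simp only [mem_filter, mem_Icc, mem_image]
    constructor
    · rintro ⟨⟨h3, h4⟩, k, rfl⟩
      refine ⟨k, ⟨?_, ?_⟩, rfl⟩
      · rcases Nat.eq_zero_or_pos k with h | h
        · rw [h] at h3
          omega
        · exact h
      · rw [Nat.le_div_iff_mul_le (by omega)]
        rw [mul_comm]
        exact h4
    · rintro ⟨k, ⟨h3, h4⟩, rfl⟩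
      rw [Nat.le_div_iff_mul_le (by omega), mul_comm] at h4
      exact ⟨⟨Nat.one_le_iff_ne_zero.2 (by positivity), h4⟩, Dvd.intro _ rfl⟩
  rw [h1, Finset.sum_image (fun a _ b _ hab => Nat.eq_of_mul_eq_mul_left (by omega) hab), kw,
    Finset.mul_sum]
  refine Finset.sum_congr rfl fun k hk => ?_
  rw [mem_Icc] at hk
  rw [nj_mul u e k he hk.1]
  have h3 : ((e * k : ℕ) : ℝ) / M = (k : ℝ) / (M / e) := by
    push_cast
    field_simp
  rw [h3]
  ring

private theorem kp_expand {M : ℝ} (hM : 0 < M) (R : ℕ) (u : ℝ) :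
    kp M R u = ∑ d1 ∈ Icc 1 R, ∑ d2 ∈ Icc 1 R,
      ((Pool.Agent.H24.AB.lam R d1 * Pool.Agent.H24.AB.lam R d2 : ℝ) : ℂ) *
        (nj u (d1.lcm d2) * kw (M / (d1.lcm d2 : ℕ)) u) := by
  have h1 : ∀ d1 ∈ Icc 1 R, ∀ d2 ∈ Icc 1 R,
      ((Pool.Agent.H24.AB.lam R d1 * Pool.Agent.H24.AB.lam R d2 : ℝ) : ℂ) *
        (nj u (d1.lcm d2) * kw (M / (d1.lcm d2 : ℕ)) u) = ∑ m ∈ Icc 1 ⌊60 * M⌋₊,
        if d1 ∣ m then (if d2 ∣ m then
          ((Pool.Agent.H24.AB.lam R d1 * Pool.Agent.H24.AB.lam R d2 : ℝ) : ℂ) *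
            ((wt (Real.log ((m : ℝ) / M)) : ℂ) * nj u m) else 0) else 0 := by
    intro d1 hd1 d2 hd2
    rw [mem_Icc] at hd1 hd2
    rw [← kp_inner hM u (d1.lcm d2) (Nat.lcm_pos hd1.1 hd2.1), Finset.mul_sum, Finset.sum_filter]
    refine Finset.sum_congr rfl fun m _ => ?_
    by_cases h2 : d1 ∣ m <;> by_cases h3 : d2 ∣ m
    · rw [if_pos (Nat.lcm_dvd h2 h3), if_pos h2, if_pos h3]
    · rw [if_neg (fun h => h3 ((Nat.dvd_lcm_right _ _).trans h)), if_pos h2, if_neg h3]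
    · rw [if_neg (fun h => h2 ((Nat.dvd_lcm_left _ _).trans h)), if_neg h2]
    · rw [if_neg (fun h => h2 ((Nat.dvd_lcm_left _ _).trans h)), if_neg h2]
  rw [Finset.sum_congr rfl fun d1 hd1 => Finset.sum_congr rfl fun d2 hd2 => h1 d1 hd1 d2 hd2]
  have h2 : ∀ d1 ∈ Icc 1 R, (∑ d2 ∈ Icc 1 R, ∑ m ∈ Icc 1 ⌊60 * M⌋₊,
        if d1 ∣ m then (if d2 ∣ m then
          ((Pool.Agent.H24.AB.lam R d1 * Pool.Agent.H24.AB.lam R d2 : ℝ) : ℂ) *
            ((wt (Real.log ((m : ℝ) / M)) : ℂ) * nj u m) else 0) else 0) =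
      ∑ m ∈ Icc 1 ⌊60 * M⌋₊, ∑ d2 ∈ Icc 1 R,
        if d1 ∣ m then (if d2 ∣ m then
          ((Pool.Agent.H24.AB.lam R d1 * Pool.Agent.H24.AB.lam R d2 : ℝ) : ℂ) *
            ((wt (Real.log ((m : ℝ) / M)) : ℂ) * nj u m) else 0) else 0 := fun d1 _ => Finset.sum_comm
  rw [Finset.sum_congr rfl h2, Finset.sum_comm, kp]
  refine Finset.sum_congr rfl fun m _ => ?_
  rw [sw, sq, Finset.sum_mul_sum]
  push_cast
  rw [Finset.mul_sum, Finset.sum_mul, Finset.sum_filter]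
  refine Finset.sum_congr rfl fun d1 _ => ?_
  by_cases h3 : d1 ∣ m
  · simp only [if_pos h3]
    rw [Finset.mul_sum, Finset.sum_mul, Finset.sum_filter]
    refine Finset.sum_congr rfl fun d2 _ => ?_
    by_cases h4 : d2 ∣ m
    · simp only [if_pos h4]
      ring
    · simp only [if_neg h4]
  · simp only [if_neg h3]
    simp

private theorem kp_exp (x : ℝ) : ‖Complex.exp (-(x : ℂ) * Complex.I)‖ = 1 := by
  have := Complex.norm_exp_ofReal_mul_I (-x)
  rw [← this]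
  push_cast
  rfl

private theorem kp_nj {M u : ℝ} (hM : 0 < M) (e : ℕ) (he : 1 ≤ e) :
    nj u e * Complex.exp (-((u * Real.log (M / e) : ℝ) : ℂ) * Complex.I) =
      Complex.exp (-((u * Real.log M : ℝ) : ℂ) * Complex.I) * ((1 / (e : ℝ) : ℝ) : ℂ) := by
  have he0 : (0 : ℝ) < e := by exact_mod_cast he
  have h0 : (e : ℂ) ≠ 0 := by exact_mod_cast (by omega : e ≠ 0)
  rw [nj_eq u e he, Complex.cpow_def_of_ne_zero h0, ← Complex.natCast_log, div_mul_eq_mul_div,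
    ← Complex.exp_add]
  push_cast
  rw [mul_one_div]
  congr 2
  rw [Real.log_div hM.ne' he0.ne']
  push_cast
  ring

theorem kp_le (K : ℕ) (hK : 1 ≤ K) : ∃ c C X0 : ℝ, 0 < c ∧ c ≤ 1 / (4 * K) ∧ 0 < C ∧ 1 ≤ X0 ∧ ∀ X M u : ℝ, X0 ≤ X →
    X ^ (1 / (K : ℝ)) ≤ M → M ≤ 2 * X → |u| ≤ X →
    ‖kp M ⌊X ^ c⌋₊ u‖ ≤ C / Real.log X * (1 / (1 + u ^ 2)) + C * X ^ (-c) := by
  obtain ⟨c1, C1, hc1, hC1, hkn⟩ := kn (2 * K) (by omega)
  have hK0 : (0 : ℝ) < K := by exact_mod_cast hK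
  set c : ℝ := min (c1 / 8) (1 / (8 * K)) with hc
  have hc0 : 0 < c := lt_min (by positivity) (by positivity)
  have hcc1 : c ≤ c1 / 8 := min_le_left _ _
  have hcK : c ≤ 1 / (8 * K) := min_le_right _ _
  have hcK' : 1 / (8 * (K : ℝ)) ≤ 1 / (4 * K) :=
    one_div_le_one_div_of_le (by positivity) (by linarith)
  refine ⟨c, 16 / c + C1, max (9 ^ K) ((4 : ℝ) ^ (1 / c)), hc0, hcK.trans hcK', by positivity,
    (one_le_pow₀ (by norm_num)).trans (le_max_left _ _), ?_⟩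
  intro X M u hX hXM _ hu
  have hX9 : (9 : ℝ) ^ K ≤ X := (le_max_left _ _).trans hX
  have hX4 : (4 : ℝ) ^ (1 / c) ≤ X := (le_max_right _ _).trans hX
  have hX1 : 9 ≤ X := by
    refine le_trans ?_ hX9
    calc (9 : ℝ) = 9 ^ 1 := by norm_num
      _ ≤ 9 ^ K := pow_le_pow_right₀ (by norm_num) hK
  have hX0 : 0 < X := by linarith
  have hM0 : 0 < M := lt_of_lt_of_le (by positivity) hXM
  have hXc4 : 4 ≤ X ^ c := by
    have := Real.rpow_le_rpow (by positivity) hX4 hc0.le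
    rw [← Real.rpow_mul (by norm_num), one_div, inv_mul_cancel₀ hc0.ne', Real.rpow_one] at this
    exact this
  set R := ⌊X ^ c⌋₊ with hR
  have hR1 : (R : ℝ) ≤ X ^ c := Nat.floor_le (by positivity)
  have hR2 : X ^ c / 2 ≤ R := by
    have : X ^ c < R + 1 := Nat.lt_floor_add_one _
    linarith
  have hR3 : 1 ≤ R := by
    have : (1 : ℝ) ≤ R := by linarith
    exact_mod_cast this
  have hlogX : 0 < Real.log X := Real.log_pos (by linarith)
  have hlogR : c / 2 * Real.log X ≤ Real.log R := by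
    have h1 : Real.log (X ^ c / 2) ≤ Real.log R := Real.log_le_log (by positivity) hR2
    rw [Real.log_div (by positivity) (by norm_num), Real.log_rpow hX0] at h1
    have h2 : Real.log 4 ≤ c * Real.log X := by
      have := Real.log_le_log (by norm_num) hXc4
      rwa [Real.log_rpow hX0] at this
    have h3 : Real.log 4 = 2 * Real.log 2 := by
      rw [show (4 : ℝ) = 2 ^ 2 by norm_num, Real.log_pow]
      push_cast
      ring
    linarith
  have hSs : c / 2 * Real.log X ≤ Pool.Agent.H24.AB.Ss R :=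
    hlogR.trans (Pool.Agent.H24.AB.log_le_Ss R hR3)
  have hSs0 : 0 < Pool.Agent.H24.AB.Ss R := lt_of_lt_of_le (by positivity) hSs
  -- one term
  have hterm : ∀ d1 ∈ Icc 1 R, ∀ d2 ∈ Icc 1 R,
      ‖nj u (d1.lcm d2) * kw (M / (d1.lcm d2 : ℕ)) u -
        Complex.exp (-((u * Real.log M : ℝ) : ℂ) * Complex.I) * mk u *
          ((1 / ((d1.lcm d2 : ℕ) : ℝ) : ℝ) : ℂ)‖ ≤ C1 * X ^ (-c1) := by
    intro d1 hd1 d2 hd2
    rw [mem_Icc] at hd1 hd2
    set e := d1.lcm d2 with he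
    have he1 : 1 ≤ e := Nat.lcm_pos hd1.1 hd2.1
    have he0 : (0 : ℝ) < e := by exact_mod_cast he1
    have he2 : e ≤ R ^ 2 := by
      calc e ≤ d1 * d2 := Nat.le_of_dvd (Nat.mul_pos (by omega) (by omega)) (Nat.lcm_dvd_mul _ _)
        _ ≤ R * R := Nat.mul_le_mul hd1.2 hd2.2
        _ = R ^ 2 := by ring
    have he3 : (e : ℝ) ≤ X ^ (2 * c) := by
      calc (e : ℝ) ≤ (R : ℝ) ^ 2 := by exact_mod_cast he2
        _ ≤ (X ^ c) ^ 2 := pow_le_pow_left₀ (by positivity) hR1 2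
        _ = X ^ (2 * c) := by
          rw [← Real.rpow_natCast, ← Real.rpow_mul hX0.le]
          congr 1
          push_cast
          ring
    have hMe : X ^ (1 / ((2 * K : ℕ) : ℝ)) ≤ M / e := by
      rw [le_div_iff₀ he0]
      refine le_trans ?_ hXM
      calc X ^ (1 / ((2 * K : ℕ) : ℝ)) * e ≤ X ^ (1 / ((2 * K : ℕ) : ℝ)) * X ^ (2 * c) :=
            mul_le_mul_of_nonneg_left he3 (by positivity)
        _ = X ^ (1 / ((2 * K : ℕ) : ℝ) + 2 * c) := by rw [← Real.rpow_add hX0]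
        _ ≤ X ^ (1 / (K : ℝ)) := by
          refine Real.rpow_le_rpow_of_exponent_le (by linarith) ?_
          push_cast
          have h1 : 2 * c ≤ 2 * (1 / (8 * K)) := by linarith
          have h2 : 1 / (2 * (K : ℝ)) + 2 * (1 / (8 * K)) ≤ 1 / K := by
            have : 1 / (2 * (K : ℝ)) + 2 * (1 / (8 * K)) = (3 / 4) * (1 / K) := by
              field_simp
              ring
            rw [this]
            have : 0 < 1 / (K : ℝ) := by positivity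
            linarith
          linarith
    have hM3 : 3 ≤ M / e := by
      refine le_trans ?_ hMe
      have h1 : ((9 : ℝ) ^ K) ^ (1 / ((2 * K : ℕ) : ℝ)) ≤ X ^ (1 / ((2 * K : ℕ) : ℝ)) :=
        Real.rpow_le_rpow (by positivity) hX9 (by positivity)
      have h2 : ((9 : ℝ) ^ K) ^ (1 / ((2 * K : ℕ) : ℝ)) = 3 := by
        rw [← Real.rpow_natCast, ← Real.rpow_mul (by norm_num),
          show (9 : ℝ) = 3 ^ (2 : ℝ) by norm_num, ← Real.rpow_mul (by norm_num)]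
        have : 2 * ((K : ℝ) * (1 / ((2 * K : ℕ) : ℝ))) = 1 := by
          push_cast
          field_simp
        rw [this, Real.rpow_one]
      linarith
    have h1 := hkn X (M / e) u (by linarith) hMe hM3 (by linarith)
    have h2 : nj u e * kw (M / e) u -
        Complex.exp (-((u * Real.log M : ℝ) : ℂ) * Complex.I) * mk u * ((1 / (e : ℝ) : ℝ) : ℂ) =
        nj u e * (kw (M / e) u -
          Complex.exp (-((u * Real.log (M / e) : ℝ) : ℂ) * Complex.I) * mk u) := by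
      rw [mul_sub, ← mul_assoc (nj u e), kp_nj hM0 e he1]
      ring
    rw [h2, norm_mul, norm_nj u e he1]
    have h3 : 1 / (e : ℝ) ≤ 1 := by
      rw [div_le_one he0]
      exact_mod_cast he1
    calc 1 / (e : ℝ) * _ ≤ 1 * (C1 * X ^ (-c1)) :=
          mul_le_mul h3 h1 (norm_nonneg _) (by norm_num)
      _ = _ := one_mul _
  -- the main term
  have hmain : ∑ d1 ∈ Icc 1 R, ∑ d2 ∈ Icc 1 R,
      ((Pool.Agent.H24.AB.lam R d1 * Pool.Agent.H24.AB.lam R d2 : ℝ) : ℂ) *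
        (Complex.exp (-((u * Real.log M : ℝ) : ℂ) * Complex.I) * mk u *
          ((1 / ((d1.lcm d2 : ℕ) : ℝ) : ℝ) : ℂ)) =
      Complex.exp (-((u * Real.log M : ℝ) : ℂ) * Complex.I) * mk u *
        ((1 / Pool.Agent.H24.AB.Ss R : ℝ) : ℂ) := by
    rw [← Pool.Agent.H24.AB.quad R hR3]
    push_cast
    rw [Finset.mul_sum]
    refine Finset.sum_congr rfl fun d1 _ => ?_
    rw [Finset.mul_sum]
    refine Finset.sum_congr rfl fun d2 _ => ?_
    ring
  have herr : ‖kp M R u - Complex.exp (-((u * Real.log M : ℝ) : ℂ) * Complex.I) * mk u *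
        ((1 / Pool.Agent.H24.AB.Ss R : ℝ) : ℂ)‖ ≤ (R : ℝ) ^ 2 * (C1 * X ^ (-c1)) := by
    rw [kp_expand hM0, ← hmain, ← Finset.sum_sub_distrib]
    refine (norm_sum_le _ _).trans ?_
    have h1 : ∀ d1 ∈ Icc 1 R, ‖(∑ d2 ∈ Icc 1 R,
        ((Pool.Agent.H24.AB.lam R d1 * Pool.Agent.H24.AB.lam R d2 : ℝ) : ℂ) *
        (nj u (d1.lcm d2) * kw (M / (d1.lcm d2 : ℕ)) u)) - ∑ d2 ∈ Icc 1 R,
        ((Pool.Agent.H24.AB.lam R d1 * Pool.Agent.H24.AB.lam R d2 : ℝ) : ℂ) *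
        (Complex.exp (-((u * Real.log M : ℝ) : ℂ) * Complex.I) * mk u *
          ((1 / ((d1.lcm d2 : ℕ) : ℝ) : ℝ) : ℂ))‖ ≤ R * (C1 * X ^ (-c1)) := by
      intro d1 hd1
      rw [← Finset.sum_sub_distrib]
      refine (norm_sum_le _ _).trans ?_
      have h2 : ∀ d2 ∈ Icc 1 R, ‖((Pool.Agent.H24.AB.lam R d1 * Pool.Agent.H24.AB.lam R d2 : ℝ) : ℂ) *
          (nj u (d1.lcm d2) * kw (M / (d1.lcm d2 : ℕ)) u) -
          ((Pool.Agent.H24.AB.lam R d1 * Pool.Agent.H24.AB.lam R d2 : ℝ) : ℂ) *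
          (Complex.exp (-((u * Real.log M : ℝ) : ℂ) * Complex.I) * mk u *
          ((1 / ((d1.lcm d2 : ℕ) : ℝ) : ℝ) : ℂ))‖ ≤ C1 * X ^ (-c1) := by
        intro d2 hd2
        rw [← mul_sub, norm_mul, Complex.norm_real, Real.norm_eq_abs, abs_mul]
        have h3 := Pool.Agent.H24.AB.lam_abs R d1 hR3
        have h4 := Pool.Agent.H24.AB.lam_abs R d2 hR3
        have h5 : |Pool.Agent.H24.AB.lam R d1| * |Pool.Agent.H24.AB.lam R d2| ≤ 1 :=
          mul_le_one₀ h3 (abs_nonneg _) h4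
        calc _ ≤ 1 * (C1 * X ^ (-c1)) :=
              mul_le_mul h5 (hterm d1 hd1 d2 hd2) (norm_nonneg _) (by norm_num)
          _ = _ := one_mul _
      refine (Finset.sum_le_sum h2).trans (le_of_eq ?_)
      rw [Finset.sum_const, Nat.card_Icc, nsmul_eq_mul, Nat.add_sub_cancel]
    refine (Finset.sum_le_sum h1).trans (le_of_eq ?_)
    rw [Finset.sum_const, Nat.card_Icc, nsmul_eq_mul, Nat.add_sub_cancel]
    ring
  have h1 : ‖Complex.exp (-((u * Real.log M : ℝ) : ℂ) * Complex.I) * mk u *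
        ((1 / Pool.Agent.H24.AB.Ss R : ℝ) : ℂ)‖ ≤ 16 / c / Real.log X * (1 / (1 + u ^ 2)) := by
    rw [norm_mul, norm_mul, kp_exp, one_mul, Complex.norm_real, Real.norm_of_nonneg (by positivity)]
    have h2 := mk_le u
    have h3 : 1 / Pool.Agent.H24.AB.Ss R ≤ 1 / (c / 2 * Real.log X) :=
      one_div_le_one_div_of_le (by positivity) hSs
    calc ‖mk u‖ * (1 / Pool.Agent.H24.AB.Ss R) ≤ 8 / (1 + u ^ 2) * (1 / (c / 2 * Real.log X)) :=
          mul_le_mul h2 h3 (by positivity) (by positivity)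
      _ = _ := by
        field_simp
        ring
  have h2 : (R : ℝ) ^ 2 * (C1 * X ^ (-c1)) ≤ C1 * X ^ (-c) := by
    have h3 : (R : ℝ) ^ 2 ≤ X ^ (2 * c) := by
      calc (R : ℝ) ^ 2 ≤ (X ^ c) ^ 2 := pow_le_pow_left₀ (by positivity) hR1 2
        _ = X ^ (2 * c) := by
          rw [← Real.rpow_natCast, ← Real.rpow_mul hX0.le]
          congr 1
          push_cast
          ring
    calc (R : ℝ) ^ 2 * (C1 * X ^ (-c1)) ≤ X ^ (2 * c) * (C1 * X ^ (-c1)) :=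
          mul_le_mul_of_nonneg_right h3 (by positivity)
      _ = C1 * X ^ (2 * c + -c1) := by
        rw [Real.rpow_add hX0]
        ring
      _ ≤ C1 * X ^ (-c) := by
        refine mul_le_mul_of_nonneg_left ?_ hC1.le
        exact Real.rpow_le_rpow_of_exponent_le (by linarith) (by linarith)
  have h3 := norm_le_norm_add_norm_sub' (kp M R u)
    (Complex.exp (-((u * Real.log M : ℝ) : ℂ) * Complex.I) * mk u *
        ((1 / Pool.Agent.H24.AB.Ss R : ℝ) : ℂ))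
  have h4 : 16 / c / Real.log X * (1 / (1 + u ^ 2)) ≤ (16 / c + C1) / Real.log X * (1 / (1 + u ^ 2)) := by
    refine mul_le_mul_of_nonneg_right ?_ (by positivity)
    exact div_le_div_of_nonneg_right (by linarith) hlogX.le
  have h5 : C1 * X ^ (-c) ≤ (16 / c + C1) * X ^ (-c) := by
    refine mul_le_mul_of_nonneg_right ?_ (by positivity)
    have : 0 < 16 / c := by positivity
    linarith
  linarith

end Pool.H2.MR
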