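import Pool.Agent.H2.MR.Defs

/-!
# [H2 MR PIN] The levels and the parameter inequality

`pj B j = B^(2^(j-1))`, `qj A B j = A^(2^j) B^(2^(j-1))`, `hj Hs j = 2^j Hs`, `aj = hj pj`, `bj = hj qj`, `alj α j = α (1 - 2^(-j))`.

PROOF of `pin`. Put `w = 2^(j-1) ≥ 1`, `y = B^w`. Then `pj j = y`, `qj j = A^(2w) y`, `pj (j+1) = y²`, `qj (j+1) = A^(4w) y²`, `hj j = 2wHs`,
`hj (j+1) = 4wHs`, `alj (j+1) - alj j = α/(4w)`, `ℓ = qj(j+1)/pj(j) + 1 = A^(4w) y + 1`. Take `B ≥ A^16`: `A^(4w) ≤ y^(1/4)` (real power), and `w ≤ y`,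
`2^w ≤ y`, so `w ≤ log y/log 2 ≤ 2 log y`. The logarithm of the left side is at most
`2 log(4wHs y^(9/4)) + log(2wHs y^(5/4)) - (α/(2w)) y² + 3 y^(5/4) + 2(y^(5/4)+1) + (2y^(5/4)+3) log(y^(5/4)+2)`
`≤ g(y) := 6 log(4 Hs y^4) - (α/(4 log y)) y² + 5 y^(5/4) + 2 + (2y^(5/4)+3) log(y^(5/4)+2)`
and `log(ε 2^(-j)) = log ε - log(2w) ≥ log ε - log(2y)`. Since `g(y) + log(2y) → -∞` as `y → ∞` (`y²/log y` dominates; e.g. `log y ≤ y^(1/4)·4`),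
there is `y0` with `g(y) ≤ log ε - log(2y)` for `y ≥ y0`; `B0 = max(A^16, ⌈y0⌉, 3)`, as `y ≥ B`.
`pj_succ`, `qj_mono`, `pj_le_qj`, `two_pow_le`: immediate (`A ≥ 2`, `B ≥ 1`; `2^j ≤ 2^(2^j) ≤ A^(2^j)`).
-/

namespace Pool.H2.MR

open Finset

def pj (B j : ℕ) : ℕ := B ^ (2 ^ (j - 1))

def qj (A B j : ℕ) : ℕ := A ^ (2 ^ j) * B ^ (2 ^ (j - 1))

def hj (Hs j : ℕ) : ℕ := 2 ^ j * Hs

def aj (Hs B j : ℕ) : ℕ := hj Hs j * pj B j

def bj (Hs A B j : ℕ) : ℕ := hj Hs j * qj A B j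

noncomputable def alj (α : ℝ) (j : ℕ) : ℝ := α * (1 - (1 / 2) ^ j)

theorem pj_succ (B j : ℕ) (hj : 1 ≤ j) : pj B (j + 1) = pj B j ^ 2 := by
  unfold pj
  rw [← pow_mul, Nat.add_sub_cancel, ← pow_succ, Nat.sub_add_cancel hj]

theorem qj_mono (A B : ℕ) (hA : 2 ≤ A) (hB : 1 ≤ B) : Monotone (qj A B) := by
  intro i j hij
  unfold qj
  have h1 : A ^ 2 ^ i ≤ A ^ 2 ^ j :=
    Nat.pow_le_pow_right (by omega) (Nat.pow_le_pow_right (by norm_num) hij)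
  have h2 : B ^ 2 ^ (i - 1) ≤ B ^ 2 ^ (j - 1) :=
    Nat.pow_le_pow_right (by omega) (Nat.pow_le_pow_right (by norm_num) (by omega))
  exact Nat.mul_le_mul h1 h2

theorem pj_lt_qj (A B j : ℕ) (hA : 2 ≤ A) (hB : 1 ≤ B) : pj B j < qj A B j := by
  unfold pj qj
  have h1 : 1 < A ^ 2 ^ j := Nat.one_lt_pow (by positivity) (by omega)
  have h2 : 0 < B ^ 2 ^ (j - 1) := Nat.pow_pos (by omega)
  exact lt_mul_of_one_lt_left h2 h1

theorem two_pow_le_qj (A B j : ℕ) (hA : 2 ≤ A) (hB : 1 ≤ B) : 2 ^ j ≤ qj A B j := by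
  unfold qj
  have h1 : 2 ^ j ≤ A ^ 2 ^ j :=
    le_trans (Nat.lt_two_pow_self (n := 2 ^ j)).le (Nat.pow_le_pow_left hA _)
  have h2 : 1 ≤ B ^ 2 ^ (j - 1) := Nat.pow_pos (by omega)
  calc 2 ^ j ≤ A ^ 2 ^ j := h1
    _ = A ^ 2 ^ j * 1 := (mul_one _).symm
    _ ≤ A ^ 2 ^ j * B ^ 2 ^ (j - 1) := Nat.mul_le_mul_left _ h2

theorem pin (α ε : ℝ) (Hs A : ℕ) (hα : 0 < α) (hε : 0 < ε) (hH : 1 ≤ Hs) (hA : 2 ≤ A) : ∃ B0 : ℕ, ∀ B : ℕ, B0 ≤ B →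
    ∀ j : ℕ, 1 ≤ j → ∀ ℓ : ℝ, ℓ = (qj A B (j + 1) : ℝ) / pj B j + 1 →
    ((bj Hs A B (j + 1) : ℝ) - aj Hs B (j + 1)) ^ 2 * ((bj Hs A B j : ℝ) - aj Hs B j) *
      Real.exp (-(2 * (alj α (j + 1) - alj α j) * (pj B (j + 1) : ℝ)) + 3 * (qj A B j : ℝ) + 2 * ℓ +
        (2 * ℓ + 1) * Real.log (ℓ + 1)) ≤ ε * (1 / 2) ^ j := by
  have hHr : (1 : ℝ) ≤ Hs := by exact_mod_cast hH
  obtain ⟨x0, hx0⟩ : ∃ x0 : ℝ, x0 = max 1 (max (170 / α) (Real.log (64 * (Hs : ℝ) ^ 3 / ε))) := ⟨_, rfl⟩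
  have hx1 : 1 ≤ x0 := by rw [hx0]; exact le_max_left _ _
  have hx2 : 170 / α ≤ x0 := by rw [hx0]; exact le_trans (le_max_left _ _) (le_max_right _ _)
  have hx3 : Real.log (64 * (Hs : ℝ) ^ 3 / ε) ≤ x0 := by
    rw [hx0]; exact le_trans (le_max_right _ _) (le_max_right _ _)
  refine ⟨max (A ^ 16) (max ⌈x0 ^ 4⌉₊ 1), ?_⟩
  intro B hB j hj ℓ hℓ
  have hB1 : A ^ 16 ≤ B := le_trans (le_max_left _ _) hB
  have hB2 : ⌈x0 ^ 4⌉₊ ≤ B := le_trans (le_trans (le_max_left _ _) (le_max_right _ _)) hB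
  have hB3 : 1 ≤ B := le_trans (le_trans (le_max_right _ _) (le_max_right _ _)) hB
  have hB4 : x0 ^ 4 ≤ (B : ℝ) := (Nat.le_ceil _).trans (by exact_mod_cast hB2)
  have hBr : (1 : ℝ) ≤ B := by exact_mod_cast hB3
  have hAr : (2 : ℝ) ≤ A := by exact_mod_cast hA
  obtain ⟨w, hw⟩ : ∃ w : ℕ, w = 2 ^ (j - 1) := ⟨_, rfl⟩
  have hw1 : 1 ≤ w := by rw [hw]; exact Nat.pow_pos (by norm_num)
  have hj2 : 2 ^ j = 2 * w := by
    rw [hw, ← pow_succ']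
    congr 1
    omega
  obtain ⟨y, hy⟩ : ∃ y : ℝ, y = (B : ℝ) ^ w := ⟨_, rfl⟩
  obtain ⟨z, hz⟩ : ∃ z : ℝ, z = (A : ℝ) ^ (4 * w) := ⟨_, rfl⟩
  have hz4 : z ^ 4 ≤ y := by
    rw [hz, hy, ← pow_mul, show 4 * w * 4 = 16 * w by ring, pow_mul]
    apply pow_le_pow_left₀ (by positivity)
    exact_mod_cast hB1
  have hz1 : 1 ≤ z := by rw [hz]; exact one_le_pow₀ (by linarith)
  have hyB : (B : ℝ) ≤ y := by
    rw [hy]
    calc (B : ℝ) = (B : ℝ) ^ 1 := (pow_one _).symm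
      _ ≤ (B : ℝ) ^ w := pow_le_pow_right₀ hBr hw1
  have hy1 : 1 ≤ y := hBr.trans hyB
  have hwz : (w : ℝ) ≤ z := by
    have h1 : (w : ℝ) ≤ (2 : ℝ) ^ w := by exact_mod_cast (Nat.lt_two_pow_self (n := w)).le
    have h2 : (2 : ℝ) ^ w ≤ (A : ℝ) ^ w := pow_le_pow_left₀ (by norm_num) hAr _
    have h3 : (A : ℝ) ^ w ≤ (A : ℝ) ^ (4 * w) := pow_le_pow_right₀ (by linarith) (by omega)
    rw [hz]
    linarith
  have hA2 : (A : ℝ) ^ (2 * w) ≤ z := by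
    rw [hz]
    exact pow_le_pow_right₀ (by linarith) (by omega)
  have hwr : (1 : ℝ) ≤ w := by exact_mod_cast hw1
  -- the fourth root
  obtain ⟨x, hx, hxy⟩ : ∃ x : ℝ, 0 ≤ x ∧ x ^ 4 = y := by
    refine ⟨y ^ ((1 : ℝ) / 4), Real.rpow_nonneg (by linarith) _, ?_⟩
    rw [← Real.rpow_natCast, ← Real.rpow_mul (by linarith)]
    norm_num
  have hx0x : x0 ≤ x := by
    by_contra hc
    push Not at hc
    have h1 : x ^ 4 < x0 ^ 4 := pow_lt_pow_left₀ hc hx (by norm_num)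
    linarith
  have hzx : z ≤ x := by
    by_contra hc
    push Not at hc
    have h1 : x ^ 4 < z ^ 4 := pow_lt_pow_left₀ hc hx (by norm_num)
    linarith
  have hx1' : 1 ≤ x := hx1.trans hx0x
  -- values
  have e1 : (pj B j : ℝ) = y := by unfold pj; push_cast; rw [hy, hw]
  have e2 : (qj A B j : ℝ) = (A : ℝ) ^ (2 * w) * y := by
    unfold qj; push_cast; rw [hy, hj2, hw]
  have e3 : (pj B (j + 1) : ℝ) = y ^ 2 := by
    rw [pj_succ B j hj]; push_cast; rw [e1]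
  have e4 : (qj A B (j + 1) : ℝ) = z * y ^ 2 := by
    unfold qj
    push_cast
    rw [pow_succ 2 j, hj2, hz, hy, ← pow_mul]
    congr 2
    · ring
    · ring
  have e5 : (Pool.H2.MR.hj Hs j : ℝ) = 2 * w * Hs := by
    unfold Pool.H2.MR.hj
    rw [hj2]; push_cast; ring
  have e6 : (Pool.H2.MR.hj Hs (j + 1) : ℝ) = 4 * w * Hs := by
    unfold Pool.H2.MR.hj
    rw [pow_succ 2 j, hj2]; push_cast; ring
  have e7 : alj α (j + 1) - alj α j = α / (4 * w) := by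
    unfold alj
    have h1 : ((1 : ℝ) / 2) ^ j = 1 / (2 * w) := by
      rw [one_div_pow]
      congr 1
      exact_mod_cast hj2
    rw [pow_succ, h1]
    field_simp
    ring
  have e8 : ℓ = z * y + 1 := by
    rw [hℓ, e1, e4]
    field_simp
  have e9 : ε * (1 / 2) ^ j = ε / (2 * w) := by
    have h1 : ((1 : ℝ) / 2) ^ j = 1 / (2 * w) := by
      rw [one_div_pow]
      congr 1
      exact_mod_cast hj2
    rw [h1]
    ring
  have b1 : (bj Hs A B (j + 1) : ℝ) - aj Hs B (j + 1) ≤ 4 * Hs * x ^ 10 := by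
    unfold bj aj
    push_cast
    rw [e6, e3, e4]
    have h1 : (w : ℝ) * z ≤ x * x := mul_le_mul (hwz.trans hzx) hzx (by linarith) hx
    have h2 : 0 ≤ 4 * (w : ℝ) * Hs * y ^ 2 := by positivity
    have h3 : 4 * (w : ℝ) * Hs * (z * y ^ 2) = 4 * Hs * ((w : ℝ) * z) * y ^ 2 := by ring
    have h4 : 4 * (Hs : ℝ) * ((w : ℝ) * z) * y ^ 2 ≤ 4 * Hs * (x * x) * y ^ 2 := by
      apply mul_le_mul_of_nonneg_right _ (by positivity)
      exact mul_le_mul_of_nonneg_left h1 (by positivity)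
    have h5 : 4 * (Hs : ℝ) * (x * x) * y ^ 2 = 4 * Hs * x ^ 10 := by rw [← hxy]; ring
    linarith
  have b1' : 0 ≤ (bj Hs A B (j + 1) : ℝ) - aj Hs B (j + 1) := by
    unfold bj aj
    push_cast
    rw [← mul_sub]
    apply mul_nonneg (by positivity)
    rw [sub_nonneg]
    exact_mod_cast (pj_lt_qj A B (j + 1) hA hB3).le
  have b2 : (bj Hs A B j : ℝ) - aj Hs B j ≤ 2 * Hs * x ^ 6 := by
    unfold bj aj
    push_cast
    rw [e5, e1, e2]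
    have h0 : (w : ℝ) * (A : ℝ) ^ (2 * w) ≤ x * x := mul_le_mul (hwz.trans hzx) (hA2.trans hzx) (by positivity) hx
    have h2 : 0 ≤ 2 * (w : ℝ) * Hs * y := by positivity
    have h3 : 2 * (w : ℝ) * Hs * ((A : ℝ) ^ (2 * w) * y) = 2 * Hs * ((w : ℝ) * (A : ℝ) ^ (2 * w)) * y := by ring
    have h4 : 2 * (Hs : ℝ) * ((w : ℝ) * (A : ℝ) ^ (2 * w)) * y ≤ 2 * Hs * (x * x) * y := by
      apply mul_le_mul_of_nonneg_right _ (by positivity)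
      exact mul_le_mul_of_nonneg_left h0 (by positivity)
    have h5 : 2 * (Hs : ℝ) * (x * x) * y = 2 * Hs * x ^ 6 := by rw [← hxy]; ring
    linarith
  have b2' : 0 ≤ (bj Hs A B j : ℝ) - aj Hs B j := by
    unfold bj aj
    push_cast
    rw [← mul_sub]
    apply mul_nonneg (by positivity)
    rw [sub_nonneg]
    exact_mod_cast (pj_lt_qj A B j hA hB3).le
  have hzy : z * y ≤ x ^ 5 := by
    rw [← hxy]
    calc z * x ^ 4 ≤ x * x ^ 4 := mul_le_mul_of_nonneg_right hzx (by positivity)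
      _ = x ^ 5 := by ring
  have hx6 : 1 ≤ x ^ 6 := one_le_pow₀ hx1'
  have hx56 : x ^ 5 ≤ x ^ 6 := pow_le_pow_right₀ hx1' (by norm_num)
  have hx5 : 1 ≤ x ^ 5 := one_le_pow₀ hx1'
  have hx16 : x ≤ x ^ 6 := by
    calc x = x ^ 1 := (pow_one _).symm
      _ ≤ x ^ 6 := pow_le_pow_right₀ hx1' (by norm_num)
  have b3 : -(2 * (alj α (j + 1) - alj α j) * (pj B (j + 1) : ℝ)) ≤ -(α / 2 * x ^ 7) := by
    rw [e7, e3, ← hxy]
    have h1 : α / (4 * x) ≤ α / (4 * w) := by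
      apply div_le_div_of_nonneg_left hα.le (by positivity)
      have := hwz.trans hzx
      linarith
    have h2 : 2 * (α / (4 * x)) * (x ^ 4) ^ 2 ≤ 2 * (α / (4 * w)) * (x ^ 4) ^ 2 :=
      mul_le_mul_of_nonneg_right (by linarith) (by positivity)
    have h3 : 2 * (α / (4 * x)) * (x ^ 4) ^ 2 = α / 2 * x ^ 7 := by
      have : x ≠ 0 := by linarith
      field_simp
      ring
    linarith
  have b4 : 3 * (qj A B j : ℝ) ≤ 3 * x ^ 6 := by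
    rw [e2, ← hxy]
    have h1 : (A : ℝ) ^ (2 * w) * x ^ 4 ≤ x * x ^ 4 := mul_le_mul_of_nonneg_right (hA2.trans hzx) (by positivity)
    have h2 : x * x ^ 4 = x ^ 5 := by ring
    linarith
  have b5 : 2 * ℓ ≤ 4 * x ^ 6 := by rw [e8]; linarith
  have hℓ1 : 1 ≤ ℓ := by
    rw [e8]
    have : 0 ≤ z * y := by positivity
    linarith
  have b6 : (2 * ℓ + 1) * Real.log (ℓ + 1) ≤ 50 * x ^ 6 := by
    have h1 : 2 * ℓ + 1 ≤ 5 * x ^ 5 := by rw [e8]; linarith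
    have h2 : Real.log (ℓ + 1) ≤ 10 * x := by
      have h3 : ℓ + 1 ≤ (x + 2) ^ 5 := by
        have h4 : (x + 2) ^ 5 = x ^ 5 + 32 + (10 * x ^ 4 + 40 * x ^ 3 + 80 * x ^ 2 + 80 * x) := by ring
        have h5 : 0 ≤ 10 * x ^ 4 + 40 * x ^ 3 + 80 * x ^ 2 + 80 * x := by positivity
        rw [e8, h4]
        linarith
      have h6 : Real.log (ℓ + 1) ≤ Real.log ((x + 2) ^ 5) := Real.log_le_log (by linarith) h3
      rw [Real.log_pow] at h6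
      have h7 := Real.log_le_sub_one_of_pos (show 0 < x + 2 by linarith)
      push_cast at h6
      linarith
    have h8 : 0 ≤ Real.log (ℓ + 1) := Real.log_nonneg (by linarith)
    calc (2 * ℓ + 1) * Real.log (ℓ + 1) ≤ (5 * x ^ 5) * (10 * x) := mul_le_mul h1 h2 h8 (by positivity)
      _ = 50 * x ^ 6 := by ring
  have b7 : -(2 * (alj α (j + 1) - alj α j) * (pj B (j + 1) : ℝ)) + 3 * (qj A B j : ℝ) + 2 * ℓ +
        (2 * ℓ + 1) * Real.log (ℓ + 1) ≤ -(α / 2 * x ^ 7) + 57 * x ^ 6 := by linarith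
  have b8 : Real.exp (-(2 * (alj α (j + 1) - alj α j) * (pj B (j + 1) : ℝ)) + 3 * (qj A B j : ℝ) + 2 * ℓ +
        (2 * ℓ + 1) * Real.log (ℓ + 1)) ≤ Real.exp (-(α / 2 * x ^ 7) + 57 * x ^ 6) := Real.exp_le_exp.2 b7
  have b9 : ((bj Hs A B (j + 1) : ℝ) - aj Hs B (j + 1)) ^ 2 * ((bj Hs A B j : ℝ) - aj Hs B j) ≤
      (4 * Hs * x ^ 10) ^ 2 * (2 * Hs * x ^ 6) :=
    mul_le_mul (pow_le_pow_left₀ b1' b1 2) b2 b2' (by positivity)
  have b10 : ((bj Hs A B (j + 1) : ℝ) - aj Hs B (j + 1)) ^ 2 * ((bj Hs A B j : ℝ) - aj Hs B j) *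
      Real.exp (-(2 * (alj α (j + 1) - alj α j) * (pj B (j + 1) : ℝ)) + 3 * (qj A B j : ℝ) + 2 * ℓ +
        (2 * ℓ + 1) * Real.log (ℓ + 1)) ≤
      (4 * Hs * x ^ 10) ^ 2 * (2 * Hs * x ^ 6) * Real.exp (-(α / 2 * x ^ 7) + 57 * x ^ 6) :=
    mul_le_mul b9 b8 (Real.exp_pos _).le (by positivity)
  refine b10.trans ?_
  rw [e9]
  have b11 : ε / (2 * x) ≤ ε / (2 * w) := by
    apply div_le_div_of_nonneg_left hε.le (by positivity)
    have := hwz.trans hzx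
    linarith
  refine le_trans ?_ b11
  rw [le_div_iff₀ (by linarith)]
  have b12 : (4 * Hs * x ^ 10) ^ 2 * (2 * Hs * x ^ 6) * Real.exp (-(α / 2 * x ^ 7) + 57 * x ^ 6) * (2 * x) =
      64 * (Hs : ℝ) ^ 3 * (x ^ 27 * Real.exp (-(α / 2 * x ^ 7) + 57 * x ^ 6)) := by ring
  rw [b12]
  have b13 : x ^ 27 ≤ Real.exp (27 * x ^ 6) := by
    have h1 : x ≤ Real.exp x := by
      have := Real.add_one_le_exp x
      linarith
    have h2 : x ^ 27 ≤ Real.exp x ^ 27 := pow_le_pow_left₀ hx h1 27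
    rw [← Real.exp_nat_mul] at h2
    refine h2.trans (Real.exp_le_exp.2 ?_)
    push_cast
    linarith
  have b14 : x ^ 27 * Real.exp (-(α / 2 * x ^ 7) + 57 * x ^ 6) ≤ Real.exp (-x) := by
    have h1 : x ^ 27 * Real.exp (-(α / 2 * x ^ 7) + 57 * x ^ 6) ≤
        Real.exp (27 * x ^ 6) * Real.exp (-(α / 2 * x ^ 7) + 57 * x ^ 6) :=
      mul_le_mul_of_nonneg_right b13 (Real.exp_pos _).le
    rw [← Real.exp_add] at h1
    refine h1.trans (Real.exp_le_exp.2 ?_)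
    have h2 : 170 ≤ α * x := by
      have h3 : 170 ≤ x0 * α := (div_le_iff₀ hα).1 hx2
      have h4 : x0 * α ≤ x * α := mul_le_mul_of_nonneg_right hx0x hα.le
      linarith
    have h5 : 27 * x ^ 6 + (-(α / 2 * x ^ 7) + 57 * x ^ 6) = x ^ 6 * (84 - α * x / 2) := by ring
    rw [h5]
    have h6 : x ^ 6 * (84 - α * x / 2) ≤ x ^ 6 * (-1) := mul_le_mul_of_nonneg_left (by linarith) (by positivity)
    linarith
  have b15 : Real.exp (-x) ≤ ε / (64 * (Hs : ℝ) ^ 3) := by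
    have hpos : 0 < 64 * (Hs : ℝ) ^ 3 / ε := by positivity
    have h1 : Real.log (64 * (Hs : ℝ) ^ 3 / ε) ≤ x := hx3.trans hx0x
    have h2 : 64 * (Hs : ℝ) ^ 3 / ε ≤ Real.exp x := by
      rw [← Real.log_le_iff_le_exp hpos]
      exact h1
    rw [Real.exp_neg, ← inv_div (64 * (Hs : ℝ) ^ 3) ε]
    exact inv_anti₀ hpos h2
  calc 64 * (Hs : ℝ) ^ 3 * (x ^ 27 * Real.exp (-(α / 2 * x ^ 7) + 57 * x ^ 6))
      ≤ 64 * (Hs : ℝ) ^ 3 * (ε / (64 * (Hs : ℝ) ^ 3)) :=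
        mul_le_mul_of_nonneg_left (b14.trans b15) (by positivity)
    _ = ε := by
        have : (Hs : ℝ) ≠ 0 := by linarith
        field_simp

/-- the first level -/
theorem pin1 (α ε : ℝ) (Hs A : ℕ) (hα : 0 < α) (hε : 0 < ε) (hH : 1 ≤ Hs) (hA : 2 ≤ A) : ∃ B0 : ℕ, ∀ B : ℕ, B0 ≤ B →
    ((bj Hs A B 1 : ℝ) - aj Hs B 1) ^ 2 * Real.exp (-(2 * alj α 1 * (pj B 1 : ℝ))) ≤ ε := by
  have hHr : (1 : ℝ) ≤ Hs := by exact_mod_cast hH
  have hAr : (2 : ℝ) ≤ A := by exact_mod_cast hA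
  have ht : Filter.Tendsto (fun B : ℕ => (α * (B : ℝ)) ^ 2 * Real.exp (-(α * (B : ℝ)))) Filter.atTop (nhds 0) :=
    (Real.tendsto_pow_mul_exp_neg_atTop_nhds_zero 2).comp
      (Filter.Tendsto.const_mul_atTop hα tendsto_natCast_atTop_atTop)
  have hδ : 0 < ε * α ^ 2 / (2 * Hs * (A : ℝ) ^ 2) ^ 2 := by positivity
  obtain ⟨B1, hB1⟩ := Filter.eventually_atTop.1 (ht.eventually (gt_mem_nhds hδ))
  refine ⟨max B1 1, ?_⟩
  intro B hB
  have h1 := hB1 B (le_trans (le_max_left _ _) hB)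
  have hB3 : 1 ≤ B := le_trans (le_max_right _ _) hB
  have hBr : (1 : ℝ) ≤ B := by exact_mod_cast hB3
  have e1 : (bj Hs A B 1 : ℝ) = 2 * Hs * (A : ℝ) ^ 2 * B := by
    unfold bj Pool.H2.MR.hj qj
    push_cast
    norm_num
    ring
  have e2 : alj α 1 = α / 2 := by
    unfold alj
    ring
  have e3 : (pj B 1 : ℝ) = B := by
    unfold pj
    norm_num
  have b0 : 0 ≤ (bj Hs A B 1 : ℝ) - aj Hs B 1 := by
    unfold bj aj
    push_cast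
    rw [← mul_sub]
    apply mul_nonneg (by positivity)
    rw [sub_nonneg]
    exact_mod_cast (pj_lt_qj A B 1 hA hB3).le
  have b1 : (bj Hs A B 1 : ℝ) - aj Hs B 1 ≤ 2 * Hs * (A : ℝ) ^ 2 * B := by
    rw [← e1]
    have : (0 : ℝ) ≤ aj Hs B 1 := by positivity
    linarith
  have b2 : ((bj Hs A B 1 : ℝ) - aj Hs B 1) ^ 2 ≤ (2 * Hs * (A : ℝ) ^ 2 * B) ^ 2 := pow_le_pow_left₀ b0 b1 2
  rw [e2, e3]
  have e4 : -(2 * (α / 2) * (B : ℝ)) = -(α * B) := by ring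
  rw [e4]
  have b3 : ((bj Hs A B 1 : ℝ) - aj Hs B 1) ^ 2 * Real.exp (-(α * B)) ≤
      (2 * Hs * (A : ℝ) ^ 2 * B) ^ 2 * Real.exp (-(α * B)) :=
    mul_le_mul_of_nonneg_right b2 (Real.exp_pos _).le
  refine b3.trans ?_
  rw [lt_div_iff₀ (by positivity)] at h1
  have e5 : (2 * Hs * (A : ℝ) ^ 2 * B) ^ 2 * Real.exp (-(α * B)) =
      ((α * (B : ℝ)) ^ 2 * Real.exp (-(α * (B : ℝ))) * (2 * Hs * (A : ℝ) ^ 2) ^ 2) / α ^ 2 := by
    field_simp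
  rw [e5, div_le_iff₀ (by positivity)]
  exact h1.le

end Pool.H2.MR
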