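import Pool.Agent.H2.MR.Coe

/-!
# [H2 MR POW] Mean value of `P^ℓ M`

PROOF. `σ = ∑_{p∈Bl H r} 1/p ≤ 1`: the primes of `Bl H r` lie in `(E, e^(1/H)(E+1)]`, more precisely `exp(r/H) < p ≤ exp((r+1)/H)`, there are at most
`exp(r/H)(exp(1/H) - 1) + 1` integers and each is `≥ exp(r/H)`, so `σ ≤ exp(1/H) - 1 + exp(-r/H) ≤ exp(1/2) - 1 + exp(-2) < 1`
(`H ≥ 2`, `r ≥ 2H`). `coe` with `P = Bl H r`, `c = f`, `Ms = Ioc M1 M2`, `N = ⌊N2⌋`, `N2 = exp(ℓ(r+1)/H) M2`: a product of `ℓ` primes of the block lies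
between `exp(ℓ r/H)` and `exp(ℓ(r+1)/H)`. If `u n ≠ 0` then `n ≥ exp(ℓ r/H) x1 = N1`. If `M2 = 0` or `M2 ≤ M1` the polynomial is `0`.
`mvl`: `∫ ≤ C (T + N)/N1² (ℓ!)² (ℓ+1) N ≤ C (T + N2) N2/N1² (ℓ!)² (ℓ+1)`. (`N ≥ 1` as `M2 ≥ 1`.) The second theorem: the case `M1 = 0`, `M2 = 1`,
`b = 1`, `x1 = 1`, where `ds b 0 1 t = nj t 1 = 1`.
-/

namespace Pool.H2.MR

open Finset

private lemma Bl_mem (H r p : ℕ) (hp : p ∈ Bl H r) :
    p.Prime ∧ Real.exp ((r : ℝ) / H) ≤ p ∧ (p : ℝ) ≤ Real.exp (((r : ℝ) + 1) / H) := by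
  unfold Bl EE at hp
  rw [Finset.mem_filter, Finset.mem_Ioc] at hp
  obtain ⟨⟨h1, h2⟩, h3⟩ := hp
  refine ⟨h3, ?_, ?_⟩
  · exact ((Nat.floor_lt (Real.exp_pos _).le).1 h1).le
  · have := (Nat.le_floor_iff (Real.exp_pos _).le).1 h2
    push_cast at this
    exact this

theorem Bl_sum_le (H r : ℕ) (hH : 2 ≤ H) (hr : 2 * H ≤ r) : ∑ p ∈ Bl H r, 1 / (p : ℝ) ≤ 1 := by
  have hH0 : (2 : ℝ) ≤ (H : ℝ) := by exact_mod_cast hH
  have hr0 : 2 * (H : ℝ) ≤ (r : ℝ) := by exact_mod_cast hr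
  set A := Real.exp ((r : ℝ) / H) with hA
  set B := Real.exp (((r : ℝ) + 1) / H) with hB
  have hA0 : 0 < A := Real.exp_pos _
  have h1 : ∀ p ∈ Bl H r, 1 / (p : ℝ) ≤ 1 / A := fun p hp =>
    one_div_le_one_div_of_le hA0 (Bl_mem H r p hp).2.1
  have hAB : A ≤ B := Real.exp_le_exp.2 (by gcongr; linarith)
  have hcard : ((Bl H r).card : ℝ) ≤ B - A + 1 := by
    have h2 : (Bl H r).card ≤ EE H (r + 1) - EE H r := by
      unfold Bl
      exact (Finset.card_filter_le _ _).trans (by rw [Nat.card_Ioc])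
    have h3 : (EE H (r + 1) : ℝ) ≤ B := by
      unfold EE
      have := Nat.floor_le (Real.exp_pos (((r + 1 : ℕ) : ℝ) / H)).le
      refine this.trans (le_of_eq ?_)
      rw [hB]
      push_cast
      rfl
    have h4 : A < (EE H r : ℝ) + 1 := by
      unfold EE
      exact Nat.lt_floor_add_one _
    have h5 : EE H r ≤ EE H (r + 1) := by
      unfold EE
      refine Nat.floor_le_floor (Real.exp_le_exp.2 ?_)
      gcongr
      omega
    have h6 : ((EE H (r + 1) - EE H r : ℕ) : ℝ) = (EE H (r + 1) : ℝ) - EE H r := Nat.cast_sub h5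
    have h7 : ((Bl H r).card : ℝ) ≤ ((EE H (r + 1) - EE H r : ℕ) : ℝ) := by exact_mod_cast h2
    rw [h6] at h7
    linarith
  have h8 : ∑ p ∈ Bl H r, 1 / (p : ℝ) ≤ (B - A + 1) * (1 / A) := by
    refine (Finset.sum_le_sum h1).trans ?_
    rw [Finset.sum_const, nsmul_eq_mul]
    exact mul_le_mul_of_nonneg_right hcard (by positivity)
  refine h8.trans ?_
  have hBA : B = A * Real.exp (1 / H) := by
    rw [hA, hB, ← Real.exp_add]
    congr 1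
    ring
  have e1 : (B - A + 1) * (1 / A) = Real.exp (1 / H) - 1 + 1 / A := by
    rw [hBA]
    field_simp
  rw [e1]
  have e2 : Real.exp (1 / (H : ℝ)) ≤ Real.exp (1 / 2) :=
    Real.exp_le_exp.2 (one_div_le_one_div_of_le (by norm_num) hH0)
  have e3 : Real.exp (1 / 2) < 1.7 := by
    have h := Real.exp_one_lt_d9
    have h' : Real.exp (1 / 2) ^ 2 = Real.exp 1 := by
      rw [← Real.exp_nat_mul]; norm_num
    by_contra hcon
    rw [not_lt] at hcon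
    nlinarith [Real.exp_pos (1 / 2 : ℝ)]
  have e4 : 4 ≤ A := by
    have h2 : (2 : ℝ) ≤ (r : ℝ) / H := by
      rw [le_div_iff₀ (by linarith)]
      linarith
    have h3 : Real.exp 2 ≤ A := Real.exp_le_exp.2 h2
    have h4 : Real.exp 1 ^ 2 = Real.exp 2 := by
      rw [← Real.exp_nat_mul]; norm_num
    have h5 := Real.exp_one_gt_d9
    nlinarith
  have e5 : 1 / A ≤ 1 / 4 := one_div_le_one_div_of_le (by norm_num) e4
  linarith

theorem pow : ∃ C : ℝ, 0 < C ∧ ∀ (f b : ℕ → ℂ) (H r l M1 M2 : ℕ) (x1 T : ℝ), OB f → (∀ n, ‖b n‖ ≤ 1) → 2 ≤ H → 2 * H ≤ r →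
    0 < x1 → x1 ≤ (M1 : ℝ) + 1 → 1 ≤ T →
    ∫ t in (-T)..T, ‖pv f H r t ^ l * ds b M1 M2 t‖ ^ 2 ≤
      C * (T + Real.exp (l * (((r : ℝ) + 1) / H)) * M2) * (Real.exp (l * (((r : ℝ) + 1) / H)) * M2) /
        (Real.exp (l * ((r : ℝ) / H)) * x1) ^ 2 * ((l.factorial : ℝ) ^ 2 * (l + 1)) := by
  obtain ⟨C, hC, hmv⟩ := mvl
  refine ⟨C, hC, ?_⟩
  intro f b H r l M1 M2 x1 T hf hb hH hr hx1 hx1M hT
  set E := Real.exp (l * (((r : ℝ) + 1) / H)) with hE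
  set E1 := Real.exp (l * ((r : ℝ) / H)) with hE1
  have hEpos : 0 < E := Real.exp_pos _
  have hE1pos : 0 < E1 := Real.exp_pos _
  have hEone : 1 ≤ E := Real.one_le_exp (by positivity)
  rcases Nat.lt_or_ge M1 M2 with hM | hM
  swap
  · have h0 : ∀ t : ℝ, ‖pv f H r t ^ l * ds b M1 M2 t‖ ^ 2 = 0 := by
      intro t
      unfold ds
      rw [Finset.Ioc_eq_empty (by omega)]
      simp
    simp only [h0, intervalIntegral.integral_zero]
    positivity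
  have hM2 : (1 : ℝ) ≤ (M2 : ℝ) := by exact_mod_cast (by omega : 1 ≤ M2)
  set N := ⌊E * M2⌋₊ with hN
  have hNle : (N : ℝ) ≤ E * M2 := Nat.floor_le (by positivity)
  have hN1 : 1 ≤ N := by
    rw [hN, Nat.one_le_floor_iff]
    nlinarith
  have hprodE : ∀ x : Fin l → ℕ, (∀ i, x i ∈ Bl H r) → ((∏ i, x i : ℕ) : ℝ) ≤ E := by
    intro x hx
    rw [Nat.cast_prod, hE, Real.exp_nat_mul]
    calc ∏ i, (x i : ℝ) ≤ ∏ _i : Fin l, Real.exp (((r : ℝ) + 1) / H) :=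
          Finset.prod_le_prod (fun i _ => Nat.cast_nonneg _) fun i _ => (Bl_mem H r _ (hx i)).2.2
      _ = Real.exp (((r : ℝ) + 1) / H) ^ l := by simp
  have hprodE1 : ∀ x : Fin l → ℕ, (∀ i, x i ∈ Bl H r) → E1 ≤ ((∏ i, x i : ℕ) : ℝ) := by
    intro x hx
    rw [Nat.cast_prod, hE1, Real.exp_nat_mul]
    calc Real.exp ((r : ℝ) / H) ^ l = ∏ _i : Fin l, Real.exp ((r : ℝ) / H) := by simp
      _ ≤ ∏ i, (x i : ℝ) :=
          Finset.prod_le_prod (fun i _ => (Real.exp_pos _).le) fun i _ => (Bl_mem H r _ (hx i)).2.1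
  obtain ⟨u, hu1, hu2, hu3⟩ := coe (Bl H r) (fun p hp => (Bl_mem H r p hp).1) (Bl_sum_le H r hH hr) f b
    hf.bd hb (Ioc M1 M2) (fun m hm => by rw [Finset.mem_Ioc] at hm; omega) l N (by
      intro x hx m hm
      rw [Finset.mem_Ioc] at hm
      rw [hN]
      refine Nat.le_floor ?_
      push_cast
      have h1 := hprodE x hx
      rw [Nat.cast_prod] at h1
      have h2 : (m : ℝ) ≤ (M2 : ℝ) := by exact_mod_cast hm.2
      exact mul_le_mul h1 h2 (Nat.cast_nonneg _) hEpos.le)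
  have e1 : ∀ t : ℝ, pv f H r t ^ l * ds b M1 M2 t = ∑ n ∈ Icc 1 N, u n * nj t n := fun t => hu1 t
  simp only [e1]
  have hN1' : 0 < E1 * x1 := by positivity
  have h3 := hmv N T (E1 * x1) u hN1 hT hN1' (by
    intro n _ hn
    obtain ⟨x, hx, m, hm, rfl⟩ := hu2 n hn
    rw [Finset.mem_Ioc] at hm
    have h1 := hprodE1 x hx
    have h2 : (M1 : ℝ) + 1 ≤ (m : ℝ) := by exact_mod_cast hm.1
    rw [Nat.cast_mul]
    exact mul_le_mul h1 (hx1M.trans h2) hx1.le (Nat.cast_nonneg _))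
  refine h3.trans ?_
  have h4 : C * (T + N) / (E1 * x1) ^ 2 * ∑ n ∈ Icc 1 N, ‖u n‖ ^ 2 ≤
      C * (T + E * M2) / (E1 * x1) ^ 2 * ((l.factorial : ℝ) ^ 2 * (l + 1) * (E * M2)) := by
    have hT0 : 0 ≤ T := by linarith
    refine mul_le_mul ?_ (hu3.trans ?_) (Finset.sum_nonneg fun _ _ => by positivity) (by positivity)
    · gcongr
    · gcongr
  refine h4.trans (le_of_eq ?_)
  ring

theorem pow_one' : ∃ C : ℝ, 0 < C ∧ ∀ (f : ℕ → ℂ) (H r l : ℕ) (T : ℝ), OB f → 2 ≤ H → 2 * H ≤ r → 1 ≤ T →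
    ∫ t in (-T)..T, ‖pv f H r t‖ ^ (2 * l) ≤
      C * (T + Real.exp (l * (((r : ℝ) + 1) / H))) * Real.exp (l * (((r : ℝ) + 1) / H)) /
        (Real.exp (l * ((r : ℝ) / H))) ^ 2 * ((l.factorial : ℝ) ^ 2 * (l + 1)) := by
  obtain ⟨C, hC, hp⟩ := pow
  refine ⟨C, hC, ?_⟩
  intro f H r l T hf hH hr hT
  have h := hp f (fun _ => 1) H r l 0 1 1 T hf (fun _ => by simp) hH hr one_pos (by simp) hT
  have e : ∀ t : ℝ, ‖pv f H r t ^ l * ds (fun _ => 1) 0 1 t‖ ^ 2 = ‖pv f H r t‖ ^ (2 * l) := by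
    intro t
    have h1 : ds (fun _ => 1) 0 1 t = 1 := by
      unfold ds nj
      have : Ioc 0 1 = {1} := by decide
      rw [this, Finset.sum_singleton]
      simp
    rw [h1, mul_one, norm_pow, ← pow_mul, mul_comm l 2]
  simp only [e] at h
  simpa using h

end Pool.H2.MR
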