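import Pool.Agent.H2.MR.Mvl

/-!
# [H2 MR RAM] Ramaré's identity for the polynomial of `(X, 6X]`

PROOF. Blocks: `EE H` is nondecreasing in `v`, so `PR H a b` is the disjoint union of the `Bl H v`, `a ≤ v < b`; for `p ∈ PR` let `v(p)` be the block.
`p ∈ Bl H v` means `exp(v/H) < p ≤ exp((v+1)/H)` (`Nat.lt_of_floor_lt`, `Nat.le_floor_iff`); in particular `p ≥ 3 > 2` since `a ≥ H`
(`exp(a/H) ≥ e`). `m` is in the range `(lo H X v, hi H X v]` iff `X exp(-(v+1)/H) < m ≤ 6X exp(-v/H)`; in particular `m ≥ 1`.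
So for `p ∈ Bl H v` and `m` with `X < p m ≤ 6X` the number `m` is in the range, and for `p ∈ Bl H v`, `m` in the range:
`X exp(-1/H) < p m ≤ 6X exp(1/H)` (`≤ 17X`, as `e < 2.8`).
By `nj_mul`, `∑_v pv * mv = ∑_{n ≤ 17X} c n * nj t n`, `c n = ∑_{p ∈ PR, p ∣ n, n/p in the range of v(p)} f p * mco f H a b (n/p)` (the map
`(p, m) ↦ p m`; group the finite double sum by the value of the product: `Finset.sum_fiberwise_of_maps_to` or
`Finset.sum_comm'`). Put `r n = f n 1[X < n ≤ 6X] - c n`.
* `n ∉ (X, 6X]`: `r n ≠ 0` implies `X exp(-1/H) < n ≤ X` or `6X < n ≤ 6X exp(1/H)`, and `‖r n‖ ≤ ∑_{p∣n, p∈PR} 1/(om(n/p)+1) ≤ 1`, because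
`om (n/p) + 1 ≥ om n` (the prime divisors of `n` other than `p` divide `n/p`) and there are `om n` terms.
* `X < n ≤ 6X`, `om n = 0`: `c n = 0`, `r n = f n`, norm at most 1, and no `p ∈ PR` divides `n`.
* `X < n ≤ 6X`, `om n ≥ 1`: here the sum is over all `p ∈ PR`, `p ∣ n`. If `p² ∤ n` then `p, n/p` are coprime, `f p f(n/p) = f n`,
`om(n/p) + 1 = om n`, the term is `f n / om n`. If `p² ∣ n` then `om(n/p) = om n`. As `f n = ∑_{p∣n} f n/om n`:
`r n = ∑_{p² ∣ n} (f n/om n - f p f(n/p)/(om n + 1))`, norm at most `2 #{p : p² ∣ n}/om n ≤ 2`, and `0` unless some `p² ∣ n`.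
-/

namespace Pool.H2.MR

open Finset

theorem ram_EE_mono (H : ℕ) {v w : ℕ} (h : v ≤ w) : EE H v ≤ EE H w := by
  unfold EE
  apply Nat.floor_mono
  apply Real.exp_le_exp.mpr
  gcongr

theorem ram_mem_Bl {H v p : ℕ} (h : p ∈ Bl H v) :
    p.Prime ∧ Real.exp ((v : ℝ) / H) < p ∧ (p : ℝ) ≤ Real.exp (((v : ℝ) + 1) / H) := by
  unfold Bl at h
  rw [Finset.mem_filter, Finset.mem_Ioc] at h
  obtain ⟨⟨h1, h2⟩, h3⟩ := h
  refine ⟨h3, Nat.lt_of_floor_lt h1, ?_⟩
  unfold EE at h2
  rw [Nat.le_floor_iff (Real.exp_pos _).le] at h2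
  push_cast at h2
  exact h2

theorem ram_mem_win {H X v m : ℕ} : m ∈ Ioc (lo H X v) (hi H X v) ↔
    (X : ℝ) * Real.exp (-(((v : ℝ) + 1) / H)) < m ∧ (m : ℝ) ≤ 6 * (X : ℝ) * Real.exp (-((v : ℝ) / H)) := by
  unfold lo hi
  rw [Finset.mem_Ioc, Nat.floor_lt (by positivity), Nat.le_floor_iff (by positivity)]

theorem ram_sum_blocks {M : Type*} [AddCommMonoid M] (F : ℕ → M) (H a b : ℕ) (hab : a ≤ b) :
    ∑ v ∈ Ico a b, ∑ p ∈ Bl H v, F p = ∑ p ∈ PR H a b, F p := by
  induction b, hab using Nat.le_induction with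
  | base => simp [PR]
  | succ n hn ih =>
    rw [Finset.sum_Ico_succ_top hn, ih]
    unfold PR Bl
    rw [Finset.sum_filter, Finset.sum_filter, Finset.sum_filter]
    exact Finset.sum_Ioc_consecutive _ (ram_EE_mono H hn) (ram_EE_mono H (Nat.le_succ n))

theorem ram_om_le {H a b n p : ℕ} (hn : n ≠ 0) (hp : p.Prime) (hpn : p ∣ n) :
    om H a b n ≤ om H a b (n / p) + 1 := by
  unfold om
  have hsub : (PR H a b).filter (fun q => q ∣ n) ⊆ insert p ((PR H a b).filter (fun q => q ∣ n / p)) := by
    intro q hq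
    rw [Finset.mem_filter] at hq
    rw [Finset.mem_insert, Finset.mem_filter]
    by_cases hqp : q = p
    · exact Or.inl hqp
    · right
      refine ⟨hq.1, ?_⟩
      have hqprime : q.Prime := by
        have := hq.1
        unfold PR at this
        exact (Finset.mem_filter.mp this).2
      have hcop : Nat.Coprime q p := (Nat.coprime_primes hqprime hp).mpr hqp
      have h1 : q ∣ p * (n / p) := by
        rw [Nat.mul_div_cancel' hpn]
        exact hq.2
      exact hcop.dvd_of_dvd_mul_left h1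
  exact (Finset.card_le_card hsub).trans (Finset.card_insert_le _ _)

theorem ram_om_eq {H a b n p : ℕ} (hp : p ∈ PR H a b) (hpn : p ∣ n) (hsq : ¬ p ^ 2 ∣ n) :
    om H a b n = om H a b (n / p) + 1 := by
  have hpp : p.Prime := by
    unfold PR at hp
    exact (Finset.mem_filter.mp hp).2
  unfold om
  have hnot : p ∉ (PR H a b).filter (fun q => q ∣ n / p) := by
    rw [Finset.mem_filter]
    rintro ⟨_, h⟩
    apply hsq
    have h1 : p * p ∣ p * (n / p) := Nat.mul_dvd_mul_left p h
    rw [Nat.mul_div_cancel' hpn] at h1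
    rw [pow_two]
    exact h1
  have heq : (PR H a b).filter (fun q => q ∣ n) = insert p ((PR H a b).filter (fun q => q ∣ n / p)) := by
    ext q
    rw [Finset.mem_filter, Finset.mem_insert, Finset.mem_filter]
    constructor
    · rintro ⟨h1, h2⟩
      by_cases hqp : q = p
      · exact Or.inl hqp
      · right
        refine ⟨h1, ?_⟩
        have hqprime : q.Prime := by
          unfold PR at h1
          exact (Finset.mem_filter.mp h1).2
        have hcop : Nat.Coprime q p := (Nat.coprime_primes hqprime hpp).mpr hqp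
        have h3 : q ∣ p * (n / p) := by
          rw [Nat.mul_div_cancel' hpn]
          exact h2
        exact hcop.dvd_of_dvd_mul_left h3
    · rintro (h | h)
      · rw [h]
        exact ⟨hp, hpn⟩
      · refine ⟨h.1, h.2.trans ?_⟩
        exact ⟨p, by rw [Nat.div_mul_cancel hpn]⟩
  rw [heq, Finset.card_insert_of_notMem hnot]

theorem ram_pair {H X v p m : ℕ} (hH : 1 ≤ H) (hX : 1 ≤ X) (hp : p ∈ Bl H v) (hm : m ∈ Ioc (lo H X v) (hi H X v)) :
    (X : ℝ) * Real.exp (-(1 / (H : ℝ))) < ((p * m : ℕ) : ℝ) ∧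
      ((p * m : ℕ) : ℝ) ≤ 6 * X * Real.exp (1 / (H : ℝ)) := by
  obtain ⟨_, h1, h2⟩ := ram_mem_Bl hp
  obtain ⟨h3, h4⟩ := ram_mem_win.mp hm
  have hHpos : (0 : ℝ) < H := by exact_mod_cast hH
  have hXpos : (0 : ℝ) < X := by exact_mod_cast hX
  have hexp1 : Real.exp (-(1 / (H : ℝ))) = Real.exp ((v : ℝ) / H) * Real.exp (-(((v : ℝ) + 1) / H)) := by
    rw [← Real.exp_add]
    congr 1
    field_simp
    ring
  have hexp2 : Real.exp (1 / (H : ℝ)) = Real.exp (((v : ℝ) + 1) / H) * Real.exp (-((v : ℝ) / H)) := by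
    rw [← Real.exp_add]
    congr 1
    field_simp
    ring
  push_cast
  constructor
  · rw [hexp1]
    calc (X : ℝ) * (Real.exp ((v : ℝ) / H) * Real.exp (-(((v : ℝ) + 1) / H)))
        = Real.exp ((v : ℝ) / H) * ((X : ℝ) * Real.exp (-(((v : ℝ) + 1) / H))) := by ring
      _ < (p : ℝ) * m := by
        apply mul_lt_mul'' h1 h3 (Real.exp_pos _).le (by positivity)
  · rw [hexp2]
    calc (p : ℝ) * m ≤ Real.exp (((v : ℝ) + 1) / H) * (6 * (X : ℝ) * Real.exp (-((v : ℝ) / H))) := by
          apply mul_le_mul h2 h4 (by positivity) (Real.exp_pos _).le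
      _ = 6 * X * (Real.exp (((v : ℝ) + 1) / H) * Real.exp (-((v : ℝ) / H))) := by ring

theorem ram_pair_conv {H X v p m : ℕ} (hp : p ∈ Bl H v) (h1 : X < p * m) (h2 : p * m ≤ 6 * X) :
    m ∈ Ioc (lo H X v) (hi H X v) := by
  obtain ⟨_, h3, h4⟩ := ram_mem_Bl hp
  rw [ram_mem_win]
  have h1' : (X : ℝ) < p * m := by exact_mod_cast h1
  have h2' : (p : ℝ) * m ≤ 6 * X := by exact_mod_cast h2
  have hm0 : (0 : ℝ) ≤ m := Nat.cast_nonneg m
  constructor
  · rw [Real.exp_neg, ← div_eq_mul_inv, div_lt_iff₀ (Real.exp_pos _)]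
    calc (X : ℝ) < p * m := h1'
      _ ≤ Real.exp (((v : ℝ) + 1) / H) * m := mul_le_mul_of_nonneg_right h4 hm0
      _ = m * Real.exp (((v : ℝ) + 1) / H) := by ring
  · rw [Real.exp_neg, ← div_eq_mul_inv, le_div_iff₀ (Real.exp_pos _)]
    calc (m : ℝ) * Real.exp ((v : ℝ) / H) ≤ m * p := mul_le_mul_of_nonneg_left h3.le hm0
      _ = p * m := by ring
      _ ≤ 6 * X := h2'

theorem ram_exp_le {H : ℕ} (hH : 1 ≤ H) : Real.exp (1 / (H : ℝ)) ≤ 17 / 6 := by
  have hHpos : (1 : ℝ) ≤ H := by exact_mod_cast hH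
  have h1 : (1 : ℝ) / H ≤ 1 := by
    rw [div_le_one (by linarith)]
    exact hHpos
  have h2 := Real.exp_le_exp.mpr h1
  have h3 := Real.exp_one_lt_d9
  linarith

theorem ram (f : ℕ → ℂ) (hf : OB f) (H a b X : ℕ) (hH : 1 ≤ H) (ha : H ≤ a) (hab : a < b) (hX : 1 ≤ X) :
    ∃ r : ℕ → ℂ, (∀ t : ℝ, ds f X (6 * X) t =
        ∑ v ∈ Ico a b, pv f H v t * mv f H a b X v t + ∑ n ∈ Icc 1 (17 * X), r n * nj t n) ∧
      (∀ n, r n ≠ 0 → (X : ℝ) ≤ 3 * n) ∧ (∀ n, ‖r n‖ ≤ 2) ∧
      (∀ n, r n ≠ 0 → n ∈ Icc 1 (17 * X) → (n ≤ 6 * X ∧ ∀ p ∈ PR H a b, ¬ p ∣ n) ∨ (∃ p ∈ PR H a b, p ^ 2 ∣ n) ∨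
        ((X : ℝ) * Real.exp (-(1 / (H : ℝ))) < n ∧ n ≤ X) ∨
        (6 * X < n ∧ (n : ℝ) ≤ 6 * X * Real.exp (1 / (H : ℝ)))) := by
  classical
  set cc : ℕ → ℂ := fun n => ∑ v ∈ Ico a b, ∑ p ∈ Bl H v,
    if (p ∣ n ∧ n / p ∈ Ioc (lo H X v) (hi H X v)) then f p * mco f H a b (n / p) else 0 with hcc
  have hXpos : (0 : ℝ) < X := by exact_mod_cast hX
  have hexp := ram_exp_le hH
  -- a nonzero coefficient gives a pair
  have hpairs : ∀ n, cc n ≠ 0 → ∃ v p m, p ∈ Bl H v ∧ m ∈ Ioc (lo H X v) (hi H X v) ∧ n = p * m := by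
    intro n hn
    obtain ⟨v, _, hv⟩ := Finset.exists_ne_zero_of_sum_ne_zero hn
    obtain ⟨p, hp, hpp⟩ := Finset.exists_ne_zero_of_sum_ne_zero hv
    split_ifs at hpp with hc
    · exact ⟨v, p, n / p, hp, hc.2, (Nat.mul_div_cancel' hc.1).symm⟩
    · exact absurd rfl hpp
  have hcc0 : cc 0 = 0 := by
    by_contra h
    obtain ⟨v, p, m, hp, hm, h0⟩ := hpairs 0 h
    have := (ram_pair hH hX hp hm).1
    rw [← h0] at this
    push_cast at this
    have h1 : (0 : ℝ) < (X : ℝ) * Real.exp (-(1 / (H : ℝ))) := by positivity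
    linarith
  have hccn : ∀ n, ‖cc n‖ ≤ 1 := by
    intro n
    rcases Nat.eq_zero_or_pos n with h0 | hpos
    · rw [h0, hcc0]
      simp
    have h1 : ‖cc n‖ ≤ ∑ v ∈ Ico a b, ∑ p ∈ Bl H v, (if p ∣ n then 1 / (om H a b n : ℝ) else 0) := by
      refine (norm_sum_le _ _).trans (Finset.sum_le_sum fun v hv => ?_)
      refine (norm_sum_le _ _).trans (Finset.sum_le_sum fun p hp => ?_)
      have hpprime := (ram_mem_Bl hp).1
      by_cases hpn : p ∣ n
      · rw [if_pos hpn]
        have hle := ram_om_le (H := H) (a := a) (b := b) (by omega : n ≠ 0) hpprime hpn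
        have hpPR : p ∈ (PR H a b).filter (fun q => q ∣ n) := by
          rw [Finset.mem_filter]
          refine ⟨?_, hpn⟩
          unfold Bl at hp
          unfold PR
          rw [Finset.mem_filter, Finset.mem_Ioc] at hp ⊢
          rw [Finset.mem_Ico] at hv
          refine ⟨⟨lt_of_le_of_lt (ram_EE_mono H hv.1) hp.1.1, hp.1.2.trans (ram_EE_mono H hv.2)⟩, hp.2⟩
        have hompos : 0 < om H a b n := Finset.card_pos.mpr ⟨p, hpPR⟩
        have hompos' : (0 : ℝ) < om H a b n := by exact_mod_cast hompos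
        have hle' : (om H a b n : ℝ) ≤ (om H a b (n / p) : ℝ) + 1 := by exact_mod_cast hle
        split_ifs with hc
        · rw [norm_mul]
          have h3 : ‖mco f H a b (n / p)‖ ≤ 1 / (om H a b n : ℝ) := by
            unfold mco
            rw [norm_div]
            have h4 : ‖((om H a b (n / p) : ℂ) + 1)‖ = (om H a b (n / p) : ℝ) + 1 := by
              have : ((om H a b (n / p) : ℂ) + 1) = (((om H a b (n / p) : ℝ) + 1 : ℝ) : ℂ) := by push_cast; ring
              rw [this, Complex.norm_real, Real.norm_of_nonneg (by positivity)]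
            rw [h4]
            calc ‖f (n / p)‖ / ((om H a b (n / p) : ℝ) + 1) ≤ 1 / ((om H a b (n / p) : ℝ) + 1) := by
                  apply div_le_div_of_nonneg_right (hf.bd _) (by positivity)
              _ ≤ 1 / (om H a b n : ℝ) := one_div_le_one_div_of_le hompos' hle'
          calc ‖f p‖ * ‖mco f H a b (n / p)‖ ≤ 1 * (1 / (om H a b n : ℝ)) :=
                mul_le_mul (hf.bd _) h3 (norm_nonneg _) zero_le_one
            _ = 1 / (om H a b n : ℝ) := one_mul _
        · rw [norm_zero]
          positivity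
      · rw [if_neg hpn, if_neg (fun h => hpn h.1), norm_zero]
    rw [ram_sum_blocks (fun p => if p ∣ n then 1 / (om H a b n : ℝ) else 0) H a b hab.le, ← Finset.sum_filter,
      Finset.sum_const, nsmul_eq_mul] at h1
    refine h1.trans ?_
    change ((om H a b n : ℕ) : ℝ) * (1 / (om H a b n : ℝ)) ≤ 1
    rw [mul_one_div]
    exact div_self_le_one _
  refine ⟨fun n => (if n ∈ Ioc X (6 * X) then f n else 0) - cc n, ?_, ?_, ?_, ?_⟩
  · intro t
    have hds : ds f X (6 * X) t = ∑ n ∈ Icc 1 (17 * X), (if n ∈ Ioc X (6 * X) then f n else 0) * nj t n := by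
      unfold ds
      have : ∀ n ∈ Icc 1 (17 * X), (if n ∈ Ioc X (6 * X) then f n else 0) * nj t n =
          if n ∈ Ioc X (6 * X) then f n * nj t n else 0 := by
        intro n _
        split_ifs <;> simp
      rw [Finset.sum_congr rfl this, ← Finset.sum_filter]
      apply Finset.sum_congr _ (fun _ _ => rfl)
      ext n
      rw [Finset.mem_filter, Finset.mem_Icc, Finset.mem_Ioc]
      constructor
      · intro h
        refine ⟨⟨by omega, by omega⟩, h⟩
      · intro h
        exact h.2
    have hprod : ∑ n ∈ Icc 1 (17 * X), cc n * nj t n = ∑ v ∈ Ico a b, pv f H v t * mv f H a b X v t := by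
      have h1 : ∀ n ∈ Icc 1 (17 * X), cc n * nj t n = ∑ v ∈ Ico a b, ∑ p ∈ Bl H v,
          (if (p ∣ n ∧ n / p ∈ Ioc (lo H X v) (hi H X v)) then f p * mco f H a b (n / p) * nj t n else 0) := by
        intro n _
        rw [hcc]
        simp only [Finset.sum_mul]
        refine Finset.sum_congr rfl fun v _ => Finset.sum_congr rfl fun p _ => ?_
        split_ifs <;> simp
      rw [Finset.sum_congr rfl h1, Finset.sum_comm]
      refine Finset.sum_congr rfl fun v hv => ?_
      rw [Finset.sum_comm]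
      unfold pv mv ds
      rw [Finset.sum_mul_sum]
      refine Finset.sum_congr rfl fun p hp => ?_
      have hpprime := (ram_mem_Bl hp).1
      have hppos := hpprime.pos
      rw [← Finset.sum_filter]
      symm
      refine Finset.sum_bij (fun m _ => p * m) ?_ ?_ ?_ ?_
      · intro m hm
        have h2 := ram_pair hH hX hp hm
        rw [Finset.mem_filter, Finset.mem_Icc, Nat.mul_div_cancel_left m hppos]
        refine ⟨⟨?_, ?_⟩, Dvd.intro m rfl, hm⟩
        · have h3 : (0 : ℝ) < ((p * m : ℕ) : ℝ) := lt_trans (by positivity) h2.1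
          exact_mod_cast h3
        · have h3 : ((p * m : ℕ) : ℝ) ≤ ((17 * X : ℕ) : ℝ) := by
            refine h2.2.trans ?_
            push_cast
            nlinarith
          exact_mod_cast h3
      · intro m _ m' _ h
        exact Nat.eq_of_mul_eq_mul_left hppos h
      · intro n hn
        rw [Finset.mem_filter] at hn
        exact ⟨n / p, hn.2.2, Nat.mul_div_cancel' hn.2.1⟩
      · intro m hm
        have h2 := ram_mem_win.mp hm
        have hmpos : 1 ≤ m := by
          have h3 : (0 : ℝ) < (m : ℝ) := lt_trans (by positivity) h2.1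
          exact_mod_cast h3
        rw [Nat.mul_div_cancel_left m hppos, nj_mul t p m hpprime.one_le hmpos]
        ring
    rw [hds, ← hprod, ← Finset.sum_add_distrib]
    refine Finset.sum_congr rfl fun n _ => ?_
    ring
  · intro n hn
    by_cases hmem : n ∈ Ioc X (6 * X)
    · rw [Finset.mem_Ioc] at hmem
      have : (X : ℝ) < n := by exact_mod_cast hmem.1
      linarith
    · have hn' : cc n ≠ 0 := by
        intro h
        apply hn
        simp only [if_neg hmem, h, sub_zero]
      obtain ⟨v, p, m, hp, hm, h0⟩ := hpairs n hn'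
      have h1 := (ram_pair hH hX hp hm).1
      rw [← h0] at h1
      have h2 : (1 : ℝ) / 3 ≤ Real.exp (-(1 / (H : ℝ))) := by
        rw [Real.exp_neg, ← one_div]
        apply one_div_le_one_div_of_le (Real.exp_pos _)
        linarith
      nlinarith
  · intro n
    refine (norm_sub_le _ _).trans ?_
    have h1 : ‖(if n ∈ Ioc X (6 * X) then f n else 0)‖ ≤ 1 := by
      split_ifs
      · exact hf.bd n
      · simp
    have h2 := hccn n
    linarith
  · intro n hn hnI
    by_cases hmem : n ∈ Ioc X (6 * X)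
    · have hmem' := Finset.mem_Ioc.mp hmem
      by_cases hA : ∀ p ∈ PR H a b, ¬ p ∣ n
      · exact Or.inl ⟨hmem'.2, hA⟩
      · by_cases hB : ∃ p ∈ PR H a b, p ^ 2 ∣ n
        · exact Or.inr (Or.inl hB)
        · exfalso
          apply hn
          push Not at hA hB
          have hcn : cc n = f n := by
            have h1 : cc n = ∑ v ∈ Ico a b, ∑ p ∈ Bl H v,
                (if p ∣ n then f n / (om H a b n : ℂ) else 0) := by
              rw [hcc]
              refine Finset.sum_congr rfl fun v hv => Finset.sum_congr rfl fun p hp => ?_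
              have hpprime := (ram_mem_Bl hp).1
              by_cases hpn : p ∣ n
              · have hw : n / p ∈ Ioc (lo H X v) (hi H X v) := by
                  apply ram_pair_conv hp
                  · rw [Nat.mul_div_cancel' hpn]
                    exact hmem'.1
                  · rw [Nat.mul_div_cancel' hpn]
                    exact hmem'.2
                rw [if_pos ⟨hpn, hw⟩, if_pos hpn]
                have hpPR : p ∈ PR H a b := by
                  unfold Bl at hp
                  unfold PR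
                  rw [Finset.mem_filter, Finset.mem_Ioc] at hp ⊢
                  rw [Finset.mem_Ico] at hv
                  refine ⟨⟨lt_of_le_of_lt (ram_EE_mono H hv.1) hp.1.1, hp.1.2.trans (ram_EE_mono H hv.2)⟩, hp.2⟩
                have hsq := hB p hpPR
                have hom := ram_om_eq hpPR hpn hsq
                have hcop : Nat.Coprime p (n / p) := by
                  rw [Nat.Prime.coprime_iff_not_dvd hpprime]
                  intro hd
                  apply hsq
                  have h2 : p * p ∣ p * (n / p) := Nat.mul_dvd_mul_left p hd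
                  rw [Nat.mul_div_cancel' hpn] at h2
                  rw [pow_two]
                  exact h2
                have hmul := hf.mul p (n / p) hcop
                rw [Nat.mul_div_cancel' hpn] at hmul
                unfold mco
                rw [hom, hmul]
                push_cast
                ring
              · rw [if_neg (fun h => hpn h.1), if_neg hpn]
            rw [h1, ram_sum_blocks (fun p => if p ∣ n then f n / (om H a b n : ℂ) else 0) H a b hab.le,
              ← Finset.sum_filter, Finset.sum_const, nsmul_eq_mul]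
            change ((om H a b n : ℕ) : ℂ) * (f n / (om H a b n : ℂ)) = f n
            obtain ⟨p, hp, hpn⟩ := hA
            have hompos : 0 < om H a b n := Finset.card_pos.mpr ⟨p, Finset.mem_filter.mpr ⟨hp, hpn⟩⟩
            have hne : (om H a b n : ℂ) ≠ 0 := by
              exact_mod_cast hompos.ne'
            field_simp
          simp only [if_pos hmem, hcn, sub_self]
    · have hn' : cc n ≠ 0 := by
        intro h
        apply hn
        simp only [if_neg hmem, h, sub_zero]
      obtain ⟨v, p, m, hp, hm, h0⟩ := hpairs n hn'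
      have h1 := ram_pair hH hX hp hm
      rw [← h0] at h1
      right
      right
      rw [Finset.mem_Ioc] at hmem
      rcases Nat.lt_or_ge X n with h3 | h3
      · right
        refine ⟨?_, h1.2⟩
        by_contra h4
        exact hmem ⟨h3, by omega⟩
      · left
        exact ⟨h1.1, h3⟩

end Pool.H2.MR
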