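import Pool.Agent.H2.MR.Mvl
import Pool.Agent.H43.SI.Par

/-!
# [H2 MR TL] The weighted integral over all `t`

PROOF. `δ = h/X`, `T = LX/h ≥ 1`, `F = ds f X (6X)`, `mul δ 1 t ≤ 1` and for `|t| > T` `mul δ 1 t ≤ (1/(δ(1+|t|)))² ≤ (1/(δ|t|))²`. On `2^i T < |t| ≤ 2^(i+1) T` this is `≤ 4^(-i) (δT)^(-2) = 4^(-i) L^(-2)`
and `∫_{|t|≤2^(i+1)T} ‖F‖² ≤ C(2^(i+1)T + 6X) 6X/X² ≤ C'(2^i T/X + 1)` (`mvl_ds`, `N1 = X`). So the part `|t| > T` is `≤ ∑_i 4^(-i) L^(-2) C'(2^i L/h + 1) ≤ 2C'(1/(Lh) + 1/L²)·...`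
(monotone convergence over the dyadic shells: `∫_{|t|>T} = ∑_i`, `MeasureTheory.integral_iUnion` or `hasSum_integral_iUnion`; the integrand is integrable by `H43.SI.par`; or bound by
`∫_{T<|t|≤2^I T}` for every `I` and let `I → ∞`).
-/

namespace Pool.H2.MR

open Finset MeasureTheory

private theorem tl_cont (f : ℕ → ℂ) (M N : ℕ) : Continuous (fun t : ℝ => ‖ds f M N t‖ ^ 2) := by
  unfold ds
  refine (continuous_finsetSum _ fun n hn => ?_).norm.pow 2
  exact continuous_const.mul (continuous_nj n (by have := (mem_Ioc.1 hn).1; omega))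

private theorem tl_int (f : ℕ → ℂ) (X : ℕ) (δ : ℝ) (hδ : 0 < δ) (hδ1 : δ ≤ 1) :
    Integrable (fun t : ℝ => ‖ds f X (6 * X) t‖ ^ 2 * Pool.Agent.H43.SI.mul δ 1 t) := by
  obtain ⟨C, -, hC⟩ := Pool.Agent.H43.SI.par
  have h := (hC (fun n => if n ∈ Ioc X (6 * X) then f n else 0) (6 * X) 1 δ 1 le_rfl hδ hδ1
    le_rfl).1
  have e : ∀ t : ℝ, ∑ n ∈ Icc 1 (6 * X), (if n ∈ Ioc X (6 * X) then f n else 0) *
      (n : ℂ) ^ (-(1 + (t : ℂ) * Complex.I)) = ds f X (6 * X) t := by
    intro t
    unfold ds nj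
    rw [← sum_filter_add_sum_filter_not (Icc 1 (6 * X)) (fun n => n ∈ Ioc X (6 * X))]
    have e1 : (Icc 1 (6 * X)).filter (fun n => n ∈ Ioc X (6 * X)) = Ioc X (6 * X) := by
      ext n
      simp only [mem_filter, mem_Icc, mem_Ioc]
      omega
    rw [e1]
    have e2 : ∑ n ∈ (Icc 1 (6 * X)).filter (fun n => ¬ n ∈ Ioc X (6 * X)),
        (if n ∈ Ioc X (6 * X) then f n else 0) * (n : ℂ) ^ (-(1 + (t : ℂ) * Complex.I)) = 0 := by
      refine sum_eq_zero fun n hn => ?_
      rw [if_neg (mem_filter.1 hn).2, zero_mul]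
    rw [e2, add_zero]
    refine sum_congr rfl fun n hn => ?_
    rw [if_pos hn]
  simp only [e] at h
  exact h

private theorem tl_mul_nonneg (δ t : ℝ) : 0 ≤ Pool.Agent.H43.SI.mul δ 1 t := by
  unfold Pool.Agent.H43.SI.mul
  exact le_min zero_le_one (le_min (sq_nonneg _) (sq_nonneg _))

private theorem tl_mul_one (δ t : ℝ) : Pool.Agent.H43.SI.mul δ 1 t ≤ 1 := by
  unfold Pool.Agent.H43.SI.mul
  exact min_le_left _ _

private theorem tl_mul_le (δ t a : ℝ) (hδ : 0 < δ) (ha : 0 < a) (hat : a ≤ |t|) :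
    Pool.Agent.H43.SI.mul δ 1 t ≤ (1 / (δ * a)) ^ 2 := by
  unfold Pool.Agent.H43.SI.mul
  refine ((min_le_right _ _).trans (min_le_right _ _)).trans ?_
  have h1 : 0 < δ * a := mul_pos hδ ha
  have h2 : δ * a ≤ δ * (1 + |t|) := mul_le_mul_of_nonneg_left (by linarith) hδ.le
  exact pow_le_pow_left₀ (by positivity) (one_div_le_one_div_of_le h1 h2) 2

theorem tl : ∃ C : ℝ, 0 < C ∧ ∀ (f : ℕ → ℂ) (X h L : ℕ), OB f → 1 ≤ L → 1 ≤ h → h ≤ X →
    ∫ t : ℝ, ‖ds f X (6 * X) t‖ ^ 2 * Pool.Agent.H43.SI.mul ((h : ℝ) / X) 1 t ≤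
      (∫ t in (-((L : ℝ) * X / h))..((L : ℝ) * X / h), ‖ds f X (6 * X) t‖ ^ 2) + C * (1 / ((L : ℝ) * h) + 1 / (L : ℝ) ^ 2) := by
  obtain ⟨C0, hC0, hm⟩ := mvl_ds
  refine ⟨72 * C0, by positivity, ?_⟩
  intro f X h L hf hL hh hhX
  have hh' : (1 : ℝ) ≤ h := by exact_mod_cast hh
  have hL' : (1 : ℝ) ≤ L := by exact_mod_cast hL
  have hhX' : (h : ℝ) ≤ X := by exact_mod_cast hhX
  have hX' : (1 : ℝ) ≤ X := hh'.trans hhX'
  have hδ : 0 < (h : ℝ) / X := by positivity
  have hδ1 : (h : ℝ) / X ≤ 1 := by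
    rw [div_le_one (by linarith)]
    exact hhX'
  set δ : ℝ := (h : ℝ) / X with hδdef
  set T : ℝ := (L : ℝ) * X / h with hT
  have hT1 : 1 ≤ T := by
    rw [hT, le_div_iff₀ (by linarith)]
    nlinarith
  set F : ℝ → ℝ := fun t => ‖ds f X (6 * X) t‖ ^ 2 with hF
  have hFc : Continuous F := tl_cont f X (6 * X)
  have hF0 : ∀ t, 0 ≤ F t := fun t => by positivity
  set G : ℝ → ℝ := fun t => F t * Pool.Agent.H43.SI.mul δ 1 t with hG
  have hGi : Integrable G := tl_int f X δ hδ hδ1
  have hGii : ∀ a b : ℝ, IntervalIntegrable G volume a b := fun a b => hGi.intervalIntegrable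
  have hFii : ∀ a b : ℝ, IntervalIntegrable F volume a b := fun a b => hFc.intervalIntegrable a b
  set D : ℝ := 1 / ((L : ℝ) * h) + 1 / (L : ℝ) ^ 2 with hD
  have hD0 : 0 ≤ D := by positivity
  have key : ∀ I : ℕ, ∫ t in (-(2 ^ I * T))..(2 ^ I * T), G t ≤
      (∫ t in (-T)..T, F t) + 72 * C0 * D * (1 - (1 / 2) ^ I) := by
    intro I
    induction I with
    | zero =>
      simp only [pow_zero, one_mul, sub_self, mul_zero, add_zero]
      refine intervalIntegral.integral_mono_on (by linarith) (hGii _ _) (hFii _ _) fun t _ => ?_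
      calc G t = F t * Pool.Agent.H43.SI.mul δ 1 t := rfl
        _ ≤ F t * 1 := mul_le_mul_of_nonneg_left (tl_mul_one δ t) (hF0 t)
        _ = F t := mul_one _
    | succ I ih =>
      set a : ℝ := 2 ^ I * T with ha
      have h2I : (1 : ℝ) ≤ 2 ^ I := one_le_pow₀ (by norm_num)
      have ha1 : 1 ≤ a := by
        rw [ha]
        nlinarith
      have hb : (2 : ℝ) ^ (I + 1) * T = 2 * a := by
        rw [ha, pow_succ]
        ring
      rw [hb]
      set q : ℝ := (1 / (δ * a)) ^ 2 with hq
      have hq0 : 0 ≤ q := sq_nonneg _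
      have hsplitG : ∫ t in (-(2 * a))..(2 * a), G t = (∫ t in (-(2 * a))..(-a), G t) +
          (∫ t in (-a)..a, G t) + ∫ t in a..(2 * a), G t := by
        rw [intervalIntegral.integral_add_adjacent_intervals (hGii _ _) (hGii _ _),
          intervalIntegral.integral_add_adjacent_intervals (hGii _ _) (hGii _ _)]
      have hsplitF : ∫ t in (-(2 * a))..(2 * a), F t = (∫ t in (-(2 * a))..(-a), F t) +
          (∫ t in (-a)..a, F t) + ∫ t in a..(2 * a), F t := by
        rw [intervalIntegral.integral_add_adjacent_intervals (hFii _ _) (hFii _ _),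
          intervalIntegral.integral_add_adjacent_intervals (hFii _ _) (hFii _ _)]
      have hmid : 0 ≤ ∫ t in (-a)..a, F t :=
        intervalIntegral.integral_nonneg (by linarith) fun t _ => hF0 t
      have hl : ∫ t in (-(2 * a))..(-a), G t ≤ q * ∫ t in (-(2 * a))..(-a), F t := by
        rw [← intervalIntegral.integral_const_mul]
        refine intervalIntegral.integral_mono_on (by linarith) (hGii _ _)
          ((hFii _ _).const_mul q) fun t ht => ?_
        have h1 : a ≤ |t| := by
          rw [abs_of_nonpos (by linarith [ht.2])]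
          linarith [ht.2]
        calc G t = F t * Pool.Agent.H43.SI.mul δ 1 t := rfl
          _ ≤ F t * q := mul_le_mul_of_nonneg_left (tl_mul_le δ t a hδ (by linarith) h1) (hF0 t)
          _ = q * F t := mul_comm _ _
      have hr : ∫ t in a..(2 * a), G t ≤ q * ∫ t in a..(2 * a), F t := by
        rw [← intervalIntegral.integral_const_mul]
        refine intervalIntegral.integral_mono_on (by linarith) (hGii _ _)
          ((hFii _ _).const_mul q) fun t ht => ?_
        have h1 : a ≤ |t| := ht.1.trans (le_abs_self t)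
        calc G t = F t * Pool.Agent.H43.SI.mul δ 1 t := rfl
          _ ≤ F t * q := mul_le_mul_of_nonneg_left (tl_mul_le δ t a hδ (by linarith) h1) (hF0 t)
          _ = q * F t := mul_comm _ _
      have hM := hm X (6 * X) (2 * a) X f (by linarith) (by linarith) (by linarith) hf.bd
      have hM' : ∫ t in (-(2 * a))..(2 * a), F t ≤ 6 * C0 * (2 * a / X + 6) := by
        refine hM.trans (le_of_eq ?_)
        push_cast
        field_simp
      have hshell : (∫ t in (-(2 * a))..(-a), G t) + ∫ t in a..(2 * a), G t ≤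
          72 * C0 * D * ((1 / 2) ^ (I + 1)) := by
        calc (∫ t in (-(2 * a))..(-a), G t) + ∫ t in a..(2 * a), G t
            ≤ q * ((∫ t in (-(2 * a))..(-a), F t) + ∫ t in a..(2 * a), F t) := by
              rw [mul_add]
              exact add_le_add hl hr
          _ ≤ q * ∫ t in (-(2 * a))..(2 * a), F t := by
              refine mul_le_mul_of_nonneg_left ?_ hq0
              rw [hsplitF]
              linarith
          _ ≤ q * (6 * C0 * (2 * a / X + 6)) := mul_le_mul_of_nonneg_left hM' hq0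
          _ ≤ 72 * C0 * D * ((1 / 2) ^ (I + 1)) := by
              have hδT : δ * T = L := by
                rw [hδdef, hT]
                field_simp
              have e1 : δ * a = 2 ^ I * L := by
                rw [ha, ← hδT]
                ring
              have e2 : 2 * a / X = 2 * 2 ^ I * L / h := by
                rw [ha, hT]
                field_simp
              rw [hq, e1, e2, hD]
              have e3 : (1 / (2 ^ I * (L : ℝ))) ^ 2 * (6 * C0 * (2 * 2 ^ I * L / h + 6)) =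
                  12 * C0 * (1 / 2 ^ I) * (1 / ((L : ℝ) * h)) +
                    36 * C0 * (1 / 2 ^ I) * (1 / 2 ^ I) * (1 / (L : ℝ) ^ 2) := by
                field_simp
                ring
              have e4 : (1 / 2 : ℝ) ^ (I + 1) = 1 / 2 ^ I / 2 := by
                rw [pow_succ, one_div_pow]
                ring
              rw [e3, e4]
              have h5 : (1 : ℝ) / 2 ^ I ≤ 1 := by
                rw [div_le_one (by positivity)]
                exact h2I
              have h6 : (0 : ℝ) < 1 / 2 ^ I := by positivity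
              have h7 : 0 < 1 / ((L : ℝ) * h) := by positivity
              have h8 : 0 < 1 / (L : ℝ) ^ 2 := by positivity
              have h9 : 36 * C0 * (1 / 2 ^ I) * (1 / 2 ^ I) * (1 / (L : ℝ) ^ 2) ≤
                  36 * C0 * (1 / 2 ^ I) * 1 * (1 / (L : ℝ) ^ 2) := by
                gcongr
              have h10 : 0 ≤ C0 * (1 / 2 ^ I) * (1 / ((L : ℝ) * h)) := by positivity
              nlinarith
      have e5 : (72 * C0 * D * (1 - (1 / 2) ^ (I + 1)) : ℝ) =
          72 * C0 * D * (1 - (1 / 2) ^ I) + 72 * C0 * D * ((1 / 2) ^ (I + 1)) := by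
        rw [pow_succ]
        ring
      rw [hsplitG, e5]
      linarith
  have hlim : Filter.Tendsto (fun I : ℕ => ∫ t in (-(2 ^ I * T))..(2 ^ I * T), G t)
      Filter.atTop (nhds (∫ t, G t)) := by
    have h1 : Filter.Tendsto (fun I : ℕ => (2 : ℝ) ^ I * T) Filter.atTop Filter.atTop :=
      (tendsto_pow_atTop_atTop_of_one_lt (by norm_num : (1 : ℝ) < 2)).atTop_mul_const
        (by linarith)
    exact intervalIntegral_tendsto_integral hGi (Filter.tendsto_neg_atTop_atBot.comp h1) h1
  refine le_of_tendsto hlim (Filter.Eventually.of_forall fun I => (key I).trans ?_)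
  have h3 : (0 : ℝ) ≤ (1 / 2) ^ I := by positivity
  have h4 : 0 ≤ 72 * C0 * D := by positivity
  nlinarith

end Pool.H2.MR
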