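import Pool.Agent.H2.MR.Core
import Pool.Agent.H2.MR.Tl

/-!
# [H2 MR WIN] Short multiplicative windows

PROOF. `Cp` from `H43.SI.par`, `Ct` from `tl`. `L` with `4 Cp Ct/L² ≤ ε/8`, `core` with `ε' = ε/(16 Cp)`. `a n = f n` for `X < n ≤ 6X`, else `0`; `Nm = 6X`; `δ = h/X ≤ 1`, `δ1 = 1`. Then
`∑_{n≤Nm} a n n^(-(1+it)) = ds f X (6X) t`. For `log X ≤ y ≤ log 2X` the windows `(e^y, e^(y+δ)]`, `(e^y, e^(y+1)]` lie in `(X, 6X]` (`2e < 6`), so `Sd a = Sd f` there.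
`par`: `∫_{log X}^{log 2X} ‖Sd f δ y/δ - Sd f 1 y‖² dy ≤ Cp X² ∫ ‖F‖² mul ≤ Cp X² (ε' + Ct(1/(Lh) + 1/L²)) ≤ X² ε/4`. `‖Sd f 1 y‖ = ‖∑_{e^y<n≤e^(y+1)} f n‖ ≤ 12 η X` for large `X` (`pt0`), so with
`12² η² ≤ ε/4`: `∫ ‖Sd f δ y‖²/δ² ≤ 2(X² ε/4) + 2 log 2 (ε/4) X² ≤ ε X²`, and `δ² X² = h²`.
-/

namespace Pool.H2.MR

open Finset MeasureTheory

theorem win_meas (f : ℕ → ℂ) (Nm : ℕ) (δ : ℝ) :
    Measurable (fun y : ℝ => Pool.Agent.H43.SI.Sd f Nm δ y) := by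
  unfold Pool.Agent.H43.SI.Sd
  simp only [sum_filter]
  refine Finset.measurable_sum _ fun n _ => ?_
  refine Measurable.ite ?_ measurable_const measurable_const
  have h1 : MeasurableSet {y : ℝ | y < Real.log n} := measurableSet_Iio
  have h2 : MeasurableSet {y : ℝ | Real.log n ≤ y + δ} := by
    have : {y : ℝ | Real.log n ≤ y + δ} = Set.Ici (Real.log n - δ) := by
      ext y
      simp only [Set.mem_ofPred_eq, Set.mem_Ici]
      constructor <;> intro h <;> linarith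
    rw [this]
    exact measurableSet_Ici
  exact h1.inter h2

theorem win_bd (f : ℕ → ℂ) (Nm : ℕ) (δ y : ℝ) :
    ‖Pool.Agent.H43.SI.Sd f Nm δ y‖ ≤ ∑ n ∈ Icc 1 Nm, ‖f n‖ := by
  unfold Pool.Agent.H43.SI.Sd
  refine (norm_sum_le _ _).trans ?_
  exact sum_le_sum_of_subset_of_nonneg (filter_subset _ _) fun _ _ _ => norm_nonneg _

theorem win_ii (f : ℕ → ℂ) (Nm : ℕ) (δ δ1 a b : ℝ) :
    IntervalIntegrable (fun y : ℝ => ‖Pool.Agent.H43.SI.Sd f Nm δ y / δ -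
      Pool.Agent.H43.SI.Sd f Nm δ1 y / δ1‖ ^ 2) volume a b := by
  have hm : Measurable (fun y : ℝ => ‖Pool.Agent.H43.SI.Sd f Nm δ y / δ -
      Pool.Agent.H43.SI.Sd f Nm δ1 y / δ1‖ ^ 2) :=
    (((win_meas f Nm δ).div_const _).sub ((win_meas f Nm δ1).div_const _)).norm.pow_const 2
  have hb : ∀ y : ℝ, ‖(‖Pool.Agent.H43.SI.Sd f Nm δ y / δ -
      Pool.Agent.H43.SI.Sd f Nm δ1 y / δ1‖ ^ 2 : ℝ)‖ ≤
      ((∑ n ∈ Icc 1 Nm, ‖f n‖) / |δ| + (∑ n ∈ Icc 1 Nm, ‖f n‖) / |δ1|) ^ 2 := by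
    intro y
    rw [Real.norm_of_nonneg (by positivity)]
    refine pow_le_pow_left₀ (norm_nonneg _) ?_ 2
    refine (norm_sub_le _ _).trans ?_
    rw [norm_div, norm_div, Complex.norm_real, Complex.norm_real, Real.norm_eq_abs,
      Real.norm_eq_abs]
    exact add_le_add (div_le_div_of_nonneg_right (win_bd f Nm δ y) (abs_nonneg _))
      (div_le_div_of_nonneg_right (win_bd f Nm δ1 y) (abs_nonneg _))
  rw [intervalIntegrable_iff]
  exact Measure.integrableOn_of_bounded (by simp) hm.aestronglyMeasurable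
    (Filter.Eventually.of_forall hb)

theorem win_ii' (f : ℕ → ℂ) (Nm : ℕ) (δ a b : ℝ) :
    IntervalIntegrable (fun y : ℝ => ‖Pool.Agent.H43.SI.Sd f Nm δ y‖ ^ 2) volume a b := by
  have hm : Measurable (fun y : ℝ => ‖Pool.Agent.H43.SI.Sd f Nm δ y‖ ^ 2) :=
    (win_meas f Nm δ).norm.pow_const 2
  have hb : ∀ y : ℝ, ‖(‖Pool.Agent.H43.SI.Sd f Nm δ y‖ ^ 2 : ℝ)‖ ≤
      (∑ n ∈ Icc 1 Nm, ‖f n‖) ^ 2 := by
    intro y
    rw [Real.norm_of_nonneg (by positivity)]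
    exact pow_le_pow_left₀ (norm_nonneg _) (win_bd f Nm δ y) 2
  rw [intervalIntegrable_iff]
  exact Measure.integrableOn_of_bounded (by simp) hm.aestronglyMeasurable
    (Filter.Eventually.of_forall hb)

/-- the sums with the cut coefficients are the same -/
theorem win_cut (f : ℕ → ℂ) (X : ℕ) (hX : 1 ≤ X) (δ y : ℝ) (hy : Real.log X ≤ y) :
    Pool.Agent.H43.SI.Sd (fun n => if n ∈ Ioc X (6 * X) then f n else 0) (6 * X) δ y =
      Pool.Agent.H43.SI.Sd f (6 * X) δ y := by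
  unfold Pool.Agent.H43.SI.Sd
  refine sum_congr rfl fun n hn => ?_
  rw [mem_filter, mem_Icc] at hn
  obtain ⟨⟨h1, h2⟩, h3, h4⟩ := hn
  have hX0 : (0 : ℝ) < X := by exact_mod_cast hX
  have hn0 : (0 : ℝ) < n := by exact_mod_cast h1
  have h5 : (X : ℝ) < n := (Real.log_lt_log_iff hX0 hn0).1 (lt_of_le_of_lt hy h3)
  exact if_pos (mem_Ioc.2 ⟨by exact_mod_cast h5, h2⟩)

/-- the Dirichlet polynomial of the cut coefficients -/
theorem win_ds (f : ℕ → ℂ) (X : ℕ) (t : ℝ) :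
    ∑ n ∈ Icc 1 (6 * X), (if n ∈ Ioc X (6 * X) then f n else 0) *
      (n : ℂ) ^ (-(1 + (t : ℂ) * Complex.I)) = ds f X (6 * X) t := by
  unfold ds nj
  rw [← sum_filter_add_sum_filter_not (Icc 1 (6 * X)) (fun n => n ∈ Ioc X (6 * X))]
  have e1 : (Icc 1 (6 * X)).filter (fun n => n ∈ Ioc X (6 * X)) = Ioc X (6 * X) := by
    ext n
    simp only [mem_filter, mem_Icc, mem_Ioc]
    omega
  rw [e1]
  have e2 : ∑ n ∈ (Icc 1 (6 * X)).filter (fun n => ¬ n ∈ Ioc X (6 * X)),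
      (if n ∈ Ioc X (6 * X) then f n else 0) * (n : ℂ) ^ (-(1 + (t : ℂ) * Complex.I)) = 0 := by
    refine sum_eq_zero fun n hn => ?_
    rw [if_neg (mem_filter.1 hn).2, zero_mul]
  rw [e2, add_zero]
  refine sum_congr rfl fun n hn => ?_
  rw [if_pos hn]

/-- the long sums -/
theorem win_long (f : ℕ → ℂ) (X : ℕ) (hX : 1 ≤ X) (η : ℝ) (hη : 0 ≤ η)
    (h : ∀ N : ℕ, X ≤ N → ‖∑ n ∈ Icc 1 N, f n‖ ≤ η * N) (y : ℝ) (hy : Real.log X ≤ y)
    (hy2 : y ≤ Real.log (2 * X)) :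
    ‖Pool.Agent.H43.SI.Sd f (6 * X) 1 y‖ ≤ 12 * η * X := by
  have hX0 : (0 : ℝ) < X := by exact_mod_cast hX
  have hy1 : (X : ℝ) ≤ Real.exp y := by
    rw [← Real.exp_log hX0]
    exact Real.exp_le_exp.2 hy
  have hy3 : Real.exp y ≤ 2 * X := by
    rw [← Real.exp_log (by linarith : (0 : ℝ) < 2 * X)]
    exact Real.exp_le_exp.2 hy2
  have hy4 : Real.exp (y + 1) ≤ 6 * X := by
    rw [Real.exp_add]
    have := Real.exp_one_lt_three
    nlinarith [Real.exp_pos y]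
  set N1 : ℕ := ⌊Real.exp y⌋₊ with hN1
  set N2 : ℕ := ⌊Real.exp (y + 1)⌋₊ with hN2
  have h12 : N1 ≤ N2 := Nat.floor_le_floor (Real.exp_le_exp.2 (by linarith))
  have hXN1 : X ≤ N1 := Nat.le_floor hy1
  have hN1X : (N1 : ℝ) ≤ 6 * X := (Nat.floor_le (Real.exp_pos _).le).trans (by linarith)
  have hN2X : (N2 : ℝ) ≤ 6 * X := (Nat.floor_le (Real.exp_pos _).le).trans hy4
  have hset : (Icc 1 (6 * X)).filter (fun n : ℕ => y < Real.log n ∧ Real.log n ≤ y + 1) =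
      Ioc N1 N2 := by
    ext n
    rw [mem_filter, mem_Icc, mem_Ioc]
    constructor
    · rintro ⟨⟨h1, h2⟩, h3, h4⟩
      have hn0 : (0 : ℝ) < n := by exact_mod_cast h1
      refine ⟨?_, ?_⟩
      · rw [hN1, Nat.floor_lt (Real.exp_pos _).le]
        exact (Real.lt_log_iff_exp_lt hn0).1 h3
      · rw [hN2, Nat.le_floor_iff (Real.exp_pos _).le]
        exact (Real.log_le_iff_le_exp hn0).1 h4
    · rintro ⟨h1, h2⟩
      have hn1 : 1 ≤ n := by omega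
      have hn0 : (0 : ℝ) < n := by exact_mod_cast hn1
      refine ⟨⟨hn1, ?_⟩, ?_, ?_⟩
      · have h3 : (n : ℝ) ≤ N2 := by exact_mod_cast h2
        have h4 : (n : ℝ) ≤ ((6 * X : ℕ) : ℝ) := by
          push_cast
          linarith
        exact_mod_cast h4
      · rw [Real.lt_log_iff_exp_lt hn0]
        exact (Nat.floor_lt (Real.exp_pos _).le).1 h1
      · rw [Real.log_le_iff_le_exp hn0]
        exact (Nat.le_floor_iff (Real.exp_pos _).le).1 h2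
  unfold Pool.Agent.H43.SI.Sd
  rw [hset]
  have hsum : ∑ n ∈ Ioc N1 N2, f n = (∑ n ∈ Icc 1 N2, f n) - ∑ n ∈ Icc 1 N1, f n := by
    have e1 : ∀ N : ℕ, Icc 1 N = Ioc 0 N := fun N => rfl
    rw [e1, e1, ← sum_Ioc_consecutive f (Nat.zero_le N1) h12]
    ring
  rw [hsum]
  calc _ ≤ ‖∑ n ∈ Icc 1 N2, f n‖ + ‖∑ n ∈ Icc 1 N1, f n‖ := norm_sub_le _ _
    _ ≤ η * N2 + η * N1 := add_le_add (h N2 (hXN1.trans h12)) (h N1 hXN1)
    _ ≤ η * (6 * X) + η * (6 * X) := by gcongr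
    _ = 12 * η * X := by ring

theorem win (ε : ℝ) (hε : 0 < ε) (hε1 : ε ≤ 1) : ∃ h₀ : ℕ, ∀ h : ℕ, h₀ ≤ h → ∀ f : ℕ → ℂ, OB f → CondN1 f → ∃ X₀ : ℕ, ∀ X : ℕ, X₀ ≤ X →
    ∫ y in (Real.log X)..(Real.log (2 * X)), ‖Pool.Agent.H43.SI.Sd f (6 * X) ((h : ℝ) / X) y‖ ^ 2 ≤ ε * (h : ℝ) ^ 2 := by
  obtain ⟨Cp, hCp, hp⟩ := Pool.Agent.H43.SI.par
  obtain ⟨Ct, hCt, ht⟩ := tl
  obtain ⟨L, hL⟩ : ∃ L : ℕ, 32 * Cp * Ct / ε + 1 ≤ L := exists_nat_ge _
  have hq : 0 ≤ 32 * Cp * Ct / ε := by positivity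
  have hL1' : (1 : ℝ) ≤ L := by linarith
  have hL1 : 1 ≤ L := by exact_mod_cast hL1'
  have hLε : Cp * Ct * (1 / (L : ℝ) ^ 2) ≤ ε / 32 := by
    have h1 : 32 * Cp * Ct / ε ≤ (L : ℝ) ^ 2 := by nlinarith
    rw [div_le_iff₀ hε] at h1
    rw [mul_one_div, div_le_iff₀ (by positivity)]
    linarith
  obtain ⟨hc, hcore⟩ := core (min 1 (ε / (16 * Cp))) (by positivity) (min_le_left _ _) L hL1
  obtain ⟨h1, hh1⟩ : ∃ h1 : ℕ, 32 * Cp * Ct / ε + 1 ≤ h1 := exists_nat_ge _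
  refine ⟨max hc h1, fun h hh f hf hN => ?_⟩
  obtain ⟨X1, hX1⟩ := hcore h ((le_max_left _ _).trans hh) f hf hN
  obtain ⟨X2, hX2⟩ := pt0 f hf hN (ε / 100) (by positivity)
  refine ⟨max (max X1 X2) (max h 1), fun X hX => ?_⟩
  have hXX1 : X1 ≤ X := (le_max_left _ _).trans ((le_max_left _ _).trans hX)
  have hXX2 : X2 ≤ X := (le_max_right _ _).trans ((le_max_left _ _).trans hX)
  have hXh : h ≤ X := (le_max_left _ _).trans ((le_max_right _ _).trans hX)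
  have hX1' : 1 ≤ X := (le_max_right _ _).trans ((le_max_right _ _).trans hX)
  have hh' : 32 * Cp * Ct / ε + 1 ≤ (h : ℝ) :=
    hh1.trans (by exact_mod_cast (le_max_right _ _).trans hh)
  have hhp : (1 : ℝ) ≤ h := by linarith
  have hh1'' : 1 ≤ h := by exact_mod_cast hhp
  have hXr : (1 : ℝ) ≤ X := by exact_mod_cast hX1'
  have hXhr : (h : ℝ) ≤ X := by exact_mod_cast hXh
  have hhε : Cp * Ct * (1 / ((L : ℝ) * h)) ≤ ε / 32 := by
    have h2 : 32 * Cp * Ct / ε ≤ (L : ℝ) * h := by nlinarith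
    rw [div_le_iff₀ hε] at h2
    rw [mul_one_div, div_le_iff₀ (by positivity)]
    linarith
  set δ : ℝ := (h : ℝ) / X with hδ
  have hδ0 : 0 < δ := by positivity
  have hδ1 : δ ≤ 1 := by
    rw [hδ, div_le_one (by linarith)]
    exact hXhr
  set g : ℕ → ℂ := fun n => if n ∈ Ioc X (6 * X) then f n else 0 with hg
  -- the mean square of the differences
  have hA : ∫ y in (Real.log X)..(Real.log (2 * X)), ‖Pool.Agent.H43.SI.Sd g (6 * X) δ y / δ -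
      Pool.Agent.H43.SI.Sd g (6 * X) 1 y / (1 : ℝ)‖ ^ 2 ≤ ε / 8 * X ^ 2 := by
    refine ((hp g (6 * X) X δ 1 hXr hδ0 hδ1 le_rfl).2).trans ?_
    have e1 : ∀ t : ℝ, ∑ n ∈ Icc 1 (6 * X), g n * (n : ℂ) ^ (-(1 + (t : ℂ) * Complex.I)) =
        ds f X (6 * X) t := fun t => win_ds f X t
    simp only [e1]
    have h3 := ht f X h L hf hL1 hh1'' hXh
    have h4 := hX1 X hXX1
    have h5 : min 1 (ε / (16 * Cp)) ≤ ε / (16 * Cp) := min_le_right _ _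
    have h6 : ∫ t : ℝ, ‖ds f X (6 * X) t‖ ^ 2 * Pool.Agent.H43.SI.mul δ 1 t ≤
        ε / (16 * Cp) + Ct * (1 / ((L : ℝ) * h) + 1 / (L : ℝ) ^ 2) :=
      h3.trans (add_le_add (h4.trans h5) le_rfl)
    calc Cp * (X : ℝ) ^ 2 * ∫ t : ℝ, ‖ds f X (6 * X) t‖ ^ 2 * Pool.Agent.H43.SI.mul δ 1 t
        ≤ Cp * (X : ℝ) ^ 2 * (ε / (16 * Cp) + Ct * (1 / ((L : ℝ) * h) + 1 / (L : ℝ) ^ 2)) :=
          mul_le_mul_of_nonneg_left h6 (by positivity)
      _ = (ε / 16 + Cp * Ct * (1 / ((L : ℝ) * h)) + Cp * Ct * (1 / (L : ℝ) ^ 2)) *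
            (X : ℝ) ^ 2 := by
          field_simp
          ring
      _ ≤ (ε / 16 + ε / 32 + ε / 32) * (X : ℝ) ^ 2 := by gcongr
      _ = ε / 8 * (X : ℝ) ^ 2 := by ring
  have hlog : Real.log (2 * X) - Real.log X = Real.log 2 := by
    rw [Real.log_mul (by norm_num) (by linarith)]
    ring
  have hlog2 : Real.log 2 ≤ 1 := by
    have := Real.log_two_lt_d9
    linarith
  have hlog0 : 0 ≤ Real.log 2 := Real.log_nonneg (by norm_num)
  have hB : ∀ y ∈ Set.Icc (Real.log X) (Real.log (2 * X)),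
      ‖Pool.Agent.H43.SI.Sd f (6 * X) δ y‖ ^ 2 ≤
        δ ^ 2 * (2 * ‖Pool.Agent.H43.SI.Sd g (6 * X) δ y / δ -
          Pool.Agent.H43.SI.Sd g (6 * X) 1 y / (1 : ℝ)‖ ^ 2 + ε / 4 * X ^ 2) := by
    intro y hy
    have e1 : Pool.Agent.H43.SI.Sd g (6 * X) δ y = Pool.Agent.H43.SI.Sd f (6 * X) δ y :=
      win_cut f X hX1' δ y hy.1
    have e2 : Pool.Agent.H43.SI.Sd g (6 * X) 1 y = Pool.Agent.H43.SI.Sd f (6 * X) 1 y :=
      win_cut f X hX1' 1 y hy.1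
    have h7 := win_long f X hX1' (ε / 100) (by positivity)
      (fun N hN' => hX2 N (hXX2.trans hN')) y hy.1 hy.2
    rw [← e2] at h7
    rw [← e1]
    set A := Pool.Agent.H43.SI.Sd g (6 * X) δ y with hAdef
    set B := Pool.Agent.H43.SI.Sd g (6 * X) 1 y with hBdef
    have h8 : ‖A‖ = δ * ‖A / δ‖ := by
      rw [norm_div, Complex.norm_real, Real.norm_of_nonneg hδ0.le]
      field_simp
    have h9 : ‖A / δ‖ ≤ ‖A / δ - B / (1 : ℝ)‖ + ‖B‖ := by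
      have e3 : A / δ = (A / δ - B / (1 : ℝ)) + B := by
        push_cast
        ring
      calc ‖A / δ‖ = ‖(A / δ - B / (1 : ℝ)) + B‖ := by rw [← e3]
        _ ≤ _ := norm_add_le _ _
    have h10 : ‖B‖ ^ 2 ≤ ε / 8 * X ^ 2 := by
      calc ‖B‖ ^ 2 ≤ (12 * (ε / 100) * X) ^ 2 := pow_le_pow_left₀ (norm_nonneg _) h7 2
        _ = 144 / 10000 * (ε * ε) * X ^ 2 := by ring
        _ ≤ 144 / 10000 * (ε * 1) * X ^ 2 := by gcongr
        _ ≤ ε / 8 * X ^ 2 := by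
          have : 0 ≤ ε * (X : ℝ) ^ 2 := by positivity
          nlinarith
    have h11 : ‖A / δ‖ ^ 2 ≤ 2 * ‖A / δ - B / (1 : ℝ)‖ ^ 2 + 2 * ‖B‖ ^ 2 := by
      have h12 := pow_le_pow_left₀ (norm_nonneg _) h9 2
      nlinarith [sq_nonneg (‖A / δ - B / (1 : ℝ)‖ - ‖B‖)]
    rw [h8, mul_pow]
    refine mul_le_mul_of_nonneg_left ?_ (sq_nonneg δ)
    linarith
  have hle : Real.log X ≤ Real.log (2 * X) := by linarith
  calc ∫ y in (Real.log X)..(Real.log (2 * X)), ‖Pool.Agent.H43.SI.Sd f (6 * X) δ y‖ ^ 2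
      ≤ ∫ y in (Real.log X)..(Real.log (2 * X)),
          δ ^ 2 * (2 * ‖Pool.Agent.H43.SI.Sd g (6 * X) δ y / δ -
          Pool.Agent.H43.SI.Sd g (6 * X) 1 y / (1 : ℝ)‖ ^ 2 + ε / 4 * X ^ 2) := by
        refine intervalIntegral.integral_mono_on hle (win_ii' f (6 * X) δ _ _) ?_ hB
        exact (((win_ii g (6 * X) δ 1 _ _).const_mul 2).add intervalIntegrable_const).const_mul _
    _ = δ ^ 2 * (2 * (∫ y in (Real.log X)..(Real.log (2 * X)),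
          ‖Pool.Agent.H43.SI.Sd g (6 * X) δ y / δ -
          Pool.Agent.H43.SI.Sd g (6 * X) 1 y / (1 : ℝ)‖ ^ 2) +
            Real.log 2 * (ε / 4 * X ^ 2)) := by
        rw [intervalIntegral.integral_const_mul,
          intervalIntegral.integral_add ((win_ii g (6 * X) δ 1 _ _).const_mul 2)
            intervalIntegrable_const, intervalIntegral.integral_const_mul,
          intervalIntegral.integral_const, hlog, smul_eq_mul]
    _ ≤ δ ^ 2 * (2 * (ε / 8 * X ^ 2) + 1 * (ε / 4 * X ^ 2)) := by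
        refine mul_le_mul_of_nonneg_left ?_ (sq_nonneg δ)
        refine add_le_add (mul_le_mul_of_nonneg_left hA (by norm_num)) ?_
        exact mul_le_mul_of_nonneg_right hlog2 (by positivity)
    _ = ε / 2 * (δ * X) ^ 2 := by ring
    _ = ε / 2 * (h : ℝ) ^ 2 := by
        rw [hδ, div_mul_cancel₀ _ (by linarith)]
    _ ≤ ε * (h : ℝ) ^ 2 := by
        have : 0 ≤ ε * (h : ℝ) ^ 2 := by positivity
        nlinarith

end Pool.H2.MR
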